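import Pool.Agent.Lib.SmN.Fin.Tot
import Pool.Agent.Lib.SmN.Ch.FInst

/-!
# SMITH-U (SmN), final layer: the quadratic twists and their ramification degree

`Tws K = Kˣ / Kˣ²`; `ramDeg k d` is the degree of the divisor of the places `v` at which `ord_v d` is odd
(the places ramified in `K (√d)`). `TwLE k N P`: the classes of ramification degree at most `N` which
contain an element with the property `P`. `all_twists`: from the quadratic characters to the classes.
-/

set_option autoImplicit false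

open Finset

namespace Pool.Agent.SmN.Fnl

open Pool.Agent.BSDFF Pool.Agent.Lib.SmD Pool.Agent.GBR Pool.Agent.GBU
open Pool.Agent.GBC (ord)
open Ch

/-- The group of the quadratic twists `Kˣ / Kˣ²`. -/
abbrev Tws (K : Type) [Field K] : Type := Kˣ ⧸ (powMonoidHom 2 : Kˣ →* Kˣ).range

/-- The degree of the divisor of the places at which `d` has odd order. -/
noncomputable def ramDeg (k : Type) {K : Type} [Field k] [Field K] [Algebra k K] (d : K) : ℕ :=
  ∑ᶠ v : Place k K, if Even (ord v d) then 0 else v.degree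

/-- The classes in `Kˣ / Kˣ²` which contain a `d` of ramification degree at most `N` with the property
`P`. -/
def TwLE (k : Type) {K : Type} [Field k] [Field K] [Algebra k K] (N : ℕ) (P : K → Prop) :
    Set (Tws K) :=
  {c | ∃ d : Kˣ, (d : Tws K) = c ∧ ramDeg k (d : K) ≤ N ∧ P (d : K)}

section

variable {k K : Type} [Field k] [Field K] [Algebra k K] {Om : Type} [Field Om] [Algebra K Om]
  [IsSepClosure K Om] {V V1 : Type} [AddCommGroup V] [DistribMulAction (Om ≃ₐ[K] Om) V]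
  [AddCommGroup V1] [Module (ZMod 2) V1] {S : Sys (Om ≃ₐ[K] Om) V V1 (Place k K)}

theorem rdeg_chi (h2 : (2 : K) ≠ 0) (H : LocVals S.sg S.phi) (d : Kˣ) :
    rdeg S Place.degree (chi K (d : K)) = ramDeg k (d : K) := by
  classical
  rw [rdeg, ramDeg]
  refine finsum_congr fun v => ?_
  by_cases h : Even (ord v (d : K))
  · rw [if_pos h, if_pos (((H v).chi_sg_eq_zero_iff h2 d.ne_zero).2 h)]
  · rw [if_neg h, if_neg fun h' => h (((H v).chi_sg_eq_zero_iff h2 d.ne_zero).1 h')]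

/-- The homomorphism to the group of quadratic characters. -/
noncomputable def chiHom (h2 : (2 : K) ≠ 0) : Kˣ →* Multiplicative ((Om ≃ₐ[K] Om) → ZMod 2) where
  toFun d := Multiplicative.ofAdd (chi K (d : K))
  map_one' := by
    rw [← ofAdd_zero]
    congr 1
    funext s
    exact Pool.Agent.SmF.chi_one s
  map_mul' d e := by
    rw [← ofAdd_add]
    congr 1
    funext s
    exact Pool.Agent.SmF.chi_mul_elt h2 d.ne_zero e.ne_zero s

theorem chi_eq_iff (h2 : (2 : K) ≠ 0) (d e : Kˣ) :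
    (chi K (d : K) : (Om ≃ₐ[K] Om) → ZMod 2) = chi K (e : K) ↔ (d : Tws K) = (e : Tws K) := by
  rw [QuotientGroup.eq]
  constructor
  · intro h
    have h1 : IsSquare ((d : K) * e) := by
      refine (Pool.Agent.SmF.chi_eq_zero_iff (Ω := Om) h2 (mul_ne_zero d.ne_zero e.ne_zero)).1
        fun s => ?_
      rw [Pool.Agent.SmF.chi_mul_elt h2 d.ne_zero e.ne_zero, h]
      exact CharTwo.add_self_eq_zero _
    obtain ⟨y, hy⟩ := h1
    have hy0 : y ≠ 0 := by
      rintro rfl
      exact mul_ne_zero d.ne_zero e.ne_zero (by rw [hy, mul_zero])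
    refine ⟨d⁻¹ * Units.mk0 y hy0, ?_⟩
    ext
    change ((d⁻¹ * Units.mk0 y hy0 : Kˣ) ^ 2 : Kˣ).1 = _
    rw [Units.val_pow_eq_pow_val, Units.val_mul, Units.val_mul, Units.val_mk0, mul_pow, sq y, ← hy]
    have hd := d.ne_zero
    rw [Units.val_inv_eq_inv_val]
    field_simp
  · rintro ⟨y, hy⟩
    have h1 : e = d * y ^ 2 := by
      have : (powMonoidHom 2 : Kˣ →* Kˣ) y = y ^ 2 := rfl
      rw [this] at hy
      rw [hy, mul_inv_cancel_left]
    funext s
    rw [h1, Units.val_mul, Units.val_pow_eq_pow_val,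
      Pool.Agent.SmF.chi_mul_elt h2 d.ne_zero (pow_ne_zero 2 y.ne_zero)]
    have h3 : chi K ((y : K) ^ 2) s = 0 :=
      (Pool.Agent.SmF.chi_eq_zero_iff (Ω := Om) h2 (pow_ne_zero 2 y.ne_zero)).2 ⟨y, sq _⟩ s
    rw [h3, add_zero]

/-- The classes are the quadratic characters. -/
theorem exists_equiv (h2 : (2 : K) ≠ 0) (hNN : S.NN = NP K Om) :
    ∃ e : Tws K ≃ {c : (Om ≃ₐ[K] Om) → ZMod 2 // S.HomG c},
      ∀ d : Kˣ, (e (d : Tws K)).1 = chi K (d : K) := by
  classical
  have h1 : ∀ d : Kˣ, S.HomG (chi K (d : K)) := fun d =>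
    (homG_iff_homO S h2 hNN).2 (homO_chi h2 d.ne_zero)
  let f : Tws K → {c : (Om ≃ₐ[K] Om) → ZMod 2 // S.HomG c} := fun c =>
    ⟨chi K ((Quotient.out c : Kˣ) : K), h1 _⟩
  have hf : ∀ d : Kˣ, (f (d : Tws K)).1 = chi K (d : K) := by
    intro d
    refine (chi_eq_iff h2 _ _).2 ?_
    exact Quotient.out_eq _
  refine ⟨Equiv.ofBijective f ⟨fun c c' h => ?_, fun c => ?_⟩, hf⟩
  · induction c using QuotientGroup.induction_on with
    | H d =>
      induction c' using QuotientGroup.induction_on with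
      | H d' =>
        have h3 := congrArg Subtype.val h
        rw [hf, hf] at h3
        exact (chi_eq_iff h2 _ _).1 h3
  · obtain ⟨a, ha, h3⟩ := ((homG_iff_homO S h2 hNN).1 c.2).kummer h2
    refine ⟨((Units.mk0 a ha : Kˣ) : Tws K), ?_⟩
    apply Subtype.ext
    rw [hf]
    funext s
    rw [h3]
    rfl

/-- From the quadratic characters to the classes. -/
theorem all_twists (h2 : (2 : K) ≠ 0) (hNN : S.NN = NP K Om) (H : LocVals S.sg S.phi)
    (hfin : ∀ n, Finite {c : {c : (Om ≃ₐ[K] Om) → ZMod 2 // S.HomG c} //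
      rdeg S Place.degree c.1 ≤ n})
    (Good : ℕ → K → Prop) (Small : ℕ → ((Om ≃ₐ[K] Om) → ZMod 2) → Prop)
    (hgood : ∀ (m : ℕ) (d : Kˣ), 1 ≤ m → Small m (chi K (d : K)) → Good m (d : K))
    (hall : ∀ ε : ℝ, 0 < ε → ∃ m₁ : ℕ, ∀ m ≥ m₁, ∃ n₀ : ℕ, ∀ n ≥ n₀,
      (Nat.card {c : {c : (Om ≃ₐ[K] Om) → ZMod 2 // S.HomG c} //
        rdeg S Place.degree c.1 ≤ n ∧ ¬ Small m c.1} : ℝ) ≤
        ε * Nat.card {c : {c : (Om ≃ₐ[K] Om) → ZMod 2 // S.HomG c} //
          rdeg S Place.degree c.1 ≤ n}) :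
    (∀ N, (TwLE k N (fun _ : K => True)).Finite) ∧
    ∀ ε : ℝ, 0 < ε → ∃ j N₀ : ℕ, ∀ N ≥ N₀,
      ((TwLE k N (fun d : K => ¬ Good j d)).ncard : ℝ) ≤
        ε * (TwLE k N (fun _ : K => True)).ncard := by
  classical
  obtain ⟨e, he⟩ := exists_equiv (S := S) h2 hNN
  have hdeg : ∀ (c : Tws K) (d : Kˣ), (d : Tws K) = c →
      rdeg S Place.degree (e c).1 = ramDeg k (d : K) := by
    rintro c d rfl
    rw [he, rdeg_chi h2 H]
  have hiff : ∀ (n : ℕ) (c : Tws K), c ∈ TwLE k n (fun _ : K => True) ↔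
      rdeg S Place.degree (e c).1 ≤ n := by
    intro n c
    constructor
    · rintro ⟨d, hd, h1, -⟩
      rw [hdeg c d hd]
      exact h1
    · intro h
      induction c using QuotientGroup.induction_on with
      | H d => exact ⟨d, rfl, by rwa [← hdeg _ d rfl], trivial⟩
  have hcard : ∀ n, (TwLE k n (fun _ : K => True)).ncard =
      Nat.card {c : {c : (Om ≃ₐ[K] Om) → ZMod 2 // S.HomG c} //
        rdeg S Place.degree c.1 ≤ n} := by
    intro n
    rw [← Nat.card_coe_set_eq]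
    exact Nat.card_congr (e.subtypeEquiv fun c => hiff n c)
  have hfin' : ∀ N, (TwLE k N (fun _ : K => True)).Finite := by
    intro N
    have := hfin N
    have h1 : (TwLE k N (fun _ : K => True) : Set (Tws K)) ≃
        {c : {c : (Om ≃ₐ[K] Om) → ZMod 2 // S.HomG c} // rdeg S Place.degree c.1 ≤ N} :=
      e.subtypeEquiv fun c => hiff N c
    exact @Set.toFinite _ _ (Finite.of_equiv _ h1.symm)
  refine ⟨hfin', fun ε hε => ?_⟩
  obtain ⟨m₁, h1⟩ := hall ε hε
  obtain ⟨n₀, h3⟩ := h1 (max m₁ 1) (le_max_left _ _)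
  refine ⟨max m₁ 1, n₀, fun N hN => ?_⟩
  refine le_trans ?_ ((h3 N hN).trans (by rw [hcard]))
  have := hfin N
  have h4 : (TwLE k N (fun d : K => ¬ Good (max m₁ 1) d)).ncard ≤
      Nat.card {c : {c : (Om ≃ₐ[K] Om) → ZMod 2 // S.HomG c} //
        rdeg S Place.degree c.1 ≤ N ∧ ¬ Small (max m₁ 1) c.1} := by
    have h5 : Finite {c : {c : (Om ≃ₐ[K] Om) → ZMod 2 // S.HomG c} //
        rdeg S Place.degree c.1 ≤ N ∧ ¬ Small (max m₁ 1) c.1} :=
      Finite.of_injective (β := {c : {c : (Om ≃ₐ[K] Om) → ZMod 2 // S.HomG c} //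
        rdeg S Place.degree c.1 ≤ N}) (fun c => ⟨c.1, c.2.1⟩) fun c c' h =>
          Subtype.ext (congrArg (fun x : {c : {c : (Om ≃ₐ[K] Om) → ZMod 2 // S.HomG c} //
            rdeg S Place.degree c.1 ≤ N} => x.1) h)
    rw [← Nat.card_coe_set_eq]
    refine Nat.card_le_card_of_injective (fun c => ⟨e c.1, ?_⟩) fun c c' h => ?_
    · obtain ⟨d, hd, h6, h7⟩ := c.2
      refine ⟨by rw [hdeg _ d hd]; exact h6, fun h8 => h7 (hgood _ d (le_max_right _ _) ?_)⟩
      rw [← he, hd]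
      exact h8
    · apply Subtype.ext
      apply e.injective
      exact congrArg (fun x : {c : {c : (Om ≃ₐ[K] Om) → ZMod 2 // S.HomG c} //
        rdeg S Place.degree c.1 ≤ N ∧ ¬ Small (max m₁ 1) c.1} => x.1) h
  exact_mod_cast h4

end

end Pool.Agent.SmN.Fnl
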