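import Pool.Agent.Lib.SmN.Fin.FinE

/-!
# SMITH-U (SmN), final layer: from the Jacobian of `y ^ 2 = x ^ 3 + A x + B` to the elliptic curve

No hypothesis on the Galois group; `K` any finitely generated extension of transcendence degree one of a
finite field `k` with `6 ≠ 0`.
-/

set_option autoImplicit false

open Polynomial WeierstrassCurve

namespace Pool.Agent.SmN.Fnl

open Pool.Agent.SmJ.R (OddDeg GoodP ZeroP OneP)
open Pool.Agent.BSDFF.MW Height

variable {k K : Type} [Field k] [Finite k] [Field K] [Algebra k K] [Algebra.EssFiniteType k K]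

instance short_mk (A B : K) : Short (⟨0, 0, 0, A, B⟩ : WeierstrassCurve K).toAffine := ⟨rfl, rfl⟩

omit [Field k] [Finite k] [Algebra k K] [Algebra.EssFiniteType k K] in
theorem cubW_mk (A B : K) :
    cubW (⟨0, 0, 0, A, B⟩ : WeierstrassCurve K).toAffine = X ^ 3 + C A * X + C B := by
  rw [cubW]
  change X ^ 3 + C (0 : K) * X ^ 2 + _ + _ = _
  rw [C_0, zero_mul, add_zero]

omit [Finite k] [Algebra.EssFiniteType k K] in
theorem two_ne_K (h6 : (6 : k) ≠ 0) : (2 : K) ≠ 0 := by
  have h6K : (6 : K) ≠ 0 := by exact_mod_cast cast_ne (K := K) (n := 6) (by exact_mod_cast h6)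
  intro h
  apply h6K
  have : (6 : K) = 2 * 3 := by norm_num
  rw [this, h, zero_mul]

omit [Field k] [Finite k] [Algebra k K] [Algebra.EssFiniteType k K] in
/-- The discriminant of a separable cubic is not zero. -/
theorem disc_ne (h2 : (2 : K) ≠ 0) {A B : K} (h : (X ^ 3 + C A * X + C B : K[X]).Separable) :
    (⟨0, 0, 0, A, B⟩ : WeierstrassCurve K).IsElliptic := by
  refine ⟨isUnit_iff_ne_zero.2 fun h0 => ?_⟩
  have h1 : (⟨0, 0, 0, A, B⟩ : WeierstrassCurve K).Δ = 16 * (-4 * A ^ 3 - 27 * B ^ 2) := by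
    rw [WeierstrassCurve.Δ, WeierstrassCurve.b₂, WeierstrassCurve.b₄, WeierstrassCurve.b₆,
      WeierstrassCurve.b₈]
    ring
  rw [h1] at h0
  have h16 : (16 : K) ≠ 0 := by
    have : (16 : K) = 2 ^ 4 := by norm_num
    rw [this]
    exact pow_ne_zero 4 h2
  have hd : -4 * A ^ 3 - 27 * B ^ 2 = 0 := (mul_eq_zero.1 h0).resolve_left h16
  have hsep := h
  rw [separable_def] at hsep
  have hder : derivative (X ^ 3 + C A * X + C B : K[X]) = C 3 * X ^ 2 + C A := by
    rw [derivative_add, derivative_add, derivative_X_pow, derivative_C_mul, derivative_X,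
      derivative_C, mul_one, add_zero, Nat.cast_ofNat]
  rw [hder] at hsep
  obtain ⟨u, w, huw⟩ := hsep
  -- a common root
  by_cases hA : A = 0
  · by_cases hB : B = 0
    · have e := congrArg (eval 0) huw
      simp [hA, hB] at e
    · have h27 : (27 : K) = 0 := by
        rw [hA] at hd
        have : (27 : K) * B ^ 2 = 0 := by linear_combination -hd
        exact (mul_eq_zero.1 this).resolve_right (pow_ne_zero 2 hB)
      have h3 : (3 : K) = 0 := by
        have : (27 : K) = 3 ^ 3 := by norm_num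
        rw [this] at h27
        exact pow_eq_zero_iff (three_ne_zero) |>.1 h27
      rw [h3, hA, C_0, zero_mul, zero_mul, add_zero, add_zero, mul_zero, add_zero] at huw
      have hu : IsUnit (X ^ 3 + C B : K[X]) := IsUnit.of_mul_eq_one u (by
        rw [mul_comm]
        exact huw)
      have hdeg : (X ^ 3 + C B : K[X]).natDegree = 3 := by compute_degree!
      rw [natDegree_eq_zero_of_isUnit hu] at hdeg
      exact absurd hdeg (by norm_num)
  · -- the root `-3 B / (2 A)`
    have e := congrArg (eval (-3 * B / (2 * A))) huw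
    simp only [eval_add, eval_mul, eval_pow, eval_X, eval_C, eval_one] at e
    have e1 : 3 * (-3 * B / (2 * A)) ^ 2 + A = 0 := by
      field_simp
      linear_combination -hd
    have e2 : (-3 * B / (2 * A)) ^ 3 + A * (-3 * B / (2 * A)) + B = 0 := by
      field_simp
      linear_combination hd * B
    rw [e1, e2, mul_zero, mul_zero, add_zero] at e
    exact zero_ne_one e

section

variable (hK : Algebra.trdeg k K = 1) (h6 : (6 : k) ≠ 0) {A B : K}
  (hs : (X ^ 3 + C A * X + C B : K[X]).Separable)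

include hK h6 hs

theorem goodE_short {j : ℕ} (h : GoodP k (X ^ 3 + C A * X + C B : K[X]) j) :
    Sm.L.GoodC k (⟨0, 0, 0, A, B⟩ : WeierstrassCurve K) j := by
  have h2 : (2 : K) ≠ 0 := two_ne_K h6
  have hEl := disc_ne h2 hs
  obtain ⟨_, _⟩ := exists_heights k K hK
  refine goodE_of_J _ h2 ?_
  have key : ∀ (F G : K[X]) (_ : OddDeg F) (_ : OddDeg G), F = G → GoodP k F j → GoodP k G j := by
    rintro F _ _ _ rfl h
    exact h
  exact key _ _ _ _ (cubW_mk A B).symm h

theorem rank0_short (h : ZeroP k (X ^ 3 + C A * X + C B : K[X])) :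
    Sm.L.Rank0C k (⟨0, 0, 0, A, B⟩ : WeierstrassCurve K) := by
  have h2 : (2 : K) ≠ 0 := two_ne_K h6
  have hEl := disc_ne h2 hs
  obtain ⟨_, _⟩ := exists_heights k K hK
  refine rank0_of_J _ h2 ?_
  have key : ∀ (F G : K[X]) (_ : OddDeg F) (_ : OddDeg G), F = G → ZeroP k F → ZeroP k G := by
    rintro F _ _ _ rfl h
    exact h
  exact key _ _ _ _ (cubW_mk A B).symm h

theorem corank1_short (h : OneP k (X ^ 3 + C A * X + C B : K[X])) :
    Sm.L.Corank1C k (⟨0, 0, 0, A, B⟩ : WeierstrassCurve K) := by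
  have h2 : (2 : K) ≠ 0 := two_ne_K h6
  have hEl := disc_ne h2 hs
  obtain ⟨_, _⟩ := exists_heights k K hK
  refine corank1_of_J _ h2 ?_
  have key : ∀ (F G : K[X]) (_ : OddDeg F) (_ : OddDeg G), F = G → OneP k F → OneP k G := by
    rintro F _ _ _ rfl h
    exact h
  exact key _ _ _ _ (cubW_mk A B).symm h

end

end Pool.Agent.SmN.Fnl
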