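import Pool.Agent.Lib.SmN.Fin.HalfAll
import Pool.Agent.Lib.SmN.Fin.Kum

/-!
# SMITH-U (SmN), final layer: the parity half for the classes in `Kˣ / Kˣ²`

`half_kumM`: `half_allM` for the classes of `Kˣ / Kˣ²` of ramification degree at most `N` which are
unramified at some place of `M`.
-/

set_option autoImplicit false

open Finset

namespace Pool.Agent.SmN.Fnl

open Pool.Agent.BSDFF Pool.Agent.Lib.SmD Pool.Agent.GBR Pool.Agent.GBU
open Pool.Agent.GBC (ord)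
open Ch Half

variable {k K : Type} [Field k] [Field K] [Algebra k K] {Om : Type} [Field Om] [Algebra K Om]
  [IsSepClosure K Om] {V V1 : Type} [AddCommGroup V] [DistribMulAction (Om ≃ₐ[K] Om) V]
  [AddCommGroup V1] [Module (ZMod 2) V1] {S : Sys (Om ≃ₐ[K] Om) V V1 (Place k K)}

theorem twLE_mono {N : ℕ} {P Q : K → Prop} (h : ∀ d : Kˣ, P d → Q d) :
    TwLE k N P ⊆ TwLE k N Q := by
  rintro c ⟨d, h1, h2, h3⟩
  exact ⟨d, h1, h2, h d h3⟩

/-- The classes and the quadratic characters. -/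
theorem tw_card_le (h2 : (2 : K) ≠ 0) (hNN : S.NN = NP K Om) (H : LocVals S.sg S.phi) (n : ℕ)
    (hfin : Finite {c : {c : (Om ≃ₐ[K] Om) → ZMod 2 // S.HomG c} // rdeg S Place.degree c.1 ≤ n})
    (P : ((Om ≃ₐ[K] Om) → ZMod 2) → Prop) (Q : K → Prop)
    (hPQ : ∀ d : Kˣ, P (chi K (d : K)) → Q (d : K)) :
    Nat.card {c : {c : (Om ≃ₐ[K] Om) → ZMod 2 // S.HomG c} //
      rdeg S Place.degree c.1 ≤ n ∧ P c.1} ≤ (TwLE k n Q).ncard := by
  classical
  obtain ⟨e, he⟩ := exists_equiv (S := S) h2 hNN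
  have hdeg : ∀ d : Kˣ, rdeg S Place.degree (e (d : Tws K)).1 = ramDeg k (d : K) := fun d => by
    rw [he, rdeg_chi h2 H]
  have hfT : (TwLE k n Q).Finite := by
    refine Set.Finite.of_injOn (f := e) (t := {c | rdeg S Place.degree c.1 ≤ n}) ?_
      e.injective.injOn hfin
    rintro c ⟨d, rfl, h3, -⟩
    change rdeg S Place.degree (e (d : Tws K)).1 ≤ n
    rw [hdeg]
    exact h3
  have := hfT.to_subtype
  rw [← Nat.card_coe_set_eq]
  refine Nat.card_le_card_of_injective (fun c => ⟨e.symm c.1, ?_⟩) fun c c' h => ?_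
  · obtain ⟨c, hc1, hc2⟩ := c
    obtain ⟨x, rfl⟩ := e.surjective c
    rw [e.symm_apply_apply]
    induction x using QuotientGroup.induction_on with
    | H d => exact ⟨d, rfl, by rwa [hdeg] at hc1, hPQ d (by rwa [he] at hc2)⟩
  · apply Subtype.ext
    apply e.symm.injective
    exact congrArg (fun x : (TwLE k n Q : Set (Tws K)) => x.1) h

theorem tw_le_card (h2 : (2 : K) ≠ 0) (hNN : S.NN = NP K Om) (H : LocVals S.sg S.phi) (n : ℕ)
    (hfin : Finite {c : {c : (Om ≃ₐ[K] Om) → ZMod 2 // S.HomG c} // rdeg S Place.degree c.1 ≤ n})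
    (P : ((Om ≃ₐ[K] Om) → ZMod 2) → Prop) (Q : K → Prop)
    (hQP : ∀ d : Kˣ, Q (d : K) → P (chi K (d : K))) :
    (TwLE k n Q).ncard ≤ Nat.card {c : {c : (Om ≃ₐ[K] Om) → ZMod 2 // S.HomG c} //
      rdeg S Place.degree c.1 ≤ n ∧ P c.1} := by
  classical
  obtain ⟨e, he⟩ := exists_equiv (S := S) h2 hNN
  have hdeg : ∀ d : Kˣ, rdeg S Place.degree (e (d : Tws K)).1 = ramDeg k (d : K) := fun d => by
    rw [he, rdeg_chi h2 H]
  have h5 : Finite {c : {c : (Om ≃ₐ[K] Om) → ZMod 2 // S.HomG c} //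
      rdeg S Place.degree c.1 ≤ n ∧ P c.1} :=
    Finite.of_injective (β := {c : {c : (Om ≃ₐ[K] Om) → ZMod 2 // S.HomG c} //
      rdeg S Place.degree c.1 ≤ n}) (fun c => ⟨c.1, c.2.1⟩) fun c c' h =>
        Subtype.ext (congrArg (fun x : {c : {c : (Om ≃ₐ[K] Om) → ZMod 2 // S.HomG c} //
          rdeg S Place.degree c.1 ≤ n} => x.1) h)
  rw [← Nat.card_coe_set_eq]
  refine Nat.card_le_card_of_injective (fun c => ⟨e c.1, ?_⟩) fun c c' h => ?_
  · obtain ⟨d, hd, h6, h7⟩ := c.2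
    rw [← hd]
    exact ⟨by rw [hdeg]; exact h6, by rw [he]; exact hQP d h7⟩
  · apply Subtype.ext
    apply e.injective
    exact congrArg (fun x : {c : {c : (Om ≃ₐ[K] Om) → ZMod 2 // S.HomG c} //
      rdeg S Place.degree c.1 ≤ n ∧ P c.1} => x.1) h

/-- **Half of the twists with a flip place have corank 0, half have corank 1**, for the classes in
`Kˣ / Kˣ²` ordered by the degree of the ramification. -/
theorem half_kumM [Nonempty (Place k K)] (h2 : (2 : K) ≠ 0) (hNN : S.NN = NP K Om)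
    (H : LocVals S.sg S.phi) (h : S.Ok) {qv : Place k K → V1 × V1 → ZMod 2} {qq : V1 → ZMod 2}
    (hP : ParOk S h qv qq)
    (halt : ∀ chi : (Om ≃ₐ[K] Om) → ZMod 2, S.HomG chi → (Sys.twS S h chi).Altn)
    {T : Finset (Place k K)} {ch : (XX (T : Set (Place k K)) Place.degree).Pr →
      (Om ≃ₐ[K] Om) → ZMod 2} (hF : LagF S (T : Set (Place k K)))
    (hp : PrOk S T (XX (T : Set (Place k K)) Place.degree) Subtype.val ch)
    (hT : ∀ v, v ∉ T → v ∈ S.good) {q : ℕ} (hX : (XX (T : Set (Place k K)) Place.degree).Ok q)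
    {M : Finset (Place k K)} (hMT : M ⊆ T) (hfl : ∀ v ∈ M, Flip S v)
    (hch : ∀ v ∈ M, ChebQ S T (XX (T : Set (Place k K)) Place.degree) Subtype.val q v)
    (hram : ∃ v ∈ M, ∃ c ∈ XG S T h, c (S.sg v) = 1)
    (hL : ∀ ε : ℝ, 0 < ε → ∃ m₁ : ℕ, ∀ m ≥ m₁, ∃ n₀ : ℕ, ∀ n ≥ n₀,
      (Nat.card {c : {c : (Om ≃ₐ[K] Om) → ZMod 2 // S.HomG c} //
        rdeg S Place.degree c.1 ≤ n ∧ ¬ SmallS S m c.1} : ℝ) ≤
        ε * Nat.card {c : {c : (Om ≃ₐ[K] Om) → ZMod 2 // S.HomG c} //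
          rdeg S Place.degree c.1 ≤ n})
    (E0 E1 : K → Prop) (hE0 : ∀ d : Kˣ, Ev S h (chi K (d : K)) → E0 (d : K))
    (hE1 : ∀ d : Kˣ, Od S h (chi K (d : K)) → E1 (d : K)) :
    (∃ δ : ℝ, 0 < δ ∧ ∃ N₀ : ℕ, ∀ N ≥ N₀,
      δ * (TwLE k N (fun _ : K => True)).ncard ≤
        (TwLE k N (fun d : K => ∃ v ∈ M, Even (ord v d))).ncard) ∧
    ∀ ε : ℝ, 0 < ε → ∃ N₀ : ℕ, ∀ N ≥ N₀,
      (1 / 2 - ε) * (TwLE k N (fun d : K => ∃ v ∈ M, Even (ord v d))).ncard ≤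
        (TwLE k N (fun d : K => (∃ v ∈ M, Even (ord v d)) ∧ E0 d)).ncard ∧
      (1 / 2 - ε) * (TwLE k N (fun d : K => ∃ v ∈ M, Even (ord v d))).ncard ≤
        (TwLE k N (fun d : K => (∃ v ∈ M, Even (ord v d)) ∧ E1 d)).ncard := by
  classical
  obtain ⟨c₁, C, n₁, hG⟩ := growth_of hX
  have hfin : ∀ n, Finite {c : {c : (Om ≃ₐ[K] Om) → ZMod 2 // S.HomG c} //
      rdeg S Place.degree c.1 ≤ n} := fun n =>
    finite_le h T.finite_toSet hF (ch := ch) ⟨hp.hom, hp.self, hp.unr⟩ hG n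
  have hev : ∀ d : Kˣ, (∃ v ∈ M, Even (ord v (d : K))) ↔
      ∃ v ∈ M, chi K (d : K) (S.sg v) = 0 := fun d => by
    refine exists_congr fun v => and_congr_right fun _ => ?_
    exact ((H v).chi_sg_eq_zero_iff h2 d.ne_zero).symm
  obtain ⟨⟨δ, hδ, N₀, h1⟩, h3⟩ := half_allM h hP halt hF hp hT hX hMT hfl hch hram hL
  have hFle := fun n => tw_le_card (S := S) h2 hNN H n (hfin n)
    (fun c => ∃ v ∈ M, c (S.sg v) = 0) (fun d : K => ∃ v ∈ M, Even (ord v d))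
    fun d => (hev d).1
  have hleF := fun n => tw_card_le (S := S) h2 hNN H n (hfin n)
    (fun c => ∃ v ∈ M, c (S.sg v) = 0) (fun d : K => ∃ v ∈ M, Even (ord v d))
    fun d => (hev d).2
  refine ⟨⟨δ, hδ, N₀, fun N hN => ?_⟩, fun ε hε => ?_⟩
  · have h4 := tw_le_card (S := S) h2 hNN H N (hfin N) (fun _ => True) (fun _ : K => True)
      fun _ _ => trivial
    have h5 : Nat.card {c : {c : (Om ≃ₐ[K] Om) → ZMod 2 // S.HomG c} //
        rdeg S Place.degree c.1 ≤ N ∧ True} = Nat.card {c : {c : (Om ≃ₐ[K] Om) → ZMod 2 //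
          S.HomG c} // rdeg S Place.degree c.1 ≤ N} :=
      Nat.card_congr (Equiv.subtypeEquivRight fun c => by rw [and_true])
    rw [h5] at h4
    calc δ * ((TwLE k N (fun _ : K => True)).ncard : ℝ)
        ≤ δ * (Nat.card {c : {c : (Om ≃ₐ[K] Om) → ZMod 2 // S.HomG c} //
            rdeg S Place.degree c.1 ≤ N} : ℝ) :=
          mul_le_mul_of_nonneg_left (by exact_mod_cast h4) hδ.le
      _ ≤ _ := h1 N hN
      _ ≤ _ := by exact_mod_cast hleF N
  · by_cases hεh : 1 / 2 ≤ ε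
    · refine ⟨0, fun N _ => ⟨?_, ?_⟩⟩
      · refine le_trans ?_ (Nat.cast_nonneg _)
        exact mul_nonpos_of_nonpos_of_nonneg (by linarith) (Nat.cast_nonneg _)
      · refine le_trans ?_ (Nat.cast_nonneg _)
        exact mul_nonpos_of_nonpos_of_nonneg (by linarith) (Nat.cast_nonneg _)
    have hε2 : (0 : ℝ) ≤ 1 / 2 - ε := by linarith [not_le.1 hεh]
    obtain ⟨n₀, h4⟩ := h3 ε hε
    refine ⟨n₀, fun N hN => ?_⟩
    obtain ⟨h5, h6⟩ := h4 N hN
    have key : ∀ (P : ((Om ≃ₐ[K] Om) → ZMod 2) → Prop) (E : K → Prop),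
        (∀ d : Kˣ, P (chi K (d : K)) → E (d : K)) →
        Nat.card {c : {c : (Om ≃ₐ[K] Om) → ZMod 2 // S.HomG c} //
          (rdeg S Place.degree c.1 ≤ N ∧ ∃ v ∈ M, c.1 (S.sg v) = 0) ∧ P c.1} ≤
          (TwLE k N (fun d : K => (∃ v ∈ M, Even (ord v d)) ∧ E d)).ncard := by
      intro P E hPE
      refine le_trans (le_of_eq ?_) (tw_card_le (S := S) h2 hNN H N (hfin N)
        (fun c => (∃ v ∈ M, c (S.sg v) = 0) ∧ P c)
        (fun d : K => (∃ v ∈ M, Even (ord v d)) ∧ E d)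
        fun d hd => ⟨(hev d).2 hd.1, hPE d hd.2⟩)
      exact Nat.card_congr (Equiv.subtypeEquivRight fun c => by rw [and_assoc])
    have h7 : (1 / 2 - ε) * ((TwLE k N (fun d : K => ∃ v ∈ M, Even (ord v d))).ncard : ℝ) ≤
        (1 / 2 - ε) * (Nat.card {c : {c : (Om ≃ₐ[K] Om) → ZMod 2 // S.HomG c} //
          rdeg S Place.degree c.1 ≤ N ∧ ∃ v ∈ M, c.1 (S.sg v) = 0} : ℝ) :=
      mul_le_mul_of_nonneg_left (by exact_mod_cast hFle N) hε2
    exact ⟨h7.trans (h5.trans (by exact_mod_cast key _ E0 hE0)),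
      h7.trans (h6.trans (by exact_mod_cast key _ E1 hE1))⟩

end Pool.Agent.SmN.Fnl
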