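import Pool.Agent.Lib.SmN.Fin.FinJ
import Pool.Agent.Lib.SmN.Fin.HalfKum
import Pool.Agent.Lib.SmNJ.RecT
import Pool.Agent.Lib.SmNJ.NodeF
import Pool.Agent.Lib.SmN.P.Half3

/-!
# SMITH-U (SmN), final layer: the parity for the quadratic twists of a Jacobian

`M` a finite nonempty set of places at which the reduction of `f` has one double root and is otherwise
separable. Among the quadratic twists by the `d` which are unramified at some place of `M` (a positive
proportion of all twists) half have corank `0` and half corank `1`.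
-/

set_option autoImplicit false

open Polynomial

namespace Pool.Agent.SmN.Fnl

open Pool.Agent.BSDFF (Place)
open Pool.Agent.SmJ Pool.Agent.SmNJ Pool.Agent.GBU
open Pool.Agent.SmJ.L (EV)
open Pool.Agent.SmJ.R (OddDeg Jc JP jcMap galP map_gal GoodP ZeroP OneP goodOn_iff zeroOn_iff)
open Pool.Agent.GBC (exists_ratFunc ord)
open Pool.Agent.Lib.SmD (chi)
open Half Ch

/-- The reduction of `f` at `v` has one double root and is otherwise separable. -/
def NodeAt {k K : Type} [Field k] [Field K] [Algebra k K] (v : Place k K) (f : K[X]) : Prop :=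
  ∃ (F : (v.ring)[X]) (h : (IsLocalRing.ResidueField v.ring)[X])
    (c : IsLocalRing.ResidueField v.ring), F.map (algebraMap v.ring K) = f ∧
    F.map (IsLocalRing.residue v.ring) = (X - C c) ^ 2 * h ∧ h.Separable ∧ h.eval c ≠ 0

section small

variable {G V V1 Pl : Type} [Group G] [AddCommGroup V] [DistribMulAction G V]
  [AddCommGroup V1] [Module (ZMod 2) V1] {S : Sys G V V1 Pl}

theorem small_of_bound [Nonempty Pl] (h : S.Ok) {chi : G → ZMod 2} (hchi : S.HomG chi)
    (hfin : Finite (S.Sel1 h chi)) {B C : ℕ} (hC : C ≤ 2 * Nat.card V1)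
    (hB : ∀ i, Nat.card (S.SelZ h chi i) ≤ B * C ^ i) : SmallS S (B + 1) chi := by
  have hf1 := h.fin1
  have hV : 0 < Nat.card V1 := Nat.card_pos
  refine ⟨Sm.Tower.finite_Z (Sys.twS_ok h hchi hfin) (B + 1), ?_⟩
  refine lt_of_le_of_lt (hB (B + 1)) ?_
  calc B * C ^ (B + 1) ≤ B * (2 * Nat.card V1) ^ (B + 1) :=
        Nat.mul_le_mul_left _ (Nat.pow_le_pow_left hC _)
    _ < 2 ^ (B + 1) * (2 * Nat.card V1) ^ (B + 1) := by
        refine Nat.mul_lt_mul_of_pos_right ?_ (by positivity)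
        exact (Nat.lt_succ_self B).trans Nat.lt_two_pow_self
    _ = (4 * Nat.card V1) ^ (B + 1) := by rw [← mul_pow]; ring

end small

section core

variable {k K : Type} [Field k] [Finite k] [Field K] [Algebra k K] [Algebra (RatFunc k) K]
  [IsScalarTower k (RatFunc k) K] [FiniteDimensional (RatFunc k) K]
  [Algebra.IsSeparable (RatFunc k) K] {g : ℕ}

/-- The parity for the twists, `k` the field of constants of `K`. -/
theorem halfJ_core (h2 : (2 : k) ≠ 0) (hn : ((2 * g + 1).factorial : K) ≠ 0)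
    (hk : ∀ x : K, IsIntegral k x → ∃ c : k, algebraMap k K c = x) (hg : 1 ≤ g)
    {f : K[X]} [OddDeg f] (hm : f.Monic) (hs : f.Separable) (hd : f.natDegree = 2 * g + 1)
    (hG : GalBig f g) {M : Finset (Place k K)} (hM : M.Nonempty) (hnode : ∀ v ∈ M, NodeAt v f) :
    (∃ δ : ℝ, 0 < δ ∧ ∃ N₀ : ℕ, ∀ N ≥ N₀,
      δ * (TwLE k N (fun _ : K => True)).ncard ≤
        (TwLE k N (fun d : K => ∃ v ∈ M, Even (ord v d))).ncard) ∧
    ∀ ε : ℝ, 0 < ε → ∃ N₀ : ℕ, ∀ N ≥ N₀,
      (1 / 2 - ε) * (TwLE k N (fun d : K => ∃ v ∈ M, Even (ord v d))).ncard ≤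
        (TwLE k N (fun d : K => (∃ v ∈ M, Even (ord v d)) ∧
          ZeroP k (f.scaleRoots d))).ncard ∧
      (1 / 2 - ε) * (TwLE k N (fun d : K => ∃ v ∈ M, Even (ord v d))).ncard ≤
        (TwLE k N (fun d : K => (∃ v ∈ M, Even (ord v d)) ∧
          OneP k (f.scaleRoots d))).ncard := by
  classical
  have h2K : (2 : K) ≠ 0 := by
    intro h
    apply h2
    apply (algebraMap k K).injective
    rw [map_ofNat, h, map_zero]
  have hgal : IsGalois K (SeparableClosure K) := IsSepClosure.isGalois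
  have hinfO : Infinite (SeparableClosure K) := infinite_Om k K (SeparableClosure K)
  have hinfK : Infinite K := by
    have h1 : Infinite (RatFunc k) :=
      Infinite.of_injective (algebraMap (Polynomial k) (RatFunc k)) (RatFunc.algebraMap_injective k)
    exact Infinite.of_injective (algebraMap (RatFunc k) K) (RingHom.injective _)
  obtain ⟨a, hinj, ha⟩ := exists_rts (F := f.map (algebraMap K (SeparableClosure K)))
    (hm.map _) (hs.map) (IsSepClosed.splits_codomain f hs) (g := g) (by rw [natDegree_map]; exact hd)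
  have hR : RtG K a := rtG_of h2K hinj ha
  have hA : HypA a := ⟨hinj, hR.two⟩
  have hb : BigIm K a := bigIm_of hs ha hG
  obtain ⟨v0, hv0⟩ := hM
  have : Nonempty (Place k K) := ⟨v0⟩
  -- an element of odd order at `v0`
  obtain ⟨x, hx0, hx⟩ : ∃ x : K, x ≠ 0 ∧ ord v0 x = 1 := by
    refine ⟨(Pool.Agent.GBC.unif v0 : K), fun h => ?_, Pool.Agent.GBC.ord_unif v0⟩
    exact (Pool.Agent.GBC.unif_irreducible v0).ne_zero (Subtype.ext h)
  obtain ⟨G, -⟩ := Pool.Agent.GBC.exists_geo k K
  obtain ⟨T0, T', fr, ca, cC, m0, hT', hWT, hP, hgT, hfr, hAOk⟩ :=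
    exists_aOk_big k K (SeparableClosure K) a h2 hn hk hg hb
      (W := (M : Set (Place k K)) ∪ {w | ord w x ≠ 0})
      ((Finset.finite_toSet M).union (ord_finite G hx0))
  obtain ⟨T, rfl⟩ : ∃ T : Finset (Place k K), (T : Set (Place k K)) = T' :=
    ⟨hT'.toFinset, hT'.coe_toFinset⟩
  have hnt : Nontrivial (EV g) := nontrivial_EV hg
  have hNN : (sysT k K (SeparableClosure K) a T0).NN = NP K (SeparableClosure K) := rfl
  have hLV : LocVals (sysT k K (SeparableClosure K) a T0).sg
    (sysT k K (SeparableClosure K) a T0).phi := locVals h2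
  obtain ⟨cd, hpl, hcd⟩ := exists_cdata' hAOk.ok hAOk.fi hAOk.up hAOk.lagV hAOk.lagF hAOk.nofix
    hAOk.span Place.degree
  have hc0 := hcd 0 ⟨Sys.HomG.zero hAOk.ok, fun _ _ => rfl⟩
  have hrange : ∀ v, v ∉ T ↔ v ∈ Set.range ({ cd with chi0 := 0 } :
      CData (sysT k K (SeparableClosure K) a T0)
        (XX (T : Set (Place k K)) Place.degree)).pl := by
    intro v
    change v ∉ T ↔ v ∈ Set.range cd.pl
    rw [hpl]
    constructor
    · intro hv
      exact ⟨⟨v, hv⟩, rfl⟩
    · rintro ⟨P, rfl⟩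
      exact P.2
  have hpr := PrOk.of_cd hc0 hrange
  have hch := fun v => chebQ_of hc0 hrange (CData.cheb_of hpl hAOk.cheb) hAOk.geo v
  rw [show ({ cd with chi0 := 0 } : CData (sysT k K (SeparableClosure K) a T0)
        (XX (T : Set (Place k K)) Place.degree)).pl = Subtype.val from hpl] at hpr
  have hchQ : ∀ v, ChebQ (sysT k K (SeparableClosure K) a T0) T
      (XX (T : Set (Place k K)) Place.degree) Subtype.val (Nat.card k) v := fun v => by
    have h1 := hch v
    rw [show ({ cd with chi0 := 0 } : CData (sysT k K (SeparableClosure K) a T0)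
        (XX (T : Set (Place k K)) Place.degree)).pl = Subtype.val from hpl] at h1
    exact h1
  have hPar : ParOk (sysT k K (SeparableClosure K) a T0) hAOk.ok _ _ :=
    ⟨qokT h2 hn hAOk.ok, qinvT k K a T0, recQ_of hAOk.lagF,
      fun c hc => fin_Sel1 hAOk.ok hAOk.lagV hc⟩
  have hgood : ∀ (B C : ℕ) (d : Kˣ), C ≤ 2 * Nat.card (EV g) →
      (∀ i, Nat.card ((sysT k K (SeparableClosure K) a T0).SelZ hAOk.ok (chi K (d : K)) i) ≤
        B * C ^ i) → SmJ.L.GoodOn k (galP (SeparableClosure K) (f.scaleRoots (d : K))) (B + 1) := by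
    intro B C d hC hB
    have h1 : (sysT k K (SeparableClosure K) a T0).HomG (chi K (d : K)) :=
      (homG_iff_homO _ h2K hNN).2 (homO_chi h2K d.ne_zero)
    exact good_of_small h2 hn (fun w hw => hb.nofix hg w hw) hm ha d.ne_zero (T0 := T0)
      (Nat.le_add_left 1 B) (small_of_bound hAOk.ok h1 (hPar.fin _ h1) hC hB)
  refine half_kumM h2K hNN hLV hAOk.ok hPar (fun c hc => altnT h2 hn hAOk.ok hc) hAOk.lagF hpr
    (fun v hv => ?_) hAOk.xok ?_ ?_ (fun v _ => hchQ v) ?_ (all_abs hT' hAOk).2 _ _ ?_ ?_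
  · by_contra h
    exact hv (hgT h)
  · intro v hv
    exact hWT (Or.inl hv)
  · intro v hv
    obtain ⟨F, h, c, h3, h4, h5, h6⟩ := hnode v hv
    exact exists_flip h2 hinfK hAOk.ok hn (by rw [h3, ha]) h4 h5 h6
  · refine ⟨v0, hv0, chi K x, ⟨(homG_iff_homO _ h2K hNN).2 (homO_chi h2K hx0), fun v hv => ?_⟩, ?_⟩
    · rw [(hLV v).chi_sg_eq_zero_iff h2K hx0]
      by_contra h
      refine hv (hWT (Or.inr fun h1 => h ?_))
      rw [h1]
      exact Even.zero
    · have h1 : ¬ chi K x ((sysT k K (SeparableClosure K) a T0).sg v0) = 0 := by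
        rw [(hLV v0).chi_sg_eq_zero_iff h2K hx0, hx]
        decide
      generalize chi K x ((sysT k K (SeparableClosure K) a T0).sg v0) = z at h1
      revert z
      decide
  · intro d hE
    obtain ⟨B, hB⟩ := id hE
    exact (zeroOn_iff _ _).2 (zero_of_ev h2 hn (fun w hw => hb.nofix hg w hw) hm ha d.ne_zero
      (hgood B _ d (Nat.le_mul_of_pos_left _ two_pos) hB) hAOk.ok hE)
  · intro d hE
    obtain ⟨B, hB⟩ := hE.2
    exact one_of_od h2 hn (fun w hw => hb.nofix hg w hw) hm ha d.ne_zero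
      (hgood B _ d le_rfl hB) hAOk.ok hE

end core

section main

/-- The statement on the parity. -/
def HalfStmt (k : Type) {K : Type} [Field k] [Field K] [Algebra k K] (M : Finset (Place k K))
    (E0 E1 : K → Prop) : Prop :=
  (∃ δ : ℝ, 0 < δ ∧ ∃ N₀ : ℕ, ∀ N ≥ N₀,
      δ * (TwLE k N (fun _ : K => True)).ncard ≤
        (TwLE k N (fun d : K => ∃ v ∈ M, Even (ord v d))).ncard) ∧
    ∀ ε : ℝ, 0 < ε → ∃ N₀ : ℕ, ∀ N ≥ N₀,
      (1 / 2 - ε) * (TwLE k N (fun d : K => ∃ v ∈ M, Even (ord v d))).ncard ≤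
        (TwLE k N (fun d : K => (∃ v ∈ M, Even (ord v d)) ∧ E0 d)).ncard ∧
      (1 / 2 - ε) * (TwLE k N (fun d : K => ∃ v ∈ M, Even (ord v d))).ncard ≤
        (TwLE k N (fun d : K => (∃ v ∈ M, Even (ord v d)) ∧ E1 d)).ncard

variable {k k' K : Type} [Field k] [Field k'] [Finite k] [Finite k'] [Field K]
    [Algebra k K] [Algebra k' K] [Algebra k k'] [IsScalarTower k k' K]

omit [Finite k] in
/-- Monotonicity. -/
theorem HalfStmt.mono {M : Finset (Place k K)} {E0 E1 E0' E1' : K → Prop}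
    (hfin : ∀ N, (TwLE k N (fun _ : K => True)).Finite)
    (h : HalfStmt k M E0 E1) (h0 : ∀ d : Kˣ, E0 d → E0' d) (h1 : ∀ d : Kˣ, E1 d → E1' d) :
    HalfStmt k M E0' E1' := by
  refine ⟨h.1, fun ε hε => ?_⟩
  obtain ⟨N₀, h2⟩ := h.2 ε hε
  refine ⟨N₀, fun N hN => ⟨(h2 N hN).1.trans ?_, (h2 N hN).2.trans ?_⟩⟩
  · exact Nat.cast_le.2 (Set.ncard_le_ncard (twLE_mono fun d hd => ⟨hd.1, h0 d hd.2⟩)
      ((hfin N).subset (twLE_mono fun d _ => trivial)))
  · exact Nat.cast_le.2 (Set.ncard_le_ncard (twLE_mono fun d hd => ⟨hd.1, h1 d hd.2⟩)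
      ((hfin N).subset (twLE_mono fun d _ => trivial)))

/-- Descent from the field of constants to `k`. -/
theorem half_descend {M : Finset (Place k K)} {E0 E1 : K → Prop}
    (h : HalfStmt k' (M.map (plE k k' : Place k K ≃ Place k' K).toEmbedding) E0 E1) :
    HalfStmt k M E0 E1 := by
  have e : ∀ d : K, (∃ v ∈ M.map (plE k k' : Place k K ≃ Place k' K).toEmbedding,
      Even (ord v d)) ↔ ∃ v ∈ M, Even (ord v d) := by
    intro d
    constructor
    · rintro ⟨v, hv, h1⟩
      obtain ⟨w, hw, rfl⟩ := Finset.mem_map.1 hv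
      exact ⟨w, hw, h1⟩
    · rintro ⟨v, hv, h1⟩
      exact ⟨plE k k' v, Finset.mem_map.2 ⟨v, hv, rfl⟩, h1⟩
  obtain ⟨⟨δ, hδ, N₀, h1⟩, h2⟩ := h
  simp only [e] at h1 h2
  have hle : ∀ N₀ N : ℕ, N ≥ N₀ * Module.finrank k k' → N / Module.finrank k k' ≥ N₀ :=
    fun N₀ N hN => (Nat.le_div_iff_mul_le (finrank_pos k k')).2 hN
  refine ⟨⟨δ, hδ, N₀ * Module.finrank k k', fun N hN => ?_⟩, fun ε hε => ?_⟩
  · rw [twLE_const k k', twLE_const k k']
    exact h1 _ (hle _ _ hN)
  · obtain ⟨N₁, h3⟩ := h2 ε hε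
    refine ⟨N₁ * Module.finrank k k', fun N hN => ?_⟩
    rw [twLE_const k k', twLE_const k k', twLE_const k k' N (fun d : K => _ ∧ E1 d)]
    exact h3 _ (hle _ _ hN)

variable [Algebra.EssFiniteType k K]

omit [Finite k'] [Field k'] [Algebra k' K] [Algebra k k'] [IsScalarTower k k' K] in
/-- **The parity for the quadratic twists of a Jacobian with big Galois action.** -/
theorem half_J (hK : Algebra.trdeg k K = 1) {g : ℕ} (hg : 1 ≤ g)
    (hn : ((2 * g + 1).factorial : k) ≠ 0) {f : K[X]} [OddDeg f] (hm : f.Monic) (hs : f.Separable)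
    (hd : f.natDegree = 2 * g + 1) (hG : GalBig f g) {M : Finset (Place k K)} (hM : M.Nonempty)
    (hnode : ∀ v ∈ M, NodeAt v f) :
    HalfStmt k M (fun d : K => ZeroP k (f.scaleRoots d)) (fun d : K => OneP k (f.scaleRoots d)) := by
  have hfin : Finite (cst k K) := finite_cst k K hK
  have htr : Algebra.trdeg (cst k K) K = 1 := trdeg_cst k K hK
  have hess : Algebra.EssFiniteType (cst k K) K := essFinite_cst k K
  have hpf : PerfectField (cst k K) := inferInstance
  obtain ⟨alg, i1, i2, i3⟩ := exists_ratFunc (cst k K) K htr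
  have hn' : ((2 * g + 1).factorial : cst k K) ≠ 0 := by
    intro h
    apply hn
    apply (algebraMap k (cst k K)).injective
    rw [map_natCast, h, map_zero]
  have hnK : ((2 * g + 1).factorial : K) ≠ 0 := by
    intro h
    apply hn
    apply (algebraMap k K).injective
    rw [map_natCast, h, map_zero]
  have hk : ∀ x : K, IsIntegral (cst k K) x → ∃ c : cst k K, algebraMap (cst k K) K c = x :=
    fun x hx => const_cst k K x (SmBU.isIntegral_iff_isC.1 hx)
  have hc := fun w : ValuationSubring (SeparableClosure K) => const_iff (K := K) (cst k K) k w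
  refine half_descend (k' := cst k K) ?_
  refine HalfStmt.mono (twJ_core (two_ne_of hg hn') hnK hk hg hm hs hd hG).1
    (halfJ_core (two_ne_of hg hn') hnK hk hg hm hs hd hG
      (M := M.map (plE k (cst k K) : Place k K ≃ Place (cst k K) K).toEmbedding)
      (Finset.map_nonempty.2 hM) ?_) ?_ ?_
  · intro v hv
    obtain ⟨w, hw, rfl⟩ := Finset.mem_map.1 hv
    exact hnode w hw
  · intro d h0
    have h1 := (zeroOn_iff _ _).1 h0
    exact (zeroOn_iff _ _).2 ⟨hasCorank_const (cst k K) k _ hc h1.1,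
      finite_sha2_const (cst k K) k _ hc h1.2⟩
  · intro d h0
    exact hasCorank_const (cst k K) k _ hc h0

end main

end Pool.Agent.SmN.Fnl
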