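import Pool.Agent.Lib.SmN.Fin.HalfO

/-!
# SMITH-U (SmN), final layer: the parity half for other orderings of `Kˣ / Kˣ²`

`half_kumR`: `half_allO` for the classes of `Kˣ / Kˣ²` (two-sided). `half_kumO`: one flip place `v`, the
classes ordered by the degree of the symmetric difference of `O` and the set of the places of odd
order.
-/

set_option autoImplicit false

open Finset

namespace Pool.Agent.SmN.Fnl

open Pool.Agent.BSDFF Pool.Agent.Lib.SmD Pool.Agent.GBR Pool.Agent.GBU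
open Pool.Agent.GBC (ord)
open Ch Half

variable {k K : Type} [Field k] [Field K] [Algebra k K] {Om : Type} [Field Om] [Algebra K Om]
  [IsSepClosure K Om] {V V1 : Type} [AddCommGroup V] [DistribMulAction (Om ≃ₐ[K] Om) V]
  [AddCommGroup V1] [Module (ZMod 2) V1] {S : Sys (Om ≃ₐ[K] Om) V V1 (Place k K)}
  {rd : ((Om ≃ₐ[K] Om) → ZMod 2) → ℕ} {rk : K → ℕ}
  {T : Finset (Place k K)} {W : (T → ZMod 2) → ℕ} {τ : ℕ}

/-- The classes and the quadratic characters: the cardinals agree. -/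
theorem twR_card_eq (h2 : (2 : K) ≠ 0) (hNN : S.NN = NP K Om)
    (hdeg : ∀ d : Kˣ, rd (chi K (d : K)) = rk (d : K)) (n : ℕ)
    (hfin : Finite {c : {c : (Om ≃ₐ[K] Om) → ZMod 2 // S.HomG c} // rd c.1 ≤ n})
    (P : ((Om ≃ₐ[K] Om) → ZMod 2) → Prop) (Q : K → Prop)
    (hPQ : ∀ d : Kˣ, P (chi K (d : K)) ↔ Q (d : K)) :
    Nat.card {c : {c : (Om ≃ₐ[K] Om) → ZMod 2 // S.HomG c} // rd c.1 ≤ n ∧ P c.1} =
      (TwR rk n Q).ncard :=
  le_antisymm (twR_card_le (S := S) h2 hNN hdeg n hfin P Q fun d => (hPQ d).1)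
    (twR_le_card (S := S) h2 hNN hdeg n hfin P Q fun d => (hPQ d).2)

theorem twR_card_all (h2 : (2 : K) ≠ 0) (hNN : S.NN = NP K Om)
    (hdeg : ∀ d : Kˣ, rd (chi K (d : K)) = rk (d : K)) (n : ℕ)
    (hfin : Finite {c : {c : (Om ≃ₐ[K] Om) → ZMod 2 // S.HomG c} // rd c.1 ≤ n}) :
    Nat.card {c : {c : (Om ≃ₐ[K] Om) → ZMod 2 // S.HomG c} // rd c.1 ≤ n} =
      (TwR rk n (fun _ : K => True)).ncard := by
  rw [← twR_card_eq (S := S) h2 hNN hdeg n hfin (fun _ => True) (fun _ => True) fun _ => Iff.rfl]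
  exact Nat.card_congr (Equiv.subtypeEquivRight fun c => by rw [and_true])

/-- The classes of even order at some place of `M` have positive lower density. -/
theorem dens_kumR (h2 : (2 : K) ≠ 0) (hNN : S.NN = NP K Om)
    (H : LocVals S.sg S.phi) (h : S.Ok)
    {ch : (XX (T : Set (Place k K)) Place.degree).Pr → (Om ≃ₐ[K] Om) → ZMod 2}
    (hF : LagF S (T : Set (Place k K)))
    (hp : PrOk S T (XX (T : Set (Place k K)) Place.degree) Subtype.val ch)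
    (hR : OrdOk h T Place.degree rd W τ)
    (hdeg : ∀ d : Kˣ, rd (chi K (d : K)) = rk (d : K)) {q : ℕ}
    (hX : (XX (T : Set (Place k K)) Place.degree).Ok q)
    {M : Finset (Place k K)} (hMT : M ⊆ T) (hram : ∃ v ∈ M, ∃ c ∈ XG S T h, c (S.sg v) = 1) :
    ∃ δ : ℝ, 0 < δ ∧ ∃ N₀ : ℕ, ∀ N ≥ N₀,
      δ * (TwR rk N (fun _ : K => True)).ncard ≤
        (TwR rk N (fun d : K => ∃ v ∈ M, Even (ord v d))).ncard := by
  obtain ⟨δ, hδ, N₀, h1⟩ := dens_allO h hF hp hR hX hMT hram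
  refine ⟨δ, hδ, N₀, fun N hN => ?_⟩
  have hfin := finite_O h hF hp hR hX N
  have h3 := h1 N hN
  rw [twR_card_all (S := S) h2 hNN hdeg N hfin, twR_card_eq (S := S) h2 hNN hdeg N hfin
    (fun c => ∃ v ∈ M, c (S.sg v) = 0) (fun d : K => ∃ v ∈ M, Even (ord v d))
    fun d => exists_congr fun v => and_congr_right fun _ =>
      (H v).chi_sg_eq_zero_iff h2 d.ne_zero] at h3
  exact h3

omit [IsSepClosure K Om] in
/-- Corank 0 and corank 1 exclude each other. -/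
theorem ev_od (h : S.Ok) {c : (Om ≃ₐ[K] Om) → ZMod 2} (h0 : Ev S h c) (h1 : Od S h c) : False := by
  obtain ⟨B, hB⟩ := h0
  have hf := h.fin1
  have hpos : 0 < Nat.card V1 := Nat.card_pos
  have h3 := (h1.1 B).trans (hB B)
  rw [mul_pow] at h3
  have h4 := Nat.le_of_mul_le_mul_right h3 (Nat.pow_pos hpos)
  exact absurd h4 (not_le.2 B.lt_two_pow_self)

/-- **Half of the twists with a flip place have corank 0, half have corank 1**, for the classes in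
`Kˣ / Kˣ²` in any ordering. -/
theorem half_kumR [Nonempty (Place k K)] (h2 : (2 : K) ≠ 0) (hNN : S.NN = NP K Om)
    (H : LocVals S.sg S.phi) (h : S.Ok) {qv : Place k K → V1 × V1 → ZMod 2} {qq : V1 → ZMod 2}
    (hP : ParOk S h qv qq)
    (halt : ∀ chi : (Om ≃ₐ[K] Om) → ZMod 2, S.HomG chi → (Sys.twS S h chi).Altn)
    {ch : (XX (T : Set (Place k K)) Place.degree).Pr → (Om ≃ₐ[K] Om) → ZMod 2}
    (hF : LagF S (T : Set (Place k K)))
    (hp : PrOk S T (XX (T : Set (Place k K)) Place.degree) Subtype.val ch)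
    (hR : OrdOk h T Place.degree rd W τ)
    (hdeg : ∀ d : Kˣ, rd (chi K (d : K)) = rk (d : K))
    (hT : ∀ v, v ∉ T → v ∈ S.good) {q : ℕ} (hX : (XX (T : Set (Place k K)) Place.degree).Ok q)
    {M : Finset (Place k K)} (hMT : M ⊆ T) (hfl : ∀ v ∈ M, Flip S v)
    (hch : ∀ v ∈ M, ChebQ S T (XX (T : Set (Place k K)) Place.degree) Subtype.val q v)
    (hL : ∀ ε : ℝ, 0 < ε → ∃ m₁ : ℕ, ∀ m ≥ m₁, ∃ n₀ : ℕ, ∀ n ≥ n₀,
      (Nat.card {c : {c : (Om ≃ₐ[K] Om) → ZMod 2 // S.HomG c} //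
        rd c.1 ≤ n ∧ ¬ SmallS S m c.1} : ℝ) ≤
        ε * Nat.card {c : {c : (Om ≃ₐ[K] Om) → ZMod 2 // S.HomG c} // rd c.1 ≤ n})
    (E0 E1 : K → Prop) (hE0 : ∀ d : Kˣ, Ev S h (chi K (d : K)) → E0 (d : K))
    (hE1 : ∀ d : Kˣ, Od S h (chi K (d : K)) → E1 (d : K))
    (hE0' : ∀ d : Kˣ, E0 (d : K) → ¬ Od S h (chi K (d : K)))
    (hE1' : ∀ d : Kˣ, E1 (d : K) → ¬ Ev S h (chi K (d : K))) :
    ∀ ε : ℝ, 0 < ε → ∃ N₀ : ℕ, ∀ N ≥ N₀,
      |((TwR rk N (fun d : K => (∃ v ∈ M, Even (ord v d)) ∧ E0 d)).ncard : ℝ) -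
        (TwR rk N (fun d : K => ∃ v ∈ M, Even (ord v d))).ncard / 2| ≤
          ε * (TwR rk N (fun _ : K => True)).ncard ∧
      |((TwR rk N (fun d : K => (∃ v ∈ M, Even (ord v d)) ∧ E1 d)).ncard : ℝ) -
        (TwR rk N (fun d : K => ∃ v ∈ M, Even (ord v d))).ncard / 2| ≤
          ε * (TwR rk N (fun _ : K => True)).ncard := by
  classical
  intro ε hε
  have hev : ∀ d : Kˣ, (∃ v ∈ M, chi K (d : K) (S.sg v) = 0) ↔ ∃ v ∈ M, Even (ord v (d : K)) :=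
    fun d => exists_congr fun v => and_congr_right fun _ => (H v).chi_sg_eq_zero_iff h2 d.ne_zero
  obtain ⟨n₀, h1⟩ := half_allO h hP halt hF hp hR hT hX hMT hfl hch hL hε
  refine ⟨n₀, fun N hN => ?_⟩
  have hfin := finite_O h hF hp hR hX N
  have hfp : ∀ P : ((Om ≃ₐ[K] Om) → ZMod 2) → Prop,
      Finite {c : {c : (Om ≃ₐ[K] Om) → ZMod 2 // S.HomG c} // rd c.1 ≤ N ∧ P c.1} := fun P =>
    Finite.of_injective (β := {c : {c : (Om ≃ₐ[K] Om) → ZMod 2 // S.HomG c} // rd c.1 ≤ N})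
      (fun c => ⟨c.1, c.2.1⟩) fun c c' hc => Subtype.ext (congrArg
        (fun x : {c : {c : (Om ≃ₐ[K] Om) → ZMod 2 // S.HomG c} // rd c.1 ≤ N} => x.1) hc)
  -- `p and P` plus `p and not P`
  have hsplit : ∀ P : ((Om ≃ₐ[K] Om) → ZMod 2) → Prop,
      Nat.card {c : {c : (Om ≃ₐ[K] Om) → ZMod 2 // S.HomG c} //
        rd c.1 ≤ N ∧ (∃ v ∈ M, c.1 (S.sg v) = 0) ∧ P c.1} +
      Nat.card {c : {c : (Om ≃ₐ[K] Om) → ZMod 2 // S.HomG c} //
        rd c.1 ≤ N ∧ (∃ v ∈ M, c.1 (S.sg v) = 0) ∧ ¬ P c.1} =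
      Nat.card {c : {c : (Om ≃ₐ[K] Om) → ZMod 2 // S.HomG c} //
        rd c.1 ≤ N ∧ ∃ v ∈ M, c.1 (S.sg v) = 0} := by
    intro P
    have i1 := hfp (fun c => (∃ v ∈ M, c (S.sg v) = 0) ∧ P c)
    have i2 := hfp (fun c => (∃ v ∈ M, c (S.sg v) = 0) ∧ ¬ P c)
    rw [← Nat.card_sum]
    refine Nat.card_congr ?_
    refine ((Equiv.sumCongr ?_ ?_).trans (Equiv.sumCompl
      (fun c : {c : {c : (Om ≃ₐ[K] Om) → ZMod 2 // S.HomG c} //
        rd c.1 ≤ N ∧ ∃ v ∈ M, c.1 (S.sg v) = 0} => P c.1.1)))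
    · exact ⟨fun c => ⟨⟨c.1, c.2.1, c.2.2.1⟩, c.2.2.2⟩, fun c => ⟨c.1.1, c.1.2.1, c.1.2.2, c.2⟩,
        fun _ => rfl, fun _ => rfl⟩
    · exact ⟨fun c => ⟨⟨c.1, c.2.1, c.2.2.1⟩, c.2.2.2⟩, fun c => ⟨c.1.1, c.1.2.1, c.1.2.2, c.2⟩,
        fun _ => rfl, fun _ => rfl⟩
  have s0 := hsplit (fun c => Od S h c)
  have s1 := hsplit (fun c => Ev S h c)
  obtain ⟨h3, h4⟩ := h1 N hN
  have hpe := twR_card_eq (S := S) h2 hNN hdeg N hfin
    (fun c => ∃ v ∈ M, c (S.sg v) = 0) (fun d : K => ∃ v ∈ M, Even (ord v d)) hev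
  rw [hpe] at s0 s1
  rw [twR_card_all (S := S) h2 hNN hdeg N hfin, hpe] at h3 h4
  have key : ∀ (P : ((Om ≃ₐ[K] Om) → ZMod 2) → Prop) (E : K → Prop),
      (∀ d : Kˣ, P (chi K (d : K)) → E (d : K)) →
      (Nat.card {c : {c : (Om ≃ₐ[K] Om) → ZMod 2 // S.HomG c} //
        rd c.1 ≤ N ∧ (∃ v ∈ M, c.1 (S.sg v) = 0) ∧ P c.1} : ℝ) ≤
        (TwR rk N (fun d : K => (∃ v ∈ M, Even (ord v d)) ∧ E d)).ncard := by
    intro P E hPE
    exact_mod_cast twR_card_le (S := S) h2 hNN hdeg N hfin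
      (fun c => (∃ v ∈ M, c (S.sg v) = 0) ∧ P c)
      (fun d : K => (∃ v ∈ M, Even (ord v d)) ∧ E d)
      fun d hd => ⟨(hev d).1 hd.1, hPE d hd.2⟩
  have yek : ∀ (P : ((Om ≃ₐ[K] Om) → ZMod 2) → Prop) (E : K → Prop),
      (∀ d : Kˣ, E (d : K) → ¬ P (chi K (d : K))) →
      (TwR rk N (fun d : K => (∃ v ∈ M, Even (ord v d)) ∧ E d)).ncard ≤
      Nat.card {c : {c : (Om ≃ₐ[K] Om) → ZMod 2 // S.HomG c} //
        rd c.1 ≤ N ∧ (∃ v ∈ M, c.1 (S.sg v) = 0) ∧ ¬ P c.1} := by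
    intro P E hPE
    exact twR_le_card (S := S) h2 hNN hdeg N hfin
      (fun c => (∃ v ∈ M, c (S.sg v) = 0) ∧ ¬ P c)
      (fun d : K => (∃ v ∈ M, Even (ord v d)) ∧ E d)
      fun d hd => ⟨(hev d).2 hd.1, hPE d hd.2⟩
  have h5 := h3.trans (key _ E0 hE0)
  have h6 := h4.trans (key _ E1 hE1)
  have h7 := yek (fun c => Od S h c) E0 hE0'
  have h8 := yek (fun c => Ev S h c) E1 hE1'
  have h9 : ((TwR rk N (fun d : K => (∃ v ∈ M, Even (ord v d)) ∧ E0 d)).ncard : ℝ) +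
      Nat.card {c : {c : (Om ≃ₐ[K] Om) → ZMod 2 // S.HomG c} //
        rd c.1 ≤ N ∧ (∃ v ∈ M, c.1 (S.sg v) = 0) ∧ Od S h c.1} ≤
      (TwR rk N (fun d : K => ∃ v ∈ M, Even (ord v d))).ncard := by
    exact_mod_cast (by omega : (TwR rk N (fun d : K => (∃ v ∈ M, Even (ord v d)) ∧ E0 d)).ncard +
      Nat.card {c : {c : (Om ≃ₐ[K] Om) → ZMod 2 // S.HomG c} //
        rd c.1 ≤ N ∧ (∃ v ∈ M, c.1 (S.sg v) = 0) ∧ Od S h c.1} ≤
      (TwR rk N (fun d : K => ∃ v ∈ M, Even (ord v d))).ncard)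
  have h10 : ((TwR rk N (fun d : K => (∃ v ∈ M, Even (ord v d)) ∧ E1 d)).ncard : ℝ) +
      Nat.card {c : {c : (Om ≃ₐ[K] Om) → ZMod 2 // S.HomG c} //
        rd c.1 ≤ N ∧ (∃ v ∈ M, c.1 (S.sg v) = 0) ∧ Ev S h c.1} ≤
      (TwR rk N (fun d : K => ∃ v ∈ M, Even (ord v d))).ncard := by
    exact_mod_cast (by omega : (TwR rk N (fun d : K => (∃ v ∈ M, Even (ord v d)) ∧ E1 d)).ncard +
      Nat.card {c : {c : (Om ≃ₐ[K] Om) → ZMod 2 // S.HomG c} //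
        rd c.1 ≤ N ∧ (∃ v ∈ M, c.1 (S.sg v) = 0) ∧ Ev S h c.1} ≤
      (TwR rk N (fun d : K => ∃ v ∈ M, Even (ord v d))).ncard)
  constructor
  · rw [abs_le]
    constructor <;> linarith
  · rw [abs_le]
    constructor <;> linarith

/-- `half_kumR` for one flip place and the ordering by the degree of the symmetric difference of `O`
and the set of the places of odd order. -/
theorem half_kumO [Nonempty (Place k K)] (h2 : (2 : K) ≠ 0) (hNN : S.NN = NP K Om)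
    (H : LocVals S.sg S.phi) (h : S.Ok) {qv : Place k K → V1 × V1 → ZMod 2} {qq : V1 → ZMod 2}
    (hP : ParOk S h qv qq)
    (halt : ∀ chi : (Om ≃ₐ[K] Om) → ZMod 2, S.HomG chi → (Sys.twS S h chi).Altn)
    {ch : (XX (T : Set (Place k K)) Place.degree).Pr → (Om ≃ₐ[K] Om) → ZMod 2}
    (hF : LagF S (T : Set (Place k K)))
    (hp : PrOk S T (XX (T : Set (Place k K)) Place.degree) Subtype.val ch)
    {O : Set (Place k K)} (hO : O ⊆ (T : Set (Place k K)))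
    (hT : ∀ v, v ∉ T → v ∈ S.good) {q : ℕ} (hX : (XX (T : Set (Place k K)) Place.degree).Ok q)
    {v : Place k K} (hv : v ∈ T) (hfl : Flip S v)
    (hch : ChebQ S T (XX (T : Set (Place k K)) Place.degree) Subtype.val q v)
    (hL : ∀ ε : ℝ, 0 < ε → ∃ m₁ : ℕ, ∀ m ≥ m₁, ∃ n₀ : ℕ, ∀ n ≥ n₀,
      (Nat.card {c : {c : (Om ≃ₐ[K] Om) → ZMod 2 // S.HomG c} //
        rdegO S Place.degree O c.1 ≤ n ∧ ¬ SmallS S m c.1} : ℝ) ≤
        ε * Nat.card {c : {c : (Om ≃ₐ[K] Om) → ZMod 2 // S.HomG c} //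
          rdegO S Place.degree O c.1 ≤ n})
    (E0 E1 : K → Prop) (hE0 : ∀ d : Kˣ, Ev S h (chi K (d : K)) → E0 (d : K))
    (hE1 : ∀ d : Kˣ, Od S h (chi K (d : K)) → E1 (d : K))
    (hE0' : ∀ d : Kˣ, E0 (d : K) → ¬ Od S h (chi K (d : K)))
    (hE1' : ∀ d : Kˣ, E1 (d : K) → ¬ Ev S h (chi K (d : K))) :
    ∀ ε : ℝ, 0 < ε → ∃ N₀ : ℕ, ∀ N ≥ N₀,
      |((TwR (rkO k O) N (fun d : K => Even (ord v d) ∧ E0 d)).ncard : ℝ) -
        (TwR (rkO k O) N (fun d : K => Even (ord v d))).ncard / 2| ≤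
          ε * (TwR (rkO k O) N (fun _ : K => True)).ncard ∧
      |((TwR (rkO k O) N (fun d : K => Even (ord v d) ∧ E1 d)).ncard : ℝ) -
        (TwR (rkO k O) N (fun d : K => Even (ord v d))).ncard / 2| ≤
          ε * (TwR (rkO k O) N (fun _ : K => True)).ncard := by
  have h1 := half_kumR (S := S) h2 hNN H h hP halt hF hp (ordOk_rdegO h hO)
    (fun d => rdegO_chi h2 H O d) hT hX (M := {v}) (by simpa using hv)
    (fun w hw => by rw [mem_singleton.1 hw]; exact hfl)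
    (fun w hw => by rw [mem_singleton.1 hw]; exact hch) hL E0 E1 hE0 hE1 hE0' hE1'
  simp only [mem_singleton, exists_eq_left] at h1
  exact h1

end Pool.Agent.SmN.Fnl
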