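import Pool.Agent.Lib.GBU.Zeta
import Pool.Agent.Lib.GBC.E.Main

/-!
# SMITH-U (SmN), final layer: elements of bounded height

`HtLE k h x`: the poles of `x` are bounded by an effective divisor of degree at most `h`.
`finite_htLE`: finitely many. `htLE_ratio`: the number for `m` is `o` of that for `2 m`.
-/

set_option autoImplicit false

namespace Pool.Agent.SmN.Fnl

open Pool.Agent.BSDFF Pool.Agent.GBC Pool.Agent.GBU

section defs

variable (k : Type) {K : Type} [Field k] [Field K] [Algebra k K]

/-- `x` has height at most `h`: some effective divisor of degree at most `h` bounds its poles. -/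
def HtLE (h : ℕ) (x : K) : Prop := ∃ D : Place k K →₀ ℤ, 0 ≤ D ∧ degD D ≤ h ∧ x ∈ LL D

variable {k}

theorem HtLE.mono {h h' : ℕ} (hh : h ≤ h') {x : K} (hx : HtLE k h x) : HtLE k h' x := by
  obtain ⟨D, h1, h2, h3⟩ := hx
  exact ⟨D, h1, h2.trans (by exact_mod_cast hh), h3⟩

end defs

section geo

variable {k K : Type} [Field k] [Field K] [Algebra k K] (G : Geo k K)

include G

theorem two_places : ∃ P Q : Place k K, P ≠ Q := by
  obtain ⟨P⟩ := exists_place_geo G
  obtain ⟨c, C, hc⟩ := riemann_eq G
  set l := Module.finrank k (LL (0 : Place k K →₀ ℤ)) with hl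
  have hP := G.degree_pos P
  -- a function with a pole at `P` only
  obtain ⟨n, hn⟩ : ∃ n : ℕ, (l : ℤ) < Module.finrank k (LL (Finsupp.single P (n : ℤ))) := by
    refine ⟨(l - c + 1).toNat, ?_⟩
    have h1 := (hc (Finsupp.single P ((l - c + 1).toNat : ℤ))).1
    rw [degD_single] at h1
    have h2 : (l - c + 1 : ℤ) ≤ (l - c + 1).toNat := Int.self_le_toNat _
    have h3 : ((l - c + 1).toNat : ℤ) ≤ P.degree * ((l - c + 1).toNat : ℤ) :=
      le_mul_of_one_le_left (Int.natCast_nonneg _) (by exact_mod_cast hP)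
    linarith
  obtain ⟨u, hu, hu0⟩ : ∃ u ∈ LL (Finsupp.single P (n : ℤ)), u ∉ LL (0 : Place k K →₀ ℤ) := by
    by_contra hcon
    push Not at hcon
    have h0 := LL_finite G (0 : Place k K →₀ ℤ)
    have h1 : LL (Finsupp.single P (n : ℤ)) ≤ LL (0 : Place k K →₀ ℤ) := hcon
    have h2 := Submodule.finrank_mono h1
    have h3 : (Module.finrank k (LL (Finsupp.single P (n : ℤ))) : ℤ) ≤ l := by exact_mod_cast h2
    linarith
  have hune : u ≠ 0 := by
    rintro rfl
    exact hu0 (LL _).zero_mem
  obtain ⟨F, hF⟩ := exists_pdiv G hune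
  have hdeg := degD_prin G (show F ∈ Prin k K from ⟨u, hune, hF⟩)
  by_contra hcon
  push Not at hcon
  have hall : ∀ Q, Q = P := fun Q => hcon Q P
  apply hu0
  rw [mem_LL_iff hune]
  intro w
  rw [hall w, Finsupp.zero_apply, neg_zero]
  have h1 : F = Finsupp.single P (F P) := by
    ext Q
    rw [hall Q, Finsupp.single_eq_same]
  rw [h1, degD_single] at hdeg
  have h2 : F P = 0 := by
    rcases mul_eq_zero.1 hdeg with h | h
    · exact absurd h (by exact_mod_cast hP.ne')
    · exact h
  rw [← hF P, h2]

variable [Finite k]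

theorem finite_htLE (h : ℕ) : {x : K | HtLE k h x}.Finite := by
  have h1 : {x : K | HtLE k h x} ⊆ ⋃ n ∈ Finset.range (h + 1), ⋃ D ∈ (Eff G (n : ℕ)),
      (LL D : Set K) := by
    rintro x ⟨D, hD, hd, hx⟩
    have h2 := degD_nonneg hD
    obtain ⟨n, hn⟩ := Int.eq_ofNat_of_zero_le h2
    simp only [Set.mem_iUnion]
    refine ⟨n, ?_, D, ?_, hx⟩
    · rw [Finset.mem_range]
      omega
    · rw [mem_Eff]
      exact ⟨hD, hn⟩
  refine Set.Finite.subset ?_ h1
  refine Set.Finite.biUnion (Finset.finite_toSet _) fun n _ => ?_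
  refine Set.Finite.biUnion (Finset.finite_toSet _) fun D _ => ?_
  have := LL_finite G D
  have h3 : Finite (LL D) := Module.finite_of_finite k
  exact Set.toFinite _

omit [Finite k] in
theorem finrank_LL_lower : ∃ c : ℕ, ∀ (P : Place k K) (a : ℕ),
    P.degree * a ≤ Module.finrank k (LL (Finsupp.single P (a : ℤ))) + c := by
  obtain ⟨c, C, hc⟩ := riemann_eq G
  refine ⟨c.natAbs, fun P a => ?_⟩
  have h1 := (hc (Finsupp.single P (a : ℤ))).1
  rw [degD_single] at h1
  have h2 : -c ≤ |c| := neg_le_abs c
  have h3 : ((P.degree * a : ℕ) : ℤ) ≤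
      ((Module.finrank k (LL (Finsupp.single P (a : ℤ))) + c.natAbs : ℕ) : ℤ) := by
    push_cast
    linarith
  exact_mod_cast h3

omit [Finite k] in
theorem finrank_LL_upper (P : Place k K) (b : ℕ) :
    Module.finrank k (LL (Finsupp.single P (b : ℤ))) ≤
      P.degree * b + Module.finrank k (LL (0 : Place k K →₀ ℤ)) := by
  have h1 := LL_le G (Finsupp.single P (b : ℤ)) (by rw [degD_single]; positivity)
  rw [degD_single] at h1
  exact_mod_cast h1

/-- The elements of height at most `m` with a small pole at `P`. -/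
private def JD_B (m : ℕ) (P : Place k K) : Set K :=
  {x | ∃ D : Place k K →₀ ℤ, 0 ≤ D ∧ degD D ≤ m ∧ x ∈ LL D ∧ 2 * (P.degree * D P) ≤ m}

omit [Finite k] G in
private theorem JD_cover {m : ℕ} {P Q : Place k K} (hPQ : P ≠ Q) :
    {x : K | HtLE k m x} ⊆ JD_B (k := k) m P ∪ JD_B (k := k) m Q := by
  classical
  rintro x ⟨D, h1, h2, h3⟩
  have h4 : (P.degree : ℤ) * D P + Q.degree * D Q ≤ degD D := by
    unfold degD
    rw [Finsupp.sum]
    have h5 : ∑ w ∈ ({P, Q} : Finset (Place k K)), (w.degree : ℤ) * D w ≤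
        ∑ w ∈ D.support ∪ {P, Q}, (w.degree : ℤ) * D w :=
      Finset.sum_le_sum_of_subset_of_nonneg Finset.subset_union_right fun w _ _ =>
        mul_nonneg (Int.natCast_nonneg _) (h1 w)
    rw [Finset.sum_pair hPQ] at h5
    refine h5.trans (le_of_eq ?_)
    symm
    apply Finset.sum_subset Finset.subset_union_left
    intro w _ hw
    rw [Finsupp.notMem_support_iff.1 hw, mul_zero]
  rcases le_total ((P.degree : ℤ) * D P) (Q.degree * D Q) with h | h
  · left
    exact ⟨D, h1, h2, h3, by linarith⟩
  · right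
    exact ⟨D, h1, h2, h3, by linarith⟩

private theorem JD_count (P : Place k K) : ∃ C : ℕ, ∀ m : ℕ,
    (JD_B (k := k) m P).ncard * Nat.card k ^ m ≤
      {x : K | HtLE k (2 * m) x}.ncard * Nat.card k ^ (m / 2 + C) := by
  classical
  obtain ⟨c, hc⟩ := finrank_LL_lower G
  have hP := G.degree_pos P
  set d := P.degree with hd
  set l := Module.finrank k (LL (0 : Place k K →₀ ℤ)) with hl
  have hq : 1 ≤ Nat.card k := Nat.card_pos
  refine ⟨d + c + l, fun m => ?_⟩
  set a := m / d with ha
  set b := m / (2 * d) with hb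
  have hfa := LL_finite G (Finsupp.single P (a : ℤ))
  have hfb := LL_finite G (Finsupp.single P (b : ℤ))
  have hFa : Finite (LL (Finsupp.single P (a : ℤ))) := Module.finite_of_finite k
  have hFb : Finite (LL (Finsupp.single P (b : ℤ))) := Module.finite_of_finite k
  have hfin := finite_htLE G (2 * m)
  have hBfin : (JD_B (k := k) m P).Finite :=
    (finite_htLE G m).subset fun x ⟨D, h1, h2, h3, _⟩ => ⟨D, h1, h2, h3⟩
  have hda : d * a ≤ m := Nat.mul_div_le m d
  have hdb : d * b ≤ m / 2 := by
    rw [hb, Nat.le_div_iff_mul_le (by norm_num)]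
    calc d * (m / (2 * d)) * 2 = 2 * d * (m / (2 * d)) := by ring
      _ ≤ m := Nat.mul_div_le m (2 * d)
  -- the map
  let A : Set K := (LL (Finsupp.single P (a : ℤ)) : Set K)
  have hA : A.Finite := Set.toFinite _
  have key : hBfin.toFinset.card * hA.toFinset.card ≤
      Nat.card (LL (Finsupp.single P (b : ℤ))) * hfin.toFinset.card := by
    rw [← Finset.card_product]
    have h1 : ((hBfin.toFinset ×ˢ hA.toFinset).image fun z => z.1 + z.2) ⊆ hfin.toFinset := by
      intro y hy
      obtain ⟨⟨x, z⟩, hxz, rfl⟩ := Finset.mem_image.1 hy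
      rw [Finset.mem_product, Set.Finite.mem_toFinset, Set.Finite.mem_toFinset] at hxz
      obtain ⟨⟨D, h1, h2, h3, _⟩, hz⟩ := hxz
      rw [Set.Finite.mem_toFinset]
      have hs : (0 : Place k K →₀ ℤ) ≤ Finsupp.single P (a : ℤ) :=
        Finsupp.single_nonneg.2 (Int.natCast_nonneg _)
      refine ⟨D + Finsupp.single P (a : ℤ), add_nonneg h1 hs, ?_, ?_⟩
      · rw [degD_add, degD_single]
        have : (d : ℤ) * a ≤ m := by exact_mod_cast hda
        push_cast
        linarith
      · exact (LL _).add_mem (LL_mono (le_add_of_nonneg_right hs) h3)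
          (LL_mono (le_add_of_nonneg_left h1) hz)
    refine (Finset.card_le_mul_card_image _ (Nat.card (LL (Finsupp.single P (b : ℤ)))) ?_).trans
      (Nat.mul_le_mul_left _ (Finset.card_le_card h1))
    intro y hy
    obtain ⟨⟨x0, z0⟩, hxz0, hy0⟩ := Finset.mem_image.1 hy
    rw [Finset.mem_product, Set.Finite.mem_toFinset, Set.Finite.mem_toFinset] at hxz0
    have hfb' : ((LL (Finsupp.single P (b : ℤ)) : Set K)).Finite := Set.toFinite _
    have h3 : Nat.card (LL (Finsupp.single P (b : ℤ))) = hfb'.toFinset.card := by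
      rw [← Set.ncard_eq_toFinset_card _ hfb']
      exact Nat.card_coe_set_eq _
    rw [h3]
    refine Finset.card_le_card_of_injOn (fun z => z.2 - z0) ?_ ?_
    · rintro ⟨x, z⟩ hxz
      rw [Finset.mem_coe, Finset.mem_filter, Finset.mem_product, Set.Finite.mem_toFinset,
        Set.Finite.mem_toFinset] at hxz
      obtain ⟨⟨hx, hz⟩, hsum⟩ := hxz
      rw [Finset.mem_coe, Set.Finite.mem_toFinset]
      change z - z0 ∈ LL _
      have e1 : z - z0 = x0 - x := by
        have : x + z = x0 + z0 := hsum.trans hy0.symm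
        linear_combination this
      by_cases h0 : z - z0 = 0
      · rw [h0]
        exact (LL _).zero_mem
      rw [mem_LL_iff h0]
      have hzA : z - z0 ∈ LL (Finsupp.single P (a : ℤ)) :=
        (LL (Finsupp.single P (a : ℤ))).sub_mem (show z ∈ LL (Finsupp.single P (a : ℤ)) from hz)
          (show z0 ∈ LL (Finsupp.single P (a : ℤ)) from hxz0.2)
      rw [mem_LL_iff h0] at hzA
      intro w
      by_cases hw : w = P
      · subst hw
        rw [Finsupp.single_eq_same]
        -- both `x`, `x0` have a small pole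
        have hsmall : ∀ x ∈ JD_B (k := k) m w, x = 0 ∨ -(b : ℤ) ≤ ord w x := by
          rintro x ⟨D, h4, h5, h6, h7⟩
          rcases h6 with h6 | h6
          · exact Or.inl h6
          · right
            refine le_trans ?_ (h6 w)
            have h8 : D w ≤ b := by
              have h9 : 0 ≤ D w := h4 w
              obtain ⟨n, hn⟩ := Int.eq_ofNat_of_zero_le h9
              rw [hn] at h7 ⊢
              have h10 : n ≤ m / (2 * d) := by
                rw [Nat.le_div_iff_mul_le (by positivity)]
                have : 2 * (d * n) ≤ m := by exact_mod_cast h7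
                calc n * (2 * d) = 2 * (d * n) := by ring
                  _ ≤ m := this
              exact_mod_cast h10
            linarith
        rw [e1] at h0 ⊢
        rcases hsmall x0 hxz0.1 with h | h
        · subst h
          rcases hsmall x hx with h' | h'
          · subst h'
            exact absurd (sub_zero _) h0
          · rw [zero_sub, ord_neg]
            exact h'
        · rcases hsmall x hx with h' | h'
          · subst h'
            rw [sub_zero]
            exact h
          · by_cases hx00 : x0 = 0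
            · subst hx00
              rw [zero_sub, ord_neg]
              exact h'
            by_cases hx0' : x = 0
            · subst hx0'
              rw [sub_zero]
              exact h
            rw [sub_eq_add_neg] at h0 ⊢
            exact le_trans (le_min h (by rw [ord_neg]; exact h'))
              (min_le_ord_add w hx00 (neg_ne_zero.2 hx0') h0)
      · have h5 := hzA w
        rw [Finsupp.single_eq_of_ne hw] at h5 ⊢
        exact h5
    · rintro ⟨x, z⟩ hxz ⟨x', z'⟩ hxz' h
      rw [Finset.mem_coe, Finset.mem_filter] at hxz hxz'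
      have e1 : z = z' := by
        have : z - z0 = z' - z0 := h
        linear_combination this
      have e2 : x + z = x' + z' := hxz.2.trans hxz'.2.symm
      subst e1
      have e3 : x = x' := by linear_combination e2
      rw [e3]
  rw [Set.ncard_eq_toFinset_card _ hBfin, Set.ncard_eq_toFinset_card _ hfin]
  have h4 : hA.toFinset.card = Nat.card k ^ Module.finrank k (LL (Finsupp.single P (a : ℤ))) := by
    rw [← Set.ncard_eq_toFinset_card _ hA, ← Module.natCard_eq_pow_finrank]
    exact (Nat.card_coe_set_eq _).symm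
  have h5 : Nat.card (LL (Finsupp.single P (b : ℤ))) ≤ Nat.card k ^ (m / 2 + l) := by
    rw [Module.natCard_eq_pow_finrank (K := k)]
    refine Nat.pow_le_pow_right hq ((finrank_LL_upper G P b).trans ?_)
    exact Nat.add_le_add_right hdb l
  have h6 : m ≤ Module.finrank k (LL (Finsupp.single P (a : ℤ))) + (d + c) := by
    have h7 : d * a ≤ Module.finrank k (LL (Finsupp.single P (a : ℤ))) + c := hc P a
    have h8 : m < d * a + d := by
      rw [ha]
      have := Nat.lt_mul_div_succ m hP
      rw [Nat.mul_succ] at this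
      exact this
    omega
  calc hBfin.toFinset.card * Nat.card k ^ m
      ≤ hBfin.toFinset.card *
        Nat.card k ^ (Module.finrank k (LL (Finsupp.single P (a : ℤ))) + (d + c)) :=
        Nat.mul_le_mul_left _ (Nat.pow_le_pow_right hq h6)
    _ = hBfin.toFinset.card * hA.toFinset.card * Nat.card k ^ (d + c) := by
        rw [h4, pow_add, mul_assoc]
    _ ≤ Nat.card (LL (Finsupp.single P (b : ℤ))) * hfin.toFinset.card * Nat.card k ^ (d + c) :=
        Nat.mul_le_mul_right _ key
    _ ≤ Nat.card k ^ (m / 2 + l) * hfin.toFinset.card * Nat.card k ^ (d + c) :=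
        Nat.mul_le_mul_right _ (Nat.mul_le_mul_right _ h5)
    _ = hfin.toFinset.card * Nat.card k ^ (m / 2 + (d + c + l)) := by
        rw [show m / 2 + (d + c + l) = (m / 2 + l) + (d + c) by ring, pow_add]
        ring

/-- The elements of height at most `m` are few among those of height at most `2 m`. -/
theorem htLE_ratio (ε : ℝ) (hε : 0 < ε) : ∃ m₀ : ℕ, ∀ m ≥ m₀,
    ({x : K | HtLE k m x}.ncard : ℝ) ≤ ε * {x : K | HtLE k (2 * m) x}.ncard := by
  obtain ⟨P, Q, hPQ⟩ := two_places G
  obtain ⟨C, hC⟩ := JD_count G P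
  obtain ⟨C', hC'⟩ := JD_count G Q
  have hq : (2 : ℝ) ≤ Nat.card k := by
    have : 2 ≤ Nat.card k := Finite.one_lt_card
    exact_mod_cast this
  set q : ℝ := (Nat.card k : ℝ) with hqd
  have hq0 : 0 < q := by linarith
  obtain ⟨n, hn⟩ := pow_unbounded_of_one_lt ((q ^ C + q ^ C') / ε) (by linarith : 1 < q)
  refine ⟨2 * n, fun m hm => ?_⟩
  have h1 : ({x : K | HtLE k m x}.ncard : ℝ) ≤
      (JD_B (k := k) m P).ncard + (JD_B (k := k) m Q).ncard := by
    have hfin : (JD_B (k := k) m P ∪ JD_B (k := k) m Q).Finite :=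
      (finite_htLE G m).subset (Set.union_subset (fun x ⟨D, h1, h2, h3, _⟩ => ⟨D, h1, h2, h3⟩)
        fun x ⟨D, h1, h2, h3, _⟩ => ⟨D, h1, h2, h3⟩)
    have h2 := (Set.ncard_le_ncard (JD_cover hPQ) hfin).trans (Set.ncard_union_le _ _)
    exact_mod_cast h2
  set N : ℝ := ({x : K | HtLE k (2 * m) x}.ncard : ℝ) with hN
  have hN0 : 0 ≤ N := Nat.cast_nonneg _
  have h2 : ((JD_B (k := k) m P).ncard : ℝ) * q ^ m ≤ N * q ^ (m / 2 + C) := by
    have := (Nat.cast_le (α := ℝ)).2 (hC m)
    push_cast at this
    exact this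
  have h3 : ((JD_B (k := k) m Q).ncard : ℝ) * q ^ m ≤ N * q ^ (m / 2 + C') := by
    have := (Nat.cast_le (α := ℝ)).2 (hC' m)
    push_cast at this
    exact this
  have h4 : q ^ (m / 2) * q ^ n ≤ q ^ m := by
    rw [← pow_add]
    exact pow_le_pow_right₀ (by linarith) (by omega)
  have h5 : (q ^ C + q ^ C') < ε * q ^ n := by
    rw [div_lt_iff₀ hε] at hn
    linarith
  have h6 : 0 < q ^ m := by positivity
  have h7 : ({x : K | HtLE k m x}.ncard : ℝ) * q ^ m ≤ ε * N * q ^ m := by
    calc ({x : K | HtLE k m x}.ncard : ℝ) * q ^ m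
        ≤ ((JD_B (k := k) m P).ncard + (JD_B (k := k) m Q).ncard) * q ^ m :=
          mul_le_mul_of_nonneg_right h1 h6.le
      _ ≤ N * q ^ (m / 2 + C) + N * q ^ (m / 2 + C') := by rw [add_mul]; exact add_le_add h2 h3
      _ = N * q ^ (m / 2) * (q ^ C + q ^ C') := by rw [pow_add, pow_add]; ring
      _ ≤ N * q ^ (m / 2) * (ε * q ^ n) :=
          mul_le_mul_of_nonneg_left h5.le (by positivity)
      _ = ε * N * (q ^ (m / 2) * q ^ n) := by ring
      _ ≤ ε * N * q ^ m := mul_le_mul_of_nonneg_left h4 (by positivity)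
  exact le_of_mul_le_mul_right h7 h6

end geo

end Pool.Agent.SmN.Fnl
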