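import Pool.Agent.Lib.SmN.Asm.Abs
import Pool.Agent.Lib.SmN.J.Main
import Pool.Agent.Lib.SmN.I.GridThmF
import Pool.Agent.Lib.SmN.Fin.Kum

/-!
# SMITH-U (SmN), final layer: from the arithmetic facts `AOk` to the quadratic twists
-/

set_option autoImplicit false

open Finset

namespace Pool.Agent.SmN.Fnl

open Pool.Agent.BSDFF Pool.Agent.GBU
open Ch

section abs

variable {G V V1 Pl : Type} [Group G] [AddCommGroup V] [DistribMulAction G V]
  [AddCommGroup V1] [Module (ZMod 2) V1] {S : Sys G V V1 Pl} {T : Set Pl} {deg : Pl → ℕ}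
  {Geo : Subgroup G} {fr : G} {q a C m0 : ℕ}

/-- `main_of` with the blocks J and I. -/
theorem main_abs [Nontrivial V1] (h : AOk S T deg q Geo fr a C m0) :
    ∃ cd : CData S (XX T deg), cd.pl = Subtype.val ∧ ∀ chi0, XT S T chi0 →
      ({ cd with chi0 := chi0 } : CData S (XX T deg)).Ok ∧
      ({ cd with chi0 := chi0 } : CData S (XX T deg)).LThm :=
  main_of h (fun _ hc hC c0 hc0 r0 => J.jThm h.ok h.xok hc h.geo hC m0 h.m0_mem c0 hc0 r0)
    fun _ hc hC _ hm => FrN.gridThmN h.ok hc h.xok (fun N hN => (h.fi N hN).index_ne_zero) h.geo hC hm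

/-- All quadratic characters. -/
theorem all_abs [Nontrivial V1] (hT : T.Finite) (h : AOk S T deg q Geo fr a C m0) :
    (∀ n, Finite {c : {c : G → ZMod 2 // S.HomG c} // rdeg S deg c.1 ≤ n}) ∧
    ∀ ε : ℝ, 0 < ε → ∃ m₁ : ℕ, ∀ m ≥ m₁, ∃ n₀ : ℕ, ∀ n ≥ n₀,
      (Nat.card {c : {c : G → ZMod 2 // S.HomG c} //
        rdeg S deg c.1 ≤ n ∧ ¬ SmallS S m c.1} : ℝ) ≤
        ε * Nat.card {c : {c : G → ZMod 2 // S.HomG c} // rdeg S deg c.1 ≤ n} :=
  all_of_main h.ok hT h.lagF h.xok (main_abs h)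

end abs

section tw

variable {k K : Type} [Field k] [Field K] [Algebra k K] {Om : Type} [Field Om] [Algebra K Om]
  [IsSepClosure K Om] {V V1 : Type} [AddCommGroup V] [DistribMulAction (Om ≃ₐ[K] Om) V]
  [AddCommGroup V1] [Module (ZMod 2) V1] {S : Sys (Om ≃ₐ[K] Om) V V1 (Place k K)}
  {T : Set (Place k K)} {Geo : Subgroup (Om ≃ₐ[K] Om)} {fr : Om ≃ₐ[K] Om} {q a C m0 : ℕ}

/-- All quadratic twists. -/
theorem tw_abs [Nontrivial V1] (h2 : (2 : K) ≠ 0) (hNN : S.NN = NP K Om)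
    (H : LocVals S.sg S.phi) (hT : T.Finite) (h : AOk S T Place.degree q Geo fr a C m0)
    (Good : ℕ → K → Prop)
    (hgood : ∀ (m : ℕ) (d : Kˣ), 1 ≤ m → SmallS S m (Pool.Agent.Lib.SmD.chi K (d : K)) →
      Good m (d : K)) :
    (∀ N, (TwLE k N (fun _ : K => True)).Finite) ∧
    ∀ ε : ℝ, 0 < ε → ∃ j N₀ : ℕ, ∀ N ≥ N₀,
      ((TwLE k N (fun d : K => ¬ Good j d)).ncard : ℝ) ≤
        ε * (TwLE k N (fun _ : K => True)).ncard := by
  obtain ⟨h1, h3⟩ := all_abs hT h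
  exact all_twists h2 hNN H h1 Good (SmallS S) hgood h3

end tw

end Pool.Agent.SmN.Fnl
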