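import Pool.Agent.Lib.SmN.Fin.TwN
import Pool.Agent.Lib.SmN.Fin.Abs
import Pool.Agent.Lib.SmNJ.Asm
import Mathlib.GroupTheory.SpecificGroups.Alternating

/-!
# SMITH-U (SmN), final layer: the Jacobians of the quadratic twists of `y ^ 2 = f(x)`

`K` a finitely generated extension of transcendence degree one of a finite field `k`, `f : K[X]` monic,
separable, of degree `2 g + 1` (`g ≥ 1`, `(2 g + 1)! ≠ 0` in `k`), with Galois group the symmetric group,
or (`g ≥ 2`) the alternating group. For every `ε > 0` there is a `j` such that for all but a proportion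
`ε` of the quadratic twists (ordered by the degree of the ramification) the `2 ^ j`-Selmer group has less
than `4 ^ j` elements; in particular the corank is at most one.
-/

set_option autoImplicit false

open Polynomial

namespace Pool.Agent.SmN.Fnl

open Pool.Agent.BSDFF (Place)
open Pool.Agent.SmJ Pool.Agent.SmNJ Pool.Agent.GBU
open Pool.Agent.SmJ.L (EV)
open Pool.Agent.SmJ.R (OddDeg Jc JP jcMap galP map_gal GoodP ZeroP OneP goodOn_iff zeroOn_iff)
open Pool.Agent.GBC (exists_ratFunc)
open Pool.Agent.Lib.SmD (chi)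

instance oddDeg_scale {K : Type} [Field K] (f : K[X]) [OddDeg f] (d : K) :
    OddDeg (f.scaleRoots d) := ⟨by
  rw [natDegree_scaleRoots]
  exact OddDeg.odd⟩

/-- The Galois group of the polynomial `f` of degree `2 g + 1` is the symmetric group, or (`g ≥ 2`) the
alternating group. -/
def GalBig {K : Type} [Field K] (f : K[X]) (g : ℕ) : Prop :=
  Nat.card f.Gal = (2 * g + 1).factorial ∨ 2 ≤ g ∧ 2 * Nat.card f.Gal = (2 * g + 1).factorial

section rts

variable {K : Type} {Ω : Type} [Field K] [Field Ω] [Algebra K Ω] {g : ℕ} {f : K[X]}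
  {a : Fin (2 * g + 1) → Ω} [RtG K a]

/-- If the Galois group has index two in the symmetric group it is the alternating group. -/
theorem alt_le_range [IsGalois K Ω] (hf : f.Separable) (ha : ff a = f.map (algebraMap K Ω))
    (hG : 2 * Nat.card f.Gal = (2 * g + 1).factorial) :
    alternatingGroup (Fin (2 * g + 1)) ≤ (pm K a).range := by
  classical
  have hsp : (f.map (algebraMap K Ω)).Splits := by
    rw [← ha, ff]
    exact Splits.prod fun i _ => Splits.X_sub_C _
  have : Fact ((f.map (algebraMap K Ω)).Splits) := ⟨hsp⟩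
  have hf0 : f ≠ 0 := hf.ne_zero
  have hinj : Function.Injective a := RtG.inj K
  have hmem : ∀ i, a i ∈ f.rootSet Ω := fun i => by
    rw [mem_rootSet]
    exact ⟨hf0, eval_root ha i⟩
  let e : Fin (2 * g + 1) ≃ f.rootSet Ω := Equiv.ofBijective (fun i => ⟨a i, hmem i⟩)
    ⟨fun i j h => hinj (congrArg Subtype.val h), fun x => by
      obtain ⟨j, hj⟩ := exists_index ha (mem_rootSet.1 x.2).2
      exact ⟨j, Subtype.ext hj.symm⟩⟩
  -- the action on `Fin (2 g + 1)`
  let Φ : f.Gal →* Equiv.Perm (Fin (2 * g + 1)) :=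
    (e.symm.permCongrHom : Equiv.Perm (f.rootSet Ω) →* Equiv.Perm (Fin (2 * g + 1))).comp
      (Gal.galActionHom f Ω)
  have hΦ : Function.Injective Φ :=
    e.symm.permCongrHom.injective.comp (Gal.galActionHom_injective f Ω)
  have hR : ∀ s : Ω ≃ₐ[K] Ω, Φ (Gal.restrict f Ω s) = pm K a s := by
    intro s
    ext i
    congr 1
    apply hinj
    rw [pm_spec K a s i]
    have h1 := Gal.galActionHom_restrict f Ω s (e i)
    change a (e.symm (Gal.galActionHom f Ω (Gal.restrict f Ω s) (e i))) = s (a i)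
    have h2 : a (e.symm (Gal.galActionHom f Ω (Gal.restrict f Ω s) (e i))) =
        (e (e.symm (Gal.galActionHom f Ω (Gal.restrict f Ω s) (e i)))).1 := rfl
    rw [h2, Equiv.apply_symm_apply]
    exact h1
  have hrange : Φ.range = (pm K a).range := by
    apply le_antisymm
    · rintro _ ⟨τ, rfl⟩
      obtain ⟨s, rfl⟩ := Gal.restrict_surjective f Ω τ
      exact ⟨s, (hR s).symm⟩
    · rintro _ ⟨s, rfl⟩
      exact ⟨_, hR s⟩
  have hcard : 2 * Nat.card Φ.range = (2 * g + 1).factorial := by
    rw [← hG, Nat.card_congr (MonoidHom.ofInjective hΦ).symm.toEquiv]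
  have hidx : (Φ.range).index = 2 := by
    have h1 := Φ.range.card_mul_index
    have h2 : Nat.card Φ.range * Φ.range.index = Nat.card Φ.range * 2 := by
      rw [h1, Nat.card_perm, Nat.card_fin, mul_comm _ 2]
      exact hcard.symm
    exact Nat.eq_of_mul_eq_mul_left Nat.card_pos h2
  rw [← hrange, Equiv.Perm.eq_alternatingGroup_of_index_eq_two hidx]

theorem bigIm_of [HypA a] [IsGalois K Ω] (hf : f.Separable)
    (ha : ff a = f.map (algebraMap K Ω)) (hG : GalBig f g) : BigIm K a := by
  rcases hG with h | ⟨hg, h⟩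
  · exact bigIm_of_surj (pm_surjective hf ha h)
  · exact bigIm_of_alt hg (alt_le_range hf ha h)

end rts

section core

variable {k K : Type} [Field k] [Finite k] [Field K] [Algebra k K] [Algebra (RatFunc k) K]
  [IsScalarTower k (RatFunc k) K] [FiniteDimensional (RatFunc k) K]
  [Algebra.IsSeparable (RatFunc k) K] {g : ℕ}

/-- The twists, `k` the field of constants of `K`. -/
theorem twJ_core (h2 : (2 : k) ≠ 0) (hn : ((2 * g + 1).factorial : K) ≠ 0)
    (hk : ∀ x : K, IsIntegral k x → ∃ c : k, algebraMap k K c = x) (hg : 1 ≤ g)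
    {f : K[X]} [OddDeg f] (hm : f.Monic) (hs : f.Separable) (hd : f.natDegree = 2 * g + 1)
    (hG : GalBig f g) :
    (∀ N, (TwLE k N (fun _ : K => True)).Finite) ∧
    ∀ ε : ℝ, 0 < ε → ∃ j N₀ : ℕ, ∀ N ≥ N₀,
      ((TwLE k N (fun d : K => ¬ GoodP k (f.scaleRoots d) j)).ncard : ℝ) ≤
        ε * (TwLE k N (fun _ : K => True)).ncard := by
  have h2K : (2 : K) ≠ 0 := by
    intro h
    apply h2
    apply (algebraMap k K).injective
    rw [map_ofNat, h, map_zero]
  have hgal : IsGalois K (SeparableClosure K) := IsSepClosure.isGalois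
  obtain ⟨a, hinj, ha⟩ := exists_rts (F := f.map (algebraMap K (SeparableClosure K)))
    (hm.map _) (hs.map) (IsSepClosed.splits_codomain f hs) (g := g) (by rw [natDegree_map]; exact hd)
  have hR : RtG K a := rtG_of h2K hinj ha
  have hA : HypA a := ⟨hinj, hR.two⟩
  have hb : BigIm K a := bigIm_of hs ha hG
  obtain ⟨T0, T, fr, ca, cC, m0, hT, -, -, -, -, hAOk⟩ :=
    exists_aOk_big k K (SeparableClosure K) a h2 hn hk hg hb (W := ∅) Set.finite_empty
  have hnt : Nontrivial (EV g) := nontrivial_EV hg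
  refine tw_abs h2K rfl (locVals h2) hT hAOk _ fun m d hm1 hsm => ?_
  exact (goodOn_iff _ _ _).2 (good_of_small h2 hn (fun w hw => hb.nofix hg w hw) hm ha d.ne_zero
    (T0 := T0) hm1 hsm)

end core

section main

variable (k K : Type) [Field k] [Finite k] [Field K] [Algebra k K] [Algebra.EssFiniteType k K]

theorem two_ne_of {F : Type} [Field F] {g : ℕ} (hg : 1 ≤ g)
    (hn : ((2 * g + 1).factorial : F) ≠ 0) : (2 : F) ≠ 0 := by
  intro h
  apply hn
  obtain ⟨c, hc⟩ := Nat.dvd_factorial (m := 2) (n := 2 * g + 1) (by norm_num) (by omega)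
  rw [hc, Nat.cast_mul, Nat.cast_two, h, zero_mul]

/-- Descent of a statement on proportions from the field of constants to `k`. -/
theorem tw_descend {k k' K : Type} [Field k] [Field k'] [Finite k] [Finite k'] [Field K]
    [Algebra k K] [Algebra k' K] [Algebra k k'] [IsScalarTower k k' K] {Bad Bad' : ℕ → K → Prop}
    (hB : ∀ j d, Bad j d → Bad' j d)
    (h : (∀ N, (TwLE k' N (fun _ : K => True)).Finite) ∧
      ∀ ε : ℝ, 0 < ε → ∃ j N₀ : ℕ, ∀ N ≥ N₀,
        ((TwLE k' N (Bad' j)).ncard : ℝ) ≤ ε * (TwLE k' N (fun _ : K => True)).ncard) :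
    (∀ N, (TwLE k N (fun _ : K => True)).Finite) ∧
      ∀ ε : ℝ, 0 < ε → ∃ j N₀ : ℕ, ∀ N ≥ N₀,
        ((TwLE k N (Bad j)).ncard : ℝ) ≤ ε * (TwLE k N (fun _ : K => True)).ncard := by
  refine ⟨fun N => ?_, fun ε hε => ?_⟩
  · rw [twLE_const k k']
    exact h.1 _
  · obtain ⟨j, N₀, h1⟩ := h.2 ε hε
    refine ⟨j, N₀ * Module.finrank k k', fun N hN => ?_⟩
    have h2 := h1 (N / Module.finrank k k') ((Nat.le_div_iff_mul_le (finrank_pos k k')).2 hN)
    rw [twLE_const k k', twLE_const k k']
    refine le_trans ?_ h2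
    refine Nat.cast_le.2 (Set.ncard_le_ncard ?_
      ((h.1 (N / Module.finrank k k')).subset (t := TwLE k' (N / Module.finrank k k') (Bad' j)) ?_))
    · rintro c ⟨d, h3, h4, h5⟩
      exact ⟨d, h3, h4, hB j _ h5⟩
    · rintro c ⟨d, h3, h4, h5⟩
      exact ⟨d, h3, h4, trivial⟩

/-- **The quadratic twists of a Jacobian with big Galois action**: for all but a proportion `ε` of the
twists the `2 ^ j`-Selmer group has less than `4 ^ j` elements and the corank is at most one. -/
theorem twists_J (hK : Algebra.trdeg k K = 1) {g : ℕ} (hg : 1 ≤ g)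
    (hn : ((2 * g + 1).factorial : k) ≠ 0) {f : K[X]} [OddDeg f] (hm : f.Monic) (hs : f.Separable)
    (hd : f.natDegree = 2 * g + 1) (hG : GalBig f g) :
    (∀ N, (TwLE k N (fun _ : K => True)).Finite) ∧
    ∀ ε : ℝ, 0 < ε → ∃ j N₀ : ℕ, ∀ N ≥ N₀,
      ((TwLE k N (fun d : K => ¬ GoodP k (f.scaleRoots d) j)).ncard : ℝ) ≤
        ε * (TwLE k N (fun _ : K => True)).ncard := by
  have hfin : Finite (cst k K) := finite_cst k K hK
  have htr : Algebra.trdeg (cst k K) K = 1 := trdeg_cst k K hK
  have hess : Algebra.EssFiniteType (cst k K) K := essFinite_cst k K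
  have hpf : PerfectField (cst k K) := inferInstance
  obtain ⟨alg, i1, i2, i3⟩ := exists_ratFunc (cst k K) K htr
  have hn' : ((2 * g + 1).factorial : cst k K) ≠ 0 := by
    intro h
    apply hn
    apply (algebraMap k (cst k K)).injective
    rw [map_natCast, h, map_zero]
  have hnK : ((2 * g + 1).factorial : K) ≠ 0 := by
    intro h
    apply hn
    apply (algebraMap k K).injective
    rw [map_natCast, h, map_zero]
  refine tw_descend (k' := cst k K)
    (Bad' := fun j d => ¬ GoodP (cst k K) (f.scaleRoots d) j) (fun j d h h' => h ?_)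
    (twJ_core (two_ne_of hg hn') hnK
      (fun x hx => const_cst k K x (SmBU.isIntegral_iff_isC.1 hx)) hg hm hs hd hG)
  exact (goodOn_iff _ _ _).2 (goodOnJ_const (cst k K) k _ _ ((goodOn_iff _ _ _).1 h'))

end main

end Pool.Agent.SmN.Fnl
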