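import Pool.Agent.Lib.SmN.Fin.AllE

/-!
# SMITH-U (SmN), final layer: the exceptional `j`-invariants, geometric Galois group

`GenG k j`: the 2-division cubic of the curves with invariant `j` has geometric Galois group `S_3`: `GenJ j`
and `j - 1728` is not a constant times a square.
`few_nonGenG`: the `j` without this property are few among those of height at most `h`.
`all_pairsW`: the passage from the twists to all pairs for any property of `j` which holds for almost all `j`.
-/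

set_option autoImplicit false

namespace Pool.Agent.SmN.Fnl

open Pool.Agent.BSDFF Pool.Agent.GBC Pool.Agent.GBU

/-- `GenJ j`, and `j - 1728` is not a constant times a square: the 2-division field of the elliptic curves
with invariant `j` has geometric Galois group `S_3`. -/
structure GenG (k : Type) {K : Type} [Field k] [Field K] [Algebra k K] (j : K) : Prop where
  gen : GenJ j
  csq : ∀ (c : k) (s : K), algebraMap k K c * s ^ 2 ≠ j - 1728

section

variable {k K : Type} [Field k] [Field K] [Algebra k K]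

/-- If `c * s ^ 2` has height at most `h`, `c ≠ 0` a constant, then `s` has height at most `h / 2`. -/
theorem mem_half_of_csq {D : Place k K →₀ ℤ} (h : 0 ≤ D) {c : k} (hc : c ≠ 0) {s : K}
    (hs : algebraMap k K c * s ^ 2 ∈ LL D) : s ∈ LL (halfD D) := by
  have h1 : (c⁻¹ : k) • (algebraMap k K c * s ^ 2) ∈ LL D := (LL D).smul_mem _ hs
  have h2 : (c⁻¹ : k) • (algebraMap k K c * s ^ 2) = s ^ 2 := by
    rw [Algebra.smul_def, ← mul_assoc, ← map_mul, inv_mul_cancel₀ hc, map_one, one_mul]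
  rw [h2] at h1
  exact mem_half_of_sq h h1

variable (G : Geo k K) [Finite k]

omit [Finite k] in
/-- The `j` of height at most `h` which are not generic in the geometric sense. -/
theorem nonGenG_subset (h : ℕ) :
    {j : K | HtLE k h j ∧ ¬ GenG k j} ⊆
      {j : K | HtLE k h j ∧ ¬ GenJ j} ∪
        (fun z : k × K => algebraMap k K z.1 * z.2 ^ 2 + 1728) ''
          (Set.univ ×ˢ {s | HtLE k (h / 2) s}) := by
  rintro j ⟨⟨D, hD, hd, hj⟩, hg⟩
  by_cases hgen : GenJ j
  · right
    obtain ⟨c, s, hs⟩ : ∃ (c : k) (s : K), algebraMap k K c * s ^ 2 = j - 1728 := by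
      by_contra hcon
      push Not at hcon
      exact hg ⟨hgen, hcon⟩
    have hc : c ≠ 0 := by
      rintro rfl
      rw [map_zero, zero_mul] at hs
      exact hgen.ne1728 (by linear_combination -hs)
    refine ⟨(c, s), ⟨Set.mem_univ _, halfD D, halfD_nonneg hD, degD_halfD hD hd,
      mem_half_of_csq hD hc ?_⟩, ?_⟩
    · change algebraMap k K c * s ^ 2 ∈ LL D
      rw [hs]
      have h3 := natCast_mem_LL (K := K) hD 1728
      push_cast at h3
      exact (LL D).sub_mem hj h3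
    · change algebraMap k K c * s ^ 2 + 1728 = j
      rw [hs]
      ring
  · exact Or.inl ⟨⟨D, hD, hd, hj⟩, hgen⟩

include G in
/-- **The exceptional `j`-invariants are few, geometric form.** -/
theorem few_nonGenG (h6 : (6 : k) ≠ 0) (ε : ℝ) (hε : 0 < ε) : ∃ h₀ : ℕ, ∀ h ≥ h₀,
    ({j : K | HtLE k h j ∧ ¬ GenG k j}.ncard : ℝ) ≤ ε * {j : K | HtLE k h j}.ncard := by
  have hq : (0 : ℝ) < Nat.card k := by exact_mod_cast Nat.card_pos
  obtain ⟨h₁, hh₁⟩ := few_nongen G h6 (ε / 2) (by linarith)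
  obtain ⟨m₀, hm₀⟩ := htLE_ratio G (ε / 2 / Nat.card k) (by positivity)
  refine ⟨max h₁ (2 * m₀), fun h hh => ?_⟩
  have e1 := hh₁ h ((le_max_left _ _).trans hh)
  have e2 := hm₀ (h / 2) (by
    have := (le_max_right _ _).trans hh
    omega)
  have hfin := finite_htLE G (h / 2)
  have hfin2 := finite_htLE G h
  have hfk : (Set.univ : Set k).Finite := Set.finite_univ
  have h1 : {j : K | HtLE k h j ∧ ¬ GenG k j}.ncard ≤ {j : K | HtLE k h j ∧ ¬ GenJ j}.ncard +
      Nat.card k * {x : K | HtLE k (h / 2) x}.ncard := by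
    refine (Set.ncard_le_ncard (nonGenG_subset h) ((hfin2.subset fun j hj => hj.1).union
      ((hfk.prod hfin).image _))).trans ((Set.ncard_union_le _ _).trans
        (Nat.add_le_add_left ?_ _))
    refine (Set.ncard_image_le (hfk.prod hfin)).trans ?_
    rw [Set.ncard_prod, Set.ncard_univ]
  have h1' : ({j : K | HtLE k h j ∧ ¬ GenG k j}.ncard : ℝ) ≤
      {j : K | HtLE k h j ∧ ¬ GenJ j}.ncard +
        Nat.card k * {x : K | HtLE k (h / 2) x}.ncard := by
    exact_mod_cast h1
  have h5 : ({x : K | HtLE k (2 * (h / 2)) x}.ncard : ℝ) ≤ {x : K | HtLE k h x}.ncard := by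
    have := Set.ncard_le_ncard (fun (x : K) (hx : HtLE k (2 * (h / 2)) x) =>
      hx.mono (h' := h) (by omega)) hfin2
    exact_mod_cast this
  calc ({j : K | HtLE k h j ∧ ¬ GenG k j}.ncard : ℝ)
      ≤ {j : K | HtLE k h j ∧ ¬ GenJ j}.ncard +
        Nat.card k * {x : K | HtLE k (h / 2) x}.ncard := h1'
    _ ≤ ε / 2 * {j : K | HtLE k h j}.ncard +
        Nat.card k * (ε / 2 / Nat.card k * {x : K | HtLE k (2 * (h / 2)) x}.ncard) :=
        add_le_add e1 (mul_le_mul_of_nonneg_left e2 hq.le)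
    _ = ε / 2 * {j : K | HtLE k h j}.ncard + ε / 2 * {x : K | HtLE k (2 * (h / 2)) x}.ncard := by
        field_simp
    _ ≤ ε / 2 * {j : K | HtLE k h j}.ncard + ε / 2 * {x : K | HtLE k h x}.ncard := by
        have : ε / 2 * {x : K | HtLE k (2 * (h / 2)) x}.ncard ≤
            ε / 2 * {x : K | HtLE k h x}.ncard :=
          mul_le_mul_of_nonneg_left h5 (by linarith)
        linarith
    _ = ε * {j : K | HtLE k h j}.ncard := by ring

end

section

variable {k K : Type} [Field k] [Finite k] [Field K] [Algebra k K] (G : Geo k K)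

include G

/-- **From the twists to all elliptic curves**, for any property `Gen` which almost all `j` have. -/
theorem all_pairsW {Gen : K → Prop} (hgen : ∀ ε : ℝ, 0 < ε → ∃ h₀ : ℕ, ∀ h ≥ h₀,
      ({j : K | HtLE k h j ∧ ¬ Gen j}.ncard : ℝ) ≤ ε * {j : K | HtLE k h j}.ncard)
    (hfin : ∀ N, (TwLE k N (fun _ : K => True)).Finite)
    {P : K → K → Prop} (htw : ∀ j : K, Gen j → ∀ ε : ℝ, 0 < ε → ∃ N₀ : ℕ, ∀ N ≥ N₀,
      ((TwLE k N (fun d : K => ¬ P j d)).ncard : ℝ) ≤ ε * (TwLE k N (fun _ : K => True)).ncard)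
    (ε : ℝ) (hε : 0 < ε) : ∃ h₀ : ℕ, ∀ h ≥ h₀, ∃ N₀ : ℕ, ∀ N ≥ N₀,
      ((AllLE k h N (fun j d => ¬ P j d)).ncard : ℝ) ≤
        ε * (AllLE k h N (fun _ _ : K => True)).ncard := by
  classical
  obtain ⟨h₁, hh₁⟩ := hgen (ε / 4) (by linarith)
  obtain ⟨h₂, hh₂⟩ := htLE_ratio G (1 / 2) (by norm_num)
  refine ⟨max h₁ (2 * h₂ + 2), fun h hh => ?_⟩
  have hh1 : h₁ ≤ h := (le_max_left _ _).trans hh
  have hh2 : 2 * h₂ + 2 ≤ h := (le_max_right _ _).trans hh
  have hfh := finite_htLE G h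
  -- the invariants
  set J : Set K := {j | HtLE k h j ∧ j ≠ 0 ∧ j ≠ 1728} with hJ
  have hJf : J.Finite := hfh.subset fun j hj => hj.1
  have hJ2 : ({j : K | HtLE k h j}.ncard : ℝ) ≤ 2 * J.ncard := by
    have e1 := hh₂ (h / 2) (by omega)
    have e2 : {x : K | HtLE k (2 * (h / 2)) x}.ncard ≤ {x : K | HtLE k h x}.ncard :=
      Set.ncard_le_ncard (fun (x : K) (hx : HtLE k (2 * (h / 2)) x) =>
        hx.mono (h' := h) (by omega)) hfh
    have e3 : ({0, 1} : Set K).ncard ≤ {x : K | HtLE k (h / 2) x}.ncard := by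
      refine Set.ncard_le_ncard ?_ (finite_htLE G (h / 2))
      rintro x (rfl | rfl)
      · exact ⟨0, le_rfl, by rw [degD_zero]; exact Int.natCast_nonneg _, (LL _).zero_mem⟩
      · refine ⟨0, le_rfl, by rw [degD_zero]; exact Int.natCast_nonneg _, ?_⟩
        have := natCast_mem_LL (k := k) (K := K) (le_refl (0 : Place k K →₀ ℤ)) 1
        rwa [Nat.cast_one] at this
    rw [Set.ncard_pair zero_ne_one] at e3
    have e4 : {j : K | HtLE k h j}.ncard ≤ J.ncard + 2 := by
      have e5 : {j : K | HtLE k h j} ⊆ J ∪ {0, 1728} := by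
        intro j hj
        by_cases a1 : j = 0
        · exact Or.inr (Or.inl a1)
        by_cases a2 : j = 1728
        · exact Or.inr (Or.inr a2)
        · exact Or.inl ⟨hj, a1, a2⟩
      refine (Set.ncard_le_ncard e5 (hJf.union (Set.toFinite _))).trans
        ((Set.ncard_union_le _ _).trans (Nat.add_le_add_left ?_ _))
      exact (Set.ncard_insert_le _ _).trans (by rw [Set.ncard_singleton])
    have e2' : ({x : K | HtLE k (2 * (h / 2)) x}.ncard : ℝ) ≤ {x : K | HtLE k h x}.ncard := by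
      exact_mod_cast e2
    have e3' : (2 : ℝ) ≤ {x : K | HtLE k (h / 2) x}.ncard := by exact_mod_cast e3
    have e4' : ({j : K | HtLE k h j}.ncard : ℝ) ≤ J.ncard + 2 := by exact_mod_cast e4
    linarith
  choose! N₁ hN₁ using fun (j : K) (hj : Gen j) => htw j hj (ε / 2) (by linarith)
  refine ⟨hJf.toFinset.sup N₁, fun N hN => ?_⟩
  set T : Set (Tws K) := TwLE k N (fun _ : K => True) with hT
  have hTf : T.Finite := hfin N
  have hall : AllLE k h N (fun _ _ : K => True) = J ×ˢ T := by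
    ext ⟨j, c⟩
    constructor
    · rintro ⟨a1, a2, a3, a4⟩
      exact ⟨⟨a1, a2, a3⟩, a4⟩
    · rintro ⟨⟨a1, a2, a3⟩, a4⟩
      exact ⟨a1, a2, a3, a4⟩
  have hcard : ((AllLE k h N (fun _ _ : K => True)).ncard : ℝ) = J.ncard * T.ncard := by
    rw [hall, Set.ncard_prod]
    push_cast
    rfl
  -- the bad pairs
  have hbad : AllLE k h N (fun j d => ¬ P j d) ⊆
      ({j : K | HtLE k h j ∧ ¬ Gen j} ×ˢ T) ∪
        ⋃ j ∈ hJf.toFinset.filter fun j => Gen j, (fun c => (j, c)) ''
          TwLE k N (fun d : K => ¬ P j d) := by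
    rintro ⟨j, c⟩ ⟨a1, a2, a3, d, hd, hd1, hd2⟩
    by_cases hg : Gen j
    · right
      simp only [Set.mem_iUnion]
      refine ⟨j, ?_, c, ⟨d, hd, hd1, hd2⟩, rfl⟩
      rw [Finset.mem_filter, Set.Finite.mem_toFinset]
      exact ⟨⟨a1, a2, a3⟩, hg⟩
    · left
      exact ⟨⟨a1, hg⟩, d, hd, hd1, trivial⟩
  have hTsub : ∀ j : K, TwLE k N (fun d : K => ¬ P j d) ⊆ T := by
    rintro j c ⟨d, h1, h3, _⟩
    exact ⟨d, h1, h3, trivial⟩
  set F : Finset K := hJf.toFinset.filter fun j => Gen j with hF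
  have hEf : {j : K | HtLE k h j ∧ ¬ Gen j}.Finite := hfh.subset fun j hj => hj.1
  have hBf : ∀ j : K, ((fun c : Tws K => (j, c)) ''
      TwLE k N (fun d : K => ¬ P j d)).Finite := fun j => (hTf.subset (hTsub j)).image _
  have hUf : (⋃ j ∈ F, (fun c : Tws K => (j, c)) '' TwLE k N (fun d : K => ¬ P j d)).Finite :=
    Set.Finite.biUnion (Finset.finite_toSet _) fun j _ => hBf j
  have h3 : (AllLE k h N (fun j d => ¬ P j d)).ncard ≤
      {j : K | HtLE k h j ∧ ¬ Gen j}.ncard * T.ncard +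
        ∑ j ∈ F, (TwLE k N (fun d : K => ¬ P j d)).ncard := by
    refine (Set.ncard_le_ncard hbad ((hEf.prod hTf).union hUf)).trans
      ((Set.ncard_union_le _ _).trans (add_le_add ?_ ?_))
    · rw [Set.ncard_prod]
    · refine (Finset.set_ncard_biUnion_le _ _).trans (Finset.sum_le_sum fun j _ => ?_)
      exact Set.ncard_image_le (hTf.subset (hTsub j))
  have h4 : ∀ j ∈ F, ((TwLE k N (fun d : K => ¬ P j d)).ncard : ℝ) ≤ ε / 2 * T.ncard := by
    intro j hj
    rw [hF, Finset.mem_filter] at hj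
    exact hN₁ j hj.2 N ((Finset.le_sup hj.1).trans hN)
  have h5 : F.card ≤ J.ncard := by
    rw [Set.ncard_eq_toFinset_card _ hJf]
    exact Finset.card_filter_le _ _
  have hT0 : (0 : ℝ) ≤ T.ncard := Nat.cast_nonneg _
  have h3' : ((AllLE k h N (fun j d => ¬ P j d)).ncard : ℝ) ≤
      {j : K | HtLE k h j ∧ ¬ Gen j}.ncard * T.ncard +
        ∑ j ∈ F, ((TwLE k N (fun d : K => ¬ P j d)).ncard : ℝ) := by
    exact_mod_cast h3
  rw [hcard]
  have h6 := hh₁ h hh1
  calc ((AllLE k h N (fun j d => ¬ P j d)).ncard : ℝ)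
      ≤ {j : K | HtLE k h j ∧ ¬ Gen j}.ncard * T.ncard +
        ∑ j ∈ F, ((TwLE k N (fun d : K => ¬ P j d)).ncard : ℝ) := h3'
    _ ≤ (ε / 4 * {j : K | HtLE k h j}.ncard) * T.ncard + ∑ _j ∈ F, ε / 2 * T.ncard :=
        add_le_add (mul_le_mul_of_nonneg_right h6 hT0) (Finset.sum_le_sum h4)
    _ = (ε / 4 * {j : K | HtLE k h j}.ncard) * T.ncard + F.card * (ε / 2 * T.ncard) := by
        rw [Finset.sum_const, nsmul_eq_mul]
    _ ≤ (ε / 4 * (2 * J.ncard)) * T.ncard + J.ncard * (ε / 2 * T.ncard) := by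
        refine add_le_add (mul_le_mul_of_nonneg_right
          (mul_le_mul_of_nonneg_left hJ2 (by linarith)) hT0)
          (mul_le_mul_of_nonneg_right (by exact_mod_cast h5) (mul_nonneg (by linarith) hT0))
    _ = ε * (J.ncard * T.ncard) := by ring

end

end Pool.Agent.SmN.Fnl
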