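import Pool.Agent.Lib.SmNJ.Defs
import Pool.Agent.Lib.SmJ.L.JacP
import Mathlib.FieldTheory.PolynomialGaloisGroup
import Mathlib.FieldTheory.IsSepClosed

/-!
# SMITH-U (SmN), final layer: the roots of `f` and its Galois group

`f : K[X]` monic, separable, of degree `2 g + 1`; `a i` its roots in a separable closure of `K`. If the
Galois group of `f` has order `(2 g + 1)!`, every permutation of the roots is induced by an element of
the absolute Galois group.
-/

set_option autoImplicit false

open Polynomial

namespace Pool.Agent.SmN.Fnl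

open Pool.Agent.SmJ Pool.Agent.SmNJ

/-- The roots. -/
theorem exists_rts {Ω : Type} [Field Ω] {F : Polynomial Ω} (hm : F.Monic) (hs : F.Separable)
    (hsp : F.Splits) {g : ℕ} (hd : F.natDegree = 2 * g + 1) :
    ∃ a : Fin (2 * g + 1) → Ω, Function.Injective a ∧ ff a = F := by
  classical
  have hc : F.roots.toFinset.card = 2 * g + 1 := by
    rw [← hd, hsp.natDegree_eq_card_roots]
    exact Multiset.toFinset_card_of_nodup (nodup_roots hs)
  let e := F.roots.toFinset.equivFinOfCardEq hc
  refine ⟨fun i => (e.symm i).1, fun i j h => e.symm.injective (Subtype.ext h), ?_⟩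
  have h1 : ff (fun i => (e.symm i).1) = ∏ x ∈ F.roots.toFinset, (X - C x) := by
    rw [ff, ← Finset.prod_coe_sort F.roots.toFinset]
    exact Equiv.prod_comp e.symm fun x : F.roots.toFinset => (X - C (x : Ω) : Polynomial Ω)
  rw [h1]
  have h2 := hsp.eq_prod_roots_of_monic hm
  conv_rhs => rw [h2]
  rw [Finset.prod, Multiset.toFinset_val, (nodup_roots hs).dedup]

section

variable {K : Type} {Ω : Type} [Field K] [Field Ω] [Algebra K Ω] {g : ℕ} {f : K[X]}
  {a : Fin (2 * g + 1) → Ω}

theorem eval_root (ha : ff a = f.map (algebraMap K Ω)) (i : Fin (2 * g + 1)) :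
    aeval (a i) f = 0 := by
  rw [← eval_map_algebraMap, ← ha, ff, eval_prod]
  exact Finset.prod_eq_zero (Finset.mem_univ i) (by simp)

theorem exists_index (ha : ff a = f.map (algebraMap K Ω)) {x : Ω} (hx : aeval x f = 0) :
    ∃ j, x = a j := by
  rw [← eval_map_algebraMap, ← ha, ff, eval_prod, Finset.prod_eq_zero_iff] at hx
  obtain ⟨j, -, hj⟩ := hx
  rw [eval_sub, eval_X, eval_C, sub_eq_zero] at hj
  exact ⟨j, hj⟩

theorem rtG_of (h2 : (2 : K) ≠ 0) (hinj : Function.Injective a)
    (ha : ff a = f.map (algebraMap K Ω)) : RtG K a where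
  inj := hinj
  two := by
    intro h
    apply h2
    apply (algebraMap K Ω).injective
    rw [map_ofNat, h, map_zero]
  perm := by
    intro s i
    refine exists_index ha ?_
    have h1 : aeval (s (a i)) f = s (aeval (a i) f) := (aeval_algHom_apply s.toAlgHom (a i) f)
    rw [h1, eval_root ha, map_zero]

/-- The twist. -/
theorem ff_scale (ha : ff a = f.map (algebraMap K Ω)) (hm : f.Monic) (d : K) :
    ff (fun i => algebraMap K Ω d * a i) = (f.scaleRoots d).map (algebraMap K Ω) := by
  have h1 : ∀ (s : Finset (Fin (2 * g + 1))) (c : Ω), (∏ i ∈ s, (X - C (a i))).scaleRoots c =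
      ∏ i ∈ s, (X - C (c * a i)) := by
    intro s c
    induction s using Finset.cons_induction with
    | empty =>
      rw [Finset.prod_empty, Finset.prod_empty]
      exact one_scaleRoots c
    | cons i s hi ih =>
      rw [Finset.prod_cons, Finset.prod_cons, mul_scaleRoots_of_noZeroDivisors, ih,
        X_sub_C_scaleRoots]
      congr 3
      exact mul_comm _ _
  rw [map_scaleRoots _ _ _ (by rw [hm.leadingCoeff, map_one]; exact one_ne_zero), ← ha, ff, ff, h1]

variable [RtG K a]

/-- Every permutation of the roots is induced by an element of the Galois group. -/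
theorem pm_surjective [IsGalois K Ω] (hf : f.Separable) (ha : ff a = f.map (algebraMap K Ω))
    (hG : Nat.card f.Gal = (2 * g + 1).factorial) : Function.Surjective (pm K a) := by
  classical
  have hsp : (f.map (algebraMap K Ω)).Splits := by
    rw [← ha, ff]
    exact Splits.prod fun i _ => Splits.X_sub_C _
  have : Fact ((f.map (algebraMap K Ω)).Splits) := ⟨hsp⟩
  have hf0 : f ≠ 0 := hf.ne_zero
  have hinj : Function.Injective a := RtG.inj K
  have hmem : ∀ i, a i ∈ f.rootSet Ω := fun i => by
    rw [mem_rootSet]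
    exact ⟨hf0, eval_root ha i⟩
  let e : Fin (2 * g + 1) ≃ f.rootSet Ω := Equiv.ofBijective (fun i => ⟨a i, hmem i⟩)
    ⟨fun i j h => hinj (congrArg Subtype.val h), fun x => by
      obtain ⟨j, hj⟩ := exists_index ha (mem_rootSet.1 x.2).2
      exact ⟨j, Subtype.ext hj.symm⟩⟩
  have hbij : Function.Bijective (Gal.galActionHom f Ω) := by
    have : Finite (f.rootSet Ω) := Finite.of_equiv _ e
    rw [Nat.bijective_iff_injective_and_card]
    refine ⟨Gal.galActionHom_injective f Ω, ?_⟩
    rw [hG, Nat.card_perm, ← Nat.card_congr e, Nat.card_fin]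
  intro σ
  obtain ⟨τ, hτ⟩ := hbij.2 (e.permCongr σ)
  obtain ⟨s, hs⟩ := Gal.restrict_surjective f Ω τ
  refine ⟨s, ?_⟩
  ext i
  congr 1
  apply hinj
  rw [pm_spec K a s i]
  have h1 := Gal.galActionHom_restrict f Ω s (e i)
  rw [hs, hτ] at h1
  rw [Equiv.permCongr_apply, Equiv.symm_apply_apply] at h1
  exact h1.symm

end

end Pool.Agent.SmN.Fnl
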