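import Pool.Agent.Lib.SmN.Fin.GalJ
import Pool.Agent.Lib.SmN.Fin.JGenG
import Pool.Agent.Lib.SmN.Fin.Rts
import Pool.Agent.Lib.GBU.GeoC
import Mathlib.LinearAlgebra.Vandermonde
import Mathlib.GroupTheory.SpecificGroups.Alternating

/-!
# SMITH-U (SmN), final layer: the geometric Galois group

`geo_surj`: if the Galois group of the roots `a` is the full symmetric group and the discriminant is not
a constant times a square, then the geometric subgroup `GeoK` maps onto the symmetric group.
`exists_fr_ker`: a Frobenius element on the constants which fixes the roots.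
-/

set_option autoImplicit false

open Polynomial Equiv
open scoped commutatorElement

namespace Pool.Agent.SmN.Fnl

open Pool.Agent.SmJ Pool.Agent.SmNJ Pool.Agent.GBU

/-- Every three cycle is a commutator. -/
theorem alt_le_commutator (α : Type*) [Fintype α] [DecidableEq α] :
    alternatingGroup α ≤ commutator (Perm α) := by
  rw [← Perm.closure_three_cycles_eq_alternating, Subgroup.closure_le]
  intro σ hσ
  have hσ' : σ.IsThreeCycle := hσ
  have h1 : (σ * σ).IsThreeCycle := hσ'.isThreeCycle_sq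
  obtain ⟨x, hx⟩ : (σ * σ).support.Nonempty := by
    rw [← Finset.card_pos, h1.card_support]
    norm_num
  have h2 := h1.eq_swap_mul_swap_iff_mem_support.2 hx
  set p := swap x ((σ * σ) x)
  set q := swap ((σ * σ) x) ((σ * σ) ((σ * σ) x))
  have hp : p⁻¹ = p := swap_inv _ _
  have hq : q⁻¹ = q := swap_inv _ _
  have h3 : σ ^ 3 = 1 := by
    rw [← hσ'.orderOf]
    exact pow_orderOf_eq_one σ
  have h4 : ⁅p, q⁆ = σ := by
    rw [commutatorElement_def, hp, hq]
    calc p * q * p * q = (p * q) * (p * q) := by group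
      _ = σ := by
        rw [← h2]
        calc σ * σ * (σ * σ) = σ ^ 3 * σ := by simp only [pow_succ, pow_zero, one_mul, mul_assoc]
          _ = σ := by rw [h3, one_mul]
  rw [SetLike.mem_coe, ← h4]
  exact Subgroup.commutator_mem_commutator (Subgroup.mem_top _) (Subgroup.mem_top _)

section

variable {k K Ω : Type} [Field k] [Field K] [Algebra k K] [Field Ω] [Algebra K Ω] {g : ℕ}
  (a : Fin (2 * g + 1) → Ω)

/-- The product of the differences of the roots. -/
noncomputable def vdm : Ω := (Matrix.vandermonde a).det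

theorem vdm_ne_zero (ha : Function.Injective a) : vdm a ≠ 0 :=
  Matrix.det_vandermonde_ne_zero_iff.2 ha

theorem map_vdm [RtG K a] (s : Ω ≃ₐ[K] Ω) :
    s (vdm a) = (Perm.sign (pm K a s) : ℤ) * vdm a := by
  rw [vdm]
  have h1 : s (Matrix.vandermonde a).det = ((s : Ω →+* Ω).mapMatrix (Matrix.vandermonde a)).det :=
    RingHom.map_det (s : Ω →+* Ω) _
  have h2 : (s : Ω →+* Ω).mapMatrix (Matrix.vandermonde a) =
      (Matrix.vandermonde a).submatrix (pm K a s) id := by
    ext i j
    rw [RingHom.mapMatrix_apply, Matrix.map_apply, Matrix.submatrix_apply,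
      Matrix.vandermonde_apply, Matrix.vandermonde_apply, id_eq, pm_spec K a s i]
    exact map_pow s (a i) j
  rw [h1, h2, Matrix.det_permute]

theorem map_vdm_iff [RtG K a] (s : Ω ≃ₐ[K] Ω) :
    s (vdm a) = vdm a ↔ Perm.sign (pm K a s) = 1 := by
  rw [map_vdm]
  have h0 : vdm a ≠ 0 := vdm_ne_zero a (RtG.inj K (a := a))
  rcases Int.units_eq_one_or (Perm.sign (pm K a s)) with h | h
  · rw [h]
    simp
  · rw [h]
    have h2 := RtG.two K a
    constructor
    · intro h3
      exfalso
      apply h2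
      have h4 : (2 : Ω) * vdm a = 0 := by
        push_cast at h3
        linear_combination -h3
      exact (mul_eq_zero.1 h4).resolve_right h0
    · intro h3
      exact absurd h3 (by decide)

/-- The geometric group contains the alternating group. -/
theorem alt_le_geo [Finite k] [RtG K a] (hs : Function.Surjective (pm K a)) :
    alternatingGroup (Fin (2 * g + 1)) ≤ (GeoK k K Ω).map (pm K a) := by
  refine (alt_le_commutator _).trans ?_
  have h1 : commutator (Perm (Fin (2 * g + 1))) = (commutator (Ω ≃ₐ[K] Ω)).map (pm K a) := by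
    rw [commutator_def, commutator_def, Subgroup.map_commutator, ← MonoidHom.range_eq_map,
      MonoidHom.range_eq_top.2 hs]
  rw [h1]
  exact Subgroup.map_mono commutator_le_GeoK

omit [Algebra K Ω] [Field K] in
/-- The square of the product of the differences is the discriminant. -/
theorem discr_ff [Field K] [Algebra K Ω] : (ff a).discr = vdm a ^ 2 := by
  classical
  have hdeg : (ff a).natDegree = 2 * g + 1 := by
    rw [ff, natDegree_prod_of_monic _ _ fun i _ => monic_X_sub_C (a i)]
    simp
  have hpos : 0 < (ff a).degree := natDegree_pos_iff_degree_pos.1 (by omega)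
  have h1 := resultant_deriv hpos
  rw [(ff_monic a).leadingCoeff, mul_one] at h1
  -- the resultant as a product
  have h2 : (ff a).resultant (ff a).derivative (ff a).natDegree ((ff a).natDegree - 1) =
      ∏ i, (ff a).derivative.eval (a i) := by
    have hle : (ff a).derivative.natDegree ≤ (ff a).natDegree - 1 := natDegree_derivative_le _
    have h3 := resultant_prod_left (R := Ω) Finset.univ (fun i => X - C (a i)) (ff a).derivative
      ((ff a).natDegree - 1) (by simp) hle
    have h4 : (∏ i, (X - C (a i))) = ff a := rfl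
    rw [h4] at h3
    rw [h3]
    refine Finset.prod_congr rfl fun i _ => ?_
    rw [natDegree_X_sub_C, resultant_X_sub_C_left _ _ _ hle]
  have h5 : ∀ i, (ff a).derivative.eval (a i) = ∏ j ∈ ({i}ᶜ : Finset (Fin (2 * g + 1))),
      (a i - a j) := by
    intro i
    have h6 : ff a = Lagrange.nodal Finset.univ a := rfl
    rw [h6, Lagrange.eval_nodal_derivative_eval_node_eq (Finset.mem_univ i), Lagrange.nodal,
      eval_prod]
    refine Finset.prod_congr ?_ fun j _ => by simp
    ext j
    simp
  have h7 : ∏ i, ∏ j ∈ ({i}ᶜ : Finset (Fin (2 * g + 1))), (a i - a j) =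
      (-1) ^ ((2 * g + 1) * (2 * g + 1 - 1) / 2) * vdm a ^ 2 := by
    have h8 := Finset.prod_prod_Ioi_mul_eq_prod_prod_off_diag
      (fun j i : Fin (2 * g + 1) => a i - a j)
    rw [← h8, vdm, Matrix.det_vandermonde, ← Finset.prod_pow]
    have h9 : ∀ i : Fin (2 * g + 1), ∏ j ∈ Finset.Ioi i, (a i - a j) * (a j - a i) =
        (-1) ^ (Finset.Ioi i).card * (∏ j ∈ Finset.Ioi i, (a j - a i)) ^ 2 := by
      intro i
      rw [← Finset.prod_pow, ← Finset.prod_const, ← Finset.prod_mul_distrib]
      refine Finset.prod_congr rfl fun j _ => ?_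
      ring
    rw [Finset.prod_congr rfl fun i _ => h9 i, Finset.prod_mul_distrib,
      Finset.prod_pow_eq_pow_sum]
    congr 2
    have h10 : ∀ i : Fin (2 * g + 1), (Finset.Ioi i).card = 2 * g + 1 - 1 - (i : ℕ) := fun i =>
      Fin.card_Ioi i
    rw [Finset.sum_congr rfl fun i _ => h10 i,
      Fin.sum_univ_eq_sum_range (fun i => 2 * g + 1 - 1 - i) (2 * g + 1),
      Finset.sum_range_reflect (fun i => i) (2 * g + 1), Finset.sum_range_id]
  rw [h2, Finset.prod_congr rfl fun i _ => h5 i, h7, hdeg] at h1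
  exact (mul_left_cancel₀ (pow_ne_zero _ (neg_ne_zero.2 one_ne_zero)) h1).symm

/-- The discriminant of a monic polynomial in an extension. -/
theorem discr_map_monic {F : K[X]} (hm : F.Monic) (hpos : 0 < F.natDegree) :
    (F.map (algebraMap K Ω)).discr = algebraMap K Ω F.discr := by
  have hd : (F.map (algebraMap K Ω)).natDegree = F.natDegree := natDegree_map _
  have h1 := resultant_deriv (natDegree_pos_iff_degree_pos.1 hpos)
  have h2 := resultant_deriv (f := F.map (algebraMap K Ω))
    (natDegree_pos_iff_degree_pos.1 (by rw [hd]; exact hpos))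
  rw [hm.leadingCoeff, mul_one] at h1
  rw [(hm.map _).leadingCoeff, mul_one, derivative_map, resultant_map_map, hd, h1, map_mul, map_pow,
    map_neg, map_one] at h2
  exact (mul_left_cancel₀ (pow_ne_zero _ (neg_ne_zero.2 one_ne_zero)) h2).symm

theorem vdm_sq {F : K[X]} (hm : F.Monic) (ha : ff a = F.map (algebraMap K Ω)) :
    vdm a ^ 2 = algebraMap K Ω F.discr := by
  have h1 : F.natDegree = 2 * g + 1 := by
    have h2 : (ff a).natDegree = 2 * g + 1 := by
      rw [ff, natDegree_prod_of_monic _ _ fun i _ => monic_X_sub_C (a i)]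
      simp
    rw [ha, natDegree_map] at h2
    exact h2
  rw [← discr_ff (K := K) a, ha, discr_map_monic hm (by omega)]

/-- The Frobenius element of the constants acts on the square root of a non-square constant by
`-1`. -/
theorem fr_sqrt [Finite k] (h2 : (2 : k) ≠ 0) {c : k} (hc : ¬ IsSquare c) {γ : Ω}
    (hγ : γ ^ 2 = algebraMap K Ω (algebraMap k K c)) :
    γ ^ Nat.card k = -γ ∧ IsC k γ := by
  have := Fintype.ofFinite k
  have hchar : ringChar k ≠ 2 := by
    intro h
    apply h2
    have h3 := ringChar.Nat.cast_ringChar (R := k)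
    rw [h] at h3
    exact_mod_cast h3
  have hc0 : c ≠ 0 := by
    rintro rfl
    exact hc ⟨0, (mul_zero 0).symm⟩
  have hodd := FiniteField.odd_card_of_char_ne_two hchar
  have h1 : c ^ (Fintype.card k / 2) = -1 :=
    (FiniteField.pow_dichotomy hchar hc0).resolve_left fun h => hc
      ((FiniteField.isSquare_iff hchar hc0).2 h)
  have hq : Nat.card k = 2 * (Fintype.card k / 2) + 1 := by
    rw [Nat.card_eq_fintype_card]
    omega
  have h3 : γ ^ Nat.card k = -γ := by
    rw [hq, pow_succ, pow_mul, hγ, ← map_pow, ← map_pow, h1, map_neg, map_neg, map_one, map_one]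
    ring
  refine ⟨h3, 2, two_pos, ?_⟩
  rw [sq, pow_mul, h3, neg_pow, h3]
  have hodd' : Odd (Nat.card k) := by
    rw [hq]
    exact ⟨_, rfl⟩
  rw [hodd'.neg_one_pow]
  ring

variable [IsGalois K Ω]

/-- **The geometric Galois group.** If the Galois group of the roots is the symmetric group and the
discriminant is not a constant times a square, then the geometric Galois group is the symmetric
group. -/
theorem geo_surj [Finite k] [IsSepClosed Ω] (h2 : (2 : k) ≠ 0)
    [RtG K a] (hs : Function.Surjective (pm K a)) {fr : Ω ≃ₐ[K] Ω} (hfr : IsFrC k fr)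
    (hd : ∀ (c : k) (s : K), vdm a ^ 2 ≠ algebraMap K Ω (algebraMap k K c * s ^ 2)) :
    (GeoK k K Ω).map (pm K a) = ⊤ := by
  classical
  have hA := alt_le_geo (k := k) (K := K) a hs
  by_cases hodd : ∃ s ∈ GeoK k K Ω, Perm.sign (pm K a s) = -1
  · -- an odd element
    obtain ⟨s, hs1, hs2⟩ := hodd
    rw [eq_top_iff]
    intro σ _
    rcases Int.units_eq_one_or (Perm.sign σ) with h | h
    · exact hA (Perm.mem_alternatingGroup.2 h)
    · have h3 : σ * (pm K a s)⁻¹ ∈ (GeoK k K Ω).map (pm K a) := by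
        apply hA
        rw [Perm.mem_alternatingGroup, Perm.sign_mul, Perm.sign_inv, hs2, h]
        rfl
      have h4 := mul_mem h3 (Subgroup.mem_map_of_mem (pm K a) hs1)
      rwa [inv_mul_cancel_right] at h4
  · exfalso
    push Not at hodd
    have hgeo : ∀ s ∈ GeoK k K Ω, s (vdm a) = vdm a := fun s hs1 =>
      (map_vdm_iff a s).2 ((Int.units_eq_one_or _).resolve_right (hodd s hs1))
    -- what is fixed by `fr` and by the geometric group lies in `K`
    have hfix : ∀ y : Ω, fr y = y → (∀ s ∈ GeoK k K Ω, s y = y) →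
        ∃ z : K, algebraMap K Ω z = y := by
      intro y hy1 hy2
      have h1 : ∀ s : Ω ≃ₐ[K] Ω, s y = y := by
        intro s
        obtain ⟨n, hn, hle⟩ := exists_HcK_le (k := k)
          (U := MulAction.stabilizer (Ω ≃ₐ[K] Ω) y)
          (stabilizer_isOpen_of_isIntegral (K := K) y) (fun s hs => hy2 s hs)
        obtain ⟨i, hi⟩ := exists_pow_inv_mul_mem hfr hn s
        have h3 : ((fr ^ i)⁻¹ * s) y = y := hle hi
        have h4 : ∀ i : ℕ, (fr ^ i) y = y := by
          intro i
          induction i with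
          | zero => rfl
          | succ i ih => rw [pow_succ, AlgEquiv.mul_apply, hy1, ih]
        calc s y = (fr ^ i) (((fr ^ i)⁻¹ * s) y) := by
              rw [← AlgEquiv.mul_apply, mul_inv_cancel_left]
          _ = y := by rw [h3, h4]
      exact (InfiniteGalois.mem_bot_iff_fixed y).2 h1
    rcases Int.units_eq_one_or (Perm.sign (pm K a fr)) with h | h
    · -- the discriminant is a square
      obtain ⟨z, hz⟩ := hfix (vdm a) ((map_vdm_iff a fr).2 h) hgeo
      apply hd 1 z
      rw [map_one, one_mul, map_pow, hz]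
    · -- the discriminant is a non-square constant times a square
      have := Fintype.ofFinite k
      have hchar : ringChar k ≠ 2 := by
        intro h
        apply h2
        have h3 := ringChar.Nat.cast_ringChar (R := k)
        rw [h] at h3
        exact_mod_cast h3
      obtain ⟨c, hc⟩ := FiniteField.exists_nonsquare hchar
      have hc0 : c ≠ 0 := by
        rintro rfl
        exact hc ⟨0, (mul_zero 0).symm⟩
      have hcK : algebraMap K Ω (algebraMap k K c) ≠ 0 :=
        (_root_.map_ne_zero _).2 ((_root_.map_ne_zero _).2 hc0)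
      have h2Ω : NeZero (2 : Ω) := ⟨RtG.two K a⟩
      obtain ⟨γ, hγ⟩ := IsSepClosed.exists_pow_nat_eq (algebraMap K Ω (algebraMap k K c)) 2
      obtain ⟨h5, h6⟩ := fr_sqrt (K := K) (Ω := Ω) h2 hc hγ
      have hγ0 : γ ≠ 0 := by
        rintro rfl
        rw [zero_pow two_ne_zero] at hγ
        exact hcK hγ.symm
      obtain ⟨z, hz⟩ := hfix (γ * vdm a) (by
        rw [map_mul, hfr γ h6, h5, map_vdm, h]
        push_cast
        ring) (fun s hs1 => by
        rw [map_mul, hgeo s hs1, hs1 γ h6])
      apply hd c (z / algebraMap k K c)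
      rw [map_mul, map_pow, map_div₀, hz, div_pow, ← hγ]
      field_simp

omit [Field k] [Algebra k K] [IsGalois K Ω] in
/-- **A Frobenius element which fixes the roots.** -/
theorem exists_fr_ker [RtG K a] (hG : (GeoK k K Ω).map (pm K a) = ⊤)
    {fr : Ω ≃ₐ[K] Ω} (hfr : IsFrC k fr) :
    ∃ fr' : Ω ≃ₐ[K] Ω, IsFrC k fr' ∧ pm K a fr' = 1 ∧ fr⁻¹ * fr' ∈ GeoK k K Ω := by
  have h1 : (pm K a fr)⁻¹ ∈ (GeoK k K Ω).map (pm K a) := by
    rw [hG]
    exact Subgroup.mem_top _
  obtain ⟨s, hs, h2⟩ := h1
  refine ⟨fr * s, fun x hx => ?_, ?_, ?_⟩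
  · rw [AlgEquiv.mul_apply, hs x hx, hfr x hx]
  · rw [map_mul, h2, mul_inv_cancel]
  · rwa [inv_mul_cancel_left]

/-- **The geometric Galois group of a polynomial.** -/
theorem geo_surj_poly [Finite k] [IsSepClosed Ω] (h2 : (2 : k) ≠ 0) [RtG K a] {F : K[X]}
    (hm : F.Monic) (hsep : F.Separable) (ha : ff a = F.map (algebraMap K Ω))
    (hG : Nat.card F.Gal = (2 * g + 1).factorial)
    (hd : ∀ (c : k) (s : K), F.discr ≠ algebraMap k K c * s ^ 2)
    {fr : Ω ≃ₐ[K] Ω} (hfr : IsFrC k fr) : (GeoK k K Ω).map (pm K a) = ⊤ := by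
  refine geo_surj a h2 (pm_surjective hsep ha hG) hfr fun c s h => hd c s ?_
  rw [vdm_sq a hm ha] at h
  exact (algebraMap K Ω).injective h

/-- The same with the Frobenius element: it can be chosen in the kernel of the action on the
roots. -/
theorem exists_fr_poly [Finite k] [IsSepClosed Ω] (h2 : (2 : k) ≠ 0) [RtG K a] {F : K[X]}
    (hm : F.Monic) (hsep : F.Separable) (ha : ff a = F.map (algebraMap K Ω))
    (hG : Nat.card F.Gal = (2 * g + 1).factorial)
    (hd : ∀ (c : k) (s : K), F.discr ≠ algebraMap k K c * s ^ 2)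
    (hK : ∀ x : K, IsC k x → ∃ c : k, algebraMap k K c = x) :
    (GeoK k K Ω).map (pm K a) = ⊤ ∧ ∃ fr : Ω ≃ₐ[K] Ω, IsFrC k fr ∧ pm K a fr = 1 := by
  obtain ⟨fr, hfr⟩ := exists_isFrC (Om := Ω) hK
  have h1 := geo_surj_poly a h2 hm hsep ha hG hd hfr
  obtain ⟨fr', h3, h4, -⟩ := exists_fr_ker a h1 hfr
  exact ⟨h1, fr', h3, h4⟩

end

section cub

variable {k K : Type} [Field k] [Field K] [Algebra k K]

theorem cubJ_discr (j d : K) :
    (cubJ j d).discr = d ^ 6 * 2 ^ 8 * 3 ^ 6 * j ^ 2 * (j - 1728) ^ 3 := by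
  have h1 : (cubJ j d).degree = 3 := by
    rw [degree_eq_natDegree (cubJ_monic j d).ne_zero, cubJ_natDegree]
    rfl
  have c0 : (cubJ j d).coeff 0 = 2 * j * (1728 - j) ^ 2 * d ^ 3 := by
    rw [cubJ, coeff_add, coeff_add, coeff_X_pow, coeff_C_mul_X, coeff_C]
    norm_num
  have c1 : (cubJ j d).coeff 1 = 3 * j * (1728 - j) * d ^ 2 := by
    rw [cubJ, coeff_add, coeff_add, coeff_X_pow, coeff_C_mul_X, coeff_C]
    norm_num
  have c2 : (cubJ j d).coeff 2 = 0 := by
    rw [cubJ, coeff_add, coeff_add, coeff_X_pow, coeff_C_mul_X, coeff_C]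
    norm_num
  have c3 : (cubJ j d).coeff 3 = 1 := by
    rw [cubJ, coeff_add, coeff_add, coeff_X_pow, coeff_C_mul_X, coeff_C]
    norm_num
  rw [discr_of_degree_eq_three h1, c0, c1, c2, c3]
  ring

theorem cubJ_discr_csq (h6 : (6 : K) ≠ 0) {j d : K} (hg : GenG k j) (hd : d ≠ 0) (c : k) (s : K) :
    (cubJ j d).discr ≠ algebraMap k K c * s ^ 2 := by
  intro h
  rw [cubJ_discr] at h
  have h2 : (2 : K) ≠ 0 := by
    intro h
    apply h6
    have : (6 : K) = 2 * 3 := by norm_num
    rw [this, h, zero_mul]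
  have h3 : (3 : K) ≠ 0 := by
    intro h
    apply h6
    have : (6 : K) = 2 * 3 := by norm_num
    rw [this, h, mul_zero]
  have h4 : j - 1728 ≠ 0 := sub_ne_zero.2 hg.gen.ne1728
  have h5 : j ≠ 0 := hg.gen.ne0
  apply hg.csq c (s / (d ^ 3 * 2 ^ 4 * 3 ^ 3 * j * (j - 1728)))
  rw [div_pow, ← mul_div_assoc, ← h, div_eq_iff (by positivity)]
  ring

/-- **The geometric Galois group of the 2-division cubic of the curves with generic `j`.** -/
theorem geo_surj_cubJ {Ω : Type} [Field Ω] [Algebra K Ω] [Finite k] [IsGalois K Ω] [IsSepClosed Ω]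
    (h6 : (6 : k) ≠ 0) {j d : K} (hg : GenG k j) (hd : d ≠ 0) {a : Fin (2 * 1 + 1) → Ω} [RtG K a]
    (ha : ff a = (cubJ j d).map (algebraMap K Ω))
    (hK : ∀ x : K, IsC k x → ∃ c : k, algebraMap k K c = x) :
    (GeoK k K Ω).map (pm K a) = ⊤ ∧ ∃ fr : Ω ≃ₐ[K] Ω, IsFrC k fr ∧ pm K a fr = 1 := by
  have h6' : (6 : K) ≠ 0 := by
    intro h
    apply h6
    apply (algebraMap k K).injective
    rw [map_ofNat, map_zero, h]
  have h2 : (2 : k) ≠ 0 := by
    intro h
    apply h6
    have : (6 : k) = 2 * 3 := by norm_num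
    rw [this, h, zero_mul]
  exact exists_fr_poly a h2 (cubJ_monic j d) (card_gal_cubJ h6' hg.gen hd).2 ha
    (card_gal_cubJ h6' hg.gen hd).1 (cubJ_discr_csq h6' hg hd) hK

end cub

end Pool.Agent.SmN.Fnl
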