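import Pool.Agent.Lib.SmN.Fin.HalfAll
import Pool.Agent.Lib.SmN.Fin.Kum

/-!
# SMITH-U (SmN), final layer: other orderings of the quadratic characters

`OrdOk h T deg rd W τ`: `rd c` is the degree of the ramification of `c` outside `T` plus a weight
`W ≤ τ` of the ramification at `T`. `rdegO S deg O c`: the degree of the symmetric difference of `O` and
the ramification of `c`; `ordOk_rdegO`: this is such an ordering for `O ⊆ T`. `TwR rk N P`: the classes
in `Kˣ / Kˣ²` which contain a `d` with `rk d ≤ N` and the property `P`.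
-/

set_option autoImplicit false

open Finset

namespace Pool.Agent.SmN.Fnl

open Ch

section

variable {G V V1 Pl : Type} [Group G] [AddCommGroup V] [DistribMulAction G V]
  [AddCommGroup V1] [Module (ZMod 2) V1] {S : Sys G V V1 Pl} {T : Finset Pl} {deg : Pl → ℕ}

/-- `rd` is the degree of the ramification outside `T` plus a weight of the ramification at `T`. -/
structure OrdOk (h : S.Ok) (T : Finset Pl) (deg : Pl → ℕ) (rd : (G → ZMod 2) → ℕ)
    (W : (T → ZMod 2) → ℕ) (τ : ℕ) : Prop where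
  eq : ∀ c : {c : G → ZMod 2 // S.HomG c},
    rd c.1 = W (fun v => c.1 (S.sg v.1)) + dS deg (ramP h (T : Set Pl) c)
  le : ∀ a, W a ≤ τ

namespace OrdOk

variable {h : S.Ok} {rd : (G → ZMod 2) → ℕ} {W : (T → ZMod 2) → ℕ} {τ : ℕ}

theorem ge (hR : OrdOk h T deg rd W τ) (c : {c : G → ZMod 2 // S.HomG c}) :
    dS deg (ramP h (T : Set Pl) c) ≤ rd c.1 := by
  rw [hR.eq]
  exact Nat.le_add_left _ _

theorem up (hR : OrdOk h T deg rd W τ) (c : {c : G → ZMod 2 // S.HomG c}) :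
    rd c.1 ≤ τ + dS deg (ramP h (T : Set Pl) c) := by
  rw [hR.eq]
  exact Nat.add_le_add_right (hR.le _) _

end OrdOk

open Classical in
/-- The degree of the symmetric difference of `O` and the ramification of a quadratic character. -/
noncomputable def rdegO (S : Sys G V V1 Pl) (deg : Pl → ℕ) (O : Set Pl) (c : G → ZMod 2) : ℕ :=
  ∑ᶠ v, if c (S.sg v) = 0 ↔ v ∉ O then 0 else deg v

open Classical in
/-- The weight at `T` of `rdegO`. -/
noncomputable def wO (T : Finset Pl) (deg : Pl → ℕ) (O : Set Pl) (a : T → ZMod 2) : ℕ :=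
  ∑ v : T, if a v = 0 ↔ v.1 ∉ O then 0 else deg v.1

theorem rdegO_eq (h : S.Ok) {O : Set Pl} (hO : O ⊆ (T : Set Pl))
    (c : {c : G → ZMod 2 // S.HomG c}) :
    rdegO S deg O c.1 = wO T deg O (fun v => c.1 (S.sg v.1)) + dS deg (ramP h (T : Set Pl) c) := by
  classical
  set f : Pl → ℕ := fun v => if c.1 (S.sg v) = 0 ↔ v ∉ O then 0 else deg v with hf
  have hout : ∀ P : Out (T : Set Pl), f P.1 = if P ∈ ramP h (T : Set Pl) c then deg P.1 else 0 := by
    intro P
    have hP : P.1 ∉ O := fun hv => P.2 (hO hv)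
    have h1 := mem_ramP (T := (T : Set Pl)) h c P
    by_cases hm : P ∈ ramP h (T : Set Pl) c
    · rw [if_pos hm]
      exact if_neg fun h2 => h1.1 hm (h2.2 hP)
    · rw [if_neg hm]
      exact if_pos ⟨fun _ => hP, fun _ => not_not.1 fun h3 => hm (h1.2 h3)⟩
  let pv : Out (T : Set Pl) → Pl := fun P => P.1
  have hinj : Function.Injective pv := fun P Q he => Subtype.ext he
  have hsupp : Function.support f ⊆
      ((T ∪ (ramP h (T : Set Pl) c).image pv : Finset Pl) : Set Pl) := by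
    intro v hv
    by_contra hcon
    rw [mem_coe, mem_union, not_or] at hcon
    have hP : (⟨v, hcon.1⟩ : Out (T : Set Pl)) ∉ ramP h (T : Set Pl) c := fun hP =>
      hcon.2 (mem_image_of_mem pv hP)
    exact hv ((hout ⟨v, hcon.1⟩).trans (if_neg hP))
  have hdisj : Disjoint T ((ramP h (T : Set Pl) c).image pv) := by
    rw [disjoint_left]
    intro v hv hv'
    obtain ⟨P, _, rfl⟩ := mem_image.1 hv'
    exact P.2 hv
  have h1 : rdegO S deg O c.1 = ∑ᶠ v, f v := rfl
  rw [h1, finsum_eq_sum_of_support_subset _ hsupp, sum_union hdisj,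
    sum_image fun P _ Q _ he => hinj he]
  congr 1
  · rw [← sum_coe_sort T]
    rfl
  · exact sum_congr rfl fun P hP => (hout P).trans (if_pos hP)

theorem wO_le (O : Set Pl) (a : T → ZMod 2) : wO T deg O a ≤ ∑ v ∈ T, deg v := by
  rw [wO, ← sum_coe_sort T]
  refine sum_le_sum fun v _ => ?_
  split_ifs
  · exact Nat.zero_le _
  · exact le_rfl

/-- `rdegO` is an ordering for every `T` which contains `O`. -/
theorem ordOk_rdegO (h : S.Ok) {O : Set Pl} (hO : O ⊆ (T : Set Pl)) :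
    OrdOk h T deg (rdegO S deg O) (wO T deg O) (∑ v ∈ T, deg v) :=
  ⟨rdegO_eq h hO, wO_le O⟩

theorem rdegO_empty (c : G → ZMod 2) : rdegO S deg (∅ : Set Pl) c = rdeg S deg c := by
  classical
  rw [rdegO, rdeg]
  refine finsum_congr fun v => ?_
  by_cases h0 : c (S.sg v) = 0
  · rw [if_pos h0, if_pos ⟨fun _ => Set.notMem_empty v, fun _ => h0⟩]
  · rw [if_neg h0, if_neg fun h1 => h0 (h1.2 (Set.notMem_empty v))]

/-- The ramification degree is an ordering. -/
theorem ordOk_rdeg (h : S.Ok) :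
    OrdOk h T deg (rdeg S deg) (wO T deg (∅ : Set Pl)) (∑ v ∈ T, deg v) := by
  have h1 := ordOk_rdegO (T := T) (deg := deg) h (Set.empty_subset (T : Set Pl))
  refine ⟨fun c => ?_, h1.le⟩
  rw [← rdegO_empty]
  exact h1.eq c

end

section kum

open Pool.Agent.BSDFF Pool.Agent.Lib.SmD Pool.Agent.GBR Pool.Agent.GBU
open Pool.Agent.GBC (ord)

/-- The classes in `Kˣ / Kˣ²` which contain a `d` with `rk d ≤ N` and the property `P`. -/
def TwR {K : Type} [Field K] (rk : K → ℕ) (N : ℕ) (P : K → Prop) : Set (Tws K) :=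
  {c | ∃ d : Kˣ, (d : Tws K) = c ∧ rk (d : K) ≤ N ∧ P (d : K)}

theorem twR_mono {K : Type} [Field K] {rk : K → ℕ} {N : ℕ} {P Q : K → Prop}
    (h : ∀ d : Kˣ, P d → Q d) : TwR rk N P ⊆ TwR rk N Q := by
  rintro c ⟨d, h1, h2, h3⟩
  exact ⟨d, h1, h2, h d h3⟩

/-- The degree of the symmetric difference of `O` and the set of the places at which `d` has odd
order. -/
noncomputable def rkO (k : Type) {K : Type} [Field k] [Field K] [Algebra k K]
    (O : Set (Place k K)) (d : K) : ℕ :=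
  open Classical in ∑ᶠ v : Place k K, if Even (ord v d) ↔ v ∉ O then 0 else v.degree

variable {k K : Type} [Field k] [Field K] [Algebra k K] {Om : Type} [Field Om] [Algebra K Om]
  [IsSepClosure K Om] {V V1 : Type} [AddCommGroup V] [DistribMulAction (Om ≃ₐ[K] Om) V]
  [AddCommGroup V1] [Module (ZMod 2) V1] {S : Sys (Om ≃ₐ[K] Om) V V1 (Place k K)}

theorem twLE_eq (N : ℕ) (P : K → Prop) : TwLE k N P = TwR (ramDeg k) N P := rfl

theorem rdegO_chi (h2 : (2 : K) ≠ 0) (H : LocVals S.sg S.phi) (O : Set (Place k K)) (d : Kˣ) :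
    rdegO S Place.degree O (chi K (d : K)) = rkO k O (d : K) := by
  classical
  rw [rdegO, rkO]
  refine finsum_congr fun v => ?_
  have h1 := (H v).chi_sg_eq_zero_iff h2 d.ne_zero
  by_cases h3 : Even (ord v (d : K)) ↔ v ∉ O
  · rw [if_pos h3, if_pos (h1.trans h3)]
  · rw [if_neg h3, if_neg fun h4 => h3 (h1.symm.trans h4)]

variable {rd : ((Om ≃ₐ[K] Om) → ZMod 2) → ℕ} {rk : K → ℕ}

/-- The classes and the quadratic characters. -/
theorem twR_card_le (h2 : (2 : K) ≠ 0) (hNN : S.NN = NP K Om)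
    (hdeg : ∀ d : Kˣ, rd (chi K (d : K)) = rk (d : K)) (n : ℕ)
    (hfin : Finite {c : {c : (Om ≃ₐ[K] Om) → ZMod 2 // S.HomG c} // rd c.1 ≤ n})
    (P : ((Om ≃ₐ[K] Om) → ZMod 2) → Prop) (Q : K → Prop)
    (hPQ : ∀ d : Kˣ, P (chi K (d : K)) → Q (d : K)) :
    Nat.card {c : {c : (Om ≃ₐ[K] Om) → ZMod 2 // S.HomG c} // rd c.1 ≤ n ∧ P c.1} ≤
      (TwR rk n Q).ncard := by
  classical
  obtain ⟨e, he⟩ := exists_equiv (S := S) h2 hNN
  have hdeg' : ∀ d : Kˣ, rd (e (d : Tws K)).1 = rk (d : K) := fun d => by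
    rw [he, hdeg]
  have hfT : (TwR rk n Q).Finite := by
    refine Set.Finite.of_injOn (f := e) (t := {c | rd c.1 ≤ n}) ?_ e.injective.injOn hfin
    rintro c ⟨d, rfl, h3, -⟩
    change rd (e (d : Tws K)).1 ≤ n
    rw [hdeg']
    exact h3
  have := hfT.to_subtype
  rw [← Nat.card_coe_set_eq]
  refine Nat.card_le_card_of_injective (fun c => ⟨e.symm c.1, ?_⟩) fun c c' h => ?_
  · obtain ⟨c, hc1, hc2⟩ := c
    obtain ⟨x, rfl⟩ := e.surjective c
    rw [e.symm_apply_apply]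
    induction x using QuotientGroup.induction_on with
    | H d => exact ⟨d, rfl, by rwa [hdeg'] at hc1, hPQ d (by rwa [he] at hc2)⟩
  · apply Subtype.ext
    apply e.symm.injective
    exact congrArg (fun x : (TwR rk n Q : Set (Tws K)) => x.1) h

theorem twR_le_card (h2 : (2 : K) ≠ 0) (hNN : S.NN = NP K Om)
    (hdeg : ∀ d : Kˣ, rd (chi K (d : K)) = rk (d : K)) (n : ℕ)
    (hfin : Finite {c : {c : (Om ≃ₐ[K] Om) → ZMod 2 // S.HomG c} // rd c.1 ≤ n})
    (P : ((Om ≃ₐ[K] Om) → ZMod 2) → Prop) (Q : K → Prop)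
    (hQP : ∀ d : Kˣ, Q (d : K) → P (chi K (d : K))) :
    (TwR rk n Q).ncard ≤
      Nat.card {c : {c : (Om ≃ₐ[K] Om) → ZMod 2 // S.HomG c} // rd c.1 ≤ n ∧ P c.1} := by
  classical
  obtain ⟨e, he⟩ := exists_equiv (S := S) h2 hNN
  have hdeg' : ∀ d : Kˣ, rd (e (d : Tws K)).1 = rk (d : K) := fun d => by
    rw [he, hdeg]
  have h5 : Finite {c : {c : (Om ≃ₐ[K] Om) → ZMod 2 // S.HomG c} // rd c.1 ≤ n ∧ P c.1} :=
    Finite.of_injective (β := {c : {c : (Om ≃ₐ[K] Om) → ZMod 2 // S.HomG c} // rd c.1 ≤ n})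
      (fun c => ⟨c.1, c.2.1⟩) fun c c' h =>
        Subtype.ext (congrArg (fun x : {c : {c : (Om ≃ₐ[K] Om) → ZMod 2 // S.HomG c} //
          rd c.1 ≤ n} => x.1) h)
  rw [← Nat.card_coe_set_eq]
  refine Nat.card_le_card_of_injective (fun c => ⟨e c.1, ?_⟩) fun c c' h => ?_
  · obtain ⟨d, hd, h6, h7⟩ := c.2
    rw [← hd]
    exact ⟨by rw [hdeg']; exact h6, by rw [he]; exact hQP d h7⟩
  · apply Subtype.ext
    apply e.injective
    exact congrArg (fun x : {c : {c : (Om ≃ₐ[K] Om) → ZMod 2 // S.HomG c} //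
      rd c.1 ≤ n ∧ P c.1} => x.1) h

/-- The classes with `rk d ≤ N` are finitely many. -/
theorem twR_finite (h2 : (2 : K) ≠ 0) (hNN : S.NN = NP K Om)
    (hdeg : ∀ d : Kˣ, rd (chi K (d : K)) = rk (d : K)) (n : ℕ)
    (hfin : Finite {c : {c : (Om ≃ₐ[K] Om) → ZMod 2 // S.HomG c} // rd c.1 ≤ n})
    (Q : K → Prop) : (TwR rk n Q).Finite := by
  obtain ⟨e, he⟩ := exists_equiv (S := S) h2 hNN
  refine Set.Finite.of_injOn (f := e) (t := {c | rd c.1 ≤ n}) ?_ e.injective.injOn hfin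
  rintro c ⟨d, rfl, h3, -⟩
  change rd (e (d : Tws K)).1 ≤ n
  rw [he, hdeg]
  exact h3

end kum

end Pool.Agent.SmN.Fnl
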