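import Pool.Agent.Lib.SmJ.L.SelDefs

/-!
# SMITH-U (SmN), final layer: the conclusions `GoodOn` depend only on the Galois module up to
isomorphism, and do not change if the field of constants is replaced by an algebraic extension.
-/

set_option autoImplicit false

namespace Pool.Agent.SmN.Fnl

open Pool.Agent.SmJ.L

section grp

variable {A A' : Type} [AddCommGroup A] [AddCommGroup A'] (E : A ≃+ A') {Z B : AddSubgroup A}
  {Z' B' : AddSubgroup A'} (hZ : ∀ x, E x ∈ Z' ↔ x ∈ Z) (hB : ∀ x, E x ∈ B' ↔ x ∈ B)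

/-- The isomorphism of subgroups. -/
def subE : Z ≃+ Z' where
  toFun x := ⟨E x.1, (hZ x.1).2 x.2⟩
  invFun y := ⟨E.symm y.1, (hZ _).1 (by rw [AddEquiv.apply_symm_apply]; exact y.2)⟩
  left_inv x := Subtype.ext (E.symm_apply_apply x.1)
  right_inv y := Subtype.ext (E.apply_symm_apply y.1)
  map_add' x y := Subtype.ext (map_add E x.1 y.1)

/-- The isomorphism of quotients. -/
noncomputable def quoE : (Z ⧸ B.addSubgroupOf Z) ≃+ (Z' ⧸ B'.addSubgroupOf Z') :=
  QuotientAddGroup.congr _ _ (subE E hZ) (by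
    ext y
    rw [AddSubgroup.mem_map]
    constructor
    · rintro ⟨x, hx, rfl⟩
      exact (hB x.1).2 hx
    · intro hy
      refine ⟨(subE E hZ).symm y, ?_, AddEquiv.apply_symm_apply _ _⟩
      refine (hB _).1 ?_
      have h1 : E (((subE E hZ).symm y : Z) : A) = y.1 := E.apply_symm_apply y.1
      change E (((subE E hZ).symm y : Z) : A) ∈ B'
      rw [h1]
      exact hy)

end grp

section iso

variable {k K Ω : Type} [Field k] [Field K] [Field Ω] [Algebra k K] [Algebra K Ω]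
variable {M M' : Type} [AddCommGroup M] [AddCommGroup M'] {ρ : (Ω ≃ₐ[K] Ω) → M →+ M}
  {ρ' : (Ω ≃ₐ[K] Ω) → M' →+ M'} (e : M ≃+ M') (he : ∀ s x, e (ρ s x) = ρ' s (e x))

/-- The isomorphism of the groups of cochains. -/
def funE : ((Ω ≃ₐ[K] Ω) → M) ≃+ ((Ω ≃ₐ[K] Ω) → M') where
  toFun ψ s := e (ψ s)
  invFun ψ s := e.symm (ψ s)
  left_inv _ := funext fun _ => e.symm_apply_apply _
  right_inv _ := funext fun _ => e.apply_symm_apply _
  map_add' _ _ := funext fun _ => map_add e _ _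

include he

theorem he_symm (s : Ω ≃ₐ[K] Ω) (x : M') : e.symm (ρ' s x) = ρ s (e.symm x) := by
  apply e.injective
  rw [he, AddEquiv.apply_symm_apply, AddEquiv.apply_symm_apply]

theorem isSel_map {n : ℕ} {ψ : (Ω ≃ₐ[K] Ω) → M} (h : IsSel k ρ n ψ) :
    IsSel k ρ' n (funE e ψ) := by
  refine ⟨fun s t => ?_, fun s => ?_, ?_, fun w hw hc => ?_⟩
  · change e (ψ (s * t)) = e (ψ s) + ρ' s (e (ψ t))
    rw [h.cocycle, map_add, he]
  · change n • e (ψ s) = 0
    rw [← map_nsmul, h.tors, map_zero]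
  · obtain ⟨L, hL, h1⟩ := h.cont
    exact ⟨L, hL, fun s t hst => congrArg e (h1 s t hst)⟩
  · obtain ⟨Q, hQ⟩ := h.loc w hw hc
    refine ⟨e Q, fun s hs => ?_⟩
    change e (ψ s) = _
    rw [hQ s hs, map_sub, he]

theorem isSha_map {ψ : (Ω ≃ₐ[K] Ω) → M} (h : IsSha k ρ ψ) : IsSha k ρ' (funE e ψ) := by
  refine ⟨fun s t => ?_, ?_, fun w hw hc => ?_⟩
  · change e (ψ (s * t)) = e (ψ s) + ρ' s (e (ψ t))
    rw [h.cocycle, map_add, he]
  · obtain ⟨L, hL, h1⟩ := h.cont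
    exact ⟨L, hL, fun s t hst => congrArg e (h1 s t hst)⟩
  · obtain ⟨Q, hQ⟩ := h.loc w hw hc
    refine ⟨e Q, fun s hs => ?_⟩
    change e (ψ s) = _
    rw [hQ s hs, map_sub, he]

theorem mem_zsel (n : ℕ) (ψ : (Ω ≃ₐ[K] Ω) → M) :
    funE e ψ ∈ ZSel k ρ' n ↔ ψ ∈ ZSel k ρ n := by
  constructor
  · intro h
    have h1 := isSel_map (k := k) e.symm (fun s x => he_symm e he s x) h
    have h2 : funE e.symm (funE e ψ) = ψ := (funE e).symm_apply_apply ψ
    rw [h2] at h1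
    exact h1
  · exact fun h => isSel_map e he h

theorem mem_zsha (ψ : (Ω ≃ₐ[K] Ω) → M) : funE e ψ ∈ ZSha k ρ' ↔ ψ ∈ ZSha k ρ := by
  constructor
  · intro h
    have h1 := isSha_map (k := k) e.symm (fun s x => he_symm e he s x) h
    have h2 : funE e.symm (funE e ψ) = ψ := (funE e).symm_apply_apply ψ
    rw [h2] at h1
    exact h1
  · exact fun h => isSha_map e he h

theorem mem_bsel (n : ℕ) (ψ : (Ω ≃ₐ[K] Ω) → M) : funE e ψ ∈ BSel ρ' n ↔ ψ ∈ BSel ρ n := by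
  constructor
  · rintro ⟨T, hT, h⟩
    refine ⟨e.symm T, by rw [← map_nsmul, hT, map_zero], fun s => ?_⟩
    apply e.injective
    have h1 : e (ψ s) = ρ' s T - T := h s
    rw [h1, map_sub, he, AddEquiv.apply_symm_apply]
  · rintro ⟨T, hT, h⟩
    refine ⟨e T, by rw [← map_nsmul, hT, map_zero], fun s => ?_⟩
    change e (ψ s) = _
    rw [h s, map_sub, he]

theorem mem_bsha (ψ : (Ω ≃ₐ[K] Ω) → M) : funE e ψ ∈ BSha ρ' ↔ ψ ∈ BSha ρ := by
  constructor
  · rintro ⟨T, h⟩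
    refine ⟨e.symm T, fun s => ?_⟩
    apply e.injective
    have h1 : e (ψ s) = ρ' s T - T := h s
    rw [h1, map_sub, he, AddEquiv.apply_symm_apply]
  · rintro ⟨T, h⟩
    refine ⟨e T, fun s => ?_⟩
    change e (ψ s) = _
    rw [h s, map_sub, he]

variable (k) in
theorem exists_selE (n : ℕ) : Nonempty (Sel k ρ n ≃+ Sel k ρ' n) :=
  ⟨quoE (funE e) (mem_zsel e he n) (mem_bsel e he n)⟩

variable (k) in
theorem exists_shaE : Nonempty (Sha k ρ ≃+ Sha k ρ') :=
  ⟨quoE (funE e) (mem_zsha e he) (mem_bsha e he)⟩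

theorem card_selE (n : ℕ) : Nat.card (Sel k ρ n) = Nat.card (Sel k ρ' n) := by
  obtain ⟨f⟩ := exists_selE k e he n
  exact Nat.card_congr f.toEquiv

theorem hasCorank_iso {r : ℕ} (h : HasCorank k ρ r) : HasCorank k ρ' r := by
  obtain ⟨B, hB⟩ := h
  refine ⟨B, fun i => ?_⟩
  rw [← card_selE e he]
  exact hB i

theorem finite_sha2_iso (h : Finite (Sha2 k ρ)) : Finite (Sha2 k ρ') := by
  obtain ⟨f⟩ := exists_shaE k e he
  refine Finite.of_injective (β := Sha2 k ρ) (fun x => ⟨f.symm x.1, ?_⟩) fun x y hxy => ?_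
  · obtain ⟨i, hi⟩ := x.2
    refine ⟨i, ?_⟩
    rw [← map_nsmul, hi, map_zero]
  · have h1 : f.symm x.1 = f.symm y.1 := congrArg (fun z : Sha2 k ρ => z.1) hxy
    exact Subtype.ext (f.symm.injective h1)

theorem goodOn_iso {j : ℕ} (h : GoodOn k ρ j) : GoodOn k ρ' j := by
  refine ⟨fun i => ?_, ?_, ?_⟩
  · obtain ⟨f⟩ := exists_selE k e he (2 ^ i)
    have := h.fin i
    exact Finite.of_equiv _ f.toEquiv
  · rw [← card_selE e he]
    exact h.lt
  · obtain ⟨r, hr, h1, h2, h3⟩ := h.corank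
    refine ⟨r, hr, hasCorank_iso e he h1, fun h0 => finite_sha2_iso e he (h2 h0), ?_⟩
    rintro ⟨P, hP, hPQ⟩
    refine finite_sha2_iso e he (h3 ⟨e.symm P, fun s => ?_, fun Q hQ n hn h0 => ?_⟩)
    · rw [← he_symm e he, hP s]
    · refine hPQ (e Q) (fun s => ?_) n hn ?_
      · rw [← he, hQ s]
      · have h4 := congrArg e h0
        rw [map_nsmul, map_sub, AddEquiv.apply_symm_apply, map_nsmul, map_zero] at h4
        exact h4

end iso

section const

variable (k k' : Type) {K Ω : Type} [Field k] [Field k'] [Field K] [Field Ω] [Algebra k K]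
  [Algebra k' K] [Algebra K Ω] {M : Type} [AddCommGroup M] (ρ : (Ω ≃ₐ[K] Ω) → M →+ M)
  (hw : ∀ w : ValuationSubring Ω, (∀ c : k, algebraMap K Ω (algebraMap k K c) ∈ w) ↔
    ∀ c : k', algebraMap K Ω (algebraMap k' K c) ∈ w)

include hw

theorem zsel_const (n : ℕ) : ZSel k ρ n = ZSel k' ρ n := by
  ext ψ
  constructor
  · intro h
    exact ⟨h.cocycle, h.tors, h.cont, fun w h1 h2 => h.loc w h1 ((hw w).2 h2)⟩
  · intro h
    exact ⟨h.cocycle, h.tors, h.cont, fun w h1 h2 => h.loc w h1 ((hw w).1 h2)⟩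

theorem zsha_const : ZSha k ρ = ZSha k' ρ := by
  ext ψ
  constructor
  · intro h
    exact ⟨h.cocycle, h.cont, fun w h1 h2 => h.loc w h1 ((hw w).2 h2)⟩
  · intro h
    exact ⟨h.cocycle, h.cont, fun w h1 h2 => h.loc w h1 ((hw w).1 h2)⟩

theorem sel_const (n : ℕ) : Sel k ρ n = Sel k' ρ n := by
  unfold Sel
  rw [zsel_const k k' ρ hw]

theorem hasCorank_const {r : ℕ} (h : HasCorank k ρ r) : HasCorank k' ρ r := by
  obtain ⟨B, hB⟩ := h
  refine ⟨B, fun i => ?_⟩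
  rw [← sel_const k k' ρ hw]
  exact hB i

theorem finite_sha2_const (h : Finite (Sha2 k ρ)) : Finite (Sha2 k' ρ) := by
  have h1 : ∀ (Z Z' : AddSubgroup ((Ω ≃ₐ[K] Ω) → M)), Z = Z' →
      Finite {x : Z ⧸ (BSha ρ).addSubgroupOf Z // ∃ i : ℕ, 2 ^ i • x = 0} →
      Finite {x : Z' ⧸ (BSha ρ).addSubgroupOf Z' // ∃ i : ℕ, 2 ^ i • x = 0} := by
    rintro Z _ rfl h
    exact h
  exact h1 _ _ (zsha_const k k' ρ hw) h

theorem goodOn_const {j : ℕ} (h : GoodOn k ρ j) : GoodOn k' ρ j := by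
  refine ⟨fun i => ?_, ?_, ?_⟩
  · rw [← sel_const k k' ρ hw]
    exact h.fin i
  · rw [← sel_const k k' ρ hw]
    exact h.lt
  · obtain ⟨r, hr, h1, h2, h3⟩ := h.corank
    exact ⟨r, hr, hasCorank_const k k' ρ hw h1, fun h0 => finite_sha2_const k k' ρ hw (h2 h0),
      fun h0 => finite_sha2_const k k' ρ hw (h3 h0)⟩

end const

end Pool.Agent.SmN.Fnl
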