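import Pool.Agent.Lib.SmN.Fin.GoodE
import Pool.Agent.Lib.SmN.Fin.Trans
import Pool.Agent.Lib.SmN.Fin.Kum
import Pool.Agent.Lib.GBU.GeoC
import Pool.Agent.Lib.GBC.E.Main
import Pool.Agent.Lib.GBC.H.Sep

/-!
# SMITH-U (SmN), final layer: reduction to the case where `k` is the field of constants

`K` a finitely generated extension of transcendence degree one of a finite field `k`; the algebraic
closure `cst k K` of `k` in `K` is finite, and all the objects of the final statement over `k` are
those over `cst k K` up to multiplying the degrees by `[cst k K : k]`.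
-/

set_option autoImplicit false

open Polynomial

namespace Pool.Agent.SmN.Fnl

open Pool.Agent.BSDFF Pool.Agent.GBC
open Pool.Agent.GBU (IsC LL_finite LL mem_LL_iff)

/-- Every valuation ring contains the finite subfields. -/
theorem mem_of_finite {k K : Type} [Field k] [Finite k] [Field K] (i : k →+* K)
    (w : ValuationSubring K) (c : k) : i c ∈ w := by
  by_cases hc : c = 0
  · rw [hc, map_zero]
    exact w.zero_mem
  · have := Fintype.ofFinite k
    have h1 : c ^ (Fintype.card k - 1) = 1 := FiniteField.pow_card_sub_one_eq_one c hc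
    have h2 : Fintype.card k - 1 ≠ 0 := by
      have := Fintype.one_lt_card (α := k)
      omega
    rw [← ValuationSubring.valuation_le_one_iff]
    have h3 : w.valuation (i c) ^ (Fintype.card k - 1) = 1 := by
      rw [← map_pow, ← map_pow, h1, map_one, map_one]
    exact (pow_le_one_iff_of_nonneg zero_le h2).1 h3.le

section two

variable (k k' : Type) {K : Type} [Field k] [Field k'] [Finite k] [Finite k'] [Field K]
  [Algebra k K] [Algebra k' K]

theorem const_iff {Ω : Type} [Field Ω] [Algebra K Ω] (w : ValuationSubring Ω) :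
    (∀ c : k, algebraMap K Ω (algebraMap k K c) ∈ w) ↔
      ∀ c : k', algebraMap K Ω (algebraMap k' K c) ∈ w :=
  iff_of_true (fun c => mem_of_finite ((algebraMap K Ω).comp (algebraMap k K)) w c)
    fun c => mem_of_finite ((algebraMap K Ω).comp (algebraMap k' K)) w c

/-- The places over `k` and `k'` are the same. -/
def plE : Place k K ≃ Place k' K where
  toFun v := ⟨v.ring, fun c => mem_of_finite (algebraMap k' K) v.ring c, v.dvr⟩
  invFun v := ⟨v.ring, fun c => mem_of_finite (algebraMap k K) v.ring c, v.dvr⟩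
  left_inv _ := rfl
  right_inv _ := rfl

theorem ord_plE (v : Place k K) (x : K) : ord (plE k k' v) x = ord v x := rfl

variable [Algebra k k'] [IsScalarTower k k' K]

omit [Finite k] [Algebra k K] [Algebra k' K] [IsScalarTower k k' K] [Field K] in
theorem finrank_pos : 0 < Module.finrank k k' := by
  have : Module.Finite k k' := Module.Finite.of_finite
  exact Module.finrank_pos

theorem degree_plE (v : Place k K) :
    v.degree = Module.finrank k k' * (plE k k' v).degree := by
  let _ := v.constMap.toAlgebra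
  let _ : Algebra k' (IsLocalRing.ResidueField v.ring) := (plE k k' v).constMap.toAlgebra
  have : IsScalarTower k k' (IsLocalRing.ResidueField v.ring) := by
    refine IsScalarTower.of_algebraMap_eq fun x => ?_
    change v.constMap x = (plE k k' v).constMap (algebraMap k k' x)
    change IsLocalRing.residue v.ring _ = IsLocalRing.residue v.ring _
    congr 1
    exact Subtype.ext (IsScalarTower.algebraMap_apply k k' K x)
  exact (Module.finrank_mul_finrank k k' (IsLocalRing.ResidueField v.ring)).symm

theorem ramDeg_const (d : K) : ramDeg k d = Module.finrank k k' * ramDeg k' d := by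
  have h0 : Function.Injective (AddMonoidHom.mulLeft (Module.finrank k k')) := fun a b h =>
    Nat.eq_of_mul_eq_mul_left (finrank_pos k k') h
  have h1 := (AddMonoidHom.mulLeft (Module.finrank k k')).map_finsum_of_injective h0
    fun v : Place k' K => if Even (ord v d) then 0 else v.degree
  change _ = AddMonoidHom.mulLeft (Module.finrank k k') (ramDeg k' d)
  unfold ramDeg
  rw [h1, ← finsum_comp_equiv (plE k k' : Place k K ≃ Place k' K)]
  refine finsum_congr fun v => ?_
  rw [ord_plE, degree_plE k k' v, AddMonoidHom.coe_mulLeft]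
  split_ifs
  · rfl
  · rfl

theorem twLE_const (N : ℕ) (P : K → Prop) :
    TwLE k N P = TwLE k' (N / Module.finrank k k') P := by
  ext c
  refine exists_congr fun d => and_congr_right fun _ => and_congr_left fun _ => ?_
  rw [ramDeg_const k k', Nat.le_div_iff_mul_le (finrank_pos k k'), mul_comm]

end two

section goodE

variable (k k' : Type) {K : Type} (Ω : Type) [Field k] [Field k'] [Finite k] [Finite k'] [Field K]
  [Algebra k K] [Algebra k' K] [Field Ω] [Algebra K Ω] (W : WeierstrassCurve K)

theorem zselE_const (n : ℕ) : Sm.L.ZSel k Ω W n = Sm.L.ZSel k' Ω W n := by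
  ext ψ
  constructor
  · intro h
    exact ⟨h.cocycle, h.tors, h.cont, fun w h1 h2 => h.loc w h1 ((const_iff k k' w).2 h2)⟩
  · intro h
    exact ⟨h.cocycle, h.tors, h.cont, fun w h1 h2 => h.loc w h1 ((const_iff k k' w).1 h2)⟩

theorem zshaE_const : Sm.L.ZSha k Ω W = Sm.L.ZSha k' Ω W := by
  ext ψ
  constructor
  · intro h
    exact ⟨h.cocycle, h.cont, fun w h1 h2 => h.loc w h1 ((const_iff k k' w).2 h2)⟩
  · intro h
    exact ⟨h.cocycle, h.cont, fun w h1 h2 => h.loc w h1 ((const_iff k k' w).1 h2)⟩

theorem selE_const (n : ℕ) : Sm.L.Sel k Ω W n = Sm.L.Sel k' Ω W n := by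
  unfold Sm.L.Sel
  rw [zselE_const k k' Ω W]

theorem hasCorankE_const {r : ℕ} (h : Sm.L.HasCorank k Ω W r) : Sm.L.HasCorank k' Ω W r := by
  obtain ⟨B, hB⟩ := h
  refine ⟨B, fun i => ?_⟩
  rw [← selE_const k k' Ω W]
  exact hB i

theorem finite_sha2E_const (h : Finite (Sm.L.Sha2 k Ω W)) : Finite (Sm.L.Sha2 k' Ω W) := by
  have h1 : ∀ (Z Z' : AddSubgroup ((Ω ≃ₐ[K] Ω) → Sm.L.Pts Ω W)), Z = Z' →
      Finite {x : Z ⧸ (Sm.L.BSha Ω W).addSubgroupOf Z // ∃ i : ℕ, 2 ^ i • x = 0} →
      Finite {x : Z' ⧸ (Sm.L.BSha Ω W).addSubgroupOf Z' // ∃ i : ℕ, 2 ^ i • x = 0} := by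
    rintro Z _ rfl h
    exact h
  exact h1 _ _ (zshaE_const k k' Ω W) h

theorem goodOnE_const {j : ℕ} (h : Sm.L.GoodOn k Ω W j) : Sm.L.GoodOn k' Ω W j := by
  refine ⟨fun i => ?_, ?_, h.fg, ?_⟩
  · rw [← selE_const k k' Ω W]
    exact h.fin i
  · rw [← selE_const k k' Ω W]
    exact h.lt
  · obtain ⟨r, hr, h1, h2, h3⟩ := h.corank
    exact ⟨r, hr, hasCorankE_const k k' Ω W h1, h2, fun h0 => finite_sha2E_const k k' Ω W (h3 h0)⟩

theorem rank0_const (h : Sm.L.Rank0On k Ω W) : Sm.L.Rank0On k' Ω W :=
  ⟨hasCorankE_const k k' Ω W h.1, h.2.1, finite_sha2E_const k k' Ω W h.2.2⟩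

theorem corank1_const (h : Sm.L.Corank1On k Ω W) : Sm.L.Corank1On k' Ω W :=
  ⟨hasCorankE_const k k' Ω W h.1, h.2⟩

theorem goodOnJ_const {M : Type} [AddCommGroup M] (ρ : (Ω ≃ₐ[K] Ω) → M →+ M) {j : ℕ}
    (h : SmJ.L.GoodOn k ρ j) : SmJ.L.GoodOn k' ρ j :=
  goodOn_const k k' ρ (fun w => const_iff k k' w) h

end goodE

section cst

variable (k K : Type) [Field k] [Field K] [Algebra k K]

/-- The field of constants. -/
abbrev cst : IntermediateField k K := algebraicClosure k K

variable [Finite k] [Algebra.EssFiniteType k K] (hK : Algebra.trdeg k K = 1)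

include hK in
theorem finite_cst : Finite (cst k K) := by
  have : PerfectField k := inferInstance
  obtain ⟨alg, h1, h2, h3⟩ := exists_ratFunc k K hK
  obtain ⟨G, -⟩ := exists_geo k K
  have h4 := LL_finite G (0 : Place k K →₀ ℤ)
  have h5 : Finite (LL (0 : Place k K →₀ ℤ)) := Module.finite_of_finite k
  refine Finite.of_injective (β := LL (0 : Place k K →₀ ℤ)) (fun x => ⟨x.1, ?_⟩) fun x y h =>
    Subtype.ext (congrArg (fun z : LL (0 : Place k K →₀ ℤ) => (z : K)) h)
  obtain ⟨x, hx⟩ := x
  by_cases hx0 : x = 0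
  · subst hx0
    exact (LL _).zero_mem
  · rw [mem_LL_iff hx0]
    intro v
    have h6 : IsIntegral k x := mem_algebraicClosure_iff'.1 hx
    have : FiniteDimensional k (IntermediateField.adjoin k {x}) :=
      IntermediateField.adjoin.finiteDimensional h6
    have : Finite (IntermediateField.adjoin k {x}) := Module.finite_of_finite k
    have h7 : x ∈ v.ring := mem_of_finite (algebraMap (IntermediateField.adjoin k {x}) K) v.ring
      ⟨x, IntermediateField.mem_adjoin_simple_self k x⟩
    have h8 := (mem_ring_iff v hx0).1 h7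
    simpa using h8

omit [Finite k] [Algebra.EssFiniteType k K] in
include hK in
theorem trdeg_cst : Algebra.trdeg (cst k K) K = 1 := by
  have h1 := trdeg_add_eq k (cst k K) (A := K)
  rw [hK, (trdeg_eq_zero : Algebra.trdeg k (cst k K) = 0), zero_add] at h1
  exact h1

omit [Finite k] in
theorem essFinite_cst : Algebra.EssFiniteType (cst k K) K :=
  Algebra.EssFiniteType.of_comp k (cst k K) K

omit [Finite k] [Algebra.EssFiniteType k K] in
theorem const_cst [Finite (cst k K)] (x : K) (hx : IsC (cst k K) x) :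
    ∃ a : cst k K, algebraMap (cst k K) K a = x := by
  obtain ⟨n, hn, h⟩ := hx
  have h1 : IsAlgebraic k x := by
    have hq : 1 < Nat.card (cst k K) := Finite.one_lt_card
    have h2 : 1 < Nat.card (cst k K) ^ n := Nat.one_lt_pow hn.ne' hq
    refine ⟨X ^ Nat.card (cst k K) ^ n - X, ?_, ?_⟩
    · exact FiniteField.X_pow_card_sub_X_ne_zero k h2
    · rw [map_sub, map_pow, aeval_X, h, sub_self]
  exact ⟨⟨x, mem_algebraicClosure_iff'.2 h1.isIntegral⟩, rfl⟩

end cst

end Pool.Agent.SmN.Fnl
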