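import Pool.Agent.Lib.SmN.Fin.JGen
import Pool.Agent.Lib.SmN.Fin.Kum

/-!
# SMITH-U (SmN), final layer: from the twists of the generic curves to all elliptic curves

`AllLE k h N P`: the pairs `(j, c)`, `j ≠ 0, 1728` of height at most `h`, `c` a class in `Kˣ / Kˣ²` which
contains a `d` of ramification degree at most `N` with the property `P j d`.
`all_pairs`: if for each generic `j` the share of the classes with a `d` without the property `P j d`
tends to `0`, then the same is true for the pairs, `h` first and then `N`.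
-/

set_option autoImplicit false

namespace Pool.Agent.SmN.Fnl

open Pool.Agent.BSDFF Pool.Agent.GBC Pool.Agent.GBU

/-- The pairs `(j, c)`, `j ≠ 0, 1728` of height at most `h`, `c` a class in `Kˣ / Kˣ²` which contains a
`d` of ramification degree at most `N` with `P j d`. -/
def AllLE (k : Type) {K : Type} [Field k] [Field K] [Algebra k K] (h N : ℕ) (P : K → K → Prop) :
    Set (K × Tws K) :=
  {z | HtLE k h z.1 ∧ z.1 ≠ 0 ∧ z.1 ≠ 1728 ∧ z.2 ∈ TwLE k N (P z.1)}

section

variable {k K : Type} [Field k] [Finite k] [Field K] [Algebra k K] (G : Geo k K)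

include G

theorem allLE_finite (hfin : ∀ N, (TwLE k N (fun _ : K => True)).Finite) (h N : ℕ)
    (P : K → K → Prop) : (AllLE k h N P).Finite := by
  refine ((finite_htLE G h).prod (hfin N)).subset ?_
  rintro ⟨j, c⟩ ⟨h1, _, _, d, h2, h3, _⟩
  exact ⟨h1, d, h2, h3, trivial⟩

/-- **From the twists to all elliptic curves.** -/
theorem all_pairs (h6 : (6 : k) ≠ 0) (hfin : ∀ N, (TwLE k N (fun _ : K => True)).Finite)
    {P : K → K → Prop} (htw : ∀ j : K, GenJ j → ∀ ε : ℝ, 0 < ε → ∃ N₀ : ℕ, ∀ N ≥ N₀,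
      ((TwLE k N (fun d : K => ¬ P j d)).ncard : ℝ) ≤ ε * (TwLE k N (fun _ : K => True)).ncard)
    (ε : ℝ) (hε : 0 < ε) : ∃ h₀ : ℕ, ∀ h ≥ h₀, ∃ N₀ : ℕ, ∀ N ≥ N₀,
      ((AllLE k h N (fun j d => ¬ P j d)).ncard : ℝ) ≤
        ε * (AllLE k h N (fun _ _ : K => True)).ncard := by
  classical
  obtain ⟨h₁, hh₁⟩ := few_nongen G h6 (ε / 4) (by linarith)
  obtain ⟨h₂, hh₂⟩ := htLE_ratio G (1 / 2) (by norm_num)
  refine ⟨max h₁ (2 * h₂ + 2), fun h hh => ?_⟩
  have hh1 : h₁ ≤ h := (le_max_left _ _).trans hh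
  have hh2 : 2 * h₂ + 2 ≤ h := (le_max_right _ _).trans hh
  have hfh := finite_htLE G h
  -- the invariants
  set J : Set K := {j | HtLE k h j ∧ j ≠ 0 ∧ j ≠ 1728} with hJ
  have hJf : J.Finite := hfh.subset fun j hj => hj.1
  have hJ2 : ({j : K | HtLE k h j}.ncard : ℝ) ≤ 2 * J.ncard := by
    have e1 := hh₂ (h / 2) (by omega)
    have e2 : {x : K | HtLE k (2 * (h / 2)) x}.ncard ≤ {x : K | HtLE k h x}.ncard :=
      Set.ncard_le_ncard (fun (x : K) (hx : HtLE k (2 * (h / 2)) x) =>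
        hx.mono (h' := h) (by omega)) hfh
    have e3 : ({0, 1} : Set K).ncard ≤ {x : K | HtLE k (h / 2) x}.ncard := by
      refine Set.ncard_le_ncard ?_ (finite_htLE G (h / 2))
      rintro x (rfl | rfl)
      · exact ⟨0, le_rfl, by rw [degD_zero]; exact Int.natCast_nonneg _, (LL _).zero_mem⟩
      · refine ⟨0, le_rfl, by rw [degD_zero]; exact Int.natCast_nonneg _, ?_⟩
        have := natCast_mem_LL (k := k) (K := K) (le_refl (0 : Place k K →₀ ℤ)) 1
        rwa [Nat.cast_one] at this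
    rw [Set.ncard_pair zero_ne_one] at e3
    have e4 : {j : K | HtLE k h j}.ncard ≤ J.ncard + 2 := by
      have e5 : {j : K | HtLE k h j} ⊆ J ∪ {0, 1728} := by
        intro j hj
        by_cases a1 : j = 0
        · exact Or.inr (Or.inl a1)
        by_cases a2 : j = 1728
        · exact Or.inr (Or.inr a2)
        · exact Or.inl ⟨hj, a1, a2⟩
      refine (Set.ncard_le_ncard e5 (hJf.union (Set.toFinite _))).trans
        ((Set.ncard_union_le _ _).trans (Nat.add_le_add_left ?_ _))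
      exact (Set.ncard_insert_le _ _).trans (by rw [Set.ncard_singleton])
    have e2' : ({x : K | HtLE k (2 * (h / 2)) x}.ncard : ℝ) ≤ {x : K | HtLE k h x}.ncard := by
      exact_mod_cast e2
    have e3' : (2 : ℝ) ≤ {x : K | HtLE k (h / 2) x}.ncard := by exact_mod_cast e3
    have e4' : ({j : K | HtLE k h j}.ncard : ℝ) ≤ J.ncard + 2 := by exact_mod_cast e4
    linarith
  choose! N₁ hN₁ using fun (j : K) (hj : GenJ j) => htw j hj (ε / 2) (by linarith)
  refine ⟨hJf.toFinset.sup N₁, fun N hN => ?_⟩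
  set T : Set (Tws K) := TwLE k N (fun _ : K => True) with hT
  have hTf : T.Finite := hfin N
  have hall : AllLE k h N (fun _ _ : K => True) = J ×ˢ T := by
    ext ⟨j, c⟩
    constructor
    · rintro ⟨a1, a2, a3, a4⟩
      exact ⟨⟨a1, a2, a3⟩, a4⟩
    · rintro ⟨⟨a1, a2, a3⟩, a4⟩
      exact ⟨a1, a2, a3, a4⟩
  have hcard : ((AllLE k h N (fun _ _ : K => True)).ncard : ℝ) = J.ncard * T.ncard := by
    rw [hall, Set.ncard_prod]
    push_cast
    rfl
  -- the bad pairs
  have hbad : AllLE k h N (fun j d => ¬ P j d) ⊆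
      ({j : K | HtLE k h j ∧ ¬ GenJ j} ×ˢ T) ∪
        ⋃ j ∈ hJf.toFinset.filter fun j => GenJ j, (fun c => (j, c)) ''
          TwLE k N (fun d : K => ¬ P j d) := by
    rintro ⟨j, c⟩ ⟨a1, a2, a3, d, hd, hd1, hd2⟩
    by_cases hg : GenJ j
    · right
      simp only [Set.mem_iUnion]
      refine ⟨j, ?_, c, ⟨d, hd, hd1, hd2⟩, rfl⟩
      rw [Finset.mem_filter, Set.Finite.mem_toFinset]
      exact ⟨⟨a1, a2, a3⟩, hg⟩
    · left
      exact ⟨⟨a1, hg⟩, d, hd, hd1, trivial⟩
  have hTsub : ∀ j : K, TwLE k N (fun d : K => ¬ P j d) ⊆ T := by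
    rintro j c ⟨d, h1, h3, _⟩
    exact ⟨d, h1, h3, trivial⟩
  set F : Finset K := hJf.toFinset.filter fun j => GenJ j with hF
  have hEf : {j : K | HtLE k h j ∧ ¬ GenJ j}.Finite := hfh.subset fun j hj => hj.1
  have hBf : ∀ j : K, ((fun c : Tws K => (j, c)) ''
      TwLE k N (fun d : K => ¬ P j d)).Finite := fun j => (hTf.subset (hTsub j)).image _
  have hUf : (⋃ j ∈ F, (fun c : Tws K => (j, c)) '' TwLE k N (fun d : K => ¬ P j d)).Finite :=
    Set.Finite.biUnion (Finset.finite_toSet _) fun j _ => hBf j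
  have h3 : (AllLE k h N (fun j d => ¬ P j d)).ncard ≤
      {j : K | HtLE k h j ∧ ¬ GenJ j}.ncard * T.ncard +
        ∑ j ∈ F, (TwLE k N (fun d : K => ¬ P j d)).ncard := by
    refine (Set.ncard_le_ncard hbad ((hEf.prod hTf).union hUf)).trans
      ((Set.ncard_union_le _ _).trans (add_le_add ?_ ?_))
    · rw [Set.ncard_prod]
    · refine (Finset.set_ncard_biUnion_le _ _).trans (Finset.sum_le_sum fun j _ => ?_)
      exact Set.ncard_image_le (hTf.subset (hTsub j))
  have h4 : ∀ j ∈ F, ((TwLE k N (fun d : K => ¬ P j d)).ncard : ℝ) ≤ ε / 2 * T.ncard := by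
    intro j hj
    rw [hF, Finset.mem_filter] at hj
    exact hN₁ j hj.2 N ((Finset.le_sup hj.1).trans hN)
  have h5 : F.card ≤ J.ncard := by
    rw [Set.ncard_eq_toFinset_card _ hJf]
    exact Finset.card_filter_le _ _
  have hT0 : (0 : ℝ) ≤ T.ncard := Nat.cast_nonneg _
  have h3' : ((AllLE k h N (fun j d => ¬ P j d)).ncard : ℝ) ≤
      {j : K | HtLE k h j ∧ ¬ GenJ j}.ncard * T.ncard +
        ∑ j ∈ F, ((TwLE k N (fun d : K => ¬ P j d)).ncard : ℝ) := by
    exact_mod_cast h3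
  rw [hcard]
  have h6 := hh₁ h hh1
  calc ((AllLE k h N (fun j d => ¬ P j d)).ncard : ℝ)
      ≤ {j : K | HtLE k h j ∧ ¬ GenJ j}.ncard * T.ncard +
        ∑ j ∈ F, ((TwLE k N (fun d : K => ¬ P j d)).ncard : ℝ) := h3'
    _ ≤ (ε / 4 * {j : K | HtLE k h j}.ncard) * T.ncard + ∑ _j ∈ F, ε / 2 * T.ncard :=
        add_le_add (mul_le_mul_of_nonneg_right h6 hT0) (Finset.sum_le_sum h4)
    _ = (ε / 4 * {j : K | HtLE k h j}.ncard) * T.ncard + F.card * (ε / 2 * T.ncard) := by
        rw [Finset.sum_const, nsmul_eq_mul]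
    _ ≤ (ε / 4 * (2 * J.ncard)) * T.ncard + J.ncard * (ε / 2 * T.ncard) := by
        refine add_le_add (mul_le_mul_of_nonneg_right
          (mul_le_mul_of_nonneg_left hJ2 (by linarith)) hT0)
          (mul_le_mul_of_nonneg_right (by exact_mod_cast h5) (mul_nonneg (by linarith) hT0))
    _ = ε * (J.ncard * T.ncard) := by ring

end

end Pool.Agent.SmN.Fnl
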