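import Pool.Agent.Lib.SmJ.E.MumfC

/-!
# SMITH-U (SmN), final layer, genus one: Weierstrass points and the class group of
`Om[x, y] / (y ^ 2 - f)`

`W` a Weierstrass curve `y ^ 2 = f(x)`, `f = x ^ 3 + a₂ x ^ 2 + a₄ x + a₆`, over a field `Om`. `coE W` is the
ring isomorphism of Mathlib's coordinate ring with `Co f`, `ptE W` the isomorphism of the group of
points with `JJ f`; the point `(x, y)` goes to the class of the ideal of the point.
-/

set_option autoImplicit false

open Polynomial WeierstrassCurve nonZeroDivisors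
open WeierstrassCurve.Affine
open scoped Polynomial.Bivariate

namespace Pool.Agent.SmN.Fnl

open Pool.Agent.SmJ

section ring

variable {Om : Type} [Field Om] (W : Affine Om)

/-- The cubic. -/
noncomputable def cubW : Om[X] := X ^ 3 + C W.a₂ * X ^ 2 + C W.a₄ * X + C W.a₆

/-- `a₁ = a₃ = 0` -/
class Short : Prop where
  h1 : W.a₁ = 0
  h3 : W.a₃ = 0

variable [Short W]

theorem polynomial_eq : W.polynomial = Y ^ 2 - C (cubW W) := by
  rw [Affine.polynomial, Short.h1 (W := W), Short.h3 (W := W), cubW]
  simp

/-- The ring homomorphism to `Co f`. -/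
noncomputable def toCo : W.CoordinateRing →+* Co (cubW W) :=
  AdjoinRoot.lift (algebraMap Om[X] (Co (cubW W))) ⟨0, 1⟩ (by
    rw [polynomial_eq, eval₂_sub, eval₂_pow, eval₂_X, eval₂_C, sub_eq_zero]
    ext1
    · rw [pow_two, QuadraticAlgebra.re_mul, QuadraticAlgebra.algebraMap_re]
      simp
    · rw [pow_two, QuadraticAlgebra.im_mul, QuadraticAlgebra.algebraMap_im]
      simp)

theorem toCo_C (p : Om[X]) : toCo W (CoordinateRing.mk W (C p)) = ⟨p, 0⟩ := by
  rw [toCo, AdjoinRoot.lift_mk, eval₂_C]
  ext1
  · rw [QuadraticAlgebra.algebraMap_re]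
  · rw [QuadraticAlgebra.algebraMap_im]

theorem toCo_Y : toCo W (CoordinateRing.mk W Y) = ⟨0, 1⟩ := by
  rw [toCo, AdjoinRoot.lift_mk, eval₂_X]

theorem toCo_basis (p q : Om[X]) :
    toCo W (p • (1 : W.CoordinateRing) + q • CoordinateRing.mk W Y) = ⟨p, q⟩ := by
  rw [CoordinateRing.smul, CoordinateRing.smul, mul_one, map_add, map_mul, toCo_C, toCo_C, toCo_Y]
  ext1
  · simp
  · simp

theorem toCo_bijective : Function.Bijective (toCo W) := by
  constructor
  · rw [injective_iff_map_eq_zero]
    intro x hx
    obtain ⟨p, q, rfl⟩ := CoordinateRing.exists_smul_basis_eq x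
    rw [toCo_basis] at hx
    have h1 : p = 0 := congrArg QuadraticAlgebra.re hx
    have h2 : q = 0 := congrArg QuadraticAlgebra.im hx
    rw [h1, h2, zero_smul, zero_smul, add_zero]
  · intro z
    exact ⟨_, toCo_basis W z.re z.im⟩

/-- The ring isomorphism. -/
noncomputable def coE : W.CoordinateRing ≃+* Co (cubW W) :=
  RingEquiv.ofBijective (toCo W) (toCo_bijective W)

theorem coE_apply (z : W.CoordinateRing) : coE W z = toCo W z := rfl

variable [Hyp (cubW W)]

instance : IsDedekindDomain W.CoordinateRing := by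
  have h1 : IsNoetherianRing W.CoordinateRing := isNoetherianRing_of_ringEquiv _ (coE W).symm
  have h2 : Ring.DimensionLEOne W.CoordinateRing := Ring.DimensionLEOne.of_ringEquiv (coE W)
  have h3 : IsIntegrallyClosed W.CoordinateRing := IsIntegrallyClosed.of_equiv (coE W).symm
  exact {}

omit [Hyp (cubW W)] in
theorem map_XYIdeal (x y : Om) :
    (CoordinateRing.XYIdeal W x (C y)).map (coE W : W.CoordinateRing →+* Co (cubW W)) =
      mid (cubW W) (X - C x) (C y) := by
  rw [CoordinateRing.XYIdeal, Ideal.map_span, mid]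
  congr 1
  rw [Set.image_pair]
  have e1 : (coE W : W.CoordinateRing →+* Co (cubW W)) (CoordinateRing.XClass W x) =
      ⟨X - C x, 0⟩ := toCo_C W _
  have e2 : (coE W : W.CoordinateRing →+* Co (cubW W)) (CoordinateRing.YClass W (C y)) =
      ⟨-C y, 1⟩ := by
    change toCo W (CoordinateRing.mk W (Y - C (C y))) = _
    rw [map_sub, map_sub, toCo_Y, toCo_C]
    ext1 <;> simp
  rw [e1, e2]

/-- The points of `W` are points of the curve. -/
def toPnt {x y : Om} (h : W.Nonsingular x y) : Pnt (cubW W) := ⟨x, y, by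
  have h1 := h.1
  rw [equation_iff, Short.h1 (W := W), Short.h3 (W := W)] at h1
  rw [cubW]
  simp only [eval_add, eval_pow, eval_X, eval_mul, eval_C]
  linear_combination h1⟩

theorem toClass_some' [DecidableEq Om] {x y : Om} (h : W.Nonsingular x y) :
    Point.toClass (Point.some x y h) = cls (CoordinateRing.XYIdeal W x (C y)) := by
  have hne : CoordinateRing.XYIdeal W x (C y) ≠ ⊥ := by
    intro h0
    have h1 : CoordinateRing.XClass W x ∈ CoordinateRing.XYIdeal W x (C y) :=
      Ideal.subset_span (Or.inl rfl)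
    rw [h0] at h1
    exact CoordinateRing.XClass_ne_zero x h1
  rw [cls_of_ne hne, Point.toClass_some]
  have h2 : ClassGroup.mk W.FunctionField (CoordinateRing.XYIdeal' (W := W) h) =
      ClassGroup.mk0 ⟨CoordinateRing.XYIdeal W x (C y), mem_nonZeroDivisors_of_ne_zero hne⟩ := by
    rw [← ClassGroup.mk_mk0 W.FunctionField]
    congr 1
    apply Units.ext
    rfl
  exact h2

/-- The homomorphism from the points to the class group. -/
noncomputable def ptJ [DecidableEq Om] : W.Point →+ JJ (cubW W) := (jMap (coE W)).comp Point.toClass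

theorem ptJ_some [DecidableEq Om] {x y : Om} (h : W.Nonsingular x y) :
    ptJ W (Point.some x y h) = (toPnt W h).cl := by
  rw [ptJ, AddMonoidHom.comp_apply, toClass_some', jMap_cls, map_XYIdeal, ← mumf_pt]
  rfl

theorem ptJ_injective [DecidableEq Om] : Function.Injective (ptJ W) := by
  have h1 : Function.Injective (jMap (coE W)) := by
    intro P Q h
    have h2 := congrArg (jMap (coE W).symm) h
    rw [jMap_jMap, jMap_jMap, RingEquiv.self_trans_symm, jMap_refl, jMap_refl] at h2
    exact h2
  exact h1.comp Point.toClass_injective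

theorem natDegree_cubW (W : Affine Om) : (cubW W).natDegree = 3 := by
  rw [cubW]
  compute_degree!

omit [Hyp (cubW W)] in
/-- `(x, y)` on the curve is a nonsingular point. -/
theorem nonsingular_of [W.IsElliptic] {x y : Om} (h : y ^ 2 = (cubW W).eval x) :
    W.Nonsingular x y := by
  refine (W.equation_iff_nonsingular).1 ?_
  rw [equation_iff, Short.h1 (W := W), Short.h3 (W := W)]
  rw [cubW] at h
  simp only [eval_add, eval_pow, eval_X, eval_mul, eval_C] at h
  linear_combination h

theorem ptJ_surjective [DecidableEq Om] [W.IsElliptic] : Function.Surjective (ptJ W) := by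
  intro Q
  obtain ⟨U, V, hU, hUd, hV, hd, rfl⟩ := exists_red (g := 1) (natDegree_cubW W) Q
  have hcase : U.natDegree = 0 ∨ U.natDegree = 1 := by omega
  rcases hcase with h0 | h1
  · refine ⟨0, ?_⟩
    have hU1 : U = C 1 := by
      rw [hU.natDegree_eq_zero.1 h0, C_1]
    rw [map_zero, mcl, hU1, mid_C one_ne_zero, cls_top]
  · obtain ⟨x, hx⟩ : ∃ x, U = X - C x := by
      refine ⟨-U.coeff 0, ?_⟩
      have h2 := eq_X_add_C_of_natDegree_le_one hUd
      have h3 : U.coeff 1 = 1 := by
        have h4 := hU.coeff_natDegree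
        rwa [h1] at h4
      rw [h3, C_1, one_mul] at h2
      rw [C_neg, sub_neg_eq_add]
      exact h2
    obtain ⟨y, hy⟩ : ∃ y, V = C y := by
      refine ⟨V.coeff 0, ?_⟩
      apply eq_C_of_degree_le_zero
      rw [hx, degree_X_sub_C] at hV
      exact Order.le_of_lt_succ (by exact_mod_cast hV)
    subst hx
    subst hy
    have h2 : y ^ 2 = (cubW W).eval x := by
      have h3 := (dvd_iff_isRoot.1 hd)
      rw [IsRoot.def, eval_sub, eval_pow, eval_C, sub_eq_zero] at h3
      exact h3.symm
    refine ⟨Point.some x y (nonsingular_of W h2), ?_⟩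
    rw [ptJ_some, ← mumf_pt]
    rfl

/-- **The group of points is the class group.** -/
noncomputable def ptE [DecidableEq Om] [W.IsElliptic] : W.Point ≃+ JJ (cubW W) :=
  AddEquiv.ofBijective (ptJ W) ⟨ptJ_injective W, ptJ_surjective W⟩

theorem ptE_some [DecidableEq Om] [W.IsElliptic] {x y : Om} (h : W.Nonsingular x y) :
    ptE W (Point.some x y h) = (toPnt W h).cl := ptJ_some W h

end ring

section eqv

variable {Om : Type} [Field Om]

/-- The same with any name for the cubic. -/
theorem exists_ptE [DecidableEq Om] (W : Affine Om) [Short W] [W.IsElliptic] {F : Om[X]}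
    (hF : F = cubW W) [Hyp F] : ∃ e : W.Point ≃+ JJ F,
      ∀ (x y : Om) (h : W.Nonsingular x y) (P : Pnt F), P.x = x → P.y = y →
        e (Point.some x y h) = P.cl := by
  subst hF
  refine ⟨ptE W, fun x y h P hx hy => ?_⟩
  rw [ptE_some]
  congr 1
  exact Pnt.ext hx.symm hy.symm

variable {K : Type} [Field K] [Algebra K Om]

instance short_baseChange (W : WeierstrassCurve K) [h : Short W.toAffine] :
    Short (W.baseChange Om).toAffine where
  h1 := by
    change algebraMap K Om W.a₁ = 0
    rw [show W.a₁ = 0 from h.h1, map_zero]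
  h3 := by
    change algebraMap K Om W.a₃ = 0
    rw [show W.a₃ = 0 from h.h3, map_zero]

theorem cubW_baseChange (W : WeierstrassCurve K) :
    (cubW W.toAffine).map (algebraMap K Om) = cubW (W.baseChange Om).toAffine := by
  rw [cubW, cubW]
  simp only [Polynomial.map_add, Polynomial.map_pow, Polynomial.map_mul, map_X, map_C]
  rfl

open scoped Classical in
/-- **Galois equivariance.** -/
theorem exists_brE (W : WeierstrassCurve K) [Short W.toAffine] [W.IsElliptic] {F : Om[X]}
    (hF : F = (cubW W.toAffine).map (algebraMap K Om)) [Hyp F] :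
    ∃ e : (W.baseChange Om).toAffine.Point ≃+ JJ F,
      ∀ (s : Om ≃ₐ[K] Om) (hs : F.map (s.toRingEquiv : Om →+* Om) = F)
        (P : (W.baseChange Om).toAffine.Point),
        e (Affine.Point.map (W' := W) s.toAlgHom P) = act s.toRingEquiv hs (e P) := by
  have hEl : WeierstrassCurve.IsElliptic (W.baseChange Om).toAffine :=
    inferInstanceAs (WeierstrassCurve.IsElliptic (W.map (algebraMap K Om)))
  obtain ⟨e, he⟩ := exists_ptE (W.baseChange Om).toAffine (hF.trans (cubW_baseChange W))
  refine ⟨e, fun s hs P => ?_⟩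
  rcases P with _ | ⟨x, y, h⟩
  · have h1 : Affine.Point.map (W' := W) s.toAlgHom
      (Affine.Point.zero : (W.baseChange Om).toAffine.Point) = 0 := rfl
    have h2 : (Affine.Point.zero : (W.baseChange Om).toAffine.Point) = 0 := rfl
    rw [h1, h2, map_zero, map_zero]
  · have hon : y ^ 2 = F.eval x := by
      have h3 : y ^ 2 = (cubW (W.baseChange Om).toAffine).eval x :=
        (toPnt (W.baseChange Om).toAffine h).on
      rw [h3, hF, cubW_baseChange]
    rw [Affine.Point.map_some, he _ _ h ⟨x, y, hon⟩ rfl rfl, act_cl]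
    exact he _ _ _ _ rfl rfl

end eqv

end Pool.Agent.SmN.Fnl
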