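import Pool.Agent.Lib.SmN.Fin.JDens

/-!
# SMITH-U (SmN), final layer: the exceptional `j`-invariants

`GenJ j`: the 2-division cubic of the curves with invariant `j` has Galois group `S_3` over `K`.
`few_nongen`: the `j` without this property are few among those of height at most `h`.
-/

set_option autoImplicit false

namespace Pool.Agent.SmN.Fnl

open Pool.Agent.BSDFF Pool.Agent.GBC Pool.Agent.GBU

/-- `j` is not `0`, `1728`, `j - 1728` is not a square, and the cubic
`x ^ 3 + 3 j (1728 - j) x + 2 j (1728 - j) ^ 2` has no root: the 2-division field of the elliptic curves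
with invariant `j` has Galois group `S_3`. -/
structure GenJ {K : Type} [Field K] (j : K) : Prop where
  ne0 : j ≠ 0
  ne1728 : j ≠ 1728
  sq : ∀ s : K, s ^ 2 ≠ j - 1728
  root : ∀ x : K, x ^ 3 + 3 * j * (1728 - j) * x + 2 * j * (1728 - j) ^ 2 ≠ 0

section half

variable {k K : Type} [Field k] [Field K] [Algebra k K]

/-- Half of a divisor. -/
noncomputable def halfD (D : Place k K →₀ ℤ) : Place k K →₀ ℤ :=
  D.mapRange (fun n => n / 2) rfl

theorem halfD_apply (D : Place k K →₀ ℤ) (w : Place k K) : halfD D w = D w / 2 := rfl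

theorem halfD_nonneg {D : Place k K →₀ ℤ} (h : 0 ≤ D) : 0 ≤ halfD D := by
  intro w
  rw [halfD_apply, Finsupp.zero_apply]
  have : 0 ≤ D w := h w
  omega

theorem degD_halfD {D : Place k K →₀ ℤ} (h : 0 ≤ D) {n : ℕ} (hn : degD D ≤ n) :
    degD (halfD D) ≤ (n / 2 : ℕ) := by
  have h1 : degD (halfD D + halfD D) ≤ degD D := by
    have h2 : 0 ≤ D - (halfD D + halfD D) := by
      intro w
      rw [Finsupp.sub_apply, Finsupp.add_apply, halfD_apply, Finsupp.zero_apply]
      omega
    have h3 := degD_nonneg h2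
    rw [degD_sub] at h3
    linarith
  rw [degD_add] at h1
  omega

theorem const_mem_LL {D : Place k K →₀ ℤ} (h : 0 ≤ D) (c : k) : algebraMap k K c ∈ LL D := by
  by_cases hc : c = 0
  · rw [hc, map_zero]
    exact (LL D).zero_mem
  · refine Or.inr fun w => ?_
    rw [ord_const w hc]
    have : 0 ≤ D w := h w
    linarith

theorem natCast_mem_LL {D : Place k K →₀ ℤ} (h : 0 ≤ D) (n : ℕ) : (n : K) ∈ LL D := by
  have := const_mem_LL (K := K) h (n : k)
  rwa [map_natCast] at this

theorem ord_natCast (w : Place k K) {n : ℕ} (hn : (n : k) ≠ 0) : ord w (n : K) = 0 := by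
  have := ord_const w hn
  rwa [map_natCast] at this

/-- If `s ^ 2` has height at most `h`, then `s` has height at most `h / 2`. -/
theorem mem_half_of_sq {D : Place k K →₀ ℤ} (h : 0 ≤ D) {s : K} (hs : s ^ 2 ∈ LL D) :
    s ∈ LL (halfD D) := by
  by_cases hs0 : s = 0
  · rw [hs0]
    exact (LL _).zero_mem
  rw [mem_LL_iff (pow_ne_zero 2 hs0)] at hs
  rw [mem_LL_iff hs0]
  intro w
  have h1 := hs w
  rw [ord_pow w hs0] at h1
  rw [halfD_apply]
  have : ((2 : ℕ) : ℤ) = 2 := rfl
  omega

/-- A pole of `t` gives a pole of order twice as large of `256 (t - 3) ^ 3 / (t - 4)`. -/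
theorem mem_half_of_root (h2 : (2 : k) ≠ 0) {D : Place k K →₀ ℤ} (h : 0 ≤ D) {j t : K}
    (hj : j ∈ LL D) (ht : j * (t - 4) = 256 * (t - 3) ^ 3) : t ∈ LL (halfD D) := by
  by_cases ht0 : t = 0
  · rw [ht0]
    exact (LL _).zero_mem
  rw [mem_LL_iff ht0]
  intro w
  have hDw : 0 ≤ D w := h w
  rw [halfD_apply]
  by_cases hw : 0 ≤ ord w t
  · omega
  push Not at hw
  have key : ∀ n : ℕ, t - (n : K) ≠ 0 ∧ ord w (t - (n : K)) = ord w t := by
    intro n
    rw [sub_eq_add_neg]
    refine ord_add_of_lt w ht0 ?_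
    by_cases hn : (n : K) = 0
    · left
      rw [hn, neg_zero]
    · right
      have hn' : (n : k) ≠ 0 := by
        intro h0
        apply hn
        rw [← map_natCast (algebraMap k K), h0, map_zero]
      rw [ord_neg, ord_natCast w hn']
      exact hw
  obtain ⟨h4, h4'⟩ := key 4
  obtain ⟨h3, h3'⟩ := key 3
  push_cast at h4 h4' h3 h3'
  have h256 : ((256 : ℕ) : k) ≠ 0 := by
    have : ((256 : ℕ) : k) = 2 ^ 8 := by norm_num
    rw [this]
    exact pow_ne_zero 8 h2
  have h256K : (256 : K) ≠ 0 := by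
    have h5 : algebraMap k K ((256 : ℕ) : k) ≠ 0 := (_root_.map_ne_zero _).2 h256
    rwa [map_natCast] at h5
  have hj0 : j ≠ 0 := by
    rintro rfl
    rw [zero_mul] at ht
    exact mul_ne_zero h256K (pow_ne_zero 3 h3) ht.symm
  have h5 := congrArg (ord w) ht
  rw [ord_mul w hj0 h4, ord_mul w h256K (pow_ne_zero 3 h3), ord_pow w h3, h4', h3'] at h5
  have h6 : ord w (256 : K) = 0 := by
    have := ord_natCast (K := K) w h256
    push_cast at this
    exact this
  rw [h6] at h5
  rw [mem_LL_iff hj0] at hj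
  have h7 := hj w
  push_cast at h5
  omega

end half

section count

variable {k K : Type} [Field k] [Field K] [Algebra k K] (G : Geo k K) [Finite k]

/-- A root of the cubic gives the parameter `t`. -/
theorem exists_t (h6 : (6 : K) ≠ 0) {j x : K} (hj : j ≠ 0) (hj' : j ≠ 1728)
    (hx : x ^ 3 + 3 * j * (1728 - j) * x + 2 * j * (1728 - j) ^ 2 = 0) :
    ∃ t : K, t - 4 ≠ 0 ∧ j * (t - 4) = 256 * (t - 3) ^ 3 := by
  have h2 : (2 : K) ≠ 0 := by
    intro h
    apply h6
    linear_combination 3 * h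
  have h3 : (3 : K) ≠ 0 := by
    intro h
    apply h6
    linear_combination 2 * h
  set u : K := 1728 - j with hu
  have hu0 : u ≠ 0 := fun h => hj' (by linear_combination -h)
  have hx0 : x ≠ 0 := by
    rintro rfl
    have h4 : 2 * j * u ^ 2 = 0 := by linear_combination hx
    exact mul_ne_zero (mul_ne_zero h2 hj) (pow_ne_zero 2 hu0) h4
  -- `b = 3 x² + A`, `A = 3 j u`
  have hb : 3 * x ^ 2 + 3 * j * u ≠ 0 := by
    intro h
    have h4 : x ^ 2 = - (j * u) := by
      have : 3 * (x ^ 2 + j * u) = 0 := by linear_combination h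
      rcases mul_eq_zero.1 this with h5 | h5
      · exact absurd h5 h3
      · linear_combination h5
    -- x³ = - j u x, so 2 j u x + 2 j u² = 0, x = - u
    have h5 : 2 * j * u * (x + u) = 0 := by
      linear_combination hx - x * h4
    have h7 : x = -u := by
      rcases mul_eq_zero.1 h5 with h8 | h8
      · exact absurd h8 (mul_ne_zero (mul_ne_zero h2 hj) hu0)
      · linear_combination h8
    have h8 : u * (u + j) = 0 := by
      rw [h7] at h4
      linear_combination h4
    rcases mul_eq_zero.1 h8 with h9 | h9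
    · exact hu0 h9
    · have h10 : (1728 : K) = 0 := by
        rw [hu] at h9
        linear_combination h9
      have h11 : (1728 : K) = 2 ^ 6 * 3 ^ 3 := by norm_num
      rw [h11] at h10
      exact mul_ne_zero (pow_ne_zero 6 h2) (pow_ne_zero 3 h3) h10
  have hj2 : j = 1728 - u := by rw [hu]; ring
  refine ⟨9 * x ^ 2 / (3 * x ^ 2 + 3 * j * u), ?_, ?_⟩
  · -- `a² = 4 b` would give a double root
    intro h
    have h4 : 9 * x ^ 2 = 4 * (3 * x ^ 2 + 3 * j * u) := by
      rw [sub_eq_zero, div_eq_iff hb] at h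
      exact h
    have h5 : x ^ 2 = -(4 * (j * u)) := by
      have : 3 * (x ^ 2 + 4 * (j * u)) = 0 := by linear_combination -h4
      rcases mul_eq_zero.1 this with h5 | h5
      · exact absurd h5 h3
      · linear_combination h5
    have h7 : j * u * (-x + 2 * u) = 0 := by
      linear_combination hx - x * h5
    have h8 : x = 2 * u := by
      rcases mul_eq_zero.1 h7 with h8 | h8
      · exact absurd h8 (mul_ne_zero hj hu0)
      · linear_combination -h8
    have h9 : 4 * u * (u + j) = 0 := by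
      rw [h8] at h5
      linear_combination h5
    rcases mul_eq_zero.1 h9 with h10 | h10
    · exact mul_ne_zero (by
        have : (4 : K) = 2 * 2 := by norm_num
        rw [this]
        exact mul_ne_zero h2 h2) hu0 h10
    · have h11 : (1728 : K) = 0 := by
        rw [hj2] at h10
        linear_combination h10
      have h12 : (1728 : K) = 2 ^ 6 * 3 ^ 3 := by norm_num
      rw [h12] at h11
      exact mul_ne_zero (pow_ne_zero 6 h2) (pow_ne_zero 3 h3) h11
  · set B : K := 3 * x ^ 2 + 3 * j * u with hB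
    have e1 : 9 * x ^ 2 / B - 4 = (9 * x ^ 2 - 4 * B) / B := by
      rw [sub_div, mul_div_assoc 4, div_self hb, mul_one]
    have e2 : 9 * x ^ 2 / B - 3 = (9 * x ^ 2 - 3 * B) / B := by
      rw [sub_div, mul_div_assoc 3, div_self hb, mul_one]
    rw [e1, e2, div_pow, ← mul_div_assoc, ← mul_div_assoc, div_eq_div_iff hb (pow_ne_zero 3 hb)]
    have key : j * (9 * x ^ 2 - 4 * B) * B ^ 2 = 256 * (9 * x ^ 2 - 3 * B) ^ 3 := by
      rw [hB]
      linear_combination (-27 * j * (x ^ 3 + 3 * j * u * x - 2 * j * u ^ 2)) * hx -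
        108 * (j * u) ^ 3 * hj2
    linear_combination B * key

/-- The exceptional `j` of height at most `h`. -/
theorem nongen_subset (h6 : (6 : k) ≠ 0) (h : ℕ) :
    {j : K | HtLE k h j ∧ ¬ GenJ j} ⊆
      (({0, 1728} : Set K) ∪ (fun s : K => s ^ 2 + 1728) '' {s | HtLE k (h / 2) s}) ∪
        (fun t : K => 256 * (t - 3) ^ 3 / (t - 4)) '' {t | HtLE k (h / 2) t} := by
  have h2 : (2 : k) ≠ 0 := by
    intro h0
    apply h6
    linear_combination 3 * h0
  have h6K : (6 : K) ≠ 0 := by
    have h5 : algebraMap k K 6 ≠ 0 := (_root_.map_ne_zero _).2 h6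
    rwa [map_ofNat] at h5
  rintro j ⟨⟨D, hD, hd, hj⟩, hg⟩
  by_cases h0 : j = 0
  · exact Or.inl (Or.inl (Or.inl h0))
  by_cases h1 : j = 1728
  · exact Or.inl (Or.inl (Or.inr h1))
  by_cases hs : ∃ s : K, s ^ 2 = j - 1728
  · obtain ⟨s, hs⟩ := hs
    left; right
    refine ⟨s, ⟨halfD D, halfD_nonneg hD, degD_halfD hD hd, mem_half_of_sq hD ?_⟩, ?_⟩
    · rw [hs]
      have h3 := natCast_mem_LL (K := K) hD 1728
      push_cast at h3
      exact (LL D).sub_mem hj h3
    · change s ^ 2 + 1728 = j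
      rw [hs]
      ring
  · push Not at hs
    right
    obtain ⟨x, hx⟩ : ∃ x : K, x ^ 3 + 3 * j * (1728 - j) * x + 2 * j * (1728 - j) ^ 2 = 0 := by
      by_contra hcon
      push Not at hcon
      exact hg ⟨h0, h1, hs, hcon⟩
    obtain ⟨t, ht, ht'⟩ := exists_t h6K h0 h1 hx
    refine ⟨t, ⟨halfD D, halfD_nonneg hD, degD_halfD hD hd, mem_half_of_root h2 hD hj ht'⟩, ?_⟩
    change 256 * (t - 3) ^ 3 / (t - 4) = j
    rw [← ht', mul_div_cancel_right₀ _ ht]

include G in
/-- **The exceptional `j`-invariants are few.** -/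
theorem few_nongen (h6 : (6 : k) ≠ 0) (ε : ℝ) (hε : 0 < ε) : ∃ h₀ : ℕ, ∀ h ≥ h₀,
    ({j : K | HtLE k h j ∧ ¬ GenJ j}.ncard : ℝ) ≤ ε * {j : K | HtLE k h j}.ncard := by
  obtain ⟨m₀, hm₀⟩ := htLE_ratio G (ε / 4) (by linarith)
  refine ⟨2 * m₀, fun h hh => ?_⟩
  have hm := hm₀ (h / 2) (by omega)
  have hfin := finite_htLE G (h / 2)
  have hfin2 := finite_htLE G h
  set a : ℕ := {x : K | HtLE k (h / 2) x}.ncard with ha
  have h1 : {j : K | HtLE k h j ∧ ¬ GenJ j}.ncard ≤ 2 + a + a := by
    refine (Set.ncard_le_ncard (nongen_subset h6 h) (((Set.toFinite _).union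
      (hfin.image _)).union (hfin.image _))).trans ?_
    refine (Set.ncard_union_le _ _).trans ?_
    refine add_le_add ((Set.ncard_union_le _ _).trans (add_le_add ?_ ?_)) ?_
    · exact Set.ncard_insert_le _ _ |>.trans (by rw [Set.ncard_singleton])
    · exact Set.ncard_image_le hfin
    · exact Set.ncard_image_le hfin
  have h3 : 2 ≤ a := by
    -- the constants `0` and `1`
    have h4 : ({0, 1} : Set K).ncard ≤ a := by
      refine Set.ncard_le_ncard ?_ hfin
      rintro x (rfl | rfl)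
      · exact ⟨0, le_rfl, by rw [degD_zero]; exact Int.natCast_nonneg _, (LL _).zero_mem⟩
      · refine ⟨0, le_rfl, by rw [degD_zero]; exact Int.natCast_nonneg _, ?_⟩
        have := natCast_mem_LL (k := k) (K := K) (le_refl (0 : Place k K →₀ ℤ)) 1
        rwa [Nat.cast_one] at this
    rwa [Set.ncard_pair zero_ne_one] at h4
  have h5 : ({x : K | HtLE k (2 * (h / 2)) x}.ncard : ℝ) ≤ {x : K | HtLE k h x}.ncard := by
    have := Set.ncard_le_ncard (fun (x : K) (hx : HtLE k (2 * (h / 2)) x) =>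
      hx.mono (h' := h) (by omega)) hfin2
    exact_mod_cast this
  have h7 : ({j : K | HtLE k h j ∧ ¬ GenJ j}.ncard : ℝ) ≤ 4 * a := by
    have : {j : K | HtLE k h j ∧ ¬ GenJ j}.ncard ≤ 4 * a := by omega
    exact_mod_cast this
  calc ({j : K | HtLE k h j ∧ ¬ GenJ j}.ncard : ℝ) ≤ 4 * a := h7
    _ ≤ 4 * (ε / 4 * {x : K | HtLE k (2 * (h / 2)) x}.ncard) :=
        mul_le_mul_of_nonneg_left hm (by norm_num)
    _ = ε * {x : K | HtLE k (2 * (h / 2)) x}.ncard := by ring
    _ ≤ ε * {x : K | HtLE k h x}.ncard := mul_le_mul_of_nonneg_left h5 hε.le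

end count

end Pool.Agent.SmN.Fnl
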