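import Pool.Agent.Lib.SmN.Fin.IsoJ
import Pool.Agent.Lib.SmN.Fin.JGen
import Pool.Agent.Lib.SmN.Fin.BrE

/-!
# SMITH-U (SmN), final layer: the Galois group of the 2-division cubic

`card_gal_cubic`: the Galois group of a cubic over a field of characteristic different from 2 is `S_3`
exactly if the cubic is irreducible and its discriminant is no square. `card_gal_cubJ`: the curves
`crvJ j d` with `GenJ j`.
-/

set_option autoImplicit false

namespace Pool.Agent.SmN.Fnl

open Polynomial WeierstrassCurve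

section cubic

variable {K : Type*} [Field K] {P : Cubic K}

theorem sep_cubic (hP : P.a ≠ 0) (hd : P.discr ≠ 0) : P.toPoly.Separable := by
  have hsp := SplittingField.splits P.toPoly
  have h1 := (Cubic.discr_ne_zero_iff_roots_nodup hP hsp).1 hd
  rw [Cubic.map_roots] at h1
  exact (nodup_aroots_iff_of_splits (Cubic.ne_zero_of_a_ne_zero hP) hsp).1 h1

/-- The discriminant of a cubic has a square root in the splitting field. -/
theorem exists_sqrt_discr (hP : P.a ≠ 0) : ∃ δ : P.toPoly.SplittingField,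
    δ ^ 2 = algebraMap K P.toPoly.SplittingField P.discr := by
  obtain ⟨x, y, z, h⟩ := (Cubic.splits_iff_roots_eq_three hP).1 (SplittingField.splits P.toPoly)
  exact ⟨_, (Cubic.discr_eq_prod_three_roots hP h).symm⟩

/-- The Galois group of an irreducible cubic whose discriminant is no square has order 6. -/
theorem card_gal_toPoly (hirr : Irreducible P.toPoly) (hP : P.a ≠ 0)
    (hdisc : ¬ IsSquare P.discr) : Nat.card P.toPoly.Gal = 6 := by
  have hd0 : P.discr ≠ 0 := by
    intro h
    apply hdisc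
    rw [h]
    exact ⟨0, (mul_zero 0).symm⟩
  have hsep : P.toPoly.Separable := sep_cubic hP hd0
  have hdeg : P.toPoly.natDegree = 3 := Cubic.natDegree_of_a_ne_zero hP
  have hsp := SplittingField.splits P.toPoly
  -- divisible by 3
  have h3 : 3 ∣ Nat.card P.toPoly.Gal := by
    rw [Gal.card_of_separable hsep, ← hdeg]
    exact hirr.natDegree_dvd_finrank hsp
  -- divisible by 2
  have h2 : 2 ∣ Nat.card P.toPoly.Gal := by
    rw [Gal.card_of_separable hsep]
    obtain ⟨δ, hδ⟩ := exists_sqrt_discr (P := P) hP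
    have hint : IsIntegral K δ := Algebra.IsIntegral.isIntegral δ
    have h4 : (minpoly K δ).natDegree = 2 := by
      apply le_antisymm
      · have h5 : minpoly K δ ∣ X ^ 2 - C P.discr := by
          apply minpoly.dvd
          rw [map_sub, map_pow, aeval_X, aeval_C, hδ, sub_self]
        have h6 := natDegree_le_of_dvd h5 (X_pow_sub_C_ne_zero two_pos _)
        rwa [natDegree_X_pow_sub_C] at h6
      · rw [minpoly.two_le_natDegree_iff hint]
        rintro ⟨x, hx⟩
        apply hdisc
        refine ⟨x, ?_⟩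
        apply (algebraMap K P.toPoly.SplittingField).injective
        rw [← hδ, map_mul, hx, sq]
    rw [← h4]
    exact minpoly.degree_dvd hint
  have h6 : 6 ∣ Nat.card P.toPoly.Gal := by
    have : Nat.Coprime 2 3 := by norm_num
    exact this.mul_dvd_of_dvd_of_dvd h2 h3
  -- at most 6
  have hle : Nat.card P.toPoly.Gal ≤ 6 := by
    have : Fact ((P.toPoly.map (algebraMap K P.toPoly.SplittingField)).Splits) := ⟨hsp⟩
    have h7 := Nat.card_le_card_of_injective _
      (Gal.galActionHom_injective P.toPoly P.toPoly.SplittingField)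
    rw [Nat.card_perm, Nat.card_eq_fintype_card (α := P.toPoly.rootSet P.toPoly.SplittingField),
      card_rootSet_eq_natDegree hsep hsp, hdeg] at h7
    exact h7
  exact le_antisymm hle (Nat.le_of_dvd (Nat.card_pos) h6)

/-- If the Galois group has order 6, then there are three roots and every permutation of the
roots is induced by an automorphism of the splitting field. -/
theorem perm_of_card_gal (hP : P.a ≠ 0) (hG : Nat.card P.toPoly.Gal = 6) :
    ∃ x y z : P.toPoly.SplittingField,
      (Cubic.map (algebraMap K P.toPoly.SplittingField) P).roots = {x, y, z} ∧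
      P.toPoly.rootSet P.toPoly.SplittingField = {x, y, z} ∧
      x ≠ y ∧ x ≠ z ∧ y ≠ z ∧
      ∀ σ : Equiv.Perm (P.toPoly.rootSet P.toPoly.SplittingField),
        ∃ s : P.toPoly.SplittingField ≃ₐ[K] P.toPoly.SplittingField,
          ∀ w : P.toPoly.rootSet P.toPoly.SplittingField, s w = σ w := by
  classical
  have hsp := SplittingField.splits P.toPoly
  have hf0 : P.toPoly ≠ 0 := Cubic.ne_zero_of_a_ne_zero hP
  have : Fact ((P.toPoly.map (algebraMap K P.toPoly.SplittingField)).Splits) := ⟨hsp⟩
  have hinj := Gal.galActionHom_injective P.toPoly P.toPoly.SplittingField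
  obtain ⟨x, y, z, h⟩ := (Cubic.splits_iff_roots_eq_three hP).1 hsp
  have hr : (P.toPoly.map (algebraMap K P.toPoly.SplittingField)).roots = {x, y, z} := by
    rw [← Cubic.map_roots, h]
  have hset : P.toPoly.rootSet P.toPoly.SplittingField = {x, y, z} := by
    rw [rootSet, aroots_def, hr]
    ext w
    simp
  -- the number of roots is 3
  have hge : 3 ≤ Nat.card (P.toPoly.rootSet P.toPoly.SplittingField) := by
    by_contra hlt
    have h7 := Nat.card_le_card_of_injective _ hinj
    rw [Nat.card_perm, hG] at h7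
    have h8 : (Nat.card (P.toPoly.rootSet P.toPoly.SplittingField)).factorial ≤
      (2).factorial := Nat.factorial_le (by omega)
    have h9 := h7.trans h8
    revert h9
    decide
  have hle : Nat.card (P.toPoly.rootSet P.toPoly.SplittingField) ≤ 3 := by
    rw [hset, Nat.card_coe_set_eq]
    refine (Set.ncard_insert_le _ _).trans ?_
    have := Set.ncard_insert_le y ({z} : Set P.toPoly.SplittingField)
    rw [Set.ncard_singleton] at this
    omega
  have hcard := le_antisymm hle hge
  have hbij : Function.Bijective (Gal.galActionHom P.toPoly P.toPoly.SplittingField) := by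
    rw [Nat.bijective_iff_injective_and_card]
    refine ⟨hinj, ?_⟩
    rw [hG, Nat.card_perm, hcard]
    rfl
  have hne : x ≠ y ∧ x ≠ z ∧ y ≠ z := by
    refine ⟨fun e => ?_, fun e => ?_, fun e => ?_⟩
    · have h5 : Nat.card (P.toPoly.rootSet P.toPoly.SplittingField) ≤ 2 := by
        rw [hset, e, Set.insert_eq_of_mem (Set.mem_insert _ _), Nat.card_coe_set_eq]
        have := Set.ncard_insert_le y ({z} : Set P.toPoly.SplittingField)
        rwa [Set.ncard_singleton] at this
      omega
    · have h5 : Nat.card (P.toPoly.rootSet P.toPoly.SplittingField) ≤ 2 := by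
        have h6 : ({x, y, z} : Set P.toPoly.SplittingField) = {y, z} :=
          Set.insert_eq_of_mem (Or.inr e)
        rw [hset, h6, Nat.card_coe_set_eq]
        have := Set.ncard_insert_le y ({z} : Set P.toPoly.SplittingField)
        rwa [Set.ncard_singleton] at this
      omega
    · have h5 : Nat.card (P.toPoly.rootSet P.toPoly.SplittingField) ≤ 2 := by
        rw [hset, e, Set.insert_eq_of_mem (a := z) (s := {z}) rfl, Nat.card_coe_set_eq]
        have := Set.ncard_insert_le x ({z} : Set P.toPoly.SplittingField)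
        rwa [Set.ncard_singleton] at this
      omega
  refine ⟨x, y, z, h, hset, hne.1, hne.2.1, hne.2.2, fun σ => ?_⟩
  obtain ⟨τ, hτ⟩ := hbij.2 σ
  obtain ⟨s, hs⟩ := Gal.restrict_surjective P.toPoly P.toPoly.SplittingField τ
  exact ⟨s, fun w => by
    rw [← Gal.galActionHom_restrict P.toPoly P.toPoly.SplittingField s w, hs, hτ]⟩

/-- The transposition of the roots `x`, `y`. -/
private theorem swap_spec {L : Type*} [DecidableEq L] {R : Set L} {x y z : L} (hx : x ∈ R)
    (hy : y ∈ R) (hz : z ∈ R) (hxz : x ≠ z) (hyz : y ≠ z) {s : L → L}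
    (h : ∀ w : R, s w = (Equiv.swap (⟨x, hx⟩ : R) ⟨y, hy⟩ w : R)) :
    s x = y ∧ s y = x ∧ s z = z := by
  refine ⟨?_, ?_, ?_⟩
  · have := h ⟨x, hx⟩
    rwa [Equiv.swap_apply_left] at this
  · have := h ⟨y, hy⟩
    rwa [Equiv.swap_apply_right] at this
  · have := h ⟨z, hz⟩
    rwa [Equiv.swap_apply_of_ne_of_ne (fun e => hxz (congrArg Subtype.val e).symm)
      (fun e => hyz (congrArg Subtype.val e).symm)] at this

/-- The converse. -/
theorem of_card_gal_toPoly (h2 : (2 : K) ≠ 0) (hP : P.a ≠ 0)
    (hG : Nat.card P.toPoly.Gal = 6) : Irreducible P.toPoly ∧ ¬ IsSquare P.discr := by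
  classical
  have hdeg : P.toPoly.natDegree = 3 := Cubic.natDegree_of_a_ne_zero hP
  have hf0 : P.toPoly ≠ 0 := Cubic.ne_zero_of_a_ne_zero hP
  obtain ⟨x, y, z, h, hset, hxy, hxz, hyz, hs⟩ := perm_of_card_gal hP hG
  have hx : x ∈ P.toPoly.rootSet P.toPoly.SplittingField := by rw [hset]; exact Or.inl rfl
  have hy : y ∈ P.toPoly.rootSet P.toPoly.SplittingField := by rw [hset]; exact Or.inr (Or.inl rfl)
  have hz : z ∈ P.toPoly.rootSet P.toPoly.SplittingField := by rw [hset]; exact Or.inr (Or.inr rfl)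
  constructor
  · rw [irreducible_iff_roots_eq_zero_of_degree_le_three (by rw [hdeg]; norm_num) (by rw [hdeg]),
      Multiset.eq_zero_iff_forall_notMem]
    intro t ht
    have ht1 := (mem_roots hf0).1 ht
    have ht2 : algebraMap K P.toPoly.SplittingField t ∈
        P.toPoly.rootSet P.toPoly.SplittingField := by
      rw [mem_rootSet]
      refine ⟨hf0, ?_⟩
      rw [aeval_algebraMap_apply_eq_algebraMap_eval, ht1, map_zero]
    rw [hset] at ht2
    rcases ht2 with h1 | h1 | h1
    · obtain ⟨s, h3⟩ := hs (Equiv.swap ⟨x, hx⟩ ⟨y, hy⟩)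
      have h4 := (swap_spec hx hy hz hxz hyz (s := s) h3).1
      rw [← h1, s.commutes, h1] at h4
      exact hxy h4
    · obtain ⟨s, h3⟩ := hs (Equiv.swap ⟨x, hx⟩ ⟨y, hy⟩)
      have h4 := (swap_spec hx hy hz hxz hyz (s := s) h3).2.1
      rw [← h1, s.commutes, h1] at h4
      exact hxy h4.symm
    · have h1' : algebraMap K P.toPoly.SplittingField t = z := h1
      obtain ⟨s, h3⟩ := hs (Equiv.swap ⟨z, hz⟩ ⟨y, hy⟩)
      have h4 := (swap_spec hz hy hx hxz.symm hxy.symm (s := s) h3).1
      rw [← h1', s.commutes, h1'] at h4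
      exact hyz h4.symm
  · rintro ⟨t, ht⟩
    obtain ⟨s, h3⟩ := hs (Equiv.swap ⟨x, hx⟩ ⟨y, hy⟩)
    obtain ⟨e1, e2, e3⟩ := swap_spec hx hy hz hxz hyz (s := s) h3
    have h5 := Cubic.discr_eq_prod_three_roots hP h
    set a := algebraMap K P.toPoly.SplittingField P.a with ha
    set δ := a * a * (x - y) * (x - z) * (y - z) with hδ
    have ha0 : a ≠ 0 := (_root_.map_ne_zero _).2 hP
    have hδ0 : δ ≠ 0 := mul_ne_zero (mul_ne_zero (mul_ne_zero (mul_ne_zero ha0 ha0)
      (sub_ne_zero.2 hxy)) (sub_ne_zero.2 hxz)) (sub_ne_zero.2 hyz)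
    have h6 : s δ = -δ := by
      rw [hδ, map_mul, map_mul, map_mul, map_mul, map_sub, map_sub, map_sub, e1, e2, e3,
        ha, s.commutes]
      ring
    have h7 : s δ = δ := by
      rw [ht, map_mul, ← sq, eq_comm, sq_eq_sq_iff_eq_or_eq_neg] at h5
      rcases h5 with h5 | h5
      · rw [h5, s.commutes]
      · rw [h5, map_neg, s.commutes]
    have h8 : (2 : P.toPoly.SplittingField) * δ = 0 := by
      have := h7.symm.trans h6
      linear_combination this
    rcases mul_eq_zero.1 h8 with h9 | h9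
    · apply h2
      apply (algebraMap K P.toPoly.SplittingField).injective
      rw [map_ofNat, map_zero, h9]
    · exact hδ0 h9

/-- The Galois group of a cubic is `S_3` exactly if it is irreducible and its discriminant is no
square. -/
theorem card_gal_iff (h2 : (2 : K) ≠ 0) (hP : P.a ≠ 0) :
    Nat.card P.toPoly.Gal = 6 ↔ Irreducible P.toPoly ∧ ¬ IsSquare P.discr :=
  ⟨of_card_gal_toPoly h2 hP, fun h => card_gal_toPoly h.1 hP h.2⟩

theorem toPoly_short (A B : K) : (⟨1, 0, A, B⟩ : Cubic K).toPoly = X ^ 3 + C A * X + C B := by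
  rw [Cubic.toPoly, C_1, C_0, one_mul, zero_mul, add_zero]

theorem discr_short (A B : K) : (⟨1, 0, A, B⟩ : Cubic K).discr = -4 * A ^ 3 - 27 * B ^ 2 := by
  rw [Cubic.discr]
  ring

/-- The Galois group of an irreducible cubic whose discriminant is no square has order `3!`. -/
theorem card_gal_cubic (A B : K) (hirr : Irreducible (X ^ 3 + C A * X + C B))
    (hdisc : ¬ IsSquare (-4 * A ^ 3 - 27 * B ^ 2)) :
    Nat.card (X ^ 3 + C A * X + C B : K[X]).Gal = (2 * 1 + 1).factorial := by
  rw [← toPoly_short] at hirr ⊢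
  rw [← discr_short] at hdisc
  rw [card_gal_toPoly hirr one_ne_zero hdisc]
  rfl

theorem card_gal_cubic_iff (h2 : (2 : K) ≠ 0) (A B : K) :
    Nat.card (X ^ 3 + C A * X + C B : K[X]).Gal = (2 * 1 + 1).factorial ↔
      Irreducible (X ^ 3 + C A * X + C B) ∧ ¬ IsSquare (-4 * A ^ 3 - 27 * B ^ 2) := by
  have h := card_gal_iff (P := (⟨1, 0, A, B⟩ : Cubic K)) h2 one_ne_zero
  rw [toPoly_short, discr_short] at h
  exact h

theorem separable_short (A B : K) (hdisc : -4 * A ^ 3 - 27 * B ^ 2 ≠ 0) :
    (X ^ 3 + C A * X + C B : K[X]).Separable := by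
  rw [← toPoly_short]
  exact sep_cubic one_ne_zero (by rwa [discr_short])

end cubic

section crv

variable {K : Type} [Field K]

theorem cubJ_separable (h6 : (6 : K) ≠ 0) {j d : K} (hj : j ≠ 0) (hj' : j ≠ 1728) (hd : d ≠ 0) :
    (cubJ j d).Separable := by
  refine separable_short _ _ ?_
  rw [cubJ_disc]
  have h2 : (2 : K) ≠ 0 := by
    intro h
    apply h6
    have : (6 : K) = 2 * 3 := by norm_num
    rw [this, h, zero_mul]
  have h3 : (3 : K) ≠ 0 := by
    intro h
    apply h6
    have : (6 : K) = 2 * 3 := by norm_num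
    rw [this, h, mul_zero]
  have h4 : j - 1728 ≠ 0 := sub_ne_zero.2 hj'
  positivity

/-- The 2-division cubic of the curves with generic `j` has Galois group `S_3`. -/
theorem card_gal_cubJ (h6 : (6 : K) ≠ 0) {j d : K} (g : GenJ j) (hd : d ≠ 0) :
    Nat.card (cubJ j d).Gal = (2 * 1 + 1).factorial ∧ (cubJ j d).Separable :=
  ⟨card_gal_cubic _ _ (cubJ_irreducible hd g.root)
    (cubJ_disc_not_square h6 g.ne0 g.ne1728 hd g.sq), cubJ_separable h6 g.ne0 g.ne1728 hd⟩

/-- `GenJ j` says exactly that the 2-division cubic has Galois group `S_3`. -/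
theorem genJ_iff (h6 : (6 : K) ≠ 0) {j d : K} (hj : j ≠ 0) (hj' : j ≠ 1728) (hd : d ≠ 0) :
    GenJ j ↔ Nat.card (cubJ j d).Gal = (2 * 1 + 1).factorial := by
  refine ⟨fun g => (card_gal_cubJ h6 g hd).1, fun h => ?_⟩
  have h2 : (2 : K) ≠ 0 := by
    intro h
    apply h6
    have : (6 : K) = 2 * 3 := by norm_num
    rw [this, h, zero_mul]
  obtain ⟨h3, h4⟩ := (card_gal_cubic_iff h2 _ _).1 h
  have h5 : j - 1728 ≠ 0 := sub_ne_zero.2 hj'
  refine ⟨hj, hj', fun s hs => ?_, fun x hx => ?_⟩
  · apply h4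
    rw [cubJ_disc]
    refine ⟨d ^ 3 * 2 ^ 4 * 3 ^ 3 * j * (j - 1728) * s, ?_⟩
    rw [← hs]
    ring
  · have h7 : (cubJ j d).IsRoot (d * x) := by
      rw [IsRoot.def, cubJ_eval]
      linear_combination d ^ 3 * hx
    have h8 : (cubJ j d).natDegree = 3 := cubJ_natDegree j d
    have h9 := degree_eq_one_of_irreducible_of_root h3 h7
    have h10 : (cubJ j d).natDegree = 1 := natDegree_eq_of_degree_eq_some h9
    omega

theorem cubJ_scaleRoots (j d : K) : cubJ j d = (cubJ j 1).scaleRoots d := by
  ext n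
  rw [coeff_scaleRoots, cubJ_natDegree, cubJ, cubJ]
  simp only [coeff_add, coeff_X_pow, coeff_C_mul_X, coeff_C]
  rcases lt_or_ge n 4 with hn | hn
  · interval_cases n <;> simp
  · have e1 : n ≠ 3 := by omega
    have e2 : n ≠ 1 := by omega
    have e3 : n ≠ 0 := by omega
    simp [e1, e2, e3]

instance short_crvJ (j d : K) : Short (crvJ j d).toAffine := ⟨rfl, rfl⟩

theorem cubW_crvJ (j d : K) : cubW (crvJ j d).toAffine = cubJ j d := by
  rw [cubW, cubJ]
  change X ^ 3 + C (0 : K) * X ^ 2 + _ + _ = _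
  rw [C_0, zero_mul, add_zero]
  rfl

end crv

end Pool.Agent.SmN.Fnl
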