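import Pool.Agent.Lib.Sm.L.Kummer
import Pool.Agent.Lib.SmJ.L.SelDefs

/-!
# SMITH-U (SmN), final layer, genus one: the conclusions for an elliptic curve over a field with heights
from the conclusions for its Galois module

Mordell-Weil by descent (heights with the Northcott property), `rank ≤ corank`, and the finiteness of
the 2-power torsion of the Tate-Shafarevich group if the rank is the corank.
-/

set_option autoImplicit false

open Polynomial WeierstrassCurve Pool.Agent.BSDFF Pool.Agent.BSDFF.MW Height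

namespace Pool.Agent.SmN.Fnl

open Pool.Agent.Sm.L (Pts gal card_sel)

section

variable {k K : Type} [Field k] [Field K] [Algebra k K] [AdmissibleAbsValues K]
  [Northcott (logHeight₁ (K := K))] (W : WeierstrassCurve K) [W.IsElliptic]
  (Ω : Type) [Field Ω] [Algebra K Ω] [IsGalois K Ω]

open scoped Classical in
private theorem GoodE_index {n : ℕ} (hn : 2 ≤ n) (H : (nG W.toAffine.Point n).index ≠ 0) :
    (nG W.toAffine.Point n).index =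
      n ^ (algebraicRank W) * Nat.card (Gn W.toAffine.Point n) := by
  rw [algebraicRank_eq]
  exact index_nG _ (fg_of_finiteIndex W hn ⟨H⟩) n (by omega)

open scoped Classical in
private theorem GoodE_key {B r : ℕ} (hfin : ∀ i : ℕ, Finite (Sm.L.Sel k Ω W (2 ^ i)))
    (hB : ∀ i : ℕ, Nat.card (Sm.L.Sel k Ω W (2 ^ i)) ≤ B * 2 ^ (r * i))
    (hdiv : ∀ (i : ℕ) (P : Pts Ω W), ∃ Q, 2 ^ i • Q = P) (i : ℕ) (hi : 1 ≤ i) :
    Finite (Gn (Sm.L.Sha k Ω W) (2 ^ i)) ∧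
      (2 ^ i) ^ algebraicRank W * Nat.card (Gn (Sm.L.Sha k Ω W) (2 ^ i)) ≤ B * 2 ^ (r * i) := by
  have h0 := card_sel k Ω W (2 ^ i) (hdiv i)
  have hne : Nat.card (Sm.L.Sel k Ω W (2 ^ i)) ≠ 0 := by
    have := hfin i
    exact Nat.card_pos.ne'
  rw [h0] at hne
  have h1 : (nG W.toAffine.Point (2 ^ i)).index ≠ 0 := left_ne_zero_of_mul hne
  have h2 : Nat.card (Gn (Sm.L.Sha k Ω W) (2 ^ i)) ≠ 0 := right_ne_zero_of_mul hne
  have h3 := GoodE_index W (n := 2 ^ i) (by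
    calc 2 = 2 ^ 1 := rfl
      _ ≤ 2 ^ i := Nat.pow_le_pow_right (by norm_num) hi) h1
  refine ⟨Nat.finite_of_card_ne_zero h2, ?_⟩
  have h4 := hB i
  rw [h0, h3] at h4
  have h5 : 1 ≤ Nat.card (Gn W.toAffine.Point (2 ^ i)) := by
    rw [h3] at h1
    exact Nat.one_le_iff_ne_zero.mpr (right_ne_zero_of_mul h1)
  calc (2 ^ i) ^ algebraicRank W * Nat.card (Gn (Sm.L.Sha k Ω W) (2 ^ i))
      ≤ (2 ^ i) ^ algebraicRank W * Nat.card (Gn W.toAffine.Point (2 ^ i)) *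
        Nat.card (Gn (Sm.L.Sha k Ω W) (2 ^ i)) :=
        Nat.mul_le_mul_right _ (Nat.le_mul_of_pos_right _ h5)
    _ ≤ B * 2 ^ (r * i) := h4

open scoped Classical in
/-- `W(K)` is finitely generated as soon as `Sel_2` is finite. -/
theorem finite_pointsE (hfin : Finite (Sm.L.Sel k Ω W (2 ^ 1)))
    (hdiv : ∀ P : Pts Ω W, ∃ Q, 2 ^ 1 • Q = P) : Module.Finite ℤ W.toAffine.Point := by
  have h0 := card_sel k Ω W (2 ^ 1) hdiv
  have hne : Nat.card (Sm.L.Sel k Ω W (2 ^ 1)) ≠ 0 := Nat.card_pos.ne'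
  rw [h0] at hne
  exact Module.Finite.iff_addGroup_fg.mpr
    (fg_of_finiteIndex W (n := 2 ^ 1) (by norm_num) ⟨left_ne_zero_of_mul hne⟩)

theorem rank_leE {B r : ℕ} (hfin : ∀ i : ℕ, Finite (Sm.L.Sel k Ω W (2 ^ i)))
    (hB : ∀ i : ℕ, Nat.card (Sm.L.Sel k Ω W (2 ^ i)) ≤ B * 2 ^ (r * i))
    (hdiv : ∀ (i : ℕ) (P : Pts Ω W), ∃ Q, 2 ^ i • Q = P) : algebraicRank W ≤ r := by
  by_contra hr
  obtain ⟨hf, h⟩ := GoodE_key W Ω hfin hB hdiv (B + 1) (Nat.le_add_left 1 B)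
  have h1 : 1 ≤ Nat.card (Gn (Sm.L.Sha k Ω W) (2 ^ (B + 1))) := Nat.card_pos
  have h2 : (2 ^ (B + 1)) ^ (r + 1) ≤ B * 2 ^ (r * (B + 1)) := by
    calc (2 ^ (B + 1)) ^ (r + 1) ≤ (2 ^ (B + 1)) ^ algebraicRank W :=
          Nat.pow_le_pow_right (Nat.two_pow_pos _) (by omega)
      _ ≤ (2 ^ (B + 1)) ^ algebraicRank W * Nat.card (Gn (Sm.L.Sha k Ω W) (2 ^ (B + 1))) :=
          Nat.le_mul_of_pos_right _ h1
      _ ≤ _ := h
  rw [pow_succ', ← pow_mul 2 (B + 1) r, mul_comm (B + 1) r] at h2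
  have h3 := Nat.le_of_mul_le_mul_right h2 (Nat.two_pow_pos _)
  have h4 : B + 1 < 2 ^ (B + 1) := Nat.lt_two_pow_self
  omega

theorem finite_sha2E {B r : ℕ} (hfin : ∀ i : ℕ, Finite (Sm.L.Sel k Ω W (2 ^ i)))
    (hB : ∀ i : ℕ, Nat.card (Sm.L.Sel k Ω W (2 ^ i)) ≤ B * 2 ^ (r * i))
    (hdiv : ∀ (i : ℕ) (P : Pts Ω W), ∃ Q, 2 ^ i • Q = P) (hr : algebraicRank W = r) :
    Finite (Sm.L.Sha2 k Ω W) := by
  by_contra hinf
  rw [not_finite_iff_infinite] at hinf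
  obtain ⟨s, hs⟩ := Infinite.exists_subset_card_eq (Sm.L.Sha2 k Ω W) (B + 1)
  have hx : ∀ x : Sm.L.Sha2 k Ω W, ∃ i : ℕ, 2 ^ i • (x : Sm.L.Sha k Ω W) = 0 := fun x => x.2
  choose e he using hx
  have hN : ∀ x ∈ s, 2 ^ (1 + ∑ y ∈ s, e y) • (x : Sm.L.Sha k Ω W) = 0 := by
    intro x hxs
    have h1 : e x ≤ ∑ y ∈ s, e y := Finset.single_le_sum (fun _ _ => Nat.zero_le _) hxs
    obtain ⟨m, hm⟩ := Nat.exists_eq_add_of_le (h1.trans (Nat.le_add_left _ 1))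
    rw [hm, pow_add, mul_nsmul, he x, nsmul_zero]
  obtain ⟨hf, h⟩ := GoodE_key W Ω hfin hB hdiv (1 + ∑ y ∈ s, e y) (Nat.le_add_right 1 _)
  rw [hr, ← pow_mul, mul_comm (1 + ∑ y ∈ s, e y) r, mul_comm] at h
  have h2 := Nat.le_of_mul_le_mul_right h (Nat.two_pow_pos _)
  have h3 : s.card ≤ Nat.card (Gn (Sm.L.Sha k Ω W) (2 ^ (1 + ∑ y ∈ s, e y))) := by
    rw [← Nat.card_eq_finsetCard s]
    refine Nat.card_le_card_of_injective
      (fun x : {x // x ∈ s} => ⟨((x : Sm.L.Sha2 k Ω W) : Sm.L.Sha k Ω W), hN x.1 x.2⟩) ?_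
    intro x y hxy
    apply Subtype.ext
    apply Subtype.ext
    exact congrArg (fun z : Gn (Sm.L.Sha k Ω W) (2 ^ (1 + ∑ y ∈ s, e y)) => (z : Sm.L.Sha k Ω W)) hxy
  omega

end

section transfer

variable (k : Type) {K : Type} (Ω : Type) [Field k] [Field K] [Algebra k K] [Field Ω] [Algebra K Ω]
  (W : WeierstrassCurve K)

theorem zsel_eq (n : ℕ) : Sm.L.ZSel k Ω W n = SmJ.L.ZSel k (gal Ω W) n := by
  ext ψ
  constructor
  · intro h
    exact ⟨h.cocycle, h.tors, h.cont, h.loc⟩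
  · intro h
    exact ⟨h.cocycle, h.tors, h.cont, h.loc⟩

theorem bsel_eq (n : ℕ) : Sm.L.BSel Ω W n = SmJ.L.BSel (gal Ω W) n := rfl

theorem sel_eq (n : ℕ) : Sm.L.Sel k Ω W n = SmJ.L.Sel k (gal Ω W) n := by
  unfold Sm.L.Sel SmJ.L.Sel
  rw [zsel_eq, bsel_eq]

end transfer

/-- **The conclusions for an elliptic curve.** -/
theorem goodOnE_of {k K : Type} [Field k] [Field K] [Algebra k K] [AdmissibleAbsValues K]
    [Northcott (logHeight₁ (K := K))] {Ω : Type} [Field Ω] [Algebra K Ω] [IsGalois K Ω]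
    (W : WeierstrassCurve K) [W.IsElliptic] {j : ℕ} (h : SmJ.L.GoodOn k (gal Ω W) j)
    (hdiv : ∀ (i : ℕ) (P : Pts Ω W), ∃ Q, 2 ^ i • Q = P) : Sm.L.GoodOn k Ω W j := by
  have hfin : ∀ i : ℕ, Finite (Sm.L.Sel k Ω W (2 ^ i)) := fun i => by
    rw [sel_eq]
    exact h.fin i
  obtain ⟨r, hr1, ⟨B, hB⟩, -, -⟩ := h.corank
  have hup : ∀ i : ℕ, Nat.card (Sm.L.Sel k Ω W (2 ^ i)) ≤ B * 2 ^ (r * i) := fun i => by
    rw [sel_eq]
    exact (hB i).1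
  refine ⟨hfin, ?_, finite_pointsE W Ω (hfin 1) (hdiv 1), r, hr1, ⟨B, fun i => ⟨hup i, ?_⟩⟩,
    rank_leE W Ω hfin hup hdiv, fun hr => finite_sha2E W Ω hfin hup hdiv hr⟩
  · rw [sel_eq]
    exact h.lt
  · rw [sel_eq]
    exact (hB i).2

end Pool.Agent.SmN.Fnl
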