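import Pool.Agent.Lib.SmN.Fin.FinP
import Pool.Agent.Lib.SmN.Fin.GoodE
import Pool.Agent.Lib.SmN.Fin.BrE
import Pool.Agent.Lib.SmN.Fin.GalJ
import Pool.Agent.Lib.SmN.Fin.AllE
import Pool.Agent.Lib.GBC.J.PF

/-!
# SMITH-U (SmN), final layer: the elliptic curves

`exists_isoE`: the Galois module of a Weierstrass curve `y ^ 2 = f(x)` is that of the Jacobian `JP`.
`goodE_of_J`, `rank0_of_J`, `corank1_of_J`: the conclusions for the curve from those for the Jacobian.
`twists_E`, `half_E`: the quadratic twists of an elliptic curve over a global function field with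
Galois group `S₃` on the 2-torsion.
-/

set_option autoImplicit false

open Polynomial WeierstrassCurve

namespace Pool.Agent.SmN.Fnl

open Pool.Agent.BSDFF (Place algebraicRank)
open Pool.Agent.BSDFF.MW Height
open Pool.Agent.SmJ Pool.Agent.SmNJ Pool.Agent.GBU
open Pool.Agent.SmJ.R (OddDeg Jc JP jcMap galP map_gal GoodP ZeroP OneP goodOn_iff zeroOn_iff)
open Pool.Agent.GBC (exists_ratFunc ord)
open Pool.Agent.Sm.L (Pts gal)

section curve

variable {K : Type} [Field K] (W : WeierstrassCurve K)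

instance oddDeg_cubW : OddDeg (cubW W.toAffine) := ⟨by
  rw [natDegree_cubW]
  exact ⟨1, rfl⟩⟩

theorem monic_cubW : (cubW W.toAffine).Monic := by
  rw [cubW]
  monicity!

theorem separable_cubW [Short W.toAffine] [W.IsElliptic] : (cubW W.toAffine).Separable := by
  have h1 : (⟨1, W.a₂, W.a₄, W.a₆⟩ : Cubic K).toPoly = cubW W.toAffine := by
    rw [Cubic.toPoly, cubW, C_1, one_mul]
  rw [← h1]
  refine sep_cubic one_ne_zero fun h0 => W.isUnit_Δ.ne_zero ?_
  have h2 : W.a₁ = 0 := Short.h1 (W := W.toAffine)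
  have h3 : W.a₃ = 0 := Short.h3 (W := W.toAffine)
  have h4 : W.Δ = 16 * (⟨1, W.a₂, W.a₄, W.a₆⟩ : Cubic K).discr := by
    rw [Cubic.discr, WeierstrassCurve.Δ, WeierstrassCurve.b₂, WeierstrassCurve.b₄,
      WeierstrassCurve.b₆, WeierstrassCurve.b₈, h2, h3]
    ring
  rw [h4, h0, mul_zero]

variable [Short W.toAffine] [W.IsElliptic]

/-- **The Galois module of an elliptic curve is that of its Jacobian.** -/
theorem exists_isoE (h2 : (2 : K) ≠ 0) (Ω : Type) [Field Ω] [Algebra K Ω] [IsSepClosed Ω] :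
    (∃ e : JP Ω (cubW W.toAffine) ≃+ Pts Ω W,
      ∀ (s : Ω ≃ₐ[K] Ω) x, e (galP Ω (cubW W.toAffine) s x) = gal Ω W s (e x)) ∧
    ∀ P : Pts Ω W, ∃ Q, (2 : ℕ) • Q = P := by
  classical
  obtain ⟨b, hinj, hb⟩ := exists_rts (F := (cubW W.toAffine).map (algebraMap K Ω))
    ((monic_cubW W).map _) (separable_cubW W).map
    (IsSepClosed.splits_codomain _ (separable_cubW W)) (g := 1)
    (by rw [natDegree_map, natDegree_cubW])
  have hR : RtG K b := rtG_of h2 hinj hb
  have hA : HypA b := ⟨hinj, hR.two⟩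
  obtain ⟨e, he⟩ := exists_brE W hb
  constructor
  · refine (trans_gN (fun M _ ρ => ∃ e : M ≃+ Pts Ω W, ∀ (s : Ω ≃ₐ[K] Ω) x,
      e (ρ s x) = gal Ω W s (e x)) (cubW W.toAffine) b hb).2 ⟨e.symm, fun s x => ?_⟩
    apply e.injective
    rw [AddEquiv.apply_symm_apply]
    have h1 := he s (map_ffN K b s) (e.symm x)
    rw [AddEquiv.apply_symm_apply] at h1
    exact h1.symm
  · intro P
    obtain ⟨R, hR'⟩ := exists_half (a := b) (e P)
    refine ⟨e.symm R, ?_⟩
    apply e.injective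
    rw [map_nsmul, AddEquiv.apply_symm_apply, hR']

variable (k : Type) [Field k] [Algebra k K] [AdmissibleAbsValues K]
  [Northcott (logHeight₁ (K := K))]

omit [Short W.toAffine] in
theorem rank_of_corank {Ω : Type} [Field Ω] [Algebra K Ω] [IsGalois K Ω] {r : ℕ}
    (h : SmJ.L.HasCorank k (gal Ω W) r) (hdiv : ∀ (i : ℕ) (P : Pts Ω W), ∃ Q, 2 ^ i • Q = P) :
    Sm.L.HasCorank k Ω W r ∧ algebraicRank W ≤ r ∧
      (algebraicRank W = r → Finite (Sm.L.Sha2 k Ω W)) := by
  obtain ⟨B, hB⟩ := h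
  have hfin : ∀ i : ℕ, Finite (Sm.L.Sel k Ω W (2 ^ i)) := fun i => by
    rw [sel_eq]
    refine Nat.finite_of_card_ne_zero fun h0 => ?_
    have h1 := (hB i).2
    rw [h0, mul_zero] at h1
    exact absurd h1 (not_le.2 (Nat.two_pow_pos _))
  have hup : ∀ i : ℕ, Nat.card (Sm.L.Sel k Ω W (2 ^ i)) ≤ B * 2 ^ (r * i) := fun i => by
    rw [sel_eq]
    exact (hB i).1
  refine ⟨⟨B, fun i => ⟨hup i, ?_⟩⟩, rank_leE W Ω hfin hup hdiv,
    fun hr => finite_sha2E W Ω hfin hup hdiv hr⟩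
  rw [sel_eq]
  exact (hB i).2

variable {k}

theorem goodE_of_J (h2 : (2 : K) ≠ 0) {j : ℕ} (h : GoodP k (cubW W.toAffine) j) :
    Sm.L.GoodC k W j := by
  obtain ⟨⟨e, he⟩, hdiv⟩ := exists_isoE W h2 (SeparableClosure K)
  exact goodOnE_of W (goodOn_iso e he ((goodOn_iff _ _ _).1 h)) (E6.exists_pow_half hdiv)

theorem rank0_of_J (h2 : (2 : K) ≠ 0) (h : ZeroP k (cubW W.toAffine)) : Sm.L.Rank0C k W := by
  obtain ⟨⟨e, he⟩, hdiv⟩ := exists_isoE W h2 (SeparableClosure K)
  obtain ⟨h3, h4, h5⟩ := rank_of_corank W k (hasCorank_iso e he ((zeroOn_iff _ _).1 h).1)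
    (E6.exists_pow_half hdiv)
  have h6 : algebraicRank W = 0 := Nat.le_zero.1 h4
  exact ⟨h3, h6, h5 h6⟩

theorem corank1_of_J (h2 : (2 : K) ≠ 0) (h : OneP k (cubW W.toAffine)) : Sm.L.Corank1C k W := by
  obtain ⟨⟨e, he⟩, hdiv⟩ := exists_isoE W h2 (SeparableClosure K)
  obtain ⟨h3, h4, -⟩ := rank_of_corank W k (hasCorank_iso e he h) (E6.exists_pow_half hdiv)
  exact ⟨h3, h4⟩

end curve

section twist

variable {K : Type} [Field K]

/-- The quadratic twist by `d` of the curve `y ^ 2 = x ^ 3 + A x + B`. -/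
def twE (A B d : K) : WeierstrassCurve K := ⟨0, 0, 0, A * d ^ 2, B * d ^ 3⟩

instance short_twE (A B d : K) : Short (twE A B d).toAffine := ⟨rfl, rfl⟩

theorem natDegree_short (A B : K) : (X ^ 3 + C A * X + C B : K[X]).natDegree = 3 := by
  compute_degree!

theorem monic_short (A B : K) : (X ^ 3 + C A * X + C B : K[X]).Monic := by
  monicity!

instance oddDeg_short (A B : K) : OddDeg (X ^ 3 + C A * X + C B : K[X]) := ⟨by
  rw [natDegree_short]
  exact ⟨1, rfl⟩⟩

theorem cubW_twE (A B d : K) :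
    cubW (twE A B d).toAffine = (X ^ 3 + C A * X + C B : K[X]).scaleRoots d := by
  have h1 : cubW (twE A B d).toAffine = X ^ 3 + C (A * d ^ 2) * X + C (B * d ^ 3) := by
    rw [cubW]
    change X ^ 3 + C (0 : K) * X ^ 2 + _ + _ = _
    rw [C_0, zero_mul, add_zero]
    rfl
  rw [h1]
  ext n
  rw [coeff_scaleRoots, natDegree_short]
  simp only [coeff_add, coeff_X_pow, coeff_C_mul_X, coeff_C]
  rcases lt_or_ge n 4 with hn | hn
  · interval_cases n <;> simp
  · have e1 : n ≠ 3 := by omega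
    have e2 : n ≠ 1 := by omega
    have e3 : n ≠ 0 := by omega
    simp [e1, e2, e3]

theorem twE_Δ (A B d : K) : (twE A B d).Δ = 16 * (-4 * A ^ 3 - 27 * B ^ 2) * d ^ 6 := by
  rw [WeierstrassCurve.Δ, WeierstrassCurve.b₂, WeierstrassCurve.b₄, WeierstrassCurve.b₆,
    WeierstrassCurve.b₈]
  simp only [twE]
  ring

theorem twE_elliptic (h2 : (2 : K) ≠ 0) {A B d : K} (hdisc : -4 * A ^ 3 - 27 * B ^ 2 ≠ 0)
    (hd : d ≠ 0) : (twE A B d).IsElliptic := by
  refine ⟨isUnit_iff_ne_zero.2 ?_⟩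
  rw [twE_Δ]
  have h16 : (16 : K) ≠ 0 := by
    have : (16 : K) = 2 ^ 4 := by norm_num
    rw [this]
    exact pow_ne_zero 4 h2
  exact mul_ne_zero (mul_ne_zero h16 hdisc) (pow_ne_zero 6 hd)

theorem crvJ_eq_twE (j d : K) :
    crvJ j d = twE (3 * j * (1728 - j)) (2 * j * (1728 - j) ^ 2) d := rfl

end twist

section main

variable (k K : Type) [Field k] [Finite k] [Field K] [Algebra k K] [Algebra.EssFiniteType k K]

/-- Heights. -/
theorem exists_heights (hK : Algebra.trdeg k K = 1) :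
    ∃ _ : AdmissibleAbsValues K, Northcott (logHeight₁ (K := K)) := by
  have hfin : Finite (cst k K) := finite_cst k K hK
  have htr : Algebra.trdeg (cst k K) K = 1 := trdeg_cst k K hK
  have hess : Algebra.EssFiniteType (cst k K) K := essFinite_cst k K
  have hpf : PerfectField (cst k K) := inferInstance
  obtain ⟨alg, i1, i2, i3⟩ := exists_ratFunc (cst k K) K htr
  obtain ⟨G, -⟩ := Pool.Agent.GBC.exists_geo (cst k K) K
  have hA := G.hfqA
  have hB := G.hfqB
  have hiA := G.infinite_A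
  have hiB := G.infinite_B
  exact ⟨G.pf.adm, G.pf.northcott_log⟩

variable {k K}

omit [Finite k] [Algebra.EssFiniteType k K] in
theorem cast_ne {n : ℕ} (hn : (n : k) ≠ 0) : (n : K) ≠ 0 := by
  intro h
  apply hn
  apply (algebraMap k K).injective
  rw [map_natCast, h, map_zero]

omit [Finite k] [Algebra.EssFiniteType k K] in
theorem tw_facts_E (h6 : (6 : k) ≠ 0) {A B : K}
    (hG : Nat.card (X ^ 3 + C A * X + C B : K[X]).Gal = 6) :
    (2 : K) ≠ 0 ∧ ((2 * 1 + 1).factorial : k) ≠ 0 ∧ -4 * A ^ 3 - 27 * B ^ 2 ≠ 0 := by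
  have h6K : (6 : K) ≠ 0 := by exact_mod_cast cast_ne (K := K) (n := 6) (by exact_mod_cast h6)
  have h2 : (2 : K) ≠ 0 := by
    intro h
    apply h6K
    have : (6 : K) = 2 * 3 := by norm_num
    rw [this, h, zero_mul]
  refine ⟨h2, by exact_mod_cast h6, fun h0 => ?_⟩
  refine ((card_gal_cubic_iff h2 A B).1 hG).2 ?_
  rw [h0]
  exact IsSquare.zero

/-- **The quadratic twists of an elliptic curve over a global function field.** -/
theorem twists_E (hK : Algebra.trdeg k K = 1) (h6 : (6 : k) ≠ 0) {A B : K}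
    (hG : Nat.card (X ^ 3 + C A * X + C B : K[X]).Gal = 6) :
    (∀ N, (TwLE k N (fun _ : K => True)).Finite) ∧
    ∀ ε : ℝ, 0 < ε → ∃ j N₀ : ℕ, ∀ N ≥ N₀,
      ((TwLE k N (fun d : K => ¬ Sm.L.GoodC k (twE A B d) j)).ncard : ℝ) ≤
        ε * (TwLE k N (fun _ : K => True)).ncard := by
  obtain ⟨h2, h3, h4⟩ := tw_facts_E h6 hG
  obtain ⟨_, _⟩ := exists_heights k K hK
  obtain ⟨h5, h7⟩ := twists_J k K hK le_rfl h3 (monic_short A B) (separable_short A B h4)
    (natDegree_short A B) (Or.inl hG)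
  refine ⟨h5, fun ε hε => ?_⟩
  obtain ⟨j, N₀, h8⟩ := h7 ε hε
  refine ⟨j, N₀, fun N hN => le_trans ?_ (h8 N hN)⟩
  refine Nat.cast_le.2 (Set.ncard_le_ncard (twLE_mono fun d hd h9 => hd ?_)
    ((h5 N).subset (twLE_mono fun _ _ => trivial)))
  have hEl : (twE A B (d : K)).IsElliptic := twE_elliptic h2 h4 d.ne_zero
  refine goodE_of_J _ h2 ?_
  have e := cubW_twE A B (d : K)
  have key : ∀ (F G : K[X]) (_ : OddDeg F) (_ : OddDeg G), F = G → GoodP k F j → GoodP k G j := by
    rintro F _ _ _ rfl h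
    exact h
  exact key _ _ _ _ e.symm h9

/-- **The parity for the quadratic twists of an elliptic curve over a global function field.** -/
theorem half_E (hK : Algebra.trdeg k K = 1) (h6 : (6 : k) ≠ 0) {A B : K}
    (hG : Nat.card (X ^ 3 + C A * X + C B : K[X]).Gal = 6) {M : Finset (Place k K)}
    (hM : M.Nonempty) (hnode : ∀ v ∈ M, NodeAt v (X ^ 3 + C A * X + C B : K[X])) :
    HalfStmt k M (fun d : K => Sm.L.Rank0C k (twE A B d))
      (fun d : K => Sm.L.Corank1C k (twE A B d)) := by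
  obtain ⟨h2, h3, h4⟩ := tw_facts_E h6 hG
  obtain ⟨_, _⟩ := exists_heights k K hK
  have h5 := half_J hK le_rfl h3 (monic_short A B) (separable_short A B h4)
    (natDegree_short A B) (Or.inl hG) hM hnode
  have h7 := (twists_J k K hK le_rfl h3 (monic_short A B) (separable_short A B h4)
    (natDegree_short A B) (Or.inl hG)).1
  refine h5.mono h7 ?_ ?_
  · intro d h9
    have hEl : (twE A B (d : K)).IsElliptic := twE_elliptic h2 h4 d.ne_zero
    refine rank0_of_J _ h2 ?_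
    have e := cubW_twE A B (d : K)
    have key : ∀ (F G : K[X]) (_ : OddDeg F) (_ : OddDeg G), F = G → ZeroP k F → ZeroP k G := by
      rintro F _ _ _ rfl h
      exact h
    exact key _ _ _ _ e.symm h9
  · intro d h9
    have hEl : (twE A B (d : K)).IsElliptic := twE_elliptic h2 h4 d.ne_zero
    refine corank1_of_J _ h2 ?_
    have e := cubW_twE A B (d : K)
    have key : ∀ (F G : K[X]) (_ : OddDeg F) (_ : OddDeg G), F = G → OneP k F → OneP k G := by
      rintro F _ _ _ rfl h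
      exact h
    exact key _ _ _ _ e.symm h9

/-- The twists of a generic curve, without the level. -/
theorem twists_crvJ (hK : Algebra.trdeg k K = 1) (h6 : (6 : k) ≠ 0) {j : K} (hj : GenJ j) (ε : ℝ)
    (hε : 0 < ε) : ∃ N₀ : ℕ, ∀ N ≥ N₀,
      ((TwLE k N (fun d : K => ¬ ∃ i, Sm.L.GoodC k (crvJ j d) i)).ncard : ℝ) ≤
        ε * (TwLE k N (fun _ : K => True)).ncard := by
  have h6K : (6 : K) ≠ 0 := by exact_mod_cast cast_ne (K := K) (n := 6) (by exact_mod_cast h6)
  have hG := (card_gal_cubJ h6K hj one_ne_zero).1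
  have e : cubJ j 1 = X ^ 3 + C (3 * j * (1728 - j)) * X + C (2 * j * (1728 - j) ^ 2) := by
    rw [cubJ, one_pow, one_pow, mul_one, mul_one]
  rw [e] at hG
  obtain ⟨h5, h7⟩ := twists_E hK h6 hG
  obtain ⟨i, N₀, h8⟩ := h7 ε hε
  refine ⟨N₀, fun N hN => le_trans ?_ (h8 N hN)⟩
  exact Nat.cast_le.2 (Set.ncard_le_ncard (twLE_mono fun d hd h9 => hd ⟨i, h9⟩)
    ((h5 N).subset (twLE_mono fun _ _ => trivial)))

/-- **All elliptic curves over a global function field**, ordered by the height of the invariant and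
then by the degree of the ramification of the twist. -/
theorem pairs_E (hK : Algebra.trdeg k K = 1) (h6 : (6 : k) ≠ 0) :
    (∀ N, (TwLE k N (fun _ : K => True)).Finite) ∧
    (∀ h N, (AllLE k h N (fun _ _ : K => True)).Finite) ∧
    ∀ ε : ℝ, 0 < ε → ∃ h₀ : ℕ, ∀ h ≥ h₀, ∃ N₀ : ℕ, ∀ N ≥ N₀,
      ((AllLE k h N (fun j d : K => ¬ ∃ i, Sm.L.GoodC k (crvJ j d) i)).ncard : ℝ) ≤
        ε * (AllLE k h N (fun _ _ : K => True)).ncard := by
  have hpf : PerfectField k := inferInstance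
  obtain ⟨alg, i1, i2, i3⟩ := exists_ratFunc k K hK
  obtain ⟨G, -⟩ := Pool.Agent.GBC.exists_geo k K
  -- some generic invariant, to get the finiteness
  have hfin : ∀ N, (TwLE k N (fun _ : K => True)).Finite := by
    obtain ⟨j, hj⟩ : ∃ j : K, GenJ j := by
      by_contra hcon
      push Not at hcon
      obtain ⟨h₀, hh⟩ := few_nongen G h6 (1 / 2) (by norm_num)
      have h1 := hh h₀ le_rfl
      have h2 : {j : K | HtLE k h₀ j ∧ ¬ GenJ j} =
          {j : K | HtLE k h₀ j} := by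
        ext j
        exact ⟨fun h => h.1, fun h => ⟨h, hcon j⟩⟩
      rw [h2] at h1
      have h3 : 0 < {j : K | HtLE k h₀ j}.ncard := by
        rw [Set.ncard_pos (finite_htLE G h₀)]
        refine ⟨0, 0, le_rfl, ?_, (Pool.Agent.GBU.LL _).zero_mem⟩
        rw [Pool.Agent.GBU.degD_zero]
        exact Int.natCast_nonneg _
      have h4 : (0 : ℝ) < {j : K | HtLE k h₀ j}.ncard := by exact_mod_cast h3
      linarith
    have h6K : (6 : K) ≠ 0 := by
      exact_mod_cast cast_ne (K := K) (n := 6) (by exact_mod_cast h6)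
    have hG := (card_gal_cubJ h6K hj one_ne_zero).1
    have e : cubJ j 1 = X ^ 3 + C (3 * j * (1728 - j)) * X + C (2 * j * (1728 - j) ^ 2) := by
      rw [cubJ, one_pow, one_pow, mul_one, mul_one]
    rw [e] at hG
    exact (twists_E hK h6 hG).1
  exact ⟨hfin, fun h N => allLE_finite G hfin h N _,
    all_pairs G h6 hfin fun j hj ε hε => twists_crvJ hK h6 hj ε hε⟩

end main

end Pool.Agent.SmN.Fnl
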