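import Pool.Agent.Lib.SmJ.L.Brg2
import Pool.Agent.Lib.SmN.Sys
import Pool.Agent.Lib.GBU.H.NPx

/-!
# SMITH-U (SmN), final layer: the bridge

The Selmer cocycles of the abstract structure `SmN.Sys` (`NP`-finite, values in `V[2^j]`, `V` the
2-power torsion of `M`, twisted action) and the Selmer cocycles of the quadratic twist `M'` of `M`
correspond to each other.
-/

set_option autoImplicit false

namespace Pool.Agent.SmN.Fnl

open Pool.Agent.GBU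
open Pool.Agent.SmJ.L (GMod ZSel E6Prop cob_of_conj)

section

variable {k K Ω : Type} [Field k] [Field K] [Field Ω] [Algebra k K] [Algebra K Ω]
variable {M M' V V1 Pl : Type} [AddCommGroup M] [AddCommGroup M']
variable {ρ : (Ω ≃ₐ[K] Ω) → M →+ M} {ρ' : (Ω ≃ₐ[K] Ω) → M' →+ M'}

/-- A finite level cocycle with values in `M[2^j]` is `NP`-finite. -/
theorem npFin_of_level [IsGalois K Ω] (h2 : (2 : K) ≠ 0) {j : ℕ}
    (hN : ∃ N ∈ NP K Ω, ∀ s ∈ N, ∀ Q : M, (2 : ℕ) ^ j • Q = 0 → ρ s Q = Q)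
    {ψ : (Ω ≃ₐ[K] Ω) → M} (hc : ∀ s t, ψ (s * t) = ψ s + ρ s (ψ t)) (h1' : ∀ Q, ρ 1 Q = Q)
    (ht : ∀ s, (2 : ℕ) ^ j • ψ s = 0)
    (hL : ∃ L : IntermediateField K Ω, FiniteDimensional K L ∧
      ∀ s t : Ω ≃ₐ[K] Ω, (∀ x ∈ L, s x = t x) → ψ s = ψ t) :
    ∃ N ∈ NP K Ω, ∀ s, ∀ n ∈ N, ψ (s * n) = ψ s := by
  obtain ⟨N, hNN, hN⟩ := hN
  obtain ⟨L, hLf, hL⟩ := hL
  have h1 : ψ 1 = 0 := by
    have h := hc 1 1
    rw [mul_one, h1'] at h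
    exact left_eq_add.mp h
  have hNn := NP.normal hNN
  let H : Subgroup (Ω ≃ₐ[K] Ω) :=
    { carrier := {h | h ∈ N ∧ ψ h = 0}
      one_mem' := ⟨N.one_mem, h1⟩
      mul_mem' := by
        rintro a b ⟨ha, ha'⟩ ⟨hb, hb'⟩
        exact ⟨N.mul_mem ha hb, by rw [hc, ha', hb', map_zero, add_zero]⟩
      inv_mem' := by
        rintro a ⟨ha, ha'⟩
        refine ⟨N.inv_mem ha, ?_⟩
        have h := hc a⁻¹ a
        rw [inv_mul_cancel, h1, ha', map_zero, add_zero] at h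
        exact h.symm }
  have hmem : ∀ h, h ∈ H ↔ h ∈ N ∧ ψ h = 0 := fun h => Iff.rfl
  have hpow : ∀ τ ∈ N, ∀ a : ℕ, ψ (τ ^ a) = a • ψ τ := by
    intro τ hτ a
    induction a with
    | zero => rw [pow_zero, h1, zero_smul]
    | succ a ih =>
      rw [pow_succ', hc, ih, hN τ hτ, succ_nsmul']
      rw [smul_comm, ht, smul_zero]
  refine ⟨H, Pool.Agent.GBUH.mem_NP_of_pow h2 hNN ?_ ?_ (fun h hh => hh.1) ?_, ?_⟩
  · refine ⟨fun h hh t => ?_⟩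
    rw [hmem] at hh ⊢
    refine ⟨hNn.conj_mem h hh.1 t, ?_⟩
    have h2 : ψ t + ρ t (ψ t⁻¹) = 0 := by rw [← hc, mul_inv_cancel, h1]
    rw [mul_assoc, hc, hc, hh.2, zero_add, hN h hh.1 _ (ht _), h2]
  · have h2 : N ⊓ L.fixingSubgroup ≤ H := by
      intro h hh
      rw [hmem]
      refine ⟨hh.1, ?_⟩
      rw [← h1]
      refine hL h 1 fun x hx => ?_
      exact (IntermediateField.mem_fixingSubgroup_iff L h).mp hh.2 x hx
    refine Subgroup.isOpen_mono h2 ?_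
    rw [Subgroup.coe_inf]
    exact (NP.isOpen hNN).inter (IntermediateField.fixingSubgroup_isOpen L)
  · intro σ hσ
    refine ⟨j, ?_⟩
    rw [hmem]
    refine ⟨N.pow_mem hσ _, ?_⟩
    rw [hpow _ hσ, ht]
  · intro s n hn
    rw [hmem] at hn
    rw [hc, hn.2, map_zero, add_zero]

variable [AddCommGroup V] [DistribMulAction (Ω ≃ₐ[K] Ω) V] [AddCommGroup V1]
  [Module (ZMod 2) V1]

theorem bridgeN [IsGalois K Ω] (h2 : (2 : K) ≠ 0) (h' : GMod ρ') (φ : M ≃+ M')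
    (χ : (Ω ≃ₐ[K] Ω) → ZMod 2)
    (hφ : ∀ (s : Ω ≃ₐ[K] Ω) (Q : M), ρ' s (φ Q) = φ (sgn (χ s) • ρ s Q))
    (inc : V →+ M) (hinc : Function.Injective inc)
    (hinc' : ∀ Q : M, (∃ i : ℕ, (2 : ℕ) ^ i • Q = 0) → ∃ x, inc x = Q)
    (heq : ∀ (s : Ω ≃ₐ[K] Ω) (x : V), inc (s • x) = ρ s (inc x))
    (hact : ∀ j : ℕ, ∃ N ∈ NP K Ω, ∀ s ∈ N, ∀ Q : M', (2 : ℕ) ^ j • Q = 0 → ρ' s Q = Q)
    (S : Sys (Ω ≃ₐ[K] Ω) V V1 Pl) (hNN : S.NN = NP K Ω)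
    (hDv : ∀ v : Pl, ∃ w : ValuationSubring Ω, w ≠ ⊤ ∧
      (∀ c : k, algebraMap K Ω (algebraMap k K c) ∈ w) ∧ S.D v = w.decompositionSubgroup K)
    (hE6 : E6Prop k ρ') (j : ℕ) :
    ∃ f : ZSel k ρ' (2 ^ j) → {Psi // S.IsSel χ j Psi}, Function.Injective f := by
  have hφ' : ∀ (s : Ω ≃ₐ[K] Ω) (Q : M'), φ.symm (ρ' s Q) = sgn (χ s) • ρ s (φ.symm Q) := by
    intro s Q
    apply φ.injective
    rw [← hφ, AddEquiv.apply_symm_apply, AddEquiv.apply_symm_apply]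
  have hmem : ∀ (i : ℕ) (Q : M'), (2 : ℕ) ^ i • Q = 0 → ∃ x, inc x = φ.symm Q := by
    intro i Q hQ
    refine hinc' _ ⟨i, ?_⟩
    rw [← map_nsmul, hQ, map_zero]
  choose F hF using fun ψ : ZSel k ρ' (2 ^ j) => fun s => hmem j _ (ψ.2.tors s)
  refine ⟨fun ψ => ⟨F ψ, ?_⟩, ?_⟩
  · have hc := ψ.2.cocycle
    refine ⟨?_, fun s t => ?_, fun s => ?_, fun v => ?_⟩
    · obtain ⟨N1, hN1, hN1'⟩ := npFin_of_level (j := j) h2 (hact j) hc h'.one ψ.2.tors ψ.2.cont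
      refine ⟨N1, by rw [hNN]; exact hN1, fun s n hn => ?_⟩
      apply hinc
      rw [hF, hF, hN1' s n hn]
    · apply hinc
      rw [tw, map_add, map_zsmul, heq, hF, hF, hF, hc, map_add, hφ']
    · apply hinc
      rw [map_nsmul, hF, ← map_nsmul, map_zero]
      exact (congrArg φ.symm (ψ.2.tors s)).trans (map_zero _)
    · obtain ⟨w, hw, hw', hDw⟩ := hDv v
      obtain ⟨Q, hQ⟩ := ψ.2.loc w hw hw'
      obtain ⟨Q', ⟨i, hi⟩, hQ'⟩ := hE6 w hw hw' j Q (fun s hs => by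
        rw [← hQ s hs]
        exact ψ.2.tors s)
      obtain ⟨x, hx⟩ := hmem i Q' hi
      refine ⟨x, fun s hs => ?_⟩
      rw [hDw] at hs
      apply hinc
      rw [hF, dl, tw, map_sub, map_zsmul, heq, hx, ← hφ', ← map_sub, ← hQ' s hs]
      exact congrArg φ.symm (hQ s hs)
  · intro ψ ψ' h
    apply Subtype.ext
    funext s
    have h3 := congrFun (congrArg Subtype.val h) s
    apply φ.symm.injective
    rw [← hF ψ s, ← hF ψ' s]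
    exact congrArg inc h3

theorem bridge_backN (h' : GMod ρ') (φ : M ≃+ M') (χ : (Ω ≃ₐ[K] Ω) → ZMod 2)
    (hφ : ∀ (s : Ω ≃ₐ[K] Ω) (Q : M), ρ' s (φ Q) = φ (sgn (χ s) • ρ s Q))
    (inc : V →+ M) (hinc : Function.Injective inc)
    (heq : ∀ (s : Ω ≃ₐ[K] Ω) (x : V), inc (s • x) = ρ s (inc x))
    (S : Sys (Ω ≃ₐ[K] Ω) V V1 Pl) (hNN : S.NN = NP K Ω)
    (hDw : ∀ w : ValuationSubring Ω, w ≠ ⊤ →
      (∀ c : k, algebraMap K Ω (algebraMap k K c) ∈ w) →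
      ∃ (v : Pl) (σ : Ω ≃ₐ[K] Ω), ∀ s ∈ w.decompositionSubgroup K, σ * s * σ⁻¹ ∈ S.D v)
    (j : ℕ) :
    ∃ f : {Psi // S.IsSel χ j Psi} → ZSel k ρ' (2 ^ j), Function.Injective f := by
  have htw : ∀ (s : Ω ≃ₐ[K] Ω) (x : V), φ (inc (tw χ s x)) = ρ' s (φ (inc x)) := by
    intro s x
    rw [tw, map_zsmul, heq, hφ]
  refine ⟨fun Psi => ⟨fun s => φ (inc (Psi.1 s)), ?_⟩, ?_⟩
  · have hc : ∀ s t : Ω ≃ₐ[K] Ω, φ (inc (Psi.1 (s * t))) =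
        φ (inc (Psi.1 s)) + ρ' s (φ (inc (Psi.1 t))) := by
      intro s t
      rw [Psi.2.coc, map_add, map_add, htw]
    refine ⟨hc, fun s => ?_, ?_, fun w hw hw' => ?_⟩
    · rw [← map_nsmul, ← map_nsmul, Psi.2.lev, map_zero, map_zero]
    · obtain ⟨N, hN, hN'⟩ := Psi.2.tf
      rw [hNN] at hN
      obtain ⟨L, hL, hLN⟩ := (krullTopology_mem_nhds_one_iff K Ω (N : Set (Ω ≃ₐ[K] Ω))).mp
        ((NP.isOpen hN).mem_nhds N.one_mem)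
      refine ⟨L, hL, fun s t hst => ?_⟩
      have h1 : s⁻¹ * t ∈ N := by
        apply hLN
        rw [SetLike.mem_coe, IntermediateField.mem_fixingSubgroup_iff]
        intro x hx
        rw [AlgEquiv.mul_apply, ← hst x hx, ← AlgEquiv.mul_apply, inv_mul_cancel,
          AlgEquiv.one_apply]
      have h2 := hN' s _ h1
      rw [mul_inv_cancel_left] at h2
      rw [h2]
    · obtain ⟨v, σ, hσ⟩ := hDw w hw hw'
      obtain ⟨Q, hQ⟩ := Psi.2.loc v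
      have hQ' : ∀ s ∈ S.D v, φ (inc (Psi.1 s)) = ρ' s (φ (inc Q)) - φ (inc Q) := by
        intro s hs
        rw [hQ s hs, dl, map_sub, map_sub, htw]
      exact ⟨_, fun s hs => cob_of_conj h' hc hQ' σ (hσ s hs)⟩
  · intro Psi Psi' h
    apply Subtype.ext
    funext s
    apply hinc
    apply φ.injective
    exact congrFun (congrArg Subtype.val h) s

/-- The Selmer cocycles of the twist `M'` and of the abstract structure are the same. -/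
theorem zsel_equivN [IsGalois K Ω] (h2 : (2 : K) ≠ 0) (h' : GMod ρ') (φ : M ≃+ M')
    (χ : (Ω ≃ₐ[K] Ω) → ZMod 2)
    (hφ : ∀ (s : Ω ≃ₐ[K] Ω) (Q : M), ρ' s (φ Q) = φ (sgn (χ s) • ρ s Q))
    (inc : V →+ M) (hinc : Function.Injective inc)
    (hinc' : ∀ Q : M, (∃ i : ℕ, (2 : ℕ) ^ i • Q = 0) → ∃ x, inc x = Q)
    (heq : ∀ (s : Ω ≃ₐ[K] Ω) (x : V), inc (s • x) = ρ s (inc x))
    (hact : ∀ j : ℕ, ∃ N ∈ NP K Ω, ∀ s ∈ N, ∀ Q : M', (2 : ℕ) ^ j • Q = 0 → ρ' s Q = Q)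
    (S : Sys (Ω ≃ₐ[K] Ω) V V1 Pl) (hNN : S.NN = NP K Ω)
    (hDv : ∀ v : Pl, ∃ w : ValuationSubring Ω, w ≠ ⊤ ∧
      (∀ c : k, algebraMap K Ω (algebraMap k K c) ∈ w) ∧ S.D v = w.decompositionSubgroup K)
    (hDw : ∀ w : ValuationSubring Ω, w ≠ ⊤ →
      (∀ c : k, algebraMap K Ω (algebraMap k K c) ∈ w) →
      ∃ (v : Pl) (σ : Ω ≃ₐ[K] Ω), ∀ s ∈ w.decompositionSubgroup K, σ * s * σ⁻¹ ∈ S.D v)
    (hE6 : E6Prop k ρ') (j : ℕ) :
    Nonempty (ZSel k ρ' (2 ^ j) ≃ {Psi // S.IsSel χ j Psi}) := by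
  obtain ⟨f, hf⟩ := bridgeN (k := k) h2 h' φ χ hφ inc hinc hinc' heq hact S hNN hDv hE6 j
  obtain ⟨g, hg⟩ := bridge_backN (k := k) h' φ χ hφ inc hinc heq S hNN hDw j
  obtain ⟨e, he⟩ := Function.Embedding.schroeder_bernstein hf hg
  exact ⟨Equiv.ofBijective e he⟩

end

end Pool.Agent.SmN.Fnl
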