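import Pool.Agent.Lib.SmNJ.Cnt
import Pool.Agent.Lib.SmJ.L.CorP

/-!
# SMITH-U (SmN), final layer: the corank from the numbers of Selmer cocycles

`c` = the number of the fixed elements of 2-power order.
-/

set_option autoImplicit false

open Pool.Agent.BSDFF.MW

namespace Pool.Agent.SmN.Fnl

open Pool.Agent.SmJ.L Pool.Agent.SmNJ

variable {k K Ω : Type} [Field k] [Field K] [Field Ω] [Algebra k K] [Algebra K Ω]
variable {M : Type} [AddCommGroup M] {ρ : (Ω ≃ₐ[K] Ω) → M →+ M}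

/-- The corank from the numbers of Selmer cocycles. -/
theorem hasCorank_ofC (hG : GMod ρ) {g r c : ℕ} (hc : 0 < c)
    (htors : ∀ i : ℕ, Nat.card (Gn M (2 ^ i)) = 4 ^ (g * i))
    (hK : ∀ i : ℕ, 1 ≤ i → Nat.card (Gn (Rat ρ) (2 ^ i)) = c)
    (hfin : ∀ i, Finite (ZSel k ρ (2 ^ i)))
    {B : ℕ} (h : ∀ i, Nat.card (ZSel k ρ (2 ^ i)) ≤ B * 2 ^ ((r + 2 * g) * i) ∧
      2 ^ ((r + 2 * g) * i) ≤ B * Nat.card (ZSel k ρ (2 ^ i))) : HasCorank k ρ r := by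
  have hB := card_sel_zselC (k := k) hG htors hK
  have e4 : ∀ m : ℕ, (4 : ℕ) ^ m = 2 ^ (2 * m) := fun m => by rw [pow_mul]; norm_num
  have hpow : ∀ i : ℕ, 2 ^ ((r + 2 * g) * i) = 2 ^ (r * i) * 4 ^ (g * i) := by
    intro i
    rw [e4, ← pow_add]
    congr 1
    ring
  have hSfin : ∀ i : ℕ, Finite (Sel k ρ (2 ^ i)) := by
    intro i
    have := hfin i
    infer_instance
  have hB1 : 1 ≤ B := by
    have h1 := (h 0).2
    rw [mul_zero, pow_zero] at h1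
    exact Nat.pos_of_mul_pos_right (Nat.lt_of_lt_of_le Nat.one_pos h1)
  refine ⟨c * B, fun i => ⟨?_, ?_⟩⟩
  · rcases Nat.eq_zero_or_pos i with rfl | hi
    · have h2 : Nat.card (Sel k ρ (2 ^ 0)) ≤ Nat.card (ZSel k ρ (2 ^ 0)) := by
        have := hfin 0
        exact Nat.card_le_card_of_surjective _ (QuotientAddGroup.mk_surjective)
      calc Nat.card (Sel k ρ (2 ^ 0)) ≤ Nat.card (ZSel k ρ (2 ^ 0)) := h2
        _ ≤ B * 2 ^ ((r + 2 * g) * 0) := (h 0).1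
        _ ≤ c * B * 2 ^ (r * 0) := by
          rw [mul_zero, mul_zero]
          exact Nat.mul_le_mul_right _ (Nat.le_mul_of_pos_left _ hc)
    · have h3 : Nat.card (Sel k ρ (2 ^ i)) * 4 ^ (g * i) ≤
          (c * B * 2 ^ (r * i)) * 4 ^ (g * i) := by
        rw [hB i hi]
        calc c * Nat.card (ZSel k ρ (2 ^ i)) ≤ c * (B * 2 ^ ((r + 2 * g) * i)) :=
              Nat.mul_le_mul_left _ (h i).1
          _ = _ := by rw [hpow]; ring
      exact Nat.le_of_mul_le_mul_right h3 (by positivity)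
  · rcases Nat.eq_zero_or_pos i with rfl | hi
    · rw [mul_zero, pow_zero]
      have := hSfin 0
      exact Nat.mul_pos (Nat.mul_pos hc hB1) Nat.card_pos
    · have h3 : 2 ^ (r * i) * 4 ^ (g * i) ≤
          (c * B * Nat.card (Sel k ρ (2 ^ i))) * 4 ^ (g * i) := by
        rw [mul_assoc (c * B), hB i hi, ← hpow]
        calc 2 ^ ((r + 2 * g) * i) ≤ B * Nat.card (ZSel k ρ (2 ^ i)) := (h i).2
          _ ≤ (c * B) * (c * Nat.card (ZSel k ρ (2 ^ i))) :=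
            Nat.mul_le_mul (Nat.le_mul_of_pos_left _ hc) (Nat.le_mul_of_pos_left _ hc)
      exact Nat.le_of_mul_le_mul_right h3 (by positivity)

/-- Corank `0` from the numbers of Selmer cocycles. -/
theorem hasCorank_zeroC (hG : GMod ρ) {g c : ℕ} (hc : 0 < c)
    (htors : ∀ i : ℕ, Nat.card (Gn M (2 ^ i)) = 4 ^ (g * i))
    (hK : ∀ i : ℕ, 1 ≤ i → Nat.card (Gn (Rat ρ) (2 ^ i)) = c)
    (hfin : ∀ i, Finite (ZSel k ρ (2 ^ i)))
    (hB : ∃ B : ℕ, ∀ i, Nat.card (ZSel k ρ (2 ^ i)) ≤ B * (4 ^ g) ^ i) : HasCorank k ρ 0 := by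
  obtain ⟨B, hB⟩ := hB
  have e4 : ∀ i, 2 ^ ((0 + 2 * g) * i) = (4 ^ g) ^ i := fun i => by
    rw [zero_add, pow_mul, pow_mul]
    norm_num
  refine hasCorank_ofC hG hc htors hK hfin (B := B + c) fun i => ⟨?_, ?_⟩
  · rw [e4]
    exact (hB i).trans (Nat.mul_le_mul_right _ (Nat.le_add_right _ _))
  · rw [e4]
    rcases Nat.eq_zero_or_pos i with rfl | hi
    · rw [pow_zero]
      have := hfin 0
      exact Nat.mul_pos (Nat.add_pos_right _ hc) Nat.card_pos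
    · have h1 := card_sel_zselC (k := k) hG htors hK i hi
      have h3 := hfin i
      have h4 : 0 < Nat.card (Sel k ρ (2 ^ i)) := Nat.card_pos
      calc (4 ^ g) ^ i = 4 ^ (g * i) := (pow_mul _ _ _).symm
        _ ≤ Nat.card (Sel k ρ (2 ^ i)) * 4 ^ (g * i) := Nat.le_mul_of_pos_left _ h4
        _ = c * Nat.card (ZSel k ρ (2 ^ i)) := h1
        _ ≤ _ := Nat.mul_le_mul_right _ (Nat.le_add_left _ _)

/-- Corank `1` from the numbers of Selmer cocycles. -/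
theorem hasCorank_oneC (hG : GMod ρ) {g c : ℕ} (hc : 0 < c)
    (htors : ∀ i : ℕ, Nat.card (Gn M (2 ^ i)) = 4 ^ (g * i))
    (hK : ∀ i : ℕ, 1 ≤ i → Nat.card (Gn (Rat ρ) (2 ^ i)) = c)
    (h8 : ∀ i, (2 * 4 ^ g) ^ i ≤ Nat.card (ZSel k ρ (2 ^ i)))
    (hB : ∃ B : ℕ, ∀ i, Nat.card (ZSel k ρ (2 ^ i)) ≤ B * (2 * 4 ^ g) ^ i) : HasCorank k ρ 1 := by
  obtain ⟨B, hB⟩ := hB
  have e8 : ∀ i, 2 ^ ((1 + 2 * g) * i) = (2 * 4 ^ g) ^ i := fun i => by
    rw [pow_mul, pow_add, pow_mul]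
    norm_num
  refine hasCorank_ofC hG hc htors hK (fun i => ?_) (B := B + 1) fun i => ⟨?_, ?_⟩
  · exact Nat.finite_of_card_ne_zero (Nat.lt_of_lt_of_le (by positivity) (h8 i)).ne'
  · rw [e8]
    exact (hB i).trans (Nat.mul_le_mul_right _ (by omega))
  · rw [e8]
    exact (h8 i).trans (Nat.le_mul_of_pos_left _ (by omega))

end Pool.Agent.SmN.Fnl
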