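import Pool.Agent.Lib.SmN.Fin.FinE

/-!
# SMITH-U (SmN), final layer: the two halves are disjoint

The corank of the twist by `d` depends only on the class of `d` in `Kˣ / Kˣ²`, so no class has corank `0`
and corank `1`; `HalfStmt.two_sided`: the two-sided form of `HalfStmt`.
-/

set_option autoImplicit false

open Polynomial WeierstrassCurve

namespace Pool.Agent.SmN.Fnl

open Pool.Agent.BSDFF (Place)
open Pool.Agent.SmJ Pool.Agent.SmNJ Pool.Agent.GBU
open Pool.Agent.SmJ.L (HasCorank)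
open Pool.Agent.SmJ.R (OddDeg galP)
open Pool.Agent.GBC (ord)
open Pool.Agent.Lib.SmD (chi)

section excl

variable {k K Ω : Type} [Field k] [Field K] [Field Ω] [Algebra k K] [Algebra K Ω]
variable {M : Type} [AddCommGroup M] {ρ : (Ω ≃ₐ[K] Ω) → M →+ M}

theorem not_both (h0 : HasCorank k ρ 0) (h1 : HasCorank k ρ 1) : False := by
  obtain ⟨B, hB⟩ := h0
  obtain ⟨C, hC⟩ := h1
  have h2 := (hB (C * B)).1
  have h3 := (hC (C * B)).2
  rw [zero_mul, pow_zero, mul_one] at h2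
  rw [one_mul] at h3
  have h4 : 2 ^ (C * B) ≤ C * B := h3.trans (Nat.mul_le_mul_left _ h2)
  exact absurd h4 (not_le.2 Nat.lt_two_pow_self)

end excl

section sq

variable {k K Ω : Type} [Field k] [Field K] [Field Ω] [Algebra k K] [Algebra K Ω]
  [IsSepClosure K Ω] {g : ℕ}

/-- The corank depends only on the class of `d`. -/
theorem corank_sq (h2 : (2 : K) ≠ 0) {f : K[X]} [OddDeg f] (hm : f.Monic) (hs : f.Separable)
    (hf : f.natDegree = 2 * g + 1) {d u : K} (hd : d ≠ 0) (hu : u ≠ 0) {r : ℕ}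
    (h : HasCorank k (galP Ω (f.scaleRoots d)) r) :
    HasCorank k (galP Ω (f.scaleRoots (d * u ^ 2))) r := by
  have hsc : IsSepClosed Ω := IsSepClosure.sep_closed K
  obtain ⟨a, hinj, ha⟩ := exists_rts (F := f.map (algebraMap K Ω))
    (hm.map _) hs.map (IsSepClosed.splits_codomain f hs) (g := g) (by rw [natDegree_map]; exact hf)
  have hR : RtG K a := rtG_of h2 hinj ha
  have hA : HypA a := ⟨hinj, hR.two⟩
  have hi := (algebraMap K Ω).injective
  have hd' : algebraMap K Ω d ≠ 0 := fun h => hd ((map_eq_zero_iff _ hi).mp h)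
  have hu' : algebraMap K Ω u ≠ 0 := fun h => hu ((map_eq_zero_iff _ hi).mp h)
  have hB : HypA fun i => algebraMap K Ω d * a i := HypA.mul hd'
  have hff := ff_scale ha hm d
  have hRB : RtG K fun i => algebraMap K Ω d * a i := rtG_of h2 hB.inj hff
  have hmd : (f.scaleRoots d).Monic := (monic_scaleRoots_iff d).2 hm
  have hff2 := ff_scale hff hmd (u ^ 2)
  have hu2 : algebraMap K Ω (u ^ 2) ≠ 0 := by
    rw [map_pow]
    exact pow_ne_zero 2 hu'
  have hC : HypA fun i => algebraMap K Ω (u ^ 2) * (algebraMap K Ω d * a i) := HypA.mul hu2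
  have hRC : RtG K fun i => algebraMap K Ω (u ^ 2) * (algebraMap K Ω d * a i) :=
    rtG_of h2 hC.inj hff2
  have h1 := (trans_gN (fun M _ ρ => HasCorank k ρ r) _ _ hff).1 h
  have e : f.scaleRoots (d * u ^ 2) = (f.scaleRoots d).scaleRoots (u ^ 2) := scaleRoots_mul f _ _
  have key : ∀ (F G : K[X]) (_ : OddDeg F) (_ : OddDeg G), F = G → HasCorank k (galP Ω F) r →
      HasCorank k (galP Ω G) r := by
    rintro F _ _ _ rfl h
    exact h
  refine key _ _ _ _ e.symm ((trans_gN (fun M _ ρ => HasCorank k ρ r) _ _ hff2).2 ?_)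
  have hδ : algebraMap K Ω u ^ 2 = algebraMap K Ω (u ^ 2) := (map_pow _ _ _).symm
  refine hasCorank_iso (twIso (fun i => algebraMap K Ω d * a i) hδ hu') (fun s x => ?_) h1
  have h5 := twIso_actN (fun i => algebraMap K Ω d * a i) s (map_ffN K _ s) hδ hu'
    (map_ffN K _ s) x
  have h6 : chi K (u ^ 2) s = 0 :=
    (Pool.Agent.SmF.chi_eq_zero_iff (Ω := Ω) h2 (pow_ne_zero 2 hu)).2 ⟨u, sq _⟩ s
  rw [h6, sgn, if_pos rfl, one_zsmul] at h5
  exact h5.symm

end sq

section tw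

variable {k K : Type} [Field k] [Field K] [Algebra k K]

/-- Two elements with the same class. -/
theorem same_class {d d' : Kˣ} (h : (d : Tws K) = (d' : Tws K)) :
    ∃ u : K, u ≠ 0 ∧ (d' : K) = d * u ^ 2 := by
  rw [QuotientGroup.eq] at h
  obtain ⟨y, hy⟩ := h
  refine ⟨y, y.ne_zero, ?_⟩
  have h1 : (powMonoidHom 2 : Kˣ →* Kˣ) y = y ^ 2 := rfl
  rw [h1] at hy
  have h2 : d' = d * y ^ 2 := by rw [hy, mul_inv_cancel_left]
  rw [h2, Units.val_mul, Units.val_pow_eq_pow_val]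

/-- The two-sided form. -/
theorem HalfStmt.two_sided {M : Finset (Place k K)} {E0 E1 : K → Prop} (h : HalfStmt k M E0 E1)
    (hfin : ∀ N, (TwLE k N (fun _ : K => True)).Finite)
    (hex : ∀ (d : Kˣ) (u : K), u ≠ 0 → E0 (d : K) → ¬ E1 ((d : K) * u ^ 2)) :
    ∃ δ : ℝ, 0 < δ ∧ ∀ ε : ℝ, 0 < ε → ∃ N₀ : ℕ, ∀ N ≥ N₀,
      δ * (TwLE k N (fun _ : K => True)).ncard ≤
        (TwLE k N (fun d : K => ∃ v ∈ M, Even (ord v d))).ncard ∧
      |((TwLE k N (fun d : K => (∃ v ∈ M, Even (ord v d)) ∧ E0 d)).ncard : ℝ) -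
        (TwLE k N (fun d : K => ∃ v ∈ M, Even (ord v d))).ncard / 2| ≤
        ε * (TwLE k N (fun d : K => ∃ v ∈ M, Even (ord v d))).ncard ∧
      |((TwLE k N (fun d : K => (∃ v ∈ M, Even (ord v d)) ∧ E1 d)).ncard : ℝ) -
        (TwLE k N (fun d : K => ∃ v ∈ M, Even (ord v d))).ncard / 2| ≤
        ε * (TwLE k N (fun d : K => ∃ v ∈ M, Even (ord v d))).ncard := by
  obtain ⟨⟨δ, hδ, N₁, h1⟩, h2⟩ := h
  refine ⟨δ, hδ, fun ε hε => ?_⟩
  obtain ⟨N₂, h3⟩ := h2 ε hε
  refine ⟨max N₁ N₂, fun N hN => ⟨h1 N ((le_max_left _ _).trans hN), ?_⟩⟩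
  obtain ⟨h4, h5⟩ := h3 N ((le_max_right _ _).trans hN)
  have hF := (hfin N).subset (twLE_mono (k := k) (N := N)
    (P := fun d : K => ∃ v ∈ M, Even (ord v d)) (Q := fun _ => True) fun d _ => trivial)
  set F := TwLE k N (fun d : K => ∃ v ∈ M, Even (ord v d)) with hFd
  set Z := TwLE k N (fun d : K => (∃ v ∈ M, Even (ord v d)) ∧ E0 d) with hZd
  set O := TwLE k N (fun d : K => (∃ v ∈ M, Even (ord v d)) ∧ E1 d) with hOd
  have hZF : Z ⊆ F := twLE_mono fun d hd => hd.1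
  have hOF : O ⊆ F := twLE_mono fun d hd => hd.1
  have hdis : Disjoint Z O := by
    rw [Set.disjoint_left]
    rintro c ⟨d, rfl, -, -, hd⟩ ⟨d', hd', -, -, hd''⟩
    obtain ⟨u, hu, e⟩ := same_class hd'.symm
    rw [e] at hd''
    exact hex d u hu hd hd''
  have h6 : Z.ncard + O.ncard ≤ F.ncard := by
    rw [← Set.ncard_union_eq hdis (hF.subset hZF) (hF.subset hOF)]
    exact Set.ncard_le_ncard (Set.union_subset hZF hOF) hF
  have h7 : (Z.ncard : ℝ) + O.ncard ≤ F.ncard := by exact_mod_cast h6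
  constructor
  · rw [abs_le]
    constructor <;> linarith
  · rw [abs_le]
    constructor <;> linarith

end tw

end Pool.Agent.SmN.Fnl
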