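import Pool.Agent.Lib.SmN.Ch.Main
import Pool.Agent.Lib.SmN.G6.Codes
import Pool.Agent.Lib.SmN.K.Anat
import Pool.Agent.Lib.SmN.Cnt.Stmts

/-!
# SMITH-U (SmN), final layer: from the twists by `chi0 + ∑ ch P` to all quadratic characters

`rdeg c` is the degree of the ramification of the quadratic character `c`. `all_of_fam`: if, for each
of the finitely many quadratic characters `c0` unramified outside `T`, the share of the bad characters
among the `c0 + ∑_(P ∈ D) ch P`, `deg D = n`, is at most `ε` for all large `n`, then the share of the bad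
characters among all quadratic characters of ramification degree at most `n` is at most `K ε` for all
large `n`; the constant `K` does not depend on the property.
-/

set_option autoImplicit false

open Finset

namespace Pool.Agent.SmN.Fnl

open Ch

variable {G V V1 Pl : Type} [Group G] [AddCommGroup V] [DistribMulAction G V]
  [AddCommGroup V1] [Module (ZMod 2) V1]

/-- The degree of the ramification of a quadratic character. -/
noncomputable def rdeg (S : Sys G V V1 Pl) (deg : Pl → ℕ) (c : G → ZMod 2) : ℕ :=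
  ∑ᶠ v, if c (S.sg v) = 0 then 0 else deg v

/-- The places outside `T`. -/
abbrev Out (T : Set Pl) : Type := {v : Pl // v ∉ T}

/-- The degree of a finite set of places outside `T`. -/
def dS {T : Set Pl} (deg : Pl → ℕ) (D : Finset (Out T)) : ℕ := ∑ P ∈ D, deg P.1

variable {S : Sys G V V1 Pl} {T : Set Pl} {deg : Pl → ℕ}

private theorem Tot_z {a : ZMod 2} (h : a ≠ 0) : a = 1 := by
  revert a
  decide

theorem homG_one {c : G → ZMod 2} (hc : S.HomG c) : c 1 = 0 := by
  have h := hc.2 1 1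
  rw [mul_one] at h
  exact left_eq_add.1 h

theorem ram_finite (hS : S.Ok) {c : G → ZMod 2} (hc : S.HomG c) : {v | c (S.sg v) ≠ 0}.Finite := by
  obtain ⟨N, hN, h⟩ := hc.1
  refine (hS.unr N hN).subset fun v hv hm => hv ?_
  have h1 := h 1 _ hm
  rw [one_mul] at h1
  rw [h1, homG_one hc]

theorem rdeg_eq (hS : S.Ok) {c : G → ZMod 2} (hc : S.HomG c) :
    rdeg S deg c = ∑ v ∈ (ram_finite hS hc).toFinset, deg v := by
  rw [rdeg, finsum_eq_sum_of_support_subset (s := (ram_finite hS hc).toFinset)]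
  · refine sum_congr rfl fun v hv => ?_
    rw [Set.Finite.mem_toFinset] at hv
    rw [if_neg hv]
  · intro v hv
    rw [Function.mem_support] at hv
    rw [Set.Finite.coe_toFinset]
    intro h0
    exact hv (if_pos h0)

/-- The characters `ch`, one for each place outside `T`. -/
structure ChFam (S : Sys G V V1 Pl) (T : Set Pl) (ch : Out T → G → ZMod 2) : Prop where
  hom : ∀ P, S.HomG (ch P)
  self : ∀ P, ch P (S.sg P.1) = 1
  unr : ∀ P Q : Out T, Q ≠ P → ch P (S.sg Q.1) = 0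

variable {ch : Out T → G → ZMod 2}

/-- The sum of the characters over `D`. -/
def chS (ch : Out T → G → ZMod 2) (D : Finset (Out T)) (s : G) : ZMod 2 :=
  ∑ P ∈ D, ch P s

theorem homG_chS (hS : S.Ok) (hch : ChFam S T ch) (D : Finset (Out T)) :
    S.HomG (chS ch D) :=
  CData.homG_sum hS D ch fun P _ => hch.hom P

open Classical in
theorem chS_sg (hch : ChFam S T ch) (D : Finset (Out T)) (Q : Out T) :
    chS ch D (S.sg Q.1) = if Q ∈ D then 1 else 0 := by
  rw [chS]
  by_cases hQ : Q ∈ D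
  · rw [if_pos hQ, sum_eq_single_of_mem Q hQ fun P _ hP => hch.unr P Q (Ne.symm hP), hch.self]
  · rw [if_neg hQ]
    exact sum_eq_zero fun P hP => hch.unr P Q fun h => hQ (h ▸ hP)

/-- The ramified places outside `T`. -/
noncomputable def ramP (hS : S.Ok) (T : Set Pl) (c : {c : G → ZMod 2 // S.HomG c}) :
    Finset (Out T) :=
  ((ram_finite hS c.2).preimage (f := (Subtype.val : Out T → Pl))
    Subtype.val_injective.injOn).toFinset

theorem mem_ramP (hS : S.Ok) (c : {c : G → ZMod 2 // S.HomG c}) (P : Out T) :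
    P ∈ ramP hS T c ↔ c.1 (S.sg P.1) ≠ 0 := by
  rw [ramP, Set.Finite.mem_toFinset]
  exact Iff.rfl

/-- The part unramified outside `T`. -/
theorem xt_part (hS : S.Ok) (hch : ChFam S T ch) (c : {c : G → ZMod 2 // S.HomG c}) :
    XT S T (c.1 + chS ch (ramP hS T c)) := by
  classical
  refine ⟨Sys.HomG.add hS c.2 (homG_chS hS hch _), fun v hv => ?_⟩
  have h1 := chS_sg hch (ramP hS T c) ⟨v, hv⟩
  have h2 := mem_ramP (T := T) hS c ⟨v, hv⟩
  rw [Pi.add_apply, h1]
  by_cases h : c.1 (S.sg v) = 0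
  · rw [if_neg (fun h3 => h2.1 h3 h), h, add_zero]
  · rw [if_pos (h2.2 h), Tot_z h]
    decide

theorem eq_part (hS : S.Ok) (c : {c : G → ZMod 2 // S.HomG c}) :
    (c.1 + chS ch (ramP hS T c)) + chS ch (ramP hS T c) = c.1 := by
  funext s
  simp only [Pi.add_apply]
  rw [add_assoc, CharTwo.add_self_eq_zero, add_zero]

theorem xt_finite (hT : T.Finite) (hS : S.Ok) (hF : LagF S T) : Finite {c // XT S T c} := by
  have := hT.to_subtype
  have h2 : Finite (T → ZMod 2 × ZMod 2) := inferInstance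
  refine Finite.of_injective (fun (c : {c // XT S T c}) (v : T) => loc2 S v.1 c.1) fun c d h => ?_
  apply Subtype.ext
  have h3 := hF.inj (c.1 + d.1) ⟨Sys.HomG.add hS c.2.1 d.2.1, fun v hv => by
    rw [Pi.add_apply, c.2.2 v hv, d.2.2 v hv, add_zero]⟩ fun v hv => by
      have h4 : loc2 S v c.1 = loc2 S v d.1 := congrFun h ⟨v, hv⟩
      rw [loc2_add, h4]
      exact CharTwo.add_self_eq_zero _
  funext s
  have h4 := congrFun h3 s
  rw [Pi.add_apply, Pi.zero_apply] at h4
  have : ∀ a b : ZMod 2, a + b = 0 → a = b := by decide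
  exact this _ _ h4

theorem dS_ramP_le (hS : S.Ok) (c : {c : G → ZMod 2 // S.HomG c}) :
    dS deg (ramP hS T c) ≤ rdeg S deg c.1 := by
  classical
  rw [rdeg_eq hS c.2, dS, ← sum_image (f := deg) (g := fun P : Out T => P.1)
    fun P _ Q _ h => Subtype.ext h]
  refine sum_le_sum_of_subset fun v hv => ?_
  obtain ⟨P, hP, rfl⟩ := mem_image.1 hv
  rw [Set.Finite.mem_toFinset]
  exact (mem_ramP hS c P).1 hP

theorem rdeg_le (hT : T.Finite) (hS : S.Ok) (c : {c : G → ZMod 2 // S.HomG c}) :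
    rdeg S deg c.1 ≤ ∑ v ∈ hT.toFinset, deg v + dS deg (ramP hS T c) := by
  classical
  rw [rdeg_eq hS c.2, dS, ← sum_image (f := deg) (g := fun P : Out T => P.1)
    fun P _ Q _ h => Subtype.ext h]
  refine le_trans (sum_le_sum_of_subset (t := hT.toFinset ∪
    (ramP hS T c).image fun P : Out T => P.1) fun v hv => ?_) (by
      have := sum_union_inter (s₁ := hT.toFinset)
        (s₂ := (ramP hS T c).image fun P : Out T => P.1) (f := deg)
      omega)
  rw [Set.Finite.mem_toFinset] at hv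
  rw [mem_union]
  by_cases h : v ∈ T
  · exact Or.inl (hT.mem_toFinset.2 h)
  · exact Or.inr (mem_image.2 ⟨⟨v, h⟩, (mem_ramP hS c ⟨v, h⟩).2 hv, rfl⟩)

/-- The numerical facts on the degrees. -/
structure Growth (T : Set Pl) (deg : Pl → ℕ) (q : ℕ) (c C : ℝ) (n₀ : ℕ) : Prop where
  two_le : 2 ≤ q
  pos : 0 < c
  fin : ∀ n, Finite {D : Finset (Out T) // dS deg D ≤ n}
  low : ∀ n ≥ n₀, c * (q : ℝ) ^ n ≤ Nat.card {D : Finset (Out T) // dS deg D = n}
  up : ∀ n, (Nat.card {D : Finset (Out T) // dS deg D = n} : ℝ) ≤ C * (q : ℝ) ^ n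

theorem growth_of {q : ℕ} (hX : (XX T deg).Ok q) : ∃ c C n₀, Growth T deg q c C n₀ := by
  classical
  obtain ⟨c, hc, n₀, h⟩ := hX.dd
  obtain ⟨C, hC0, hC⟩ := hX.consts
  refine ⟨c, 2 * (1 + C) * Real.exp (1 + 4 * C), n₀, hX.two_le, hc, fun n => ?_,
    fun n hn => h n hn, fun n => ?_⟩
  · have h3 : Finite {D : Finset (XX T deg).Pr // D ∈ (PSys.Ple hX n).powerset} := inferInstance
    refine Finite.of_injective (β := {D : Finset (XX T deg).Pr // D ∈ (PSys.Ple hX n).powerset})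
      (fun D => ⟨D.1, mem_powerset.2 (PSys.subset_Ple hX D.2)⟩) fun D D' h => ?_
    have h4 : D.1 = D'.1 := congrArg (fun x : {D : Finset (XX T deg).Pr //
      D ∈ (PSys.Ple hX n).powerset} => x.1) h
    exact Subtype.ext h4
  · have h1 := PSys.nDD_le hX hC0 hC n
    rw [← PSys.nDD_eq] at h1
    exact h1

section count

variable {q : ℕ} {c C : ℝ} {n₀ : ℕ}

/-- The characters of bounded ramification degree are finitely many. -/
theorem finite_le (hS : S.Ok) (hT : T.Finite) (hF : LagF S T) (hch : ChFam S T ch)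
    (hG : Growth T deg q c C n₀) (n : ℕ) :
    Finite {c : {c : G → ZMod 2 // S.HomG c} // rdeg S deg c.1 ≤ n} := by
  have h1 := xt_finite hT hS hF
  have h2 := hG.fin n
  refine Finite.of_injective (β := {c // XT S T c} × {D : Finset (Out T) // dS deg D ≤ n})
    (fun c => (⟨c.1.1 + chS ch (ramP hS T c.1), xt_part hS hch c.1⟩,
      ⟨ramP hS T c.1, (dS_ramP_le hS c.1).trans c.2⟩)) fun c d h => ?_
  apply Subtype.ext
  apply Subtype.ext
  have h3 : c.1.1 + chS ch (ramP hS T c.1) = d.1.1 + chS ch (ramP hS T d.1) :=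
    congrArg (fun x : {c // XT S T c} × {D : Finset (Out T) // dS deg D ≤ n} => x.1.1) h
  have h4 : ramP hS T c.1 = ramP hS T d.1 :=
    congrArg (fun x : {c // XT S T c} × {D : Finset (Out T) // dS deg D ≤ n} => x.2.1) h
  rw [← eq_part (ch := ch) (T := T) hS c.1, ← eq_part (ch := ch) (T := T) hS d.1, h3, h4]

/-- The number of the characters of ramification degree at most `n + deg T`. -/
theorem le_card (hS : S.Ok) (hT : T.Finite) (hF : LagF S T) (hch : ChFam S T ch)
    (hG : Growth T deg q c C n₀) (n : ℕ) :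
    Nat.card {D : Finset (Out T) // dS deg D = n} ≤
      Nat.card {c : {c : G → ZMod 2 // S.HomG c} //
        rdeg S deg c.1 ≤ n + ∑ v ∈ hT.toFinset, deg v} := by
  classical
  have := finite_le hS hT hF hch hG (n + ∑ v ∈ hT.toFinset, deg v)
  have hram : ∀ D : Finset (Out T), ramP hS T ⟨chS ch D, homG_chS hS hch D⟩ = D := by
    intro D
    ext P
    have h1 := mem_ramP (T := T) hS ⟨chS ch D, homG_chS hS hch D⟩ P
    have h2 := chS_sg hch D P
    rw [h1]
    change chS ch D (S.sg P.1) ≠ 0 ↔ _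
    rw [h2]
    by_cases h : P ∈ D
    · simp [h]
    · simp [h]
  refine Nat.card_le_card_of_injective (fun D => ⟨⟨chS ch D.1, homG_chS hS hch D.1⟩, ?_⟩) ?_
  · refine (rdeg_le (deg := deg) hT hS _).trans ?_
    rw [hram, D.2, add_comm]
  · intro D D' h
    apply Subtype.ext
    have h1 : ramP hS T ⟨chS ch D.1, homG_chS hS hch D.1⟩ =
      ramP hS T ⟨chS ch D'.1, homG_chS hS hch D'.1⟩ :=
      congrArg (fun c : {c : {c : G → ZMod 2 // S.HomG c} //
        rdeg S deg c.1 ≤ n + ∑ v ∈ hT.toFinset, deg v} => ramP hS T c.1) h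
    rwa [hram, hram] at h1

/-- The bad characters. -/
theorem card_bad_le (hS : S.Ok) (hT : T.Finite) (hF : LagF S T) (hch : ChFam S T ch)
    (hG : Growth T deg q c C n₀) (Bad : (G → ZMod 2) → Prop) (n : ℕ) :
    Nat.card {c : {c : G → ZMod 2 // S.HomG c} // rdeg S deg c.1 ≤ n ∧ Bad c.1} ≤
      ∑ i ∈ range (n + 1), ∑ᶠ c0 : {c // XT S T c},
        Nat.card {D : Finset (Out T) // dS deg D = i ∧ Bad (c0.1 + chS ch D)} := by
  classical
  have h1 := xt_finite hT hS hF
  have := Fintype.ofFinite {c // XT S T c}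
  have h2 : ∀ i, Finite {D : Finset (Out T) // dS deg D = i} := fun i => by
    have := hG.fin i
    exact Finite.of_injective (fun D => (⟨D.1, D.2.le⟩ : {D : Finset (Out T) // dS deg D ≤ i}))
      fun D D' h => Subtype.ext (congrArg (fun x : {D : Finset (Out T) // dS deg D ≤ i} => x.1) h)
  have h3 : ∀ (i : ℕ) (c0 : {c // XT S T c}),
      Finite {D : Finset (Out T) // dS deg D = i ∧ Bad (c0.1 + chS ch D)} := fun i c0 => by
    have := h2 i
    exact Finite.of_injective (fun D => (⟨D.1, D.2.1⟩ : {D : Finset (Out T) // dS deg D = i}))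
      fun D D' h => Subtype.ext (congrArg (fun x : {D : Finset (Out T) // dS deg D = i} => x.1) h)
  have h4 : ∑ i ∈ range (n + 1), ∑ᶠ c0 : {c // XT S T c},
        Nat.card {D : Finset (Out T) // dS deg D = i ∧ Bad (c0.1 + chS ch D)} =
      Nat.card (Σ i : Fin (n + 1), Σ c0 : {c // XT S T c},
        {D : Finset (Out T) // dS deg D = i.1 ∧ Bad (c0.1 + chS ch D)}) := by
    rw [Nat.card_sigma, ← Fin.sum_univ_eq_sum_range (fun i => ∑ᶠ c0 : {c // XT S T c},
        Nat.card {D : Finset (Out T) // dS deg D = i ∧ Bad (c0.1 + chS ch D)})]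
    refine sum_congr rfl fun i _ => ?_
    rw [finsum_eq_sum_of_fintype, Nat.card_sigma]
  rw [h4]
  refine Nat.card_le_card_of_injective (fun c => ⟨⟨dS deg (ramP hS T c.1),
    Nat.lt_succ_of_le ((dS_ramP_le hS c.1).trans c.2.1)⟩,
    ⟨⟨c.1.1 + chS ch (ramP hS T c.1), xt_part hS hch c.1⟩, ⟨ramP hS T c.1, rfl, by
      rw [eq_part (ch := ch) (T := T) hS c.1]
      exact c.2.2⟩⟩⟩) fun c d h => ?_
  apply Subtype.ext
  apply Subtype.ext
  have h5 : c.1.1 + chS ch (ramP hS T c.1) = d.1.1 + chS ch (ramP hS T d.1) :=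
    congrArg (fun x : (Σ i : Fin (n + 1), Σ c0 : {c // XT S T c},
        {D : Finset (Out T) // dS deg D = i.1 ∧ Bad (c0.1 + chS ch D)}) => x.2.1.1) h
  have h6 : ramP hS T c.1 = ramP hS T d.1 :=
    congrArg (fun x : (Σ i : Fin (n + 1), Σ c0 : {c // XT S T c},
        {D : Finset (Out T) // dS deg D = i.1 ∧ Bad (c0.1 + chS ch D)}) => x.2.2.1) h
  rw [← eq_part (ch := ch) (T := T) hS c.1, ← eq_part (ch := ch) (T := T) hS d.1, h5, h6]

/-- From the families to all quadratic characters. -/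
theorem all_of_fam (hS : S.Ok) (hT : T.Finite) (hF : LagF S T) (hch : ChFam S T ch)
    (hG : Growth T deg q c C n₀) : ∃ K : ℝ, 0 < K ∧ ∀ (Bad : (G → ZMod 2) → Prop) (ε : ℝ), 0 < ε →
      ∀ n₁ : ℕ, (∀ c0, XT S T c0 → ∀ n ≥ n₁,
        (Nat.card {D : Finset (Out T) // dS deg D = n ∧ Bad (c0 + chS ch D)} : ℝ) ≤
          ε * Nat.card {D : Finset (Out T) // dS deg D = n}) →
      ∃ n₂, ∀ n ≥ n₂,
        (Nat.card {c : {c : G → ZMod 2 // S.HomG c} // rdeg S deg c.1 ≤ n ∧ Bad c.1} : ℝ) ≤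
          K * ε * Nat.card {c : {c : G → ZMod 2 // S.HomG c} // rdeg S deg c.1 ≤ n} := by
  classical
  have hXf := xt_finite hT hS hF
  have := Fintype.ofFinite {c // XT S T c}
  set τ := ∑ v ∈ hT.toFinset, deg v with hτ
  set M : ℝ := ((Nat.card {c // XT S T c} : ℕ) : ℝ) with hM
  have hM0 : 0 ≤ M := Nat.cast_nonneg _
  have hq2 : (2 : ℝ) ≤ q := by exact_mod_cast hG.two_le
  have hq0 : (0 : ℝ) < q := by linarith
  have hC0 : 0 ≤ |C| := abs_nonneg C
  have hc0 := hG.pos
  have hup : ∀ n, (Nat.card {D : Finset (Out T) // dS deg D = n} : ℝ) ≤ |C| * (q : ℝ) ^ n :=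
    fun n => (hG.up n).trans (mul_le_mul_of_nonneg_right (le_abs_self C) (by positivity))
  have hgeom : ∀ n : ℕ, ∑ i ∈ range n, (q : ℝ) ^ i ≤ (q : ℝ) ^ n := by
    intro n
    induction n with
    | zero => simp
    | succ n ih =>
      rw [sum_range_succ, pow_succ]
      have : (0 : ℝ) < (q : ℝ) ^ n := by positivity
      nlinarith
  refine ⟨3 * M * |C| * (q : ℝ) ^ τ / c + 1, by positivity, fun Bad ε hε n₁ h => ?_⟩
  obtain ⟨n₂, hn₂⟩ : ∃ n₂ : ℕ, (q : ℝ) ^ n₁ / ε ≤ (q : ℝ) ^ n₂ :=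
    (pow_unbounded_of_one_lt _ (by linarith : (1 : ℝ) < q)).imp fun _ h => h.le
  refine ⟨max n₂ (n₀ + τ), fun n hn => ?_⟩
  have hn2 : n₂ ≤ n := (le_max_left _ _).trans hn
  have hn0 : n₀ + τ ≤ n := (le_max_right _ _).trans hn
  -- the bad characters
  have hle : ∀ (i : ℕ) (c0 : {c // XT S T c}),
      (Nat.card {D : Finset (Out T) // dS deg D = i ∧ Bad (c0.1 + chS ch D)} : ℝ) ≤
        Nat.card {D : Finset (Out T) // dS deg D = i} := by
    intro i c0
    have h1 := hG.fin i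
    have h2 : Finite {D : Finset (Out T) // dS deg D = i} :=
      Finite.of_injective (fun D => (⟨D.1, D.2.le⟩ : {D : Finset (Out T) // dS deg D ≤ i}))
        fun D D' h => Subtype.ext
          (congrArg (fun x : {D : Finset (Out T) // dS deg D ≤ i} => x.1) h)
    have h3 : Nat.card {D : Finset (Out T) // dS deg D = i ∧ Bad (c0.1 + chS ch D)} ≤
        Nat.card {D : Finset (Out T) // dS deg D = i} := Nat.card_le_card_of_injective
      (fun D => (⟨D.1, D.2.1⟩ : {D : Finset (Out T) // dS deg D = i}))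
      fun D D' h => Subtype.ext (congrArg (fun x : {D : Finset (Out T) // dS deg D = i} => x.1) h)
    exact_mod_cast h3
  have hi1 : ∀ i, i < n₁ → ((∑ᶠ c0 : {c // XT S T c},
        Nat.card {D : Finset (Out T) // dS deg D = i ∧ Bad (c0.1 + chS ch D)} : ℕ) : ℝ) ≤
      M * |C| * (q : ℝ) ^ i := by
    intro i _
    rw [finsum_eq_sum_of_fintype, Nat.cast_sum]
    refine (sum_le_sum fun c0 _ => (hle i c0).trans (hup i)).trans ?_
    rw [sum_const, nsmul_eq_mul, card_univ, ← Nat.card_eq_fintype_card, ← hM]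
    exact le_of_eq (by ring)
  have hi2 : ∀ i, n₁ ≤ i → ((∑ᶠ c0 : {c // XT S T c},
        Nat.card {D : Finset (Out T) // dS deg D = i ∧ Bad (c0.1 + chS ch D)} : ℕ) : ℝ) ≤
      M * |C| * ε * (q : ℝ) ^ i := by
    intro i hi
    rw [finsum_eq_sum_of_fintype, Nat.cast_sum]
    refine (sum_le_sum fun c0 _ => (h c0.1 c0.2 i hi).trans
      (mul_le_mul_of_nonneg_left (hup i) hε.le)).trans ?_
    rw [sum_const, nsmul_eq_mul, card_univ, ← Nat.card_eq_fintype_card, ← hM]
    exact le_of_eq (by ring)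
  have hbad : (Nat.card {c : {c : G → ZMod 2 // S.HomG c} // rdeg S deg c.1 ≤ n ∧ Bad c.1} : ℝ) ≤
      3 * M * |C| * ε * (q : ℝ) ^ n := by
    have h1 : (Nat.card {c : {c : G → ZMod 2 // S.HomG c} // rdeg S deg c.1 ≤ n ∧ Bad c.1} : ℝ) ≤
        ∑ i ∈ range (n + 1), ((∑ᶠ c0 : {c // XT S T c},
          Nat.card {D : Finset (Out T) // dS deg D = i ∧ Bad (c0.1 + chS ch D)} : ℕ) : ℝ) := by
      exact_mod_cast card_bad_le hS hT hF hch hG Bad n
    refine h1.trans ?_
    have h2 : ∑ i ∈ range (n + 1), ((∑ᶠ c0 : {c // XT S T c},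
          Nat.card {D : Finset (Out T) // dS deg D = i ∧ Bad (c0.1 + chS ch D)} : ℕ) : ℝ) ≤
        ∑ i ∈ range (n + 1), (M * |C| * ε * (q : ℝ) ^ i +
          if i < n₁ then M * |C| * (q : ℝ) ^ i else 0) := by
      refine sum_le_sum fun i _ => ?_
      by_cases hi : i < n₁
      · rw [if_pos hi]
        exact (hi1 i hi).trans (le_add_of_nonneg_left (by positivity))
      · rw [if_neg hi, add_zero]
        exact hi2 i (not_lt.1 hi)
    refine h2.trans ?_
    rw [sum_add_distrib, ← mul_sum, ← sum_filter, ← mul_sum]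
    have h3 : ∑ i ∈ range (n + 1), (q : ℝ) ^ i ≤ 2 * (q : ℝ) ^ n := by
      rw [sum_range_succ]
      have := hgeom n
      linarith
    have h4 : ∑ i ∈ (range (n + 1)).filter (fun i => i < n₁), (q : ℝ) ^ i ≤ ε * (q : ℝ) ^ n := by
      have h5 : ∑ i ∈ (range (n + 1)).filter (fun i => i < n₁), (q : ℝ) ^ i ≤
          ∑ i ∈ range n₁, (q : ℝ) ^ i := by
        refine sum_le_sum_of_subset_of_nonneg (fun i hi => ?_) fun i _ _ => by positivity
        exact mem_range.2 (mem_filter.1 hi).2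
      have h6 : (q : ℝ) ^ n₁ ≤ ε * (q : ℝ) ^ n := by
        rw [div_le_iff₀ hε] at hn₂
        have h7 : (q : ℝ) ^ n₂ ≤ (q : ℝ) ^ n := pow_le_pow_right₀ (by linarith) hn2
        nlinarith
      exact (h5.trans (hgeom n₁)).trans h6
    have h5 : 0 ≤ M * |C| * ε := by positivity
    have h6 : 0 ≤ M * |C| := by positivity
    nlinarith [mul_le_mul_of_nonneg_left h3 h5, mul_le_mul_of_nonneg_left h4 h6]
  -- all characters
  have hall : c * (q : ℝ) ^ n ≤ (q : ℝ) ^ τ *
      Nat.card {c : {c : G → ZMod 2 // S.HomG c} // rdeg S deg c.1 ≤ n} := by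
    have h1 := hG.low (n - τ) (by omega)
    have h2 := le_card hS hT hF hch hG (n - τ)
    have h3 : n - τ + τ = n := by omega
    rw [← hτ, h3] at h2
    have h4 : (Nat.card {D : Finset (Out T) // dS deg D = n - τ} : ℝ) ≤
      Nat.card {c : {c : G → ZMod 2 // S.HomG c} // rdeg S deg c.1 ≤ n} := by exact_mod_cast h2
    calc c * (q : ℝ) ^ n = (q : ℝ) ^ τ * (c * (q : ℝ) ^ (n - τ)) := by
          rw [← h3, pow_add, h3]
          ring
      _ ≤ _ := mul_le_mul_of_nonneg_left (h1.trans h4) (by positivity)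
  refine hbad.trans ?_
  have h1 : (q : ℝ) ^ n ≤ (q : ℝ) ^ τ *
      Nat.card {c : {c : G → ZMod 2 // S.HomG c} // rdeg S deg c.1 ≤ n} / c := by
    rw [le_div_iff₀ hc0]
    linarith
  have h2 : 0 ≤ 3 * M * |C| * ε := by positivity
  calc 3 * M * |C| * ε * (q : ℝ) ^ n
      ≤ 3 * M * |C| * ε * ((q : ℝ) ^ τ *
        Nat.card {c : {c : G → ZMod 2 // S.HomG c} // rdeg S deg c.1 ≤ n} / c) :=
        mul_le_mul_of_nonneg_left h1 h2
    _ = 3 * M * |C| * (q : ℝ) ^ τ / c * ε *
        Nat.card {c : {c : G → ZMod 2 // S.HomG c} // rdeg S deg c.1 ≤ n} := by ring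
    _ ≤ _ := by
        refine mul_le_mul_of_nonneg_right (mul_le_mul_of_nonneg_right ?_ hε.le)
          (Nat.cast_nonneg _)
        linarith

end count

/-- The Selmer group of level `m` of the twist by `c` is small. -/
def SmallS (S : Sys G V V1 Pl) (m : ℕ) (c : G → ZMod 2) : Prop :=
  Finite {Psi : G → V // S.IsSel c m Psi} ∧
    Nat.card {Psi : G → V // S.IsSel c m Psi} < (4 * Nat.card V1) ^ m

/-- From `LThm` for the finitely many `chi0` unramified outside `T` (`cd` as in `exists_cdata`) to all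
quadratic characters. -/
theorem all_of_LThm {q : ℕ} (hS : S.Ok) (hT : T.Finite) (hF : LagF S T) (hX : (XX T deg).Ok q)
    (cd : (G → ZMod 2) → CData S (XX T deg))
    (hcd : ∀ chi0, (cd chi0).pl = Subtype.val ∧ (cd chi0).chi0 = chi0 ∧
      (cd chi0).ch = (cd 0).ch ∧ (XT S T chi0 → (cd chi0).Ok))
    (hL : ∀ chi0, XT S T chi0 → (cd chi0).LThm) :
    (∀ n, Finite {c : {c : G → ZMod 2 // S.HomG c} // rdeg S deg c.1 ≤ n}) ∧
    ∀ ε : ℝ, 0 < ε → ∃ m₁ : ℕ, ∀ m ≥ m₁, ∃ n₀ : ℕ, ∀ n ≥ n₀,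
      (Nat.card {c : {c : G → ZMod 2 // S.HomG c} //
        rdeg S deg c.1 ≤ n ∧ ¬ SmallS S m c.1} : ℝ) ≤
        ε * Nat.card {c : {c : G → ZMod 2 // S.HomG c} // rdeg S deg c.1 ≤ n} := by
  classical
  obtain ⟨c, C, n₀, hG⟩ := growth_of hX
  have h0 : XT S T 0 := ⟨Sys.HomG.zero hS, fun _ _ => rfl⟩
  have hOk := (hcd 0).2.2.2 h0
  have hpl := (hcd 0).1
  let ch : Out T → G → ZMod 2 := (cd 0).ch
  have hch : ChFam S T ch := by
    refine ⟨hOk.ch_hom, fun P => ?_, fun P Q hPQ => ?_⟩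
    · have := hOk.ch_self P
      rw [hpl] at this
      exact this
    · have := hOk.ch_unr P Q hPQ
      rw [hpl] at this
      exact this
  refine ⟨fun n => finite_le hS hT hF hch hG n, fun ε hε => ?_⟩
  obtain ⟨K, hK, hall⟩ := all_of_fam hS hT hF hch hG
  have hXf := xt_finite hT hS hF
  have := Fintype.ofFinite {c // XT S T c}
  have hεK : 0 < ε / K := div_pos hε hK
  choose m₁ hm₁ using fun c0 : {c // XT S T c} => hL c0.1 c0.2 (ε / K) hεK
  refine ⟨univ.sup m₁, fun m hm => ?_⟩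
  choose n₁ hn₁ using fun c0 : {c // XT S T c} =>
    hm₁ c0 m ((le_sup (f := m₁) (mem_univ c0)).trans hm)
  obtain ⟨n₂, hn₂⟩ := hall (fun c => ¬ SmallS S m c) (ε / K) hεK (univ.sup n₁)
    fun c0 hc0 n hn => by
      have h1 := hn₁ ⟨c0, hc0⟩ n ((le_sup (f := n₁) (mem_univ (⟨c0, hc0⟩ : {c // XT S T c}))).trans
        hn)
      have h2 : ∀ D : Finset (Out T), (cd c0).chiD D = c0 + chS ch D := by
        intro D
        funext s
        change (cd c0).chi0 s + ∑ P ∈ D, (cd c0).ch P s = c0 s + ∑ P ∈ D, (cd 0).ch P s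
        rw [(hcd c0).2.1, (hcd c0).2.2.1]
      have h3 : ∀ D : Finset (Out T), (dS deg D = n ∧ ¬ SmallS S m (c0 + chS ch D)) ↔
          ((XX T deg).degS D = n ∧ ¬ (Finite {Psi : G → V // S.IsSel ((cd c0).chiD D) m Psi} ∧
        Nat.card {Psi : G → V // S.IsSel ((cd c0).chiD D) m Psi} < (4 * Nat.card V1) ^ m)) := by
        intro D
        rw [h2, SmallS]
        exact Iff.rfl
      rw [Nat.card_congr (Equiv.subtypeEquivRight h3)]
      exact h1
  refine ⟨n₂, fun n hn => ?_⟩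
  have h4 := hn₂ n hn
  rwa [mul_div_cancel₀ _ hK.ne'] at h4

/-- `all_of_LThm` for the conclusion of `main_of`. -/
theorem all_of_main {q : ℕ} (hS : S.Ok) (hT : T.Finite) (hF : LagF S T) (hX : (XX T deg).Ok q)
    (h : ∃ cd : CData S (XX T deg), cd.pl = Subtype.val ∧ ∀ chi0, XT S T chi0 →
      ({ cd with chi0 := chi0 } : CData S (XX T deg)).Ok ∧
      ({ cd with chi0 := chi0 } : CData S (XX T deg)).LThm) :
    (∀ n, Finite {c : {c : G → ZMod 2 // S.HomG c} // rdeg S deg c.1 ≤ n}) ∧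
    ∀ ε : ℝ, 0 < ε → ∃ m₁ : ℕ, ∀ m ≥ m₁, ∃ n₀ : ℕ, ∀ n ≥ n₀,
      (Nat.card {c : {c : G → ZMod 2 // S.HomG c} //
        rdeg S deg c.1 ≤ n ∧ ¬ SmallS S m c.1} : ℝ) ≤
        ε * Nat.card {c : {c : G → ZMod 2 // S.HomG c} // rdeg S deg c.1 ≤ n} := by
  obtain ⟨cd, h1, h2⟩ := h
  exact all_of_LThm hS hT hF hX (fun chi0 => { cd with chi0 := chi0 })
    (fun chi0 => ⟨h1, rfl, rfl, fun hc => (h2 chi0 hc).1⟩) fun chi0 hc => (h2 chi0 hc).2

end Pool.Agent.SmN.Fnl
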