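import Pool.Agent.Lib.SmN.P.Half3
import Pool.Agent.Lib.SmN.Fin.Tot

/-!
# SMITH-U (SmN), final layer: the parity half in the total ramification ordering

`half_sumQ`: `half_sum` with an extra predicate on the local vector at `T` which does not change
under adding the unramified vector at the flip place.
`eqC`: the quadratic characters are the pairs `(chi0, D)`.
`half_all`: among all quadratic characters of ramification degree at most `n` which are unramified
at the flip place, a proportion at least `1/2 - ε` has corank 0, a proportion at least `1/2 - ε` has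
corank 1. `half_allM`: the same for the characters unramified at some place of a finite set of flip
places; these have positive lower density among all characters.
-/

set_option autoImplicit false

open Finset

namespace Pool.Agent.SmN.Half

open Pool.Agent.SmN.Ch Pool.Agent.Sm Pool.Agent.SmN.Fnl

variable {G V V1 Pl : Type} [Group G] [AddCommGroup V] [DistribMulAction G V]
  [AddCommGroup V1] [Module (ZMod 2) V1] {S : Sys G V V1 Pl} {T : Finset Pl}

section sumQ

variable {X : PSys} {pl : X.Pr → Pl} {ch : X.Pr → G → ZMod 2}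

open Classical in
/-- `half_sum` restricted to a set of local vectors. -/
theorem half_sumQ (h : S.Ok) {qv : Pl → V1 × V1 → ZMod 2} {qq : V1 → ZMod 2}
    (hP : ParOk S h qv qq) (hF : LagF S (T : Set Pl)) (hp : PrOk S T X pl ch)
    (hT : ∀ v, v ∉ T → v ∈ S.good) [Fintype (XG S T h)] {q : ℕ} (hX : X.Ok q) {v0 : T}
    (hfl : Flip S v0.1) (hch : ChebQ S T X pl q v0.1) {ε : ℝ} (hε : 0 < ε) :
    ∃ n₀ : ℕ, ∀ n ≥ n₀, ∀ Qp : (T → ZMod 2 × ZMod 2) → Prop, (∀ a, Qp (a + a0 v0) ↔ Qp a) →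
      |∑ x ∈ (univ ×ˢ DDn X hX.fin n).filter
      (fun x : XG S T h × Finset X.Pr => chX h ch x (S.sg v0.1) = 0 ∧ Qp (lv S T (chX h ch x))),
        sgR (S.dS h (chX h ch x))| ≤ ε * (q : ℝ) ^ n := by
  set A := Fintype.card (T → ZMod 2 × ZMod 2) with hA
  have hA0 : (0 : ℝ) < A := by
    have : 0 < A := Fintype.card_pos
    exact_mod_cast this
  obtain ⟨n₀, hn₀⟩ := equi h hF hp hX hch (ε := ε / A) (by positivity)
  refine ⟨n₀, fun n hn Qp hQp => ?_⟩
  have hq0 : (0 : ℝ) ≤ (q : ℝ) ^ n := by positivity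
  -- the sum over one local vector
  set F : (T → ZMod 2 × ZMod 2) → ℝ := fun a => ∑ x ∈ (univ ×ˢ DDn X hX.fin n).filter
    (fun x : XG S T h × Finset X.Pr => lv S T (chX h ch x) = a), sgR (S.dS h (chX h ch x)) with hFd
  set Nn : (T → ZMod 2 × ZMod 2) → ℝ := fun a => (((univ ×ˢ DDn X hX.fin n).filter
    fun x : XG S T h × Finset X.Pr => lv S T (chX h ch x) = a).card : ℝ) with hNd
  have hFc : ∀ (a : T → ZMod 2 × ZMod 2) (x : XG S T h × Finset X.Pr),
      lv S T (chX h ch x) = a → F a = sgR (S.dS h (chX h ch x)) * Nn a := by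
    intro a x hx
    rw [hFd, hNd]
    beta_reduce
    rw [card_eq_sum_ones, Nat.cast_sum, mul_sum]
    refine sum_congr rfl fun y hy => ?_
    rw [dS_of_lv h hP hp hT ((mem_filter.1 hy).2.trans hx.symm), Nat.cast_one, mul_one]
  have hF0 : ∀ a, (¬ ∃ x : XG S T h × Finset X.Pr, lv S T (chX h ch x) = a) →
      F a = 0 ∧ Nn a = 0 := by
    intro a ha
    have h1 : (univ ×ˢ DDn X hX.fin n).filter
        (fun x : XG S T h × Finset X.Pr => lv S T (chX h ch x) = a) = ∅ := by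
      rw [filter_eq_empty_iff]
      intro x _ hx
      exact ha ⟨x, hx⟩
    rw [hFd, hNd]
    beta_reduce
    rw [h1, sum_empty, card_empty]
    exact ⟨rfl, Nat.cast_zero⟩
  have hpair : ∀ a : T → ZMod 2 × ZMod 2, (a v0).1 = 0 →
      |F a + F (a + a0 v0)| ≤ ε / A * (q : ℝ) ^ n := by
    intro a ha
    refine le_trans ?_ (hn₀ n hn a)
    change _ ≤ |Nn a - Nn (a + a0 v0)|
    by_cases h1 : ∃ x : XG S T h × Finset X.Pr, lv S T (chX h ch x) = a
    · obtain ⟨x, hx⟩ := h1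
      by_cases h2 : ∃ y : XG S T h × Finset X.Pr, lv S T (chX h ch y) = a + a0 v0
      · obtain ⟨y, hy⟩ := h2
        have hx0 : chX h ch x (S.sg v0.1) = 0 := by
          have := congrArg (fun z : T → ZMod 2 × ZMod 2 => (z v0).1) hx
          exact this.trans ha
        have h3 := dS_of_flip h hP hp hT hfl hx0 (hy.trans (by rw [hx]))
        rw [hFc a x hx, hFc _ y hy, h3, sgR_add, sgR_one]
        have h4 : sgR (S.dS h (chX h ch x)) * Nn a +
            sgR (S.dS h (chX h ch x)) * -1 * Nn (a + a0 v0) =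
            sgR (S.dS h (chX h ch x)) * (Nn a - Nn (a + a0 v0)) := by ring
        rw [h4, abs_mul, sgR_abs, one_mul]
      · obtain ⟨h3, h4⟩ := hF0 _ h2
        rw [h3, h4, hFc a x hx, add_zero, sub_zero, abs_mul, sgR_abs, one_mul]
    · obtain ⟨h3, h4⟩ := hF0 _ h1
      by_cases h2 : ∃ y : XG S T h × Finset X.Pr, lv S T (chX h ch y) = a + a0 v0
      · obtain ⟨y, hy⟩ := h2
        rw [h3, h4, hFc _ y hy, zero_add, zero_sub, abs_mul, sgR_abs, one_mul, abs_neg]
      · obtain ⟨h5, h6⟩ := hF0 _ h2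
        rw [h3, h4, h5, h6, add_zero, sub_zero]
  -- group by the local vector
  set Q := univ.filter fun a : T → ZMod 2 × ZMod 2 => (a v0).1 = 0 ∧ Qp a with hQ
  have hgroup : ∑ x ∈ (univ ×ˢ DDn X hX.fin n).filter
      (fun x : XG S T h × Finset X.Pr => chX h ch x (S.sg v0.1) = 0 ∧ Qp (lv S T (chX h ch x))),
        sgR (S.dS h (chX h ch x)) = ∑ a ∈ Q, F a := by
    rw [← sum_fiberwise_of_maps_to (g := fun x => lv S T (chX h ch x)) (t := Q)]
    · refine sum_congr rfl fun a ha => ?_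
      rw [hFd]
      beta_reduce
      rw [filter_filter]
      refine sum_congr ?_ fun _ _ => rfl
      refine filter_congr fun x _ => ?_
      constructor
      · exact fun h1 => h1.2
      · intro h1
        have h2 := (mem_filter.1 ha).2
        rw [← h1] at h2
        exact ⟨⟨h2.1, h2.2⟩, h1⟩
    · intro x hx
      exact mem_filter.2 ⟨mem_univ _, (mem_filter.1 hx).2.1, (mem_filter.1 hx).2.2⟩
  have hQsh : ∀ a ∈ Q, a + a0 v0 ∈ Q := by
    intro a ha
    refine mem_filter.2 ⟨mem_univ _, ?_, (hQp a).2 (mem_filter.1 ha).2.2⟩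
    rw [Pi.add_apply, a0, Pi.single_eq_same, Prod.fst_add, (mem_filter.1 ha).2.1, add_zero]
  have hshift : ∑ a ∈ Q, F a = ∑ a ∈ Q, F (a + a0 v0) := by
    refine sum_bij' (fun a _ => a + a0 v0) (fun a _ => a + a0 v0) hQsh hQsh ?_ ?_ ?_
    · intro a _
      rw [add_assoc, ZModModule.add_self, add_zero]
    · intro a _
      rw [add_assoc, ZModModule.add_self, add_zero]
    · intro a _
      rw [add_assoc, ZModModule.add_self, add_zero]
  have h2 : |∑ a ∈ Q, F a + ∑ a ∈ Q, F a| ≤ ε * (q : ℝ) ^ n := by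
    nth_rewrite 2 [hshift]
    rw [← sum_add_distrib]
    calc |∑ a ∈ Q, (F a + F (a + a0 v0))| ≤ ∑ a ∈ Q, |F a + F (a + a0 v0)| :=
          abs_sum_le_sum_abs _ _
      _ ≤ ∑ _a ∈ Q, ε / A * (q : ℝ) ^ n := sum_le_sum fun a ha => hpair a (mem_filter.1 ha).2.1
      _ = (Q.card : ℝ) * (ε / A * (q : ℝ) ^ n) := by rw [sum_const, nsmul_eq_mul]
      _ ≤ (A : ℝ) * (ε / A * (q : ℝ) ^ n) := by
          refine mul_le_mul_of_nonneg_right ?_ (by positivity)
          exact_mod_cast card_le_univ Q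
      _ = ε * (q : ℝ) ^ n := by field_simp
  rw [hgroup]
  have h3 : |∑ a ∈ Q, F a + ∑ a ∈ Q, F a| = 2 * |∑ a ∈ Q, F a| := by
    rw [← two_mul, abs_mul, abs_two]
  rw [h3] at h2
  have h4 := abs_nonneg (∑ a ∈ Q, F a)
  linarith

end sumQ

/-! ### The ramification degree -/

/-- The ramification degree at `T` of a local vector. -/
def rt (deg : Pl → ℕ) (a : T → ZMod 2 × ZMod 2) : ℕ := ∑ v : T, if (a v).1 = 0 then 0 else deg v.1

theorem rt_a0 (deg : Pl → ℕ) (v0 : T) (a : T → ZMod 2 × ZMod 2) :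
    rt deg (a + a0 v0) = rt deg a := by
  classical
  refine sum_congr rfl fun v _ => ?_
  have h1 : (a + a0 v0) v = a v + a0 v0 v := rfl
  have h2 : (a0 v0 v).1 = 0 := by
    rw [a0]
    by_cases hv : v = v0
    · rw [hv, Pi.single_eq_same]
    · rw [Pi.single_eq_of_ne hv, Prod.fst_zero]
  rw [h1, Prod.fst_add, h2, add_zero]

theorem rt_le (deg : Pl → ℕ) (a : T → ZMod 2 × ZMod 2) : rt deg a ≤ ∑ v ∈ T, deg v := by
  rw [rt, ← sum_coe_sort T]
  refine sum_le_sum fun v _ => ?_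
  split_ifs
  · exact Nat.zero_le _
  · exact le_rfl

variable {deg : Pl → ℕ} {ch : (XX (T : Set Pl) deg).Pr → G → ZMod 2}

theorem chX_ne (h : S.Ok) (hp : PrOk S T (XX (T : Set Pl) deg) Subtype.val ch)
    (x : XG S T h × Finset (XX (T : Set Pl) deg).Pr) (P : (XX (T : Set Pl) deg).Pr) :
    chX h ch x (S.sg P.1) ≠ 0 ↔ P ∈ x.2 := by
  classical
  have h2 : x.1.1 (S.sg P.1) = 0 := x.1.2.2 _ P.2
  have h3 := chS_sg hp x.2 P
  have h4 : chX h ch x (S.sg P.1) = if P ∈ x.2 then 1 else 0 := by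
    change x.1.1 (S.sg P.1) + chS ch x.2 (S.sg P.1) = _
    rw [h2, zero_add, h3]
  by_cases hP : P ∈ x.2
  · rw [h4, if_pos hP]
    exact ⟨fun _ => hP, fun _ => one_ne_zero⟩
  · rw [h4, if_neg hP]
    exact ⟨fun h5 => absurd rfl h5, fun h5 => absurd h5 hP⟩

theorem rdeg_chX (h : S.Ok) (hp : PrOk S T (XX (T : Set Pl) deg) Subtype.val ch)
    (x : XG S T h × Finset (XX (T : Set Pl) deg).Pr) :
    rdeg S deg (chX h ch x) = rt deg (lv S T (chX h ch x)) + (XX (T : Set Pl) deg).degS x.2 := by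
  classical
  set f : Pl → ℕ := fun v => if chX h ch x (S.sg v) = 0 then 0 else deg v with hf
  have hout : ∀ P : (XX (T : Set Pl) deg).Pr, f P.1 = if P ∈ x.2 then deg P.1 else 0 := by
    intro P
    by_cases hP : P ∈ x.2
    · rw [if_pos hP]
      exact if_neg ((chX_ne h hp x P).2 hP)
    · rw [if_neg hP]
      exact if_pos (not_not.1 fun h5 => hP ((chX_ne h hp x P).1 h5))
  let pv : (XX (T : Set Pl) deg).Pr → Pl := fun P => P.1
  have hinj : Function.Injective pv := fun P Q he => Subtype.ext he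
  have hsupp : Function.support f ⊆ ((T ∪ x.2.image pv : Finset Pl) : Set Pl) := by
    intro v hv
    by_contra hcon
    rw [mem_coe, mem_union, not_or] at hcon
    have hP : (⟨v, hcon.1⟩ : (XX (T : Set Pl) deg).Pr) ∉ x.2 := fun hP =>
      hcon.2 (mem_image_of_mem pv hP)
    refine hv ?_
    exact (hout ⟨v, hcon.1⟩).trans (if_neg hP)
  have hdisj : Disjoint T (x.2.image pv) := by
    rw [disjoint_left]
    intro v hv hv'
    obtain ⟨P, _, rfl⟩ := mem_image.1 hv'
    exact P.2 hv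
  have h1 : rdeg S deg (chX h ch x) = ∑ᶠ v, f v := rfl
  rw [h1, finsum_eq_sum_of_support_subset _ hsupp, sum_union hdisj,
    sum_image fun P _ Q _ he => hinj he]
  congr 1
  · rw [← sum_coe_sort T]
    rfl
  · exact sum_congr rfl fun P hP => (hout P).trans (if_pos hP)

/-- The quadratic characters are the pairs. -/
noncomputable def eqC (h : S.Ok) (hp : PrOk S T (XX (T : Set Pl) deg) Subtype.val ch) :
    {c : G → ZMod 2 // S.HomG c} ≃ XG S T h × Finset (XX (T : Set Pl) deg).Pr where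
  toFun c := (⟨c.1 + chS ch (ramP h (T : Set Pl) c),
    xt_part (ch := ch) h ⟨hp.hom, hp.self, hp.unr⟩ c⟩, ramP h (T : Set Pl) c)
  invFun x := ⟨chX h ch x, chX_hom h hp x⟩
  left_inv c := Subtype.ext (eq_part (ch := ch) (T := (T : Set Pl)) h c)
  right_inv x := by
    classical
    have h1 : ramP h (T : Set Pl) ⟨chX h ch x, chX_hom h hp x⟩ = x.2 := by
      ext P
      exact (mem_ramP h ⟨chX h ch x, chX_hom h hp x⟩ P).trans (chX_ne h hp x P)
    refine Prod.ext (Subtype.ext ?_) h1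
    change chX h ch x + chS ch (ramP h (T : Set Pl) ⟨chX h ch x, chX_hom h hp x⟩) = x.1.1
    rw [h1, chX, add_assoc, ZModModule.add_self, add_zero]

/-- The divisors of degree at most `n`. -/
noncomputable def DLe (X : PSys) (hfin : ∀ d, Finite (X.Of d)) (n : ℕ) : Finset (Finset X.Pr) :=
  open Classical in (X.AA hfin n).powerset.filter fun D => X.degS D ≤ n

theorem mem_DLe {X : PSys} {hfin : ∀ d, Finite (X.Of d)} {n : ℕ} {D : Finset X.Pr} :
    D ∈ DLe X hfin n ↔ X.degS D ≤ n := by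
  classical
  rw [DLe, mem_filter, mem_powerset]
  constructor
  · exact fun h => h.2
  · intro h
    refine ⟨fun P hP => PSys.mem_AA.2 (le_trans ?_ h), h⟩
    exact single_le_sum (f := X.deg) (fun _ _ => Nat.zero_le _) hP

theorem sum_DLe {X : PSys} (hfin : ∀ d, Finite (X.Of d)) (n : ℕ) {α : Type*} [Fintype α]
    {M : Type*} [AddCommMonoid M] (f : α × Finset X.Pr → M) :
    ∑ x ∈ univ ×ˢ DLe X hfin n, f x = ∑ i ∈ range (n + 1), ∑ x ∈ univ ×ˢ DDn X hfin i, f x := by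
  classical
  rw [← sum_fiberwise_of_maps_to (s := univ ×ˢ DLe X hfin n) (t := range (n + 1))
    (g := fun x : α × Finset X.Pr => X.degS x.2)]
  · refine sum_congr rfl fun i hi => sum_congr ?_ fun _ _ => rfl
    ext x
    rw [mem_filter, mem_product, mem_product, mem_DLe, mem_DDn]
    constructor
    · exact fun h => ⟨h.1.1, h.2⟩
    · exact fun h => ⟨⟨h.1, by rw [h.2]; exact Nat.lt_succ_iff.1 (mem_range.1 hi)⟩, h.2⟩
  · intro x hx
    rw [mem_product, mem_DLe] at hx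
    exact mem_range.2 (Nat.lt_succ_of_le hx.2)

open Classical in
/-- The twists of total ramification degree at most `n`, unramified at `v0`. -/
noncomputable def LF (h : S.Ok) (T : Finset Pl) [Fintype (XG S T h)] (deg : Pl → ℕ)
    (hfin : ∀ d, Finite ((XX (T : Set Pl) deg).Of d))
    (ch : (XX (T : Set Pl) deg).Pr → G → ZMod 2) (v0 : Pl) (n : ℕ) :
    Finset (XG S T h × Finset (XX (T : Set Pl) deg).Pr) :=
  (univ ×ˢ DLe (XX (T : Set Pl) deg) hfin n).filter fun x =>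
    rdeg S deg (chX h ch x) ≤ n ∧ chX h ch x (S.sg v0) = 0

theorem mem_LF {h : S.Ok} [Fintype (XG S T h)]
    (hp : PrOk S T (XX (T : Set Pl) deg) Subtype.val ch)
    {hfin : ∀ d, Finite ((XX (T : Set Pl) deg).Of d)} {v0 : Pl} {n : ℕ}
    {x : XG S T h × Finset (XX (T : Set Pl) deg).Pr} : x ∈ LF h T deg hfin ch v0 n ↔
      rdeg S deg (chX h ch x) ≤ n ∧ chX h ch x (S.sg v0) = 0 := by
  classical
  rw [LF, mem_filter, mem_product, mem_DLe]
  constructor
  · exact fun h => h.2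
  · intro h1
    refine ⟨⟨mem_univ _, ?_⟩, h1⟩
    have h2 := rdeg_chX h hp x
    omega

open Classical in
theorem card_LF {h : S.Ok} [Fintype (XG S T h)]
    (hp : PrOk S T (XX (T : Set Pl) deg) Subtype.val ch)
    {hfin : ∀ d, Finite ((XX (T : Set Pl) deg).Of d)} {v0 : Pl} {n : ℕ}
    (p : (G → ZMod 2) → Prop) :
    Nat.card {c : {c : G → ZMod 2 // S.HomG c} //
      (rdeg S deg c.1 ≤ n ∧ c.1 (S.sg v0) = 0) ∧ p c.1} =
      ((LF h T deg hfin ch v0 n).filter fun x => p (chX h ch x)).card := by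
  rw [← Nat.card_eq_finsetCard]
  refine Nat.card_congr ((eqC h hp).subtypeEquiv fun c => ?_)
  rw [mem_filter, mem_LF hp]
  have h1 : chX h ch (eqC h hp c) = c.1 := congrArg Subtype.val ((eqC h hp).symm_apply_apply c)
  rw [h1]

theorem card_LF' {h : S.Ok} [Fintype (XG S T h)]
    (hp : PrOk S T (XX (T : Set Pl) deg) Subtype.val ch)
    {hfin : ∀ d, Finite ((XX (T : Set Pl) deg).Of d)} {v0 : Pl} {n : ℕ} :
    Nat.card {c : {c : G → ZMod 2 // S.HomG c} // rdeg S deg c.1 ≤ n ∧ c.1 (S.sg v0) = 0} =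
      (LF h T deg hfin ch v0 n).card := by
  rw [← Nat.card_eq_finsetCard]
  refine Nat.card_congr ((eqC h hp).subtypeEquiv fun c => ?_)
  rw [mem_LF hp]
  have h1 : chX h ch (eqC h hp c) = c.1 := congrArg Subtype.val ((eqC h hp).symm_apply_apply c)
  rw [h1]

open Classical in
/-- The characters of degree at most `n` without condition at `v0`. -/
theorem card_all {h : S.Ok} [Fintype (XG S T h)]
    (hp : PrOk S T (XX (T : Set Pl) deg) Subtype.val ch)
    {hfin : ∀ d, Finite ((XX (T : Set Pl) deg).Of d)} {n : ℕ}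
    (p : (G → ZMod 2) → Prop) :
    Nat.card {c : {c : G → ZMod 2 // S.HomG c} // rdeg S deg c.1 ≤ n ∧ p c.1} =
      ((univ ×ˢ DLe (XX (T : Set Pl) deg) hfin n).filter
        fun x : XG S T h × Finset (XX (T : Set Pl) deg).Pr =>
          rdeg S deg (chX h ch x) ≤ n ∧ p (chX h ch x)).card := by
  rw [← Nat.card_eq_finsetCard]
  refine Nat.card_congr ((eqC h hp).subtypeEquiv fun c => ?_)
  have h1 : chX h ch (eqC h hp c) = c.1 := congrArg Subtype.val ((eqC h hp).symm_apply_apply c)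
  rw [mem_filter, mem_product, mem_DLe, h1]
  constructor
  · intro h2
    refine ⟨⟨mem_univ _, ?_⟩, h2⟩
    have h3 := rdeg_chX h hp (eqC h hp c)
    rw [h1] at h3
    omega
  · exact fun h2 => h2.2

theorem geo_le {q : ℕ} (hq : 2 ≤ q) (n : ℕ) : ∑ i ∈ range (n + 1), (q : ℝ) ^ i ≤ 2 * (q : ℝ) ^ n := by
  have hq2 : (2 : ℝ) ≤ q := by exact_mod_cast hq
  induction n with
  | zero => simp
  | succ n ih =>
    rw [sum_range_succ]
    have h1 : (0 : ℝ) < (q : ℝ) ^ n := by positivity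
    have h2 : (q : ℝ) ^ (n + 1) = (q : ℝ) ^ n * q := pow_succ _ _
    nlinarith

/-- The parity sum over the twists of total ramification degree at most `n`. -/
theorem sum_LF (h : S.Ok) {qv : Pl → V1 × V1 → ZMod 2} {qq : V1 → ZMod 2}
    (hP : ParOk S h qv qq) (hF : LagF S (T : Set Pl))
    (hp : PrOk S T (XX (T : Set Pl) deg) Subtype.val ch)
    (hT : ∀ v, v ∉ T → v ∈ S.good) [Fintype (XG S T h)] {q : ℕ}
    (hX : (XX (T : Set Pl) deg).Ok q) {v0 : T}
    (hfl : Flip S v0.1) (hch : ChebQ S T (XX (T : Set Pl) deg) Subtype.val q v0.1)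
    {ε : ℝ} (hε : 0 < ε) :
    ∃ n₀ : ℕ, ∀ n ≥ n₀, |∑ x ∈ LF h T deg hX.fin ch v0.1 n, sgR (S.dS h (chX h ch x))| ≤
      ε * (q : ℝ) ^ n := by
  classical
  have hq2 : (2 : ℝ) ≤ q := by exact_mod_cast hX.two_le
  obtain ⟨n₂, hn₂⟩ := half_sumQ h hP hF hp hT hX hfl hch (ε := ε / 4) (by positivity)
  set B : ℝ := ∑ i ∈ range n₂, (((univ : Finset (XG S T h)) ×ˢ
    DDn (XX (T : Set Pl) deg) hX.fin i).card : ℝ) with hB
  have hB0 : 0 ≤ B := sum_nonneg fun _ _ => Nat.cast_nonneg _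
  obtain ⟨n₃, hn₃⟩ : ∃ n₃ : ℕ, B / (ε / 2) ≤ (q : ℝ) ^ n₃ :=
    (pow_unbounded_of_one_lt _ (by linarith : (1 : ℝ) < q)).imp fun _ h => h.le
  refine ⟨n₃, fun n hn => ?_⟩
  have hBn : B ≤ ε / 2 * (q : ℝ) ^ n := by
    rw [div_le_iff₀ (by positivity)] at hn₃
    have h1 : (q : ℝ) ^ n₃ ≤ (q : ℝ) ^ n := pow_le_pow_right₀ (by linarith) hn
    nlinarith
  rw [LF, sum_filter, sum_DLe]
  set g : ℕ → ℝ := fun i => ∑ x ∈ (univ : Finset (XG S T h)) ×ˢ
    DDn (XX (T : Set Pl) deg) hX.fin i,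
    if rdeg S deg (chX h ch x) ≤ n ∧ chX h ch x (S.sg v0.1) = 0 then
      sgR (S.dS h (chX h ch x)) else 0 with hg
  have hgs : ∀ i, |g i| ≤ (((univ : Finset (XG S T h)) ×ˢ
      DDn (XX (T : Set Pl) deg) hX.fin i).card : ℝ) := by
    intro i
    refine (abs_sum_le_sum_abs _ _).trans ?_
    rw [card_eq_sum_ones, Nat.cast_sum]
    refine sum_le_sum fun x _ => ?_
    split_ifs
    · rw [sgR_abs, Nat.cast_one]
    · rw [abs_zero, Nat.cast_one]
      exact zero_le_one
  have hgl : ∀ i, n₂ ≤ i → |g i| ≤ ε / 4 * (q : ℝ) ^ i := by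
    intro i hi
    have h1 := hn₂ i hi (fun a => rt deg a + i ≤ n) fun a => by rw [rt_a0]
    refine le_trans (le_of_eq ?_) h1
    rw [hg]
    beta_reduce
    congr 1
    refine Eq.trans ?_ (@sum_filter _ _ _ _ _ (_) _).symm
    refine sum_congr rfl fun x hx => ?_
    have h2 : (XX (T : Set Pl) deg).degS x.2 = i := mem_DDn.1 (mem_product.1 hx).2
    rw [rdeg_chX h hp x, h2]
    by_cases hc : rt deg (lv S T (chX h ch x)) + i ≤ n ∧ chX h ch x (S.sg v0.1) = 0
    · exact (if_pos hc).trans (if_pos ⟨hc.2, hc.1⟩).symm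
    · exact (if_neg hc).trans (if_neg fun hd => hc ⟨hd.2, hd.1⟩).symm
  calc |∑ i ∈ range (n + 1), g i| ≤ ∑ i ∈ range (n + 1), |g i| := abs_sum_le_sum_abs _ _
    _ ≤ ∑ i ∈ range (n + 1), ((if i < n₂ then (((univ : Finset (XG S T h)) ×ˢ
          DDn (XX (T : Set Pl) deg) hX.fin i).card : ℝ) else 0) + ε / 4 * (q : ℝ) ^ i) := by
        refine sum_le_sum fun i _ => ?_
        split_ifs with hi
        · refine (hgs i).trans ?_
          have : 0 ≤ ε / 4 * (q : ℝ) ^ i := by positivity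
          linarith
        · rw [zero_add]
          exact hgl i (not_lt.1 hi)
    _ ≤ B + ε / 4 * (2 * (q : ℝ) ^ n) := by
        rw [sum_add_distrib, ← mul_sum]
        refine add_le_add ?_ (mul_le_mul_of_nonneg_left (geo_le hX.two_le n) (by positivity))
        rw [← sum_filter, hB]
        refine sum_le_sum_of_subset_of_nonneg (fun i hi => ?_) fun _ _ _ => Nat.cast_nonneg _
        exact mem_range.2 (mem_filter.1 hi).2
    _ ≤ ε * (q : ℝ) ^ n := by linarith

/-- The number of all quadratic characters of degree at most `n`. -/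
theorem card_le_all (h : S.Ok) (hF : LagF S (T : Set Pl)) {q : ℕ} {c₁ C : ℝ} {n₁ : ℕ}
    (hp : PrOk S T (XX (T : Set Pl) deg) Subtype.val ch)
    (hX : (XX (T : Set Pl) deg).Ok q) (hG : Growth (T : Set Pl) deg q c₁ C n₁) (n : ℕ) :
    (Nat.card {c : {c : G → ZMod 2 // S.HomG c} // rdeg S deg c.1 ≤ n} : ℝ) ≤
      (Nat.card (XG S T h) : ℝ) * (2 * |C|) * (q : ℝ) ^ n := by
  classical
  have hfinX := fin_XG h hF
  have hft : Fintype (XG S T h) := Fintype.ofFinite _
  have h1 : Nat.card {c : {c : G → ZMod 2 // S.HomG c} // rdeg S deg c.1 ≤ n} =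
      Nat.card {c : {c : G → ZMod 2 // S.HomG c} // rdeg S deg c.1 ≤ n ∧ True} :=
    Nat.card_congr (Equiv.subtypeEquivRight fun c => by rw [and_true])
  rw [h1, card_all hp (hfin := hX.fin) (fun _ => True)]
  refine le_trans (Nat.cast_le.2 (@card_filter_le _ _ _ (_))) ?_
  rw [card_eq_sum_ones, sum_DLe, Nat.cast_sum]
  have h2 : ∀ i ∈ range (n + 1), ((∑ x ∈ (univ : Finset (XG S T h)) ×ˢ
      DDn (XX (T : Set Pl) deg) hX.fin i, 1 : ℕ) : ℝ) ≤
      (Nat.card (XG S T h) : ℝ) * |C| * (q : ℝ) ^ i := by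
    intro i _
    rw [← card_eq_sum_ones, card_product, Nat.cast_mul, card_univ, ← Nat.card_eq_fintype_card,
      ← nDD_eq hX.fin, mul_assoc]
    refine mul_le_mul_of_nonneg_left ?_ (Nat.cast_nonneg _)
    exact (hG.up i).trans (mul_le_mul_of_nonneg_right (le_abs_self C) (by positivity))
  refine (sum_le_sum h2).trans ?_
  rw [← mul_sum]
  have h3 := mul_le_mul_of_nonneg_left (geo_le hX.two_le n)
    (show (0 : ℝ) ≤ (Nat.card (XG S T h) : ℝ) * |C| by positivity)
  linarith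

/-- The lower bound for the number of the twists unramified at `v0`. -/
theorem card_LF_ge (h : S.Ok) [Fintype (XG S T h)] {q : ℕ} {c₁ C : ℝ} {n₁ : ℕ}
    (hp : PrOk S T (XX (T : Set Pl) deg) Subtype.val ch)
    (hX : (XX (T : Set Pl) deg).Ok q) (hG : Growth (T : Set Pl) deg q c₁ C n₁) {v0 : T}
    (hram : ∃ c ∈ XG S T h, c (S.sg v0.1) = 1) {n : ℕ} (hn : n₁ + ∑ v ∈ T, deg v ≤ n) :
    (Nat.card (XG S T h) : ℝ) * c₁ / (2 * (q : ℝ) ^ (∑ v ∈ T, deg v)) * (q : ℝ) ^ n ≤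
      (LF h T deg hX.fin ch v0.1 n).card := by
  classical
  set τ := ∑ v ∈ T, deg v with hτ
  have hq2 : (2 : ℝ) ≤ q := by exact_mod_cast hX.two_le
  have h1 : (FamF h T hX.fin ch v0.1 (n - τ)) ⊆ LF h T deg hX.fin ch v0.1 n := by
    intro x hx
    rw [mem_FamF] at hx
    rw [mem_LF hp]
    refine ⟨?_, hx.2⟩
    have h2 := rdeg_chX h hp x
    have h3 := rt_le deg (lv S T (chX h ch x))
    rw [← hτ] at h3
    omega
  have h2 := card_Fam (ch := ch) h hX.fin hram (n - τ)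
  rw [card_FamF h hX.fin] at h2
  have h3 : (2 : ℝ) * (FamF h T hX.fin ch v0.1 (n - τ)).card =
      Nat.card (XG S T h) * (XX (T : Set Pl) deg).nDD (n - τ) := by exact_mod_cast h2
  have h4 : c₁ * (q : ℝ) ^ (n - τ) ≤ (XX (T : Set Pl) deg).nDD (n - τ) := hG.low _ (by omega)
  have h5 : ((FamF h T hX.fin ch v0.1 (n - τ)).card : ℝ) ≤
      (LF h T deg hX.fin ch v0.1 n).card := by exact_mod_cast card_le_card h1
  have h6 : (q : ℝ) ^ n = (q : ℝ) ^ (n - τ) * (q : ℝ) ^ τ := by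
    rw [← pow_add]
    congr 1
    omega
  have h7 : (0 : ℝ) < (q : ℝ) ^ τ := by positivity
  have h8 : (Nat.card (XG S T h) : ℝ) * c₁ / (2 * (q : ℝ) ^ τ) * (q : ℝ) ^ n =
      (Nat.card (XG S T h) : ℝ) * (c₁ * (q : ℝ) ^ (n - τ)) / 2 := by
    rw [h6]
    field_simp
  rw [h8]
  have h9 := mul_le_mul_of_nonneg_left h4 (Nat.cast_nonneg (α := ℝ) (Nat.card (XG S T h)))
  linarith

/-- **Half of the quadratic twists unramified at the flip place have corank 0, half have corank 1**,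
in the order given by the total degree of the ramification. -/
theorem half_all [Nonempty Pl] (h : S.Ok) {qv : Pl → V1 × V1 → ZMod 2} {qq : V1 → ZMod 2}
    (hP : ParOk S h qv qq) (halt : ∀ chi : G → ZMod 2, S.HomG chi → (Sys.twS S h chi).Altn)
    (hF : LagF S (T : Set Pl)) (hp : PrOk S T (XX (T : Set Pl) deg) Subtype.val ch)
    (hT : ∀ v, v ∉ T → v ∈ S.good) {q : ℕ} (hX : (XX (T : Set Pl) deg).Ok q) {v0 : T}
    (hfl : Flip S v0.1) (hch : ChebQ S T (XX (T : Set Pl) deg) Subtype.val q v0.1)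
    (hram : ∃ c ∈ XG S T h, c (S.sg v0.1) = 1)
    (hL : ∀ ε : ℝ, 0 < ε → ∃ m₁ : ℕ, ∀ m ≥ m₁, ∃ n₀ : ℕ, ∀ n ≥ n₀,
      (Nat.card {c : {c : G → ZMod 2 // S.HomG c} //
        rdeg S deg c.1 ≤ n ∧ ¬ SmallS S m c.1} : ℝ) ≤
        ε * Nat.card {c : {c : G → ZMod 2 // S.HomG c} // rdeg S deg c.1 ≤ n})
    {ε : ℝ} (hε : 0 < ε) : ∃ n₀ : ℕ, ∀ n ≥ n₀,
      (1 / 2 - ε) * Nat.card {c : {c : G → ZMod 2 // S.HomG c} //
          rdeg S deg c.1 ≤ n ∧ c.1 (S.sg v0.1) = 0} ≤
        Nat.card {c : {c : G → ZMod 2 // S.HomG c} //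
          (rdeg S deg c.1 ≤ n ∧ c.1 (S.sg v0.1) = 0) ∧ Ev S h c.1} ∧
      (1 / 2 - ε) * Nat.card {c : {c : G → ZMod 2 // S.HomG c} //
          rdeg S deg c.1 ≤ n ∧ c.1 (S.sg v0.1) = 0} ≤
        Nat.card {c : {c : G → ZMod 2 // S.HomG c} //
          (rdeg S deg c.1 ≤ n ∧ c.1 (S.sg v0.1) = 0) ∧ Od S h c.1} := by
  classical
  have hfinX := fin_XG h hF
  have hft : Fintype (XG S T h) := Fintype.ofFinite _
  have hq2 : (2 : ℝ) ≤ q := by exact_mod_cast hX.two_le
  obtain ⟨c₁, C, n₁, hG⟩ := growth_of hX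
  have hc₁ := hG.pos
  obtain ⟨k, hk⟩ : ∃ k : ℝ, k = (Nat.card (XG S T h) : ℝ) := ⟨_, rfl⟩
  have hk0 : 0 < k := by
    rw [hk]
    exact_mod_cast Nat.card_pos
  set τ := ∑ v ∈ T, deg v with hτ
  set κ : ℝ := k * c₁ / (2 * (q : ℝ) ^ τ) with hκ
  have hκ0 : 0 < κ := by positivity
  set K : ℝ := k * (2 * |C|) + 1 with hK
  have hK0 : 0 < K := by positivity
  obtain ⟨n₂, hn₂⟩ := sum_LF h hP hF hp hT hX hfl hch (ε := ε * κ) (by positivity)
  obtain ⟨m₁, hm₁⟩ := hL (ε * κ / (2 * K)) (by positivity)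
  obtain ⟨n₃, hn₃⟩ := hm₁ (m₁ + 1) (Nat.le_succ _)
  set m := m₁ + 1 with hm
  refine ⟨n₁ + τ + n₂ + n₃, fun n hn => ?_⟩
  have hsum := hn₂ n (by omega)
  have hbad := hn₃ n (by omega)
  have hall := card_le_all h hF hp hX hG n
  have hlow := card_LF_ge h hp hX hG hram (n := n) (by rw [← hτ]; omega)
  rw [← hk, ← hτ, ← hκ] at hlow
  rw [← hk] at hall
  set Fm := LF h T deg hX.fin ch v0.1 n with hFm
  set E0 := Fm.filter fun x => S.dS h (chX h ch x) = 0 with hE0
  set E1 := Fm.filter fun x => ¬ S.dS h (chX h ch x) = 0 with hE1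
  have hadd : (E0.card : ℝ) + E1.card = Fm.card := by
    have := card_filter_add_card_filter_not (s := Fm) (fun x => S.dS h (chX h ch x) = 0)
    exact_mod_cast this
  have hdiff : ∑ x ∈ Fm, sgR (S.dS h (chX h ch x)) = (E0.card : ℝ) - E1.card := by
    rw [← sum_filter_add_sum_filter_not Fm (fun x => S.dS h (chX h ch x) = 0)]
    have h1 : ∑ x ∈ Fm.filter (fun x => S.dS h (chX h ch x) = 0), sgR (S.dS h (chX h ch x)) =
        (E0.card : ℝ) := by
      rw [card_eq_sum_ones, Nat.cast_sum]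
      refine sum_congr rfl fun x hx => ?_
      rw [(mem_filter.1 hx).2, sgR_zero, Nat.cast_one]
    have h2 : ∑ x ∈ Fm.filter (fun x => ¬ S.dS h (chX h ch x) = 0), sgR (S.dS h (chX h ch x)) =
        -(E1.card : ℝ) := by
      rw [card_eq_sum_ones, Nat.cast_sum, ← sum_neg_distrib]
      refine sum_congr rfl fun x hx => ?_
      rw [(z01 _).resolve_left (mem_filter.1 hx).2, sgR_one, Nat.cast_one]
    rw [h1, h2]
    ring
  have hsum' : |(E0.card : ℝ) - E1.card| ≤ ε * Fm.card := by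
    rw [← hdiff]
    refine hsum.trans ?_
    rw [mul_assoc]
    exact mul_le_mul_of_nonneg_left hlow hε.le
  -- the bad ones
  set Gd : XG S T h × Finset (XX (T : Set Pl) deg).Pr → Prop := fun x =>
    SmallS S m (chX h ch x) with hGd
  have hB : ((Fm.filter fun x => ¬ Gd x).card : ℝ) ≤ ε / 2 * Fm.card := by
    have h1 : ((Fm.filter fun x => ¬ Gd x).card : ℝ) ≤
        Nat.card {c : {c : G → ZMod 2 // S.HomG c} // rdeg S deg c.1 ≤ n ∧ ¬ SmallS S m c.1} := by
      rw [card_all hp (hfin := hX.fin) (fun c => ¬ SmallS S m c)]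
      refine Nat.cast_le.2 (card_le_card fun x hx => ?_)
      rw [mem_filter, hFm, LF, mem_filter] at hx
      exact (@mem_filter _ _ (_) _ _).2 ⟨hx.1.1, hx.1.2.1, hx.2⟩
    refine (h1.trans hbad).trans ?_
    have h2 : (Nat.card {c : {c : G → ZMod 2 // S.HomG c} // rdeg S deg c.1 ≤ n} : ℝ) ≤
        K * (q : ℝ) ^ n := by
      refine hall.trans (mul_le_mul_of_nonneg_right ?_ (by positivity))
      rw [hK]
      linarith
    calc ε * κ / (2 * K) *
          (Nat.card {c : {c : G → ZMod 2 // S.HomG c} // rdeg S deg c.1 ≤ n} : ℝ)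
        ≤ ε * κ / (2 * K) * (K * (q : ℝ) ^ n) := mul_le_mul_of_nonneg_left h2 (by positivity)
      _ = ε / 2 * (κ * (q : ℝ) ^ n) := by field_simp
      _ ≤ ε / 2 * Fm.card := mul_le_mul_of_nonneg_left hlow (by positivity)
  have hm1 : 1 ≤ m := by omega
  have hZ : ∀ x : XG S T h × Finset (XX (T : Set Pl) deg).Pr,
      Nat.card (S.SelZ h (chX h ch x) m) =
      Nat.card {Psi : G → V // S.IsSel (chX h ch x) m Psi} := fun _ => rfl
  have hEv : ∀ x : XG S T h × Finset (XX (T : Set Pl) deg).Pr, Gd x →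
      S.dS h (chX h ch x) = 0 → Ev S h (chX h ch x) := by
    intro x hx h0
    have hch := chX_hom h hp x
    have hfin := hP.fin _ hch
    exact Sys.selZ_even h hch hfin (halt _ hch) (n := m) (by rw [hZ]; exact hx.2)
      ((Sys.dS_eq_zero_iff h hfin).1 h0)
  have hOd : ∀ x : XG S T h × Finset (XX (T : Set Pl) deg).Pr, Gd x →
      ¬ S.dS h (chX h ch x) = 0 → Od S h (chX h ch x) := by
    intro x hx h0
    have hch := chX_hom h hp x
    have hfin := hP.fin _ hch
    exact Sys.selZ_odd h hch hfin (halt _ hch) (n := m) (by rw [hZ]; exact hx.2)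
      (fun hr => h0 ((Sys.dS_eq_zero_iff h hfin).2 hr))
  have hcE : ∀ (p : XG S T h × Finset (XX (T : Set Pl) deg).Pr → Prop)
      (E : Finset (XG S T h × Finset (XX (T : Set Pl) deg).Pr)),
      E ⊆ Fm → (∀ x ∈ E, Gd x → p x) →
      (E.card : ℝ) ≤ (Fm.filter p).card + ε / 2 * Fm.card := by
    intro p E hE hp1
    have h1 : E ⊆ Fm.filter p ∪ Fm.filter fun x => ¬ Gd x := by
      intro x hx
      rw [mem_union, mem_filter, mem_filter]
      by_cases hg : Gd x
      · exact Or.inl ⟨hE hx, hp1 x hx hg⟩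
      · exact Or.inr ⟨hE hx, hg⟩
    have h2 : (E.card : ℝ) ≤ (Fm.filter p).card + (Fm.filter fun x => ¬ Gd x).card := by
      exact_mod_cast (card_le_card h1).trans (card_union_le _ _)
    linarith
  have e0 := hcE (fun x => Ev S h (chX h ch x)) E0 (filter_subset _ _)
    fun x hx hg => hEv x hg (mem_filter.1 hx).2
  have e1 := hcE (fun x => Od S h (chX h ch x)) E1 (filter_subset _ _)
    fun x hx hg => hOd x hg (mem_filter.1 hx).2
  have h1 := abs_le.1 hsum'
  have h2 : (0 : ℝ) ≤ Fm.card := Nat.cast_nonneg _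
  rw [card_LF hp (hfin := hX.fin) (fun c => Ev S h c),
    card_LF hp (hfin := hX.fin) (fun c => Od S h c), card_LF' hp (hfin := hX.fin)]
  constructor
  · linarith
  · linarith

/-! ### Several flip places -/

section several

variable {X : PSys} {pl : X.Pr → Pl} {cx : X.Pr → G → ZMod 2}

open Classical in
/-- The parity sum over the twists of degree `n` which are unramified at some place of `M`. -/
theorem half_sumM (h : S.Ok) {qv : Pl → V1 × V1 → ZMod 2} {qq : V1 → ZMod 2}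
    (hP : ParOk S h qv qq) (hF : LagF S (T : Set Pl)) (hp : PrOk S T X pl cx)
    (hT : ∀ v, v ∉ T → v ∈ S.good) [Fintype (XG S T h)] {q : ℕ} (hX : X.Ok q) (M : Finset T)
    (hfl : ∀ v ∈ M, Flip S v.1) (hch : ∀ v ∈ M, ChebQ S T X pl q v.1) {ε : ℝ} (hε : 0 < ε) :
    ∃ n₀ : ℕ, ∀ n ≥ n₀, ∀ Qp : (T → ZMod 2 × ZMod 2) → Prop,
      (∀ a b, (∀ v, (a v).1 = (b v).1) → (Qp a ↔ Qp b)) →
      |∑ x ∈ (univ ×ˢ DDn X hX.fin n).filter
      (fun x : XG S T h × Finset X.Pr => (∃ v ∈ M, chX h cx x (S.sg v.1) = 0) ∧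
        Qp (lv S T (chX h cx x))),
        sgR (S.dS h (chX h cx x))| ≤ ε * (q : ℝ) ^ n := by
  induction M using Finset.induction_on generalizing ε with
  | empty =>
    refine ⟨0, fun n _ Qp _ => ?_⟩
    rw [filter_eq_empty_iff.2, sum_empty, abs_zero]
    · positivity
    · rintro x _ ⟨⟨v, hv, _⟩, _⟩
      exact absurd hv (notMem_empty v)
  | insert v0 M hv0 ih =>
    obtain ⟨n₁, h1⟩ := half_sumQ h hP hF hp hT hX (hfl v0 (mem_insert_self _ _))
      (hch v0 (mem_insert_self _ _)) (ε := ε / 2) (by positivity)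
    obtain ⟨n₂, h2⟩ := ih (fun v hv => hfl v (mem_insert_of_mem hv))
      (fun v hv => hch v (mem_insert_of_mem hv)) (ε := ε / 2) (by positivity)
    refine ⟨max n₁ n₂, fun n hn Qp hQp => ?_⟩
    have hn1 := h1 n ((le_max_left _ _).trans hn) Qp fun a => hQp _ _ fun v => by
      rw [Pi.add_apply, Prod.fst_add]
      have h3 : (a0 v0 v).1 = 0 := by
        rw [a0]
        by_cases hv : v = v0
        · rw [hv, Pi.single_eq_same]
        · rw [Pi.single_eq_of_ne hv, Prod.fst_zero]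
      rw [h3, add_zero]
    have hn2 := h2 n ((le_max_right _ _).trans hn) (fun a => (a v0).1 ≠ 0 ∧ Qp a) fun a b hab => by
      rw [hab v0, hQp a b hab]
    have hsplit : ∑ x ∈ (univ ×ˢ DDn X hX.fin n).filter
        (fun x : XG S T h × Finset X.Pr => (∃ v ∈ insert v0 M, chX h cx x (S.sg v.1) = 0) ∧
          Qp (lv S T (chX h cx x))), sgR (S.dS h (chX h cx x)) =
        ∑ x ∈ (univ ×ˢ DDn X hX.fin n).filter
        (fun x : XG S T h × Finset X.Pr => chX h cx x (S.sg v0.1) = 0 ∧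
          Qp (lv S T (chX h cx x))), sgR (S.dS h (chX h cx x)) +
        ∑ x ∈ (univ ×ˢ DDn X hX.fin n).filter
        (fun x : XG S T h × Finset X.Pr => (∃ v ∈ M, chX h cx x (S.sg v.1) = 0) ∧
          ((lv S T (chX h cx x) v0).1 ≠ 0 ∧ Qp (lv S T (chX h cx x)))),
            sgR (S.dS h (chX h cx x)) := by
      rw [sum_filter, sum_filter, sum_filter, ← sum_add_distrib]
      refine sum_congr rfl fun x _ => ?_
      have h3 : (lv S T (chX h cx x) v0).1 = chX h cx x (S.sg v0.1) := rfl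
      rw [h3]
      by_cases hQ : Qp (lv S T (chX h cx x))
      · by_cases h0 : chX h cx x (S.sg v0.1) = 0
        · rw [if_pos ⟨⟨v0, mem_insert_self _ _, h0⟩, hQ⟩, if_pos ⟨h0, hQ⟩,
            if_neg fun h4 => h4.2.1 h0, add_zero]
        · by_cases hM : ∃ v ∈ M, chX h cx x (S.sg v.1) = 0
          · obtain ⟨v, hv, hv1⟩ := hM
            rw [if_pos ⟨⟨v, mem_insert_of_mem hv, hv1⟩, hQ⟩, if_neg fun h4 => h0 h4.1,
              if_pos ⟨⟨v, hv, hv1⟩, h0, hQ⟩, zero_add]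
          · rw [if_neg, if_neg fun h4 => h0 h4.1, if_neg fun h4 => hM h4.1, add_zero]
            rintro ⟨⟨v, hv, hv1⟩, -⟩
            rcases mem_insert.1 hv with rfl | hv
            · exact h0 hv1
            · exact hM ⟨v, hv, hv1⟩
      · rw [if_neg fun h4 => hQ h4.2, if_neg fun h4 => hQ h4.2, if_neg fun h4 => hQ h4.2.2,
          add_zero]
    rw [hsplit]
    have h5 : ε * (q : ℝ) ^ n = ε / 2 * (q : ℝ) ^ n + ε / 2 * (q : ℝ) ^ n := by ring
    rw [h5]
    refine (abs_add_le _ _).trans (add_le_add hn1 (le_trans (le_of_eq (congrArg _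
      (sum_congr ?_ fun _ _ => rfl))) hn2))
    congr

end several

open Classical in
/-- The twists of total ramification degree at most `n`, unramified at some place of `M`. -/
noncomputable def LM (h : S.Ok) (T : Finset Pl) [Fintype (XG S T h)] (deg : Pl → ℕ)
    (hfin : ∀ d, Finite ((XX (T : Set Pl) deg).Of d))
    (ch : (XX (T : Set Pl) deg).Pr → G → ZMod 2) (M : Finset T) (n : ℕ) :
    Finset (XG S T h × Finset (XX (T : Set Pl) deg).Pr) :=
  (univ ×ˢ DLe (XX (T : Set Pl) deg) hfin n).filter fun x =>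
    rdeg S deg (chX h ch x) ≤ n ∧ ∃ v ∈ M, chX h ch x (S.sg v.1) = 0

theorem mem_LM {h : S.Ok} [Fintype (XG S T h)]
    (hp : PrOk S T (XX (T : Set Pl) deg) Subtype.val ch)
    {hfin : ∀ d, Finite ((XX (T : Set Pl) deg).Of d)} {M : Finset T} {n : ℕ}
    {x : XG S T h × Finset (XX (T : Set Pl) deg).Pr} : x ∈ LM h T deg hfin ch M n ↔
      rdeg S deg (chX h ch x) ≤ n ∧ ∃ v ∈ M, chX h ch x (S.sg v.1) = 0 := by
  classical
  rw [LM, mem_filter, mem_product, mem_DLe]
  constructor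
  · exact fun h => h.2
  · intro h1
    refine ⟨⟨mem_univ _, ?_⟩, h1⟩
    have h2 := rdeg_chX h hp x
    omega

open Classical in
theorem card_LM {h : S.Ok} [Fintype (XG S T h)]
    (hp : PrOk S T (XX (T : Set Pl) deg) Subtype.val ch)
    {hfin : ∀ d, Finite ((XX (T : Set Pl) deg).Of d)} {M : Finset T} {n : ℕ}
    (p : (G → ZMod 2) → Prop) :
    Nat.card {c : {c : G → ZMod 2 // S.HomG c} //
      (rdeg S deg c.1 ≤ n ∧ ∃ v ∈ M, c.1 (S.sg v.1) = 0) ∧ p c.1} =
      ((LM h T deg hfin ch M n).filter fun x => p (chX h ch x)).card := by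
  rw [← Nat.card_eq_finsetCard]
  refine Nat.card_congr ((eqC h hp).subtypeEquiv fun c => ?_)
  rw [mem_filter, mem_LM hp]
  have h1 : chX h ch (eqC h hp c) = c.1 := congrArg Subtype.val ((eqC h hp).symm_apply_apply c)
  rw [h1]

theorem card_LM' {h : S.Ok} [Fintype (XG S T h)]
    (hp : PrOk S T (XX (T : Set Pl) deg) Subtype.val ch)
    {hfin : ∀ d, Finite ((XX (T : Set Pl) deg).Of d)} {M : Finset T} {n : ℕ} :
    Nat.card {c : {c : G → ZMod 2 // S.HomG c} //
      rdeg S deg c.1 ≤ n ∧ ∃ v ∈ M, c.1 (S.sg v.1) = 0} = (LM h T deg hfin ch M n).card := by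
  rw [← Nat.card_eq_finsetCard]
  refine Nat.card_congr ((eqC h hp).subtypeEquiv fun c => ?_)
  rw [mem_LM hp]
  have h1 : chX h ch (eqC h hp c) = c.1 := congrArg Subtype.val ((eqC h hp).symm_apply_apply c)
  rw [h1]

/-- The parity sum over the twists of total ramification degree at most `n`, unramified at some place
of `M`. -/
theorem sum_LM (h : S.Ok) {qv : Pl → V1 × V1 → ZMod 2} {qq : V1 → ZMod 2}
    (hP : ParOk S h qv qq) (hF : LagF S (T : Set Pl))
    (hp : PrOk S T (XX (T : Set Pl) deg) Subtype.val ch)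
    (hT : ∀ v, v ∉ T → v ∈ S.good) [Fintype (XG S T h)] {q : ℕ}
    (hX : (XX (T : Set Pl) deg).Ok q) (M : Finset T) (hfl : ∀ v ∈ M, Flip S v.1)
    (hch : ∀ v ∈ M, ChebQ S T (XX (T : Set Pl) deg) Subtype.val q v.1)
    {ε : ℝ} (hε : 0 < ε) :
    ∃ n₀ : ℕ, ∀ n ≥ n₀, |∑ x ∈ LM h T deg hX.fin ch M n, sgR (S.dS h (chX h ch x))| ≤
      ε * (q : ℝ) ^ n := by
  classical
  have hq2 : (2 : ℝ) ≤ q := by exact_mod_cast hX.two_le
  obtain ⟨n₂, hn₂⟩ := half_sumM h hP hF hp hT hX M hfl hch (ε := ε / 4) (by positivity)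
  set B : ℝ := ∑ i ∈ range n₂, (((univ : Finset (XG S T h)) ×ˢ
    DDn (XX (T : Set Pl) deg) hX.fin i).card : ℝ) with hB
  have hB0 : 0 ≤ B := sum_nonneg fun _ _ => Nat.cast_nonneg _
  obtain ⟨n₃, hn₃⟩ : ∃ n₃ : ℕ, B / (ε / 2) ≤ (q : ℝ) ^ n₃ :=
    (pow_unbounded_of_one_lt _ (by linarith : (1 : ℝ) < q)).imp fun _ h => h.le
  refine ⟨n₃, fun n hn => ?_⟩
  have hBn : B ≤ ε / 2 * (q : ℝ) ^ n := by
    rw [div_le_iff₀ (by positivity)] at hn₃
    have h1 : (q : ℝ) ^ n₃ ≤ (q : ℝ) ^ n := pow_le_pow_right₀ (by linarith) hn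
    nlinarith
  rw [LM, sum_filter, sum_DLe]
  set g : ℕ → ℝ := fun i => ∑ x ∈ (univ : Finset (XG S T h)) ×ˢ
    DDn (XX (T : Set Pl) deg) hX.fin i,
    if rdeg S deg (chX h ch x) ≤ n ∧ ∃ v ∈ M, chX h ch x (S.sg v.1) = 0 then
      sgR (S.dS h (chX h ch x)) else 0 with hg
  have hgs : ∀ i, |g i| ≤ (((univ : Finset (XG S T h)) ×ˢ
      DDn (XX (T : Set Pl) deg) hX.fin i).card : ℝ) := by
    intro i
    refine (abs_sum_le_sum_abs _ _).trans ?_
    rw [card_eq_sum_ones, Nat.cast_sum]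
    refine sum_le_sum fun x _ => ?_
    split_ifs
    · rw [sgR_abs, Nat.cast_one]
    · rw [abs_zero, Nat.cast_one]
      exact zero_le_one
  have hgl : ∀ i, n₂ ≤ i → |g i| ≤ ε / 4 * (q : ℝ) ^ i := by
    intro i hi
    have h1 := hn₂ i hi (fun a => rt deg a + i ≤ n) fun a b hab => by
      have h2 : rt deg a = rt deg b := sum_congr rfl fun v _ => by rw [hab v]
      rw [h2]
    refine le_trans (le_of_eq ?_) h1
    rw [hg]
    beta_reduce
    congr 1
    refine Eq.trans ?_ (@sum_filter _ _ _ _ _ (_) _).symm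
    refine sum_congr rfl fun x hx => ?_
    have h2 : (XX (T : Set Pl) deg).degS x.2 = i := mem_DDn.1 (mem_product.1 hx).2
    rw [rdeg_chX h hp x, h2]
    by_cases hc : rt deg (lv S T (chX h ch x)) + i ≤ n ∧ ∃ v ∈ M, chX h ch x (S.sg v.1) = 0
    · exact (if_pos hc).trans (if_pos ⟨hc.2, hc.1⟩).symm
    · exact (if_neg hc).trans (if_neg fun hd => hc ⟨hd.2, hd.1⟩).symm
  calc |∑ i ∈ range (n + 1), g i| ≤ ∑ i ∈ range (n + 1), |g i| := abs_sum_le_sum_abs _ _
    _ ≤ ∑ i ∈ range (n + 1), ((if i < n₂ then (((univ : Finset (XG S T h)) ×ˢ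
          DDn (XX (T : Set Pl) deg) hX.fin i).card : ℝ) else 0) + ε / 4 * (q : ℝ) ^ i) := by
        refine sum_le_sum fun i _ => ?_
        split_ifs with hi
        · refine (hgs i).trans ?_
          have : 0 ≤ ε / 4 * (q : ℝ) ^ i := by positivity
          linarith
        · rw [zero_add]
          exact hgl i (not_lt.1 hi)
    _ ≤ B + ε / 4 * (2 * (q : ℝ) ^ n) := by
        rw [sum_add_distrib, ← mul_sum]
        refine add_le_add ?_ (mul_le_mul_of_nonneg_left (geo_le hX.two_le n) (by positivity))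
        rw [← sum_filter, hB]
        refine sum_le_sum_of_subset_of_nonneg (fun i hi => ?_) fun _ _ _ => Nat.cast_nonneg _
        exact mem_range.2 (mem_filter.1 hi).2
    _ ≤ ε * (q : ℝ) ^ n := by linarith

/-- `half_all` for the quadratic characters unramified at some place of the finite set `M` of flip
places; these characters have positive lower density. -/
theorem half_allM [Nonempty Pl] (h : S.Ok) {qv : Pl → V1 × V1 → ZMod 2} {qq : V1 → ZMod 2}
    (hP : ParOk S h qv qq) (halt : ∀ chi : G → ZMod 2, S.HomG chi → (Sys.twS S h chi).Altn)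
    (hF : LagF S (T : Set Pl)) (hp : PrOk S T (XX (T : Set Pl) deg) Subtype.val ch)
    (hT : ∀ v, v ∉ T → v ∈ S.good) {q : ℕ} (hX : (XX (T : Set Pl) deg).Ok q) {M : Finset Pl}
    (hMT : M ⊆ T) (hfl : ∀ v ∈ M, Flip S v)
    (hch : ∀ v ∈ M, ChebQ S T (XX (T : Set Pl) deg) Subtype.val q v)
    (hram : ∃ v ∈ M, ∃ c ∈ XG S T h, c (S.sg v) = 1)
    (hL : ∀ ε : ℝ, 0 < ε → ∃ m₁ : ℕ, ∀ m ≥ m₁, ∃ n₀ : ℕ, ∀ n ≥ n₀,
      (Nat.card {c : {c : G → ZMod 2 // S.HomG c} //
        rdeg S deg c.1 ≤ n ∧ ¬ SmallS S m c.1} : ℝ) ≤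
        ε * Nat.card {c : {c : G → ZMod 2 // S.HomG c} // rdeg S deg c.1 ≤ n}) :
    (∃ δ : ℝ, 0 < δ ∧ ∃ n₀ : ℕ, ∀ n ≥ n₀,
      δ * Nat.card {c : {c : G → ZMod 2 // S.HomG c} // rdeg S deg c.1 ≤ n} ≤
        Nat.card {c : {c : G → ZMod 2 // S.HomG c} //
          rdeg S deg c.1 ≤ n ∧ ∃ v ∈ M, c.1 (S.sg v) = 0}) ∧
    ∀ ε : ℝ, 0 < ε → ∃ n₀ : ℕ, ∀ n ≥ n₀,
      (1 / 2 - ε) * Nat.card {c : {c : G → ZMod 2 // S.HomG c} //
          rdeg S deg c.1 ≤ n ∧ ∃ v ∈ M, c.1 (S.sg v) = 0} ≤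
        Nat.card {c : {c : G → ZMod 2 // S.HomG c} //
          (rdeg S deg c.1 ≤ n ∧ ∃ v ∈ M, c.1 (S.sg v) = 0) ∧ Ev S h c.1} ∧
      (1 / 2 - ε) * Nat.card {c : {c : G → ZMod 2 // S.HomG c} //
          rdeg S deg c.1 ≤ n ∧ ∃ v ∈ M, c.1 (S.sg v) = 0} ≤
        Nat.card {c : {c : G → ZMod 2 // S.HomG c} //
          (rdeg S deg c.1 ≤ n ∧ ∃ v ∈ M, c.1 (S.sg v) = 0) ∧ Od S h c.1} := by
  classical
  -- the places of `M` as places of `T`
  let M' : Finset T := univ.filter fun v : T => v.1 ∈ M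
  have hM' : ∀ v : T, v ∈ M' ↔ v.1 ∈ M := fun v => by
    simp only [M', mem_filter, mem_univ, true_and]
  have hex : ∀ c : G → ZMod 2, (∃ v ∈ M, c (S.sg v) = 0) ↔ ∃ v ∈ M', c (S.sg v.1) = 0 := by
    intro c
    constructor
    · rintro ⟨v, hv, hc⟩
      exact ⟨⟨v, hMT hv⟩, (hM' _).2 hv, hc⟩
    · rintro ⟨v, hv, hc⟩
      exact ⟨v.1, (hM' v).1 hv, hc⟩
  simp only [hex]
  have hfinX := fin_XG h hF
  have hft : Fintype (XG S T h) := Fintype.ofFinite _
  have hq2 : (2 : ℝ) ≤ q := by exact_mod_cast hX.two_le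
  obtain ⟨c₁, C, n₁, hG⟩ := growth_of hX
  have hc₁ := hG.pos
  obtain ⟨k, hk⟩ : ∃ k : ℝ, k = (Nat.card (XG S T h) : ℝ) := ⟨_, rfl⟩
  have hk0 : 0 < k := by
    rw [hk]
    exact_mod_cast Nat.card_pos
  set τ := ∑ v ∈ T, deg v with hτ
  set κ : ℝ := k * c₁ / (2 * (q : ℝ) ^ τ) with hκ
  have hκ0 : 0 < κ := by positivity
  set K : ℝ := k * (2 * |C|) + 1 with hK
  have hK0 : 0 < K := by positivity
  obtain ⟨v0, hv0, hram0⟩ := hram
  have hlow : ∀ n, n₁ + τ ≤ n → κ * (q : ℝ) ^ n ≤ (LM h T deg hX.fin ch M' n).card := by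
    intro n hn
    have h1 := card_LF_ge h hp hX hG (v0 := ⟨v0, hMT hv0⟩) hram0 (n := n) (by rw [← hτ]; exact hn)
    rw [← hk, ← hτ, ← hκ] at h1
    refine h1.trans ?_
    have h2 : LF h T deg hX.fin ch v0 n ⊆ LM h T deg hX.fin ch M' n := by
      intro x hx
      rw [mem_LF hp] at hx
      rw [mem_LM hp]
      exact ⟨hx.1, ⟨v0, hMT hv0⟩, (hM' _).2 hv0, hx.2⟩
    exact_mod_cast card_le_card h2
  have hallK : ∀ n, (Nat.card {c : {c : G → ZMod 2 // S.HomG c} // rdeg S deg c.1 ≤ n} : ℝ) ≤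
      K * (q : ℝ) ^ n := by
    intro n
    have h1 := card_le_all h hF hp hX hG n
    rw [← hk] at h1
    refine h1.trans (mul_le_mul_of_nonneg_right ?_ (by positivity))
    rw [hK]
    linarith
  refine ⟨⟨κ / K, by positivity, n₁ + τ, fun n hn => ?_⟩, fun ε hε => ?_⟩
  · rw [card_LM' hp (hfin := hX.fin)]
    refine le_trans ?_ (hlow n hn)
    calc κ / K * (Nat.card {c : {c : G → ZMod 2 // S.HomG c} // rdeg S deg c.1 ≤ n} : ℝ)
        ≤ κ / K * (K * (q : ℝ) ^ n) := mul_le_mul_of_nonneg_left (hallK n) (by positivity)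
      _ = κ * (q : ℝ) ^ n := by field_simp
  obtain ⟨n₂, hn₂⟩ := sum_LM h hP hF hp hT hX M' (fun v hv => hfl _ ((hM' v).1 hv))
    (fun v hv => hch _ ((hM' v).1 hv)) (ε := ε * κ) (by positivity)
  obtain ⟨m₁, hm₁⟩ := hL (ε * κ / (2 * K)) (by positivity)
  obtain ⟨n₃, hn₃⟩ := hm₁ (m₁ + 1) (Nat.le_succ _)
  set m := m₁ + 1 with hm
  refine ⟨n₁ + τ + n₂ + n₃, fun n hn => ?_⟩
  have hsum := hn₂ n (by omega)
  have hbad := hn₃ n (by omega)
  have hlow := hlow n (by omega)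
  set Fm := LM h T deg hX.fin ch M' n with hFm
  set E0 := Fm.filter fun x => S.dS h (chX h ch x) = 0 with hE0
  set E1 := Fm.filter fun x => ¬ S.dS h (chX h ch x) = 0 with hE1
  have hadd : (E0.card : ℝ) + E1.card = Fm.card := by
    have := card_filter_add_card_filter_not (s := Fm) (fun x => S.dS h (chX h ch x) = 0)
    exact_mod_cast this
  have hdiff : ∑ x ∈ Fm, sgR (S.dS h (chX h ch x)) = (E0.card : ℝ) - E1.card := by
    rw [← sum_filter_add_sum_filter_not Fm (fun x => S.dS h (chX h ch x) = 0)]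
    have h1 : ∑ x ∈ Fm.filter (fun x => S.dS h (chX h ch x) = 0), sgR (S.dS h (chX h ch x)) =
        (E0.card : ℝ) := by
      rw [card_eq_sum_ones, Nat.cast_sum]
      refine sum_congr rfl fun x hx => ?_
      rw [(mem_filter.1 hx).2, sgR_zero, Nat.cast_one]
    have h2 : ∑ x ∈ Fm.filter (fun x => ¬ S.dS h (chX h ch x) = 0), sgR (S.dS h (chX h ch x)) =
        -(E1.card : ℝ) := by
      rw [card_eq_sum_ones, Nat.cast_sum, ← sum_neg_distrib]
      refine sum_congr rfl fun x hx => ?_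
      rw [(z01 _).resolve_left (mem_filter.1 hx).2, sgR_one, Nat.cast_one]
    rw [h1, h2]
    ring
  have hsum' : |(E0.card : ℝ) - E1.card| ≤ ε * Fm.card := by
    rw [← hdiff]
    refine hsum.trans ?_
    rw [mul_assoc]
    exact mul_le_mul_of_nonneg_left hlow hε.le
  -- the bad ones
  set Gd : XG S T h × Finset (XX (T : Set Pl) deg).Pr → Prop := fun x =>
    SmallS S m (chX h ch x) with hGd
  have hB : ((Fm.filter fun x => ¬ Gd x).card : ℝ) ≤ ε / 2 * Fm.card := by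
    have h1 : ((Fm.filter fun x => ¬ Gd x).card : ℝ) ≤
        Nat.card {c : {c : G → ZMod 2 // S.HomG c} // rdeg S deg c.1 ≤ n ∧ ¬ SmallS S m c.1} := by
      rw [card_all hp (hfin := hX.fin) (fun c => ¬ SmallS S m c)]
      refine Nat.cast_le.2 (card_le_card fun x hx => ?_)
      rw [mem_filter, hFm, LM, mem_filter] at hx
      exact (@mem_filter _ _ (_) _ _).2 ⟨hx.1.1, hx.1.2.1, hx.2⟩
    refine (h1.trans hbad).trans ?_
    calc ε * κ / (2 * K) *
          (Nat.card {c : {c : G → ZMod 2 // S.HomG c} // rdeg S deg c.1 ≤ n} : ℝ)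
        ≤ ε * κ / (2 * K) * (K * (q : ℝ) ^ n) :=
          mul_le_mul_of_nonneg_left (hallK n) (by positivity)
      _ = ε / 2 * (κ * (q : ℝ) ^ n) := by field_simp
      _ ≤ ε / 2 * Fm.card := mul_le_mul_of_nonneg_left hlow (by positivity)
  have hm1 : 1 ≤ m := by omega
  have hZ : ∀ x : XG S T h × Finset (XX (T : Set Pl) deg).Pr,
      Nat.card (S.SelZ h (chX h ch x) m) =
      Nat.card {Psi : G → V // S.IsSel (chX h ch x) m Psi} := fun _ => rfl
  have hEv : ∀ x : XG S T h × Finset (XX (T : Set Pl) deg).Pr, Gd x →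
      S.dS h (chX h ch x) = 0 → Ev S h (chX h ch x) := by
    intro x hx h0
    have hch := chX_hom h hp x
    have hfin := hP.fin _ hch
    exact Sys.selZ_even h hch hfin (halt _ hch) (n := m) (by rw [hZ]; exact hx.2)
      ((Sys.dS_eq_zero_iff h hfin).1 h0)
  have hOd : ∀ x : XG S T h × Finset (XX (T : Set Pl) deg).Pr, Gd x →
      ¬ S.dS h (chX h ch x) = 0 → Od S h (chX h ch x) := by
    intro x hx h0
    have hch := chX_hom h hp x
    have hfin := hP.fin _ hch
    exact Sys.selZ_odd h hch hfin (halt _ hch) (n := m) (by rw [hZ]; exact hx.2)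
      (fun hr => h0 ((Sys.dS_eq_zero_iff h hfin).2 hr))
  have hcE : ∀ (p : XG S T h × Finset (XX (T : Set Pl) deg).Pr → Prop)
      (E : Finset (XG S T h × Finset (XX (T : Set Pl) deg).Pr)),
      E ⊆ Fm → (∀ x ∈ E, Gd x → p x) →
      (E.card : ℝ) ≤ (Fm.filter p).card + ε / 2 * Fm.card := by
    intro p E hE hp1
    have h1 : E ⊆ Fm.filter p ∪ Fm.filter fun x => ¬ Gd x := by
      intro x hx
      rw [mem_union, mem_filter, mem_filter]
      by_cases hg : Gd x
      · exact Or.inl ⟨hE hx, hp1 x hx hg⟩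
      · exact Or.inr ⟨hE hx, hg⟩
    have h2 : (E.card : ℝ) ≤ (Fm.filter p).card + (Fm.filter fun x => ¬ Gd x).card := by
      exact_mod_cast (card_le_card h1).trans (card_union_le _ _)
    linarith
  have e0 := hcE (fun x => Ev S h (chX h ch x)) E0 (filter_subset _ _)
    fun x hx hg => hEv x hg (mem_filter.1 hx).2
  have e1 := hcE (fun x => Od S h (chX h ch x)) E1 (filter_subset _ _)
    fun x hx hg => hOd x hg (mem_filter.1 hx).2
  have h1 := abs_le.1 hsum'
  have h2 : (0 : ℝ) ≤ Fm.card := Nat.cast_nonneg _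
  rw [card_LM hp (hfin := hX.fin) (fun c => Ev S h c),
    card_LM hp (hfin := hX.fin) (fun c => Od S h c), card_LM' hp (hfin := hX.fin)]
  constructor
  · linarith
  · linarith

end Pool.Agent.SmN.Half
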