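import Pool.Agent.Lib.SmN.Fin.OrdO

/-!
# SMITH-U (SmN), final layer: the parity half for other orderings

`half_allO`: let `M` be a finite set of flip places. Among the quadratic characters unramified at some
place of `M`, half have corank 0 and half have corank 1, up to `ε` times the number of all quadratic
characters, in every ordering with `OrdOk`. `dens_allO`: if some character unramified outside `T` is
ramified at a place of `M`, then these characters have positive lower density.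
-/

set_option autoImplicit false

open Finset

namespace Pool.Agent.SmN.Half

open Pool.Agent.SmN.Ch Pool.Agent.Sm Pool.Agent.SmN.Fnl

variable {G V V1 Pl : Type} [Group G] [AddCommGroup V] [DistribMulAction G V]
  [AddCommGroup V1] [Module (ZMod 2) V1] {S : Sys G V V1 Pl} {T : Finset Pl}
  {deg : Pl → ℕ} {ch : (XX (T : Set Pl) deg).Pr → G → ZMod 2}
  {rd : (G → ZMod 2) → ℕ} {W : (T → ZMod 2) → ℕ} {τ : ℕ}

theorem ramP_chX (h : S.Ok) (hp : PrOk S T (XX (T : Set Pl) deg) Subtype.val ch)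
    (x : XG S T h × Finset (XX (T : Set Pl) deg).Pr) :
    ramP h (T : Set Pl) ⟨chX h ch x, chX_hom h hp x⟩ = x.2 := by
  ext P
  exact (mem_ramP h ⟨chX h ch x, chX_hom h hp x⟩ P).trans (chX_ne h hp x P)

theorem rd_chX (h : S.Ok) (hp : PrOk S T (XX (T : Set Pl) deg) Subtype.val ch)
    (hR : OrdOk h T deg rd W τ) (x : XG S T h × Finset (XX (T : Set Pl) deg).Pr) :
    rd (chX h ch x) = W (fun v => (lv S T (chX h ch x) v).1) +
      (XX (T : Set Pl) deg).degS x.2 := by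
  have h1 := hR.eq ⟨chX h ch x, chX_hom h hp x⟩
  rw [ramP_chX h hp x] at h1
  exact h1

open Classical in
/-- The pairs with `rd ≤ n` and the property `p`. -/
noncomputable def FO (h : S.Ok) (T : Finset Pl) [Fintype (XG S T h)] (deg : Pl → ℕ)
    (hfin : ∀ d, Finite ((XX (T : Set Pl) deg).Of d))
    (ch : (XX (T : Set Pl) deg).Pr → G → ZMod 2) (rd : (G → ZMod 2) → ℕ) (n : ℕ)
    (p : (G → ZMod 2) → Prop) : Finset (XG S T h × Finset (XX (T : Set Pl) deg).Pr) :=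
  (univ ×ˢ DLe (XX (T : Set Pl) deg) hfin n).filter fun x =>
    rd (chX h ch x) ≤ n ∧ p (chX h ch x)

theorem mem_FO {h : S.Ok} [Fintype (XG S T h)]
    (hp : PrOk S T (XX (T : Set Pl) deg) Subtype.val ch) (hR : OrdOk h T deg rd W τ)
    {hfin : ∀ d, Finite ((XX (T : Set Pl) deg).Of d)} {n : ℕ} {p : (G → ZMod 2) → Prop}
    {x : XG S T h × Finset (XX (T : Set Pl) deg).Pr} : x ∈ FO h T deg hfin ch rd n p ↔
      rd (chX h ch x) ≤ n ∧ p (chX h ch x) := by
  classical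
  rw [FO, mem_filter, mem_product, mem_DLe]
  constructor
  · exact fun h => h.2
  · intro h1
    refine ⟨⟨mem_univ _, ?_⟩, h1⟩
    have h2 := rd_chX h hp hR x
    omega

/-- The characters with `rd ≤ n` and the property `p`. -/
theorem card_O {h : S.Ok} [Fintype (XG S T h)]
    (hp : PrOk S T (XX (T : Set Pl) deg) Subtype.val ch) (hR : OrdOk h T deg rd W τ)
    {hfin : ∀ d, Finite ((XX (T : Set Pl) deg).Of d)} {n : ℕ}
    (p : (G → ZMod 2) → Prop) :
    Nat.card {c : {c : G → ZMod 2 // S.HomG c} // rd c.1 ≤ n ∧ p c.1} =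
      (FO h T deg hfin ch rd n p).card := by
  rw [← Nat.card_eq_finsetCard]
  refine Nat.card_congr ((eqC h hp).subtypeEquiv fun c => ?_)
  have h1 : chX h ch (eqC h hp c) = c.1 := congrArg Subtype.val ((eqC h hp).symm_apply_apply c)
  rw [mem_FO hp hR, h1]

/-- The parity sum over the characters with `rd ≤ n` which are unramified at some place of `M`. -/
theorem sum_O (h : S.Ok) {qv : Pl → V1 × V1 → ZMod 2} {qq : V1 → ZMod 2}
    (hP : ParOk S h qv qq) (hF : LagF S (T : Set Pl))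
    (hp : PrOk S T (XX (T : Set Pl) deg) Subtype.val ch) (hR : OrdOk h T deg rd W τ)
    (hT : ∀ v, v ∉ T → v ∈ S.good) [Fintype (XG S T h)] {q : ℕ}
    (hX : (XX (T : Set Pl) deg).Ok q) (M : Finset T) (hfl : ∀ v ∈ M, Flip S v.1)
    (hch : ∀ v ∈ M, ChebQ S T (XX (T : Set Pl) deg) Subtype.val q v.1)
    {ε : ℝ} (hε : 0 < ε) :
    ∃ n₀ : ℕ, ∀ n ≥ n₀, |∑ x ∈ FO h T deg hX.fin ch rd n (fun c => ∃ v ∈ M, c (S.sg v.1) = 0),
        sgR (S.dS h (chX h ch x))| ≤ ε * (q : ℝ) ^ n := by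
  classical
  have hq2 : (2 : ℝ) ≤ q := by exact_mod_cast hX.two_le
  obtain ⟨n₂, hn₂⟩ := half_sumM h hP hF hp hT hX M hfl hch (ε := ε / 4) (by positivity)
  set B : ℝ := ∑ i ∈ range n₂, (((univ : Finset (XG S T h)) ×ˢ
    DDn (XX (T : Set Pl) deg) hX.fin i).card : ℝ) with hB
  have hB0 : 0 ≤ B := sum_nonneg fun _ _ => Nat.cast_nonneg _
  obtain ⟨n₃, hn₃⟩ : ∃ n₃ : ℕ, B / (ε / 2) ≤ (q : ℝ) ^ n₃ :=
    (pow_unbounded_of_one_lt _ (by linarith : (1 : ℝ) < q)).imp fun _ h => h.le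
  refine ⟨n₃, fun n hn => ?_⟩
  have hBn : B ≤ ε / 2 * (q : ℝ) ^ n := by
    rw [div_le_iff₀ (by positivity)] at hn₃
    have h1 : (q : ℝ) ^ n₃ ≤ (q : ℝ) ^ n := pow_le_pow_right₀ (by linarith) hn
    nlinarith
  set g : ℕ → ℝ := fun i => ∑ x ∈ (univ : Finset (XG S T h)) ×ˢ
    DDn (XX (T : Set Pl) deg) hX.fin i,
    if rd (chX h ch x) ≤ n ∧ ∃ v ∈ M, chX h ch x (S.sg v.1) = 0 then
      sgR (S.dS h (chX h ch x)) else 0 with hg
  have hsg : ∑ x ∈ FO h T deg hX.fin ch rd n (fun c => ∃ v ∈ M, c (S.sg v.1) = 0),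
      sgR (S.dS h (chX h ch x)) = ∑ i ∈ range (n + 1), g i := by
    rw [FO, sum_filter, sum_DLe]
    exact sum_congr rfl fun i _ => sum_congr rfl fun x _ => by congr
  rw [hsg]
  have hgs : ∀ i, |g i| ≤ (((univ : Finset (XG S T h)) ×ˢ
      DDn (XX (T : Set Pl) deg) hX.fin i).card : ℝ) := by
    intro i
    refine (abs_sum_le_sum_abs _ _).trans ?_
    rw [card_eq_sum_ones, Nat.cast_sum]
    refine sum_le_sum fun x _ => ?_
    split_ifs
    · rw [sgR_abs, Nat.cast_one]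
    · rw [abs_zero, Nat.cast_one]
      exact zero_le_one
  have hgl : ∀ i, n₂ ≤ i → |g i| ≤ ε / 4 * (q : ℝ) ^ i := by
    intro i hi
    have h1 := hn₂ i hi (fun a => W (fun v => (a v).1) + i ≤ n) fun a b hab => by
      have h2 : (fun v => (a v).1) = fun v => (b v).1 := funext hab
      rw [h2]
    refine le_trans (le_of_eq ?_) h1
    rw [hg]
    beta_reduce
    congr 1
    refine Eq.trans ?_ (@sum_filter _ _ _ _ _ (_) _).symm
    refine sum_congr rfl fun x hx => ?_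
    have h2 : (XX (T : Set Pl) deg).degS x.2 = i := mem_DDn.1 (mem_product.1 hx).2
    rw [rd_chX h hp hR x, h2]
    by_cases hc : W (fun v => (lv S T (chX h ch x) v).1) + i ≤ n ∧
        ∃ v ∈ M, chX h ch x (S.sg v.1) = 0
    · exact (if_pos hc).trans (if_pos ⟨hc.2, hc.1⟩).symm
    · exact (if_neg hc).trans (if_neg fun hd => hc ⟨hd.2, hd.1⟩).symm
  calc |∑ i ∈ range (n + 1), g i| ≤ ∑ i ∈ range (n + 1), |g i| := abs_sum_le_sum_abs _ _
    _ ≤ ∑ i ∈ range (n + 1), ((if i < n₂ then (((univ : Finset (XG S T h)) ×ˢ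
          DDn (XX (T : Set Pl) deg) hX.fin i).card : ℝ) else 0) + ε / 4 * (q : ℝ) ^ i) := by
        refine sum_le_sum fun i _ => ?_
        split_ifs with hi
        · refine (hgs i).trans ?_
          have : 0 ≤ ε / 4 * (q : ℝ) ^ i := by positivity
          linarith
        · rw [zero_add]
          exact hgl i (not_lt.1 hi)
    _ ≤ B + ε / 4 * (2 * (q : ℝ) ^ n) := by
        rw [sum_add_distrib, ← mul_sum]
        refine add_le_add ?_ (mul_le_mul_of_nonneg_left (geo_le hX.two_le n) (by positivity))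
        rw [← sum_filter, hB]
        refine sum_le_sum_of_subset_of_nonneg (fun i hi => ?_) fun _ _ _ => Nat.cast_nonneg _
        exact mem_range.2 (mem_filter.1 hi).2
    _ ≤ ε * (q : ℝ) ^ n := by linarith

/-- The number of all quadratic characters with `rd ≤ n` is at most a constant times `q ^ n`. -/
theorem card_le_O (h : S.Ok) (hF : LagF S (T : Set Pl)) {q : ℕ} {c₁ C : ℝ} {n₁ : ℕ}
    (hp : PrOk S T (XX (T : Set Pl) deg) Subtype.val ch) (hR : OrdOk h T deg rd W τ)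
    (hX : (XX (T : Set Pl) deg).Ok q) (hG : Growth (T : Set Pl) deg q c₁ C n₁) (n : ℕ) :
    (Nat.card {c : {c : G → ZMod 2 // S.HomG c} // rd c.1 ≤ n} : ℝ) ≤
      (Nat.card (XG S T h) : ℝ) * (2 * |C|) * (q : ℝ) ^ n := by
  classical
  have hfinX := fin_XG h hF
  have hft : Fintype (XG S T h) := Fintype.ofFinite _
  have h1 : Nat.card {c : {c : G → ZMod 2 // S.HomG c} // rd c.1 ≤ n} =
      Nat.card {c : {c : G → ZMod 2 // S.HomG c} // rd c.1 ≤ n ∧ True} :=
    Nat.card_congr (Equiv.subtypeEquivRight fun c => by rw [and_true])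
  rw [h1, card_O hp hR (hfin := hX.fin) (fun _ => True), FO]
  refine le_trans (Nat.cast_le.2 (@card_filter_le _ _ _ (_))) ?_
  rw [card_eq_sum_ones, sum_DLe, Nat.cast_sum]
  have h2 : ∀ i ∈ range (n + 1), ((∑ x ∈ (univ : Finset (XG S T h)) ×ˢ
      DDn (XX (T : Set Pl) deg) hX.fin i, 1 : ℕ) : ℝ) ≤
      (Nat.card (XG S T h) : ℝ) * |C| * (q : ℝ) ^ i := by
    intro i _
    rw [← card_eq_sum_ones, card_product, Nat.cast_mul, card_univ, ← Nat.card_eq_fintype_card,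
      ← nDD_eq hX.fin, mul_assoc]
    refine mul_le_mul_of_nonneg_left ?_ (Nat.cast_nonneg _)
    exact (hG.up i).trans (mul_le_mul_of_nonneg_right (le_abs_self C) (by positivity))
  refine (sum_le_sum h2).trans ?_
  rw [← mul_sum]
  have h3 := mul_le_mul_of_nonneg_left (geo_le hX.two_le n)
    (show (0 : ℝ) ≤ (Nat.card (XG S T h) : ℝ) * |C| by positivity)
  linarith

/-- The characters with `rd ≤ n` are finitely many. -/
theorem finite_O (h : S.Ok) (hF : LagF S (T : Set Pl)) {q : ℕ}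
    (hp : PrOk S T (XX (T : Set Pl) deg) Subtype.val ch) (hR : OrdOk h T deg rd W τ)
    (hX : (XX (T : Set Pl) deg).Ok q) (n : ℕ) :
    Finite {c : {c : G → ZMod 2 // S.HomG c} // rd c.1 ≤ n} := by
  classical
  have hfinX := fin_XG h hF
  have hft : Fintype (XG S T h) := Fintype.ofFinite _
  have h1 : Finite {x : XG S T h × Finset (XX (T : Set Pl) deg).Pr //
      x ∈ univ ×ˢ DLe (XX (T : Set Pl) deg) hX.fin n} := inferInstance
  refine Finite.of_injective (β := {x : XG S T h × Finset (XX (T : Set Pl) deg).Pr //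
      x ∈ univ ×ˢ DLe (XX (T : Set Pl) deg) hX.fin n})
    (fun c => ⟨eqC h hp c.1, mem_product.2 ⟨mem_univ _, mem_DLe.2 ?_⟩⟩) fun c c' hc => ?_
  · have h2 : chX h ch (eqC h hp c.1) = c.1.1 :=
      congrArg Subtype.val ((eqC h hp).symm_apply_apply c.1)
    have h3 := rd_chX h hp hR (eqC h hp c.1)
    rw [h2] at h3
    have h4 := c.2
    omega
  · apply Subtype.ext
    apply (eqC h hp).injective
    exact congrArg (fun x : {x : XG S T h × Finset (XX (T : Set Pl) deg).Pr //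
      x ∈ univ ×ˢ DLe (XX (T : Set Pl) deg) hX.fin n} => x.1) hc

/-- The lower bound for the number of the characters with `rd ≤ n` unramified at `v0`. -/
theorem card_O_ge (h : S.Ok) [Fintype (XG S T h)] {q : ℕ} {c₁ C : ℝ} {n₁ : ℕ}
    (hp : PrOk S T (XX (T : Set Pl) deg) Subtype.val ch) (hR : OrdOk h T deg rd W τ)
    (hX : (XX (T : Set Pl) deg).Ok q) (hG : Growth (T : Set Pl) deg q c₁ C n₁) {v0 : T}
    (hram : ∃ c ∈ XG S T h, c (S.sg v0.1) = 1) {n : ℕ} (hn : n₁ + τ ≤ n) :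
    (Nat.card (XG S T h) : ℝ) * c₁ / (2 * (q : ℝ) ^ τ) * (q : ℝ) ^ n ≤
      (Nat.card {c : {c : G → ZMod 2 // S.HomG c} // rd c.1 ≤ n ∧ c.1 (S.sg v0.1) = 0} : ℝ) := by
  classical
  have hq2 : (2 : ℝ) ≤ q := by exact_mod_cast hX.two_le
  rw [card_O hp hR (hfin := hX.fin) (fun c => c (S.sg v0.1) = 0)]
  have h1 : (FamF h T hX.fin ch v0.1 (n - τ)) ⊆
      FO h T deg hX.fin ch rd n (fun c => c (S.sg v0.1) = 0) := by
    intro x hx
    rw [mem_FamF] at hx
    have h2 := rd_chX h hp hR x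
    have h3 := hR.le (fun v => (lv S T (chX h ch x) v).1)
    rw [mem_FO hp hR]
    exact ⟨by omega, hx.2⟩
  have h2 := card_Fam (ch := ch) h hX.fin hram (n - τ)
  rw [card_FamF h hX.fin] at h2
  have h3 : (2 : ℝ) * (FamF h T hX.fin ch v0.1 (n - τ)).card =
      Nat.card (XG S T h) * (XX (T : Set Pl) deg).nDD (n - τ) := by exact_mod_cast h2
  have h4 : c₁ * (q : ℝ) ^ (n - τ) ≤ (XX (T : Set Pl) deg).nDD (n - τ) := hG.low _ (by omega)
  have h5 := Nat.cast_le (α := ℝ).2 (card_le_card h1)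
  have h6 : (q : ℝ) ^ n = (q : ℝ) ^ (n - τ) * (q : ℝ) ^ τ := by
    rw [← pow_add]
    congr 1
    omega
  have h7 : (0 : ℝ) < (q : ℝ) ^ τ := by positivity
  have h8 : (Nat.card (XG S T h) : ℝ) * c₁ / (2 * (q : ℝ) ^ τ) * (q : ℝ) ^ n =
      (Nat.card (XG S T h) : ℝ) * (c₁ * (q : ℝ) ^ (n - τ)) / 2 := by
    rw [h6]
    field_simp
  rw [h8]
  have h9 := mul_le_mul_of_nonneg_left h4 (Nat.cast_nonneg (α := ℝ) (Nat.card (XG S T h)))
  linarith

/-- The lower bound for the number of the characters with `rd ≤ n`. -/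
theorem card_all_ge (h : S.Ok) (hF : LagF S (T : Set Pl)) {q : ℕ} {c₁ C : ℝ} {n₁ : ℕ}
    (hp : PrOk S T (XX (T : Set Pl) deg) Subtype.val ch) (hR : OrdOk h T deg rd W τ)
    (hX : (XX (T : Set Pl) deg).Ok q) (hG : Growth (T : Set Pl) deg q c₁ C n₁)
    {n : ℕ} (hn : n₁ + τ ≤ n) :
    c₁ / (q : ℝ) ^ τ * (q : ℝ) ^ n ≤
      (Nat.card {c : {c : G → ZMod 2 // S.HomG c} // rd c.1 ≤ n} : ℝ) := by
  classical
  have hq2 : (2 : ℝ) ≤ q := by exact_mod_cast hX.two_le
  have hfin := finite_O h hF hp hR hX n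
  have h1 : (XX (T : Set Pl) deg).nDD (n - τ) ≤
      Nat.card {c : {c : G → ZMod 2 // S.HomG c} // rd c.1 ≤ n} := by
    rw [PSys.nDD]
    refine Nat.card_le_card_of_injective (fun D => ⟨⟨chX h ch (0, D.1), chX_hom h hp _⟩, ?_⟩)
      fun D D' he => ?_
    · have h2 := rd_chX h hp hR ((0 : XG S T h), D.1)
      have h3 := hR.le (fun v => (lv S T (chX h ch ((0 : XG S T h), D.1)) v).1)
      have h4 := D.2
      change rd (chX h ch (0, D.1)) ≤ n
      change rd (chX h ch (0, D.1)) = _ + (XX (T : Set Pl) deg).degS D.1 at h2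
      omega
    · have h2 : (⟨chX h ch ((0 : XG S T h), D.1), chX_hom h hp _⟩ : {c : G → ZMod 2 // S.HomG c}) =
          ⟨chX h ch ((0 : XG S T h), D'.1), chX_hom h hp _⟩ := congrArg
        (fun x : {c : {c : G → ZMod 2 // S.HomG c} // rd c.1 ≤ n} => x.1) he
      have h3 := congrArg (ramP h (T : Set Pl)) h2
      rw [ramP_chX h hp, ramP_chX h hp] at h3
      exact Subtype.ext h3
  have h4 : c₁ * (q : ℝ) ^ (n - τ) ≤ (XX (T : Set Pl) deg).nDD (n - τ) := hG.low _ (by omega)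
  have h5 : (((XX (T : Set Pl) deg).nDD (n - τ) : ℕ) : ℝ) ≤
      (Nat.card {c : {c : G → ZMod 2 // S.HomG c} // rd c.1 ≤ n} : ℝ) := by exact_mod_cast h1
  have h6 : (q : ℝ) ^ n = (q : ℝ) ^ (n - τ) * (q : ℝ) ^ τ := by
    rw [← pow_add]
    congr 1
    omega
  have h7 : (0 : ℝ) < (q : ℝ) ^ τ := by positivity
  have h8 : c₁ / (q : ℝ) ^ τ * (q : ℝ) ^ n = c₁ * (q : ℝ) ^ (n - τ) := by
    rw [h6]
    field_simp
  rw [h8]
  exact h4.trans h5

/-- The characters unramified at some place of `M` have positive lower density. -/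
theorem dens_allO (h : S.Ok) (hF : LagF S (T : Set Pl))
    (hp : PrOk S T (XX (T : Set Pl) deg) Subtype.val ch) (hR : OrdOk h T deg rd W τ) {q : ℕ}
    (hX : (XX (T : Set Pl) deg).Ok q) {M : Finset Pl} (hMT : M ⊆ T)
    (hram : ∃ v ∈ M, ∃ c ∈ XG S T h, c (S.sg v) = 1) :
    ∃ δ : ℝ, 0 < δ ∧ ∃ n₀ : ℕ, ∀ n ≥ n₀,
      δ * Nat.card {c : {c : G → ZMod 2 // S.HomG c} // rd c.1 ≤ n} ≤
        Nat.card {c : {c : G → ZMod 2 // S.HomG c} // rd c.1 ≤ n ∧ ∃ v ∈ M, c.1 (S.sg v) = 0} := by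
  classical
  have hfinX := fin_XG h hF
  have hft : Fintype (XG S T h) := Fintype.ofFinite _
  have hq2 : (2 : ℝ) ≤ q := by exact_mod_cast hX.two_le
  obtain ⟨c₁, C, n₁, hG⟩ := growth_of hX
  have hc₁ := hG.pos
  obtain ⟨k, hk⟩ : ∃ k : ℝ, k = (Nat.card (XG S T h) : ℝ) := ⟨_, rfl⟩
  have hk0 : 0 < k := by
    rw [hk]
    exact_mod_cast Nat.card_pos
  set κ : ℝ := k * c₁ / (2 * (q : ℝ) ^ τ) with hκ
  have hκ0 : 0 < κ := by positivity
  set K : ℝ := k * (2 * |C|) + 1 with hK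
  have hK0 : 0 < K := by positivity
  obtain ⟨v0, hv0, hram0⟩ := hram
  refine ⟨κ / K, by positivity, n₁ + τ, fun n hn => ?_⟩
  have hfin := finite_O h hF hp hR hX n
  have h1 := card_O_ge h hp hR hX hG (v0 := ⟨v0, hMT hv0⟩) hram0 (n := n) hn
  rw [← hk, ← hκ] at h1
  have h2 := card_le_O h hF hp hR hX hG n
  rw [← hk] at h2
  have h3 : (Nat.card {c : {c : G → ZMod 2 // S.HomG c} // rd c.1 ≤ n} : ℝ) ≤ K * (q : ℝ) ^ n := by
    refine h2.trans (mul_le_mul_of_nonneg_right ?_ (by positivity))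
    rw [hK]
    linarith
  have h4 : Nat.card {c : {c : G → ZMod 2 // S.HomG c} // rd c.1 ≤ n ∧ c.1 (S.sg v0) = 0} ≤
      Nat.card {c : {c : G → ZMod 2 // S.HomG c} // rd c.1 ≤ n ∧ ∃ v ∈ M, c.1 (S.sg v) = 0} := by
    have h5 : Finite {c : {c : G → ZMod 2 // S.HomG c} //
        rd c.1 ≤ n ∧ ∃ v ∈ M, c.1 (S.sg v) = 0} :=
      Finite.of_injective (β := {c : {c : G → ZMod 2 // S.HomG c} // rd c.1 ≤ n})
        (fun c => ⟨c.1, c.2.1⟩) fun c c' hc => Subtype.ext (congrArg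
          (fun x : {c : {c : G → ZMod 2 // S.HomG c} // rd c.1 ≤ n} => x.1) hc)
    exact Nat.card_le_card_of_injective
      (fun c => (⟨c.1, c.2.1, v0, hv0, c.2.2⟩ : {c : {c : G → ZMod 2 // S.HomG c} //
        rd c.1 ≤ n ∧ ∃ v ∈ M, c.1 (S.sg v) = 0}))
      fun c c' hc => Subtype.ext (congrArg (fun x : {c : {c : G → ZMod 2 // S.HomG c} //
        rd c.1 ≤ n ∧ ∃ v ∈ M, c.1 (S.sg v) = 0} => x.1) hc)
  calc κ / K * (Nat.card {c : {c : G → ZMod 2 // S.HomG c} // rd c.1 ≤ n} : ℝ)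
      ≤ κ / K * (K * (q : ℝ) ^ n) := mul_le_mul_of_nonneg_left h3 (by positivity)
    _ = κ * (q : ℝ) ^ n := by field_simp
    _ ≤ _ := h1
    _ ≤ _ := by exact_mod_cast h4

/-- **Half of the quadratic twists unramified at some flip place have corank 0, half have corank 1**,
up to `ε` times the number of all quadratic twists, in every ordering. -/
theorem half_allO [Nonempty Pl] (h : S.Ok) {qv : Pl → V1 × V1 → ZMod 2} {qq : V1 → ZMod 2}
    (hP : ParOk S h qv qq) (halt : ∀ chi : G → ZMod 2, S.HomG chi → (Sys.twS S h chi).Altn)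
    (hF : LagF S (T : Set Pl)) (hp : PrOk S T (XX (T : Set Pl) deg) Subtype.val ch)
    (hR : OrdOk h T deg rd W τ)
    (hT : ∀ v, v ∉ T → v ∈ S.good) {q : ℕ} (hX : (XX (T : Set Pl) deg).Ok q)
    {M : Finset Pl} (hMT : M ⊆ T) (hfl : ∀ v ∈ M, Flip S v)
    (hch : ∀ v ∈ M, ChebQ S T (XX (T : Set Pl) deg) Subtype.val q v)
    (hL : ∀ ε : ℝ, 0 < ε → ∃ m₁ : ℕ, ∀ m ≥ m₁, ∃ n₀ : ℕ, ∀ n ≥ n₀,
      (Nat.card {c : {c : G → ZMod 2 // S.HomG c} // rd c.1 ≤ n ∧ ¬ SmallS S m c.1} : ℝ) ≤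
        ε * Nat.card {c : {c : G → ZMod 2 // S.HomG c} // rd c.1 ≤ n})
    {ε : ℝ} (hε : 0 < ε) : ∃ n₀ : ℕ, ∀ n ≥ n₀,
      (Nat.card {c : {c : G → ZMod 2 // S.HomG c} //
          rd c.1 ≤ n ∧ ∃ v ∈ M, c.1 (S.sg v) = 0} : ℝ) / 2 -
          ε * Nat.card {c : {c : G → ZMod 2 // S.HomG c} // rd c.1 ≤ n} ≤
        Nat.card {c : {c : G → ZMod 2 // S.HomG c} //
          rd c.1 ≤ n ∧ (∃ v ∈ M, c.1 (S.sg v) = 0) ∧ Ev S h c.1} ∧
      (Nat.card {c : {c : G → ZMod 2 // S.HomG c} //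
          rd c.1 ≤ n ∧ ∃ v ∈ M, c.1 (S.sg v) = 0} : ℝ) / 2 -
          ε * Nat.card {c : {c : G → ZMod 2 // S.HomG c} // rd c.1 ≤ n} ≤
        Nat.card {c : {c : G → ZMod 2 // S.HomG c} //
          rd c.1 ≤ n ∧ (∃ v ∈ M, c.1 (S.sg v) = 0) ∧ Od S h c.1} := by
  classical
  -- the places of `M` as places of `T`
  let M' : Finset T := univ.filter fun v : T => v.1 ∈ M
  have hM' : ∀ v : T, v ∈ M' ↔ v.1 ∈ M := fun v => by
    simp only [M', mem_filter, mem_univ, true_and]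
  have hex : ∀ c : G → ZMod 2, (∃ v ∈ M, c (S.sg v) = 0) ↔ ∃ v ∈ M', c (S.sg v.1) = 0 := by
    intro c
    constructor
    · rintro ⟨v, hv, hc⟩
      exact ⟨⟨v, hMT hv⟩, (hM' _).2 hv, hc⟩
    · rintro ⟨v, hv, hc⟩
      exact ⟨v.1, (hM' v).1 hv, hc⟩
  simp only [hex]
  have hfinX := fin_XG h hF
  have hft : Fintype (XG S T h) := Fintype.ofFinite _
  have hq2 : (2 : ℝ) ≤ q := by exact_mod_cast hX.two_le
  obtain ⟨c₁, C, n₁, hG⟩ := growth_of hX
  have hc₁ := hG.pos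
  set κ : ℝ := c₁ / (q : ℝ) ^ τ with hκ
  have hκ0 : 0 < κ := by positivity
  obtain ⟨n₂, hn₂⟩ := sum_O h hP hF hp hR hT hX M' (fun v hv => hfl _ ((hM' v).1 hv))
    (fun v hv => hch _ ((hM' v).1 hv)) (ε := ε * κ) (by positivity)
  obtain ⟨m₁, hm₁⟩ := hL (ε / 2) (by positivity)
  obtain ⟨n₃, hn₃⟩ := hm₁ (m₁ + 1) (Nat.le_succ _)
  set m := m₁ + 1 with hm
  refine ⟨n₁ + τ + n₂ + n₃, fun n hn => ?_⟩
  have hsum := hn₂ n (by omega)
  have hbad := hn₃ n (by omega)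
  have hlow := card_all_ge h hF hp hR hX hG (n := n) (by omega)
  rw [← hκ] at hlow
  set A : ℝ := (Nat.card {c : {c : G → ZMod 2 // S.HomG c} // rd c.1 ≤ n} : ℝ) with hA
  set Fm := FO h T deg hX.fin ch rd n (fun c => ∃ v ∈ M', c (S.sg v.1) = 0) with hFm
  set E0 := Fm.filter fun x => S.dS h (chX h ch x) = 0 with hE0
  set E1 := Fm.filter fun x => ¬ S.dS h (chX h ch x) = 0 with hE1
  have hadd : (E0.card : ℝ) + E1.card = Fm.card := by
    have := card_filter_add_card_filter_not (s := Fm) (fun x => S.dS h (chX h ch x) = 0)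
    exact_mod_cast this
  have hdiff : ∑ x ∈ Fm, sgR (S.dS h (chX h ch x)) = (E0.card : ℝ) - E1.card := by
    rw [← sum_filter_add_sum_filter_not Fm (fun x => S.dS h (chX h ch x) = 0)]
    have h1 : ∑ x ∈ Fm.filter (fun x => S.dS h (chX h ch x) = 0), sgR (S.dS h (chX h ch x)) =
        (E0.card : ℝ) := by
      rw [card_eq_sum_ones, Nat.cast_sum]
      refine sum_congr rfl fun x hx => ?_
      rw [(mem_filter.1 hx).2, sgR_zero, Nat.cast_one]
    have h2 : ∑ x ∈ Fm.filter (fun x => ¬ S.dS h (chX h ch x) = 0), sgR (S.dS h (chX h ch x)) =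
        -(E1.card : ℝ) := by
      rw [card_eq_sum_ones, Nat.cast_sum, ← sum_neg_distrib]
      refine sum_congr rfl fun x hx => ?_
      rw [(z01 _).resolve_left (mem_filter.1 hx).2, sgR_one, Nat.cast_one]
    rw [h1, h2]
    ring
  have hsum' : |(E0.card : ℝ) - E1.card| ≤ ε * A := by
    rw [← hdiff]
    refine hsum.trans ?_
    rw [mul_assoc]
    exact mul_le_mul_of_nonneg_left hlow hε.le
  -- the bad ones
  set Gd : XG S T h × Finset (XX (T : Set Pl) deg).Pr → Prop := fun x =>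
    SmallS S m (chX h ch x) with hGd
  have hB : ((Fm.filter fun x => ¬ Gd x).card : ℝ) ≤ ε / 2 * A := by
    refine le_trans ?_ hbad
    rw [card_O hp hR (hfin := hX.fin) (fun c => ¬ SmallS S m c)]
    refine Nat.cast_le.2 (card_le_card fun x hx => ?_)
    rw [mem_filter, hFm, mem_FO hp hR] at hx
    rw [mem_FO hp hR]
    exact ⟨hx.1.1, hx.2⟩
  have hm1 : 1 ≤ m := by omega
  have hZ : ∀ x : XG S T h × Finset (XX (T : Set Pl) deg).Pr,
      Nat.card (S.SelZ h (chX h ch x) m) =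
      Nat.card {Psi : G → V // S.IsSel (chX h ch x) m Psi} := fun _ => rfl
  have hEv : ∀ x : XG S T h × Finset (XX (T : Set Pl) deg).Pr, Gd x →
      S.dS h (chX h ch x) = 0 → Ev S h (chX h ch x) := by
    intro x hx h0
    have hch := chX_hom h hp x
    have hfin := hP.fin _ hch
    exact Sys.selZ_even h hch hfin (halt _ hch) (n := m) (by rw [hZ]; exact hx.2)
      ((Sys.dS_eq_zero_iff h hfin).1 h0)
  have hOd : ∀ x : XG S T h × Finset (XX (T : Set Pl) deg).Pr, Gd x →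
      ¬ S.dS h (chX h ch x) = 0 → Od S h (chX h ch x) := by
    intro x hx h0
    have hch := chX_hom h hp x
    have hfin := hP.fin _ hch
    exact Sys.selZ_odd h hch hfin (halt _ hch) (n := m) (by rw [hZ]; exact hx.2)
      (fun hr => h0 ((Sys.dS_eq_zero_iff h hfin).2 hr))
  have hcE : ∀ (p : XG S T h × Finset (XX (T : Set Pl) deg).Pr → Prop)
      (E : Finset (XG S T h × Finset (XX (T : Set Pl) deg).Pr)),
      E ⊆ Fm → (∀ x ∈ E, Gd x → p x) →
      (E.card : ℝ) ≤ (Fm.filter p).card + ε / 2 * A := by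
    intro p E hE hp1
    have h1 : E ⊆ Fm.filter p ∪ Fm.filter fun x => ¬ Gd x := by
      intro x hx
      rw [mem_union, mem_filter, mem_filter]
      by_cases hg : Gd x
      · exact Or.inl ⟨hE hx, hp1 x hx hg⟩
      · exact Or.inr ⟨hE hx, hg⟩
    have h2 : (E.card : ℝ) ≤ (Fm.filter p).card + (Fm.filter fun x => ¬ Gd x).card := by
      exact_mod_cast (card_le_card h1).trans (card_union_le _ _)
    linarith
  have e0 := hcE (fun x => Ev S h (chX h ch x)) E0 (filter_subset _ _)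
    fun x hx hg => hEv x hg (mem_filter.1 hx).2
  have e1 := hcE (fun x => Od S h (chX h ch x)) E1 (filter_subset _ _)
    fun x hx hg => hOd x hg (mem_filter.1 hx).2
  have h1 := abs_le.1 hsum'
  have hF1 : Nat.card {c : {c : G → ZMod 2 // S.HomG c} //
      rd c.1 ≤ n ∧ ∃ v ∈ M', c.1 (S.sg v.1) = 0} = Fm.card := by
    rw [card_O hp hR (hfin := hX.fin) (fun c => ∃ v ∈ M', c (S.sg v.1) = 0)]
  have hF2 : ∀ p : (G → ZMod 2) → Prop, Nat.card {c : {c : G → ZMod 2 // S.HomG c} //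
      rd c.1 ≤ n ∧ (∃ v ∈ M', c.1 (S.sg v.1) = 0) ∧ p c.1} =
      (Fm.filter fun x => p (chX h ch x)).card := by
    intro p
    rw [card_O hp hR (hfin := hX.fin) (fun c => (∃ v ∈ M', c (S.sg v.1) = 0) ∧ p c)]
    congr 1
    ext x
    rw [mem_filter, hFm, mem_FO hp hR, mem_FO hp hR, and_assoc]
  rw [hF1, hF2 (fun c => Ev S h c), hF2 (fun c => Od S h c)]
  constructor
  · linarith
  · linarith

end Pool.Agent.SmN.Half
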