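import Mathlib

/-!
# SMITH-U (SmN), final layer: the elliptic curves with a given `j`-invariant

`crvJ j d`: the curve `y ^ 2 = x ^ 3 + 3 j (1728 - j) d ^ 2 x + 2 j (1728 - j) ^ 2 d ^ 3`.
For `6 ≠ 0`, `j ≠ 0, 1728` and `d ≠ 0` these are the elliptic curves with invariant `j`, and `d` is
determined up to squares by the isomorphism class: the curves with invariant `j` form a principal
homogeneous space under `Kˣ / Kˣ ^ 2`.
-/

set_option autoImplicit false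

namespace Pool.Agent.SmN.Fnl

open WeierstrassCurve

variable {K : Type*} [Field K]

/-- The curve `y ^ 2 = x ^ 3 + 3 j (1728 - j) d ^ 2 x + 2 j (1728 - j) ^ 2 d ^ 3`. -/
def crvJ (j d : K) : WeierstrassCurve K :=
  ⟨0, 0, 0, 3 * j * (1728 - j) * d ^ 2, 2 * j * (1728 - j) ^ 2 * d ^ 3⟩

private theorem two_ne_of_six (h6 : (6 : K) ≠ 0) : (2 : K) ≠ 0 := by
  intro h
  apply h6
  have : (6 : K) = 2 * 3 := by norm_num
  rw [this, h, zero_mul]

private theorem three_ne_of_six (h6 : (6 : K) ≠ 0) : (3 : K) ≠ 0 := by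
  intro h
  apply h6
  have : (6 : K) = 2 * 3 := by norm_num
  rw [this, h, mul_zero]

theorem crvJ_c₄ (j d : K) : (crvJ j d).c₄ = 2 ^ 4 * 3 ^ 2 * (j * (j - 1728)) * d ^ 2 := by
  simp only [crvJ, WeierstrassCurve.c₄, WeierstrassCurve.b₂, WeierstrassCurve.b₄]
  ring

theorem crvJ_Δ (j d : K) : (crvJ j d).Δ = 2 ^ 12 * 3 ^ 6 * (j ^ 2 * (j - 1728) ^ 3 * d ^ 6) := by
  simp only [crvJ, WeierstrassCurve.Δ, WeierstrassCurve.b₂, WeierstrassCurve.b₄,
    WeierstrassCurve.b₆, WeierstrassCurve.b₈]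
  ring

theorem crvJ_Δ_ne (h6 : (6 : K) ≠ 0) {j d : K} (hj : j ≠ 0) (hj' : j ≠ 1728) (hd : d ≠ 0) :
    (crvJ j d).Δ ≠ 0 := by
  rw [crvJ_Δ]
  have h2 := two_ne_of_six h6
  have h3 := three_ne_of_six h6
  have h4 : j - 1728 ≠ 0 := sub_ne_zero.2 hj'
  positivity

/-- The curve `crvJ j d` is elliptic. -/
theorem crvJ_elliptic (h6 : (6 : K) ≠ 0) {j d : K} (hj : j ≠ 0) (hj' : j ≠ 1728) (hd : d ≠ 0) :
    (crvJ j d).IsElliptic :=
  ⟨(crvJ_Δ_ne h6 hj hj' hd).isUnit⟩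

/-- The curve `crvJ j d` has invariant `j`. -/
theorem crvJ_j (h6 : (6 : K) ≠ 0) {j d : K} (hj : j ≠ 0) (hj' : j ≠ 1728) (hd : d ≠ 0)
    [(crvJ j d).IsElliptic] : (crvJ j d).j = j := by
  have h2 := two_ne_of_six h6
  have h3 := three_ne_of_six h6
  have h4 : j - 1728 ≠ 0 := sub_ne_zero.2 hj'
  rw [WeierstrassCurve.j, Units.val_inv_eq_inv_val, WeierstrassCurve.coe_Δ', crvJ_Δ, crvJ_c₄]
  field_simp

/-- The invariant of a short Weierstrass equation, cleared of denominators. -/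
theorem j_short (W : WeierstrassCurve K) [W.IsElliptic] [W.IsShortNF] :
    W.j * (4 * W.a₄ ^ 3 + 27 * W.a₆ ^ 2) = 6912 * W.a₄ ^ 3 ∧ 4 * W.a₄ ^ 3 + 27 * W.a₆ ^ 2 ≠ 0 := by
  have h1 : W.Δ ≠ 0 := W.isUnit_Δ.ne_zero
  rw [W.Δ_of_isShortNF] at h1
  have h2 : 4 * W.a₄ ^ 3 + 27 * W.a₆ ^ 2 ≠ 0 := fun h => h1 (by rw [h, mul_zero])
  refine ⟨?_, h2⟩
  rw [W.j_of_isShortNF, div_mul_cancel₀ _ h2]

/-- Every elliptic curve with invariant different from `0` and `1728` is one of the `crvJ`. -/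
theorem exists_crvJ (h6 : (6 : K) ≠ 0) (W : WeierstrassCurve K) [W.IsElliptic] (hj : W.j ≠ 0)
    (hj' : W.j ≠ 1728) : ∃ d : K, d ≠ 0 ∧ ∃ C : VariableChange K, C • W = crvJ W.j d := by
  have h2 := two_ne_of_six h6
  have h3 := three_ne_of_six h6
  have : Invertible (2 : K) := invertibleOfNonzero h2
  have : Invertible (3 : K) := invertibleOfNonzero h3
  obtain ⟨C, hC⟩ := W.exists_variableChange_isShortNF
  have := hC
  set V := C • W with hV
  obtain ⟨e1, e2⟩ := j_short V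
  have hVj : V.j = W.j := W.variableChange_j C
  rw [hVj] at e1
  set j := W.j with hjd
  set A := V.a₄ with hA
  set B := V.a₆ with hB
  have hA0 : A ≠ 0 := by
    intro h
    rw [h] at e1 e2
    have h4 : j * (4 * (0 : K) ^ 3 + 27 * B ^ 2) = 0 := by rw [e1]; ring
    rcases mul_eq_zero.1 h4 with h5 | h5
    · exact hj h5
    · exact e2 h5
  have hj4 : 1728 - j ≠ 0 := sub_ne_zero.2 (Ne.symm hj')
  have e3 : (1728 - j) * (4 * A ^ 3 + 27 * B ^ 2) = 1728 * 27 * B ^ 2 := by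
    rw [sub_mul, e1]
    ring
  have hB0 : B ≠ 0 := by
    intro h
    rw [h] at e3 e2
    have h4 : (1728 - j) * (4 * A ^ 3 + 27 * (0 : K) ^ 2) = 0 := by rw [e3]; ring
    rcases mul_eq_zero.1 h4 with h5 | h5
    · exact hj4 h5
    · exact e2 h5
  -- `27 j B ^ 2 = 4 (1728 - j) A ^ 3`
  have e4 : 27 * j * B ^ 2 = 4 * (1728 - j) * A ^ 3 := by
    linear_combination e1
  refine ⟨3 * B / (2 * A * (1728 - j)), by positivity, C, ?_⟩
  have k1 : V.a₁ = 0 := V.a₁_of_isShortNF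
  have k2 : V.a₂ = 0 := V.a₂_of_isShortNF
  have k3 : V.a₃ = 0 := V.a₃_of_isShortNF
  refine WeierstrassCurve.ext k1 k2 k3 ?_ ?_
  · change A = 3 * j * (1728 - j) * (3 * B / (2 * A * (1728 - j))) ^ 2
    rw [div_pow, mul_div_assoc', eq_div_iff (by positivity)]
    linear_combination (-(1728 - j)) * e4
  · change B = 2 * j * (1728 - j) ^ 2 * (3 * B / (2 * A * (1728 - j))) ^ 3
    rw [div_pow, mul_div_assoc', eq_div_iff (by positivity)]
    linear_combination (-2 * B * (1728 - j) ^ 2) * e4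

/-- The square classes: `crvJ j d` and `crvJ j d'` are isomorphic exactly if `d / d'` is a
square. -/
theorem crvJ_iso (h6 : (6 : K) ≠ 0) {j d d' : K} (hj : j ≠ 0) (hj' : j ≠ 1728) (hd : d ≠ 0)
    (hd' : d' ≠ 0) :
    (∃ C : VariableChange K, C • crvJ j d = crvJ j d') ↔ IsSquare (d / d') := by
  have h2 := two_ne_of_six h6
  have h3 := three_ne_of_six h6
  have h4 : 1728 - j ≠ 0 := sub_ne_zero.2 (Ne.symm hj')
  constructor
  · rintro ⟨C, hC⟩
    have hu : (C.u⁻¹ : Kˣ) ≠ (0 : K) := (C.u⁻¹).ne_zero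
    have e1 : (C • crvJ j d).a₁ = 0 := by rw [hC]; rfl
    have e2 : (C • crvJ j d).a₂ = 0 := by rw [hC]; rfl
    have e3 : (C • crvJ j d).a₃ = 0 := by rw [hC]; rfl
    have e4 : (C • crvJ j d).a₄ = 3 * j * (1728 - j) * d' ^ 2 := by rw [hC]; rfl
    have e6 : (C • crvJ j d).a₆ = 2 * j * (1728 - j) ^ 2 * d' ^ 3 := by rw [hC]; rfl
    rw [variableChange_a₁] at e1
    have hs : C.s = 0 := by
      have := (mul_eq_zero.1 e1).resolve_left hu
      change (0 : K) + 2 * C.s = 0 at this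
      rw [zero_add] at this
      exact (mul_eq_zero.1 this).resolve_left h2
    rw [variableChange_a₂, hs] at e2
    have hr : C.r = 0 := by
      have := (mul_eq_zero.1 e2).resolve_left (pow_ne_zero 2 hu)
      change (0 : K) - 0 * 0 + 3 * C.r - 0 ^ 2 = 0 at this
      have h5 : 3 * C.r = 0 := by linear_combination this
      exact (mul_eq_zero.1 h5).resolve_left h3
    rw [variableChange_a₃, hr] at e3
    have ht : C.t = 0 := by
      have := (mul_eq_zero.1 e3).resolve_left (pow_ne_zero 3 hu)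
      change (0 : K) + 0 * 0 + 2 * C.t = 0 at this
      have h5 : 2 * C.t = 0 := by linear_combination this
      exact (mul_eq_zero.1 h5).resolve_left h2
    rw [variableChange_a₄, hs, hr, ht] at e4
    rw [variableChange_a₆, hr, ht] at e6
    change ((C.u⁻¹ : Kˣ) : K) ^ 4 * (3 * j * (1728 - j) * d ^ 2 - 0 * 0 + 2 * 0 * 0 -
      (0 + 0 * 0) * 0 + 3 * 0 ^ 2 - 2 * 0 * 0) = _ at e4
    change ((C.u⁻¹ : Kˣ) : K) ^ 6 * (2 * j * (1728 - j) ^ 2 * d ^ 3 +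
      0 * (3 * j * (1728 - j) * d ^ 2) + 0 ^ 2 * 0 + 0 ^ 3 - 0 * 0 - 0 ^ 2 - 0 * 0 * 0) = _ at e6
    set v : K := ((C.u⁻¹ : Kˣ) : K) with hv
    have f4 : v ^ 4 * d ^ 2 = d' ^ 2 := by
      have : (3 * j * (1728 - j)) * (v ^ 4 * d ^ 2) = (3 * j * (1728 - j)) * d' ^ 2 := by
        linear_combination e4
      exact mul_left_cancel₀ (by positivity) this
    have f6 : v ^ 6 * d ^ 3 = d' ^ 3 := by
      have : (2 * j * (1728 - j) ^ 2) * (v ^ 6 * d ^ 3) = (2 * j * (1728 - j) ^ 2) * d' ^ 3 := by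
        linear_combination e6
      exact mul_left_cancel₀ (by positivity) this
    have f2 : v ^ 2 * d = d' := by
      have : d' ^ 2 * (v ^ 2 * d) = d' ^ 2 * d' := by
        linear_combination f6 - v ^ 2 * d * f4
      exact mul_left_cancel₀ (by positivity) this
    refine ⟨v⁻¹, ?_⟩
    rw [← f2]
    field_simp
  · rintro ⟨s, hs⟩
    have hs0 : s ≠ 0 := by
      intro h
      rw [h, mul_zero, div_eq_zero_iff] at hs
      exact hs.elim hd hd'
    have hd2 : d = s * s * d' := by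
      rw [← hs, div_mul_cancel₀ _ hd']
    refine ⟨⟨Units.mk0 s hs0, 0, 0, 0⟩, ?_⟩
    have hv : (((Units.mk0 s hs0)⁻¹ : Kˣ) : K) = s⁻¹ := rfl
    rw [variableChange_def]
    simp only [crvJ, hv, hd2]
    refine WeierstrassCurve.ext ?_ ?_ ?_ ?_ ?_
    · simp
    · simp
    · simp
    · field_simp
      ring
    · field_simp
      ring

/-- The isomorphism class of an elliptic curve `W` with invariant different from `0`, `1728` is
given by a class modulo squares. -/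
theorem exists_classJ (h6 : (6 : K) ≠ 0) (W : WeierstrassCurve K) [W.IsElliptic] (hj : W.j ≠ 0)
    (hj' : W.j ≠ 1728) : ∃ c : Kˣ ⧸ (powMonoidHom 2 : Kˣ →* Kˣ).range, ∀ d : Kˣ,
      ((d : Kˣ) : Kˣ ⧸ (powMonoidHom 2 : Kˣ →* Kˣ).range) = c ↔
        ∃ C : VariableChange K, C • W = crvJ W.j d := by
  obtain ⟨d₀, hd₀, C₀, hC₀⟩ := exists_crvJ h6 W hj hj'
  refine ⟨((Units.mk0 d₀ hd₀ : Kˣ) : Kˣ ⧸ (powMonoidHom 2 : Kˣ →* Kˣ).range), fun d => ?_⟩
  have h1 : (∃ C : VariableChange K, C • W = crvJ W.j d) ↔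
      ∃ C : VariableChange K, C • crvJ W.j d₀ = crvJ W.j d := by
    constructor
    · rintro ⟨C, hC⟩
      exact ⟨C * C₀⁻¹, by rw [← hC₀, mul_smul, inv_smul_smul, hC]⟩
    · rintro ⟨C, hC⟩
      exact ⟨C * C₀, by rw [mul_smul, hC₀, hC]⟩
  rw [h1, crvJ_iso h6 hj hj' hd₀ d.ne_zero, eq_comm, QuotientGroup.eq]
  constructor
  · rintro ⟨u, hu⟩
    refine ⟨(u : K)⁻¹, ?_⟩
    have h2 : (u : K) ^ 2 = d₀⁻¹ * d := by
      have := congrArg (fun x : Kˣ => (x : K)) hu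
      simpa using this
    rw [← mul_inv, ← sq, h2, mul_inv, inv_inv, div_eq_mul_inv]
  · rintro ⟨s, hs⟩
    have hs0 : s ≠ 0 := by
      intro h
      rw [h, mul_zero, div_eq_zero_iff] at hs
      exact hs.elim hd₀ d.ne_zero
    refine ⟨(Units.mk0 s hs0)⁻¹, ?_⟩
    rw [powMonoidHom_apply]
    apply Units.ext
    have h2 : (s⁻¹) ^ 2 = d₀⁻¹ * (d : K) := by
      rw [inv_pow, sq, ← hs, inv_div, div_eq_mul_inv, mul_comm]
    simpa using h2

theorem exists_unique_class (h6 : (6 : K) ≠ 0) (W : WeierstrassCurve K) [W.IsElliptic]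
    (hj : W.j ≠ 0) (hj' : W.j ≠ 1728) : ∃! c : Kˣ ⧸ (powMonoidHom 2 : Kˣ →* Kˣ).range, ∀ d : Kˣ,
      ((d : Kˣ) : Kˣ ⧸ (powMonoidHom 2 : Kˣ →* Kˣ).range) = c →
        ∃ C : VariableChange K, C • W = crvJ W.j d := by
  obtain ⟨c, hc⟩ := exists_classJ h6 W hj hj'
  refine ⟨c, fun d hd => (hc d).1 hd, fun c' hc' => ?_⟩
  obtain ⟨d, hd⟩ := QuotientGroup.mk_surjective c'
  rw [← hd]
  exact (hc d).2 (hc' d hd)

/-! ### The 2-division cubic -/

open Polynomial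

/-- The 2-division polynomial of `crvJ j d`. -/
noncomputable def cubJ (j d : K) : K[X] :=
  X ^ 3 + C (3 * j * (1728 - j) * d ^ 2) * X + C (2 * j * (1728 - j) ^ 2 * d ^ 3)

theorem cubJ_eval (j d x : K) : (cubJ j d).eval x =
    x ^ 3 + 3 * j * (1728 - j) * d ^ 2 * x + 2 * j * (1728 - j) ^ 2 * d ^ 3 := by
  simp [cubJ]

theorem cubJ_natDegree (j d : K) : (cubJ j d).natDegree = 3 := by
  rw [cubJ]
  compute_degree!

theorem cubJ_monic (j d : K) : (cubJ j d).Monic := by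
  rw [cubJ]
  monicity!

theorem cubJ_root_ne {j d : K} (hd : d ≠ 0)
    (hr : ∀ x : K, x ^ 3 + 3 * j * (1728 - j) * x + 2 * j * (1728 - j) ^ 2 ≠ 0) (x : K) :
    x ^ 3 + 3 * j * (1728 - j) * d ^ 2 * x + 2 * j * (1728 - j) ^ 2 * d ^ 3 ≠ 0 := by
  intro h
  apply hr (x / d)
  have h1 : d ^ 3 * ((x / d) ^ 3 + 3 * j * (1728 - j) * (x / d) + 2 * j * (1728 - j) ^ 2) =
      x ^ 3 + 3 * j * (1728 - j) * d ^ 2 * x + 2 * j * (1728 - j) ^ 2 * d ^ 3 := by
    field_simp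
  rw [h] at h1
  exact (mul_eq_zero.1 h1).resolve_left (pow_ne_zero 3 hd)

/-- The 2-division polynomial of `crvJ j d` is irreducible. -/
theorem cubJ_irreducible {j d : K} (hd : d ≠ 0)
    (hr : ∀ x : K, x ^ 3 + 3 * j * (1728 - j) * x + 2 * j * (1728 - j) ^ 2 ≠ 0) :
    Irreducible (cubJ j d) := by
  rw [(cubJ_monic j d).irreducible_iff_roots_eq_zero_of_degree_le_three
    (by rw [cubJ_natDegree]; norm_num) (by rw [cubJ_natDegree])]
  rw [Multiset.eq_zero_iff_forall_notMem]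
  intro x hx
  have h1 := (mem_roots (cubJ_monic j d).ne_zero).1 hx
  rw [IsRoot.def, cubJ_eval] at h1
  exact cubJ_root_ne hd hr x h1

/-- The discriminant of the 2-division polynomial of `crvJ j d`. -/
theorem cubJ_disc (j d : K) :
    -4 * (3 * j * (1728 - j) * d ^ 2) ^ 3 - 27 * (2 * j * (1728 - j) ^ 2 * d ^ 3) ^ 2 =
      d ^ 6 * 2 ^ 8 * 3 ^ 6 * j ^ 2 * (j - 1728) ^ 3 := by
  ring

/-- The discriminant of the 2-division polynomial of `crvJ j d` is no square. -/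
theorem cubJ_disc_not_square (h6 : (6 : K) ≠ 0) {j d : K} (hj : j ≠ 0) (hj' : j ≠ 1728)
    (hd : d ≠ 0) (hs : ∀ s : K, s ^ 2 ≠ j - 1728) :
    ¬ IsSquare (-4 * (3 * j * (1728 - j) * d ^ 2) ^ 3 -
      27 * (2 * j * (1728 - j) ^ 2 * d ^ 3) ^ 2) := by
  have h2 := two_ne_of_six h6
  have h3 := three_ne_of_six h6
  have h4 : j - 1728 ≠ 0 := sub_ne_zero.2 hj'
  rw [cubJ_disc]
  rintro ⟨t, ht⟩
  apply hs (t / (d ^ 3 * 2 ^ 4 * 3 ^ 3 * j * (j - 1728)))
  rw [div_pow, sq t, ← ht, div_eq_iff (by positivity)]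
  ring

/-- The discriminant of `crvJ j d` is no square. -/
theorem crvJ_Δ_not_square (h6 : (6 : K) ≠ 0) {j d : K} (hj : j ≠ 0) (hj' : j ≠ 1728)
    (hd : d ≠ 0) (hs : ∀ s : K, s ^ 2 ≠ j - 1728) : ¬ IsSquare (crvJ j d).Δ := by
  have h2 := two_ne_of_six h6
  have h3 := three_ne_of_six h6
  have h4 : j - 1728 ≠ 0 := sub_ne_zero.2 hj'
  rw [crvJ_Δ]
  rintro ⟨t, ht⟩
  apply hs (t / (2 ^ 6 * 3 ^ 3 * (j * (j - 1728) * d ^ 3)))
  rw [div_pow, sq t, ← ht, div_eq_iff (by positivity)]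
  ring

end Pool.Agent.SmN.Fnl
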