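import Pool.Agent.Lib.SmN.Fin.FinP

/-!
# SMITH-U (SmN), final layer: the places of multiplicative reduction of `y ^ 2 = x ^ 3 + A x + B`
-/

set_option autoImplicit false

open Polynomial

namespace Pool.Agent.SmN.Fnl

open Pool.Agent.BSDFF (Place)

/-- `A`, `B` integral at `v`, `A` a unit and `4 A ^ 3 + 27 B ^ 2` not a unit: the reduction of
`x ^ 3 + A x + B` has a double root and a simple root. -/
theorem nodeAt_short {k K : Type} [Field k] [Field K] [Algebra k K] (v : Place k K)
    (h6 : (6 : k) ≠ 0) {A B : K} (hA : v.ring.valuation A = 1) (hB : B ∈ v.ring)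
    (hd : v.ring.valuation (4 * A ^ 3 + 27 * B ^ 2) < 1) :
    NodeAt v (X ^ 3 + C A * X + C B : K[X]) := by
  have hA' : A ∈ v.ring := (v.ring.valuation_le_one_iff A).1 hA.le
  set a : IsLocalRing.ResidueField v.ring := IsLocalRing.residue v.ring ⟨A, hA'⟩ with ha
  set b : IsLocalRing.ResidueField v.ring := IsLocalRing.residue v.ring ⟨B, hB⟩ with hb
  have h6r : (6 : IsLocalRing.ResidueField v.ring) ≠ 0 := by
    intro h
    apply h6
    apply v.constMap.injective
    rw [map_ofNat, h, map_zero]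
  have h2 : (2 : IsLocalRing.ResidueField v.ring) ≠ 0 := by
    intro h
    apply h6r
    have : (6 : IsLocalRing.ResidueField v.ring) = 2 * 3 := by norm_num
    rw [this, h, zero_mul]
  have h3 : (3 : IsLocalRing.ResidueField v.ring) ≠ 0 := by
    intro h
    apply h6r
    have : (6 : IsLocalRing.ResidueField v.ring) = 2 * 3 := by norm_num
    rw [this, h, mul_zero]
  have ha0 : a ≠ 0 := by
    rw [ha, Ne, IsLocalRing.residue_eq_zero_iff, IsLocalRing.mem_maximalIdeal, mem_nonunits_iff,
      not_not]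
    exact (v.ring.valuation_eq_one_iff ⟨A, hA'⟩).2 hA
  have hab : 4 * a ^ 3 + 27 * b ^ 2 = 0 := by
    have h4 : (4 * a ^ 3 + 27 * b ^ 2) =
        IsLocalRing.residue v.ring (4 * ⟨A, hA'⟩ ^ 3 + 27 * ⟨B, hB⟩ ^ 2) := by
      rw [map_add, map_mul, map_mul, map_pow, map_pow, map_ofNat, map_ofNat]
    rw [h4, IsLocalRing.residue_eq_zero_iff]
    exact (v.ring.valuation_lt_one_iff _).2 hd
  set c : IsLocalRing.ResidueField v.ring := -3 * b / (2 * a) with hc
  have ea : a = -3 * c ^ 2 := by
    rw [hc, div_pow, mul_div_assoc', eq_div_iff (by positivity)]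
    linear_combination hab
  have e1 : c * (2 * a) = -3 * b := by
    rw [hc, div_mul_cancel₀]
    exact mul_ne_zero h2 ha0
  clear_value c
  have eb : b = 2 * c ^ 3 := by
    have e2 : 3 * b = 3 * (2 * c ^ 3) := by
      rw [ea] at e1
      linear_combination e1
    exact mul_left_cancel₀ h3 e2
  have hc0 : c ≠ 0 := by
    intro h
    apply ha0
    rw [ea, h]
    ring
  refine ⟨X ^ 3 + C ⟨A, hA'⟩ * X + C ⟨B, hB⟩, X - C (-2 * c), c, ?_, ?_, separable_X_sub_C, ?_⟩
  · rw [Polynomial.map_add, Polynomial.map_add, Polynomial.map_pow, Polynomial.map_mul, map_X,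
      map_C, map_C]
    rfl
  · rw [Polynomial.map_add, Polynomial.map_add, Polynomial.map_pow, Polynomial.map_mul, map_X,
      map_C, map_C, ← ha, ← hb, ea, eb]
    simp only [map_mul, map_neg, map_pow, map_ofNat]
    ring
  · rw [eval_sub, eval_X, eval_C]
    have : c - -2 * c = 3 * c := by ring
    rw [this]
    exact mul_ne_zero h3 hc0

end Pool.Agent.SmN.Fnl
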