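import Pool.Agent.Lib.SmN.Fin.HalfO

/-!
# SMITH-U (SmN), final layer: the bound for the bad characters in other orderings

`small_ord`: if the share of the bad characters tends to zero in one ordering with `OrdOk`, then it
does in every other one (with the same `T`).
-/

set_option autoImplicit false

open Finset

namespace Pool.Agent.SmN.Half

open Pool.Agent.SmN.Ch Pool.Agent.Sm Pool.Agent.SmN.Fnl

variable {G V V1 Pl : Type} [Group G] [AddCommGroup V] [DistribMulAction G V]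
  [AddCommGroup V1] [Module (ZMod 2) V1] {S : Sys G V V1 Pl} {T : Finset Pl}
  {deg : Pl → ℕ} {ch : (XX (T : Set Pl) deg).Pr → G → ZMod 2}
  {rd rd' : (G → ZMod 2) → ℕ} {W W' : (T → ZMod 2) → ℕ} {τ τ' : ℕ}

/-- The bad characters in another ordering. -/
theorem bad_ord (h : S.Ok) (hF : LagF S (T : Set Pl))
    (hp : PrOk S T (XX (T : Set Pl) deg) Subtype.val ch) (hR : OrdOk h T deg rd W τ)
    (hR' : OrdOk h T deg rd' W' τ') {q : ℕ} (hX : (XX (T : Set Pl) deg).Ok q) :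
    ∃ K : ℝ, 0 < K ∧ ∃ n₀ : ℕ, ∀ (Bad : (G → ZMod 2) → Prop) (ε : ℝ), 0 ≤ ε → ∀ n ≥ n₀,
      (Nat.card {c : {c : G → ZMod 2 // S.HomG c} // rd c.1 ≤ n + τ ∧ Bad c.1} : ℝ) ≤
        ε * Nat.card {c : {c : G → ZMod 2 // S.HomG c} // rd c.1 ≤ n + τ} →
      (Nat.card {c : {c : G → ZMod 2 // S.HomG c} // rd' c.1 ≤ n ∧ Bad c.1} : ℝ) ≤
        K * ε * Nat.card {c : {c : G → ZMod 2 // S.HomG c} // rd' c.1 ≤ n} := by
  classical
  obtain ⟨c₁, C, n₁, hG⟩ := growth_of hX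
  have hc₁ := hG.pos
  have hq2 : (2 : ℝ) ≤ q := by exact_mod_cast hX.two_le
  set A : ℝ := (Nat.card (XG S T h) : ℝ) * (2 * |C|) with hA
  have hA0 : 0 ≤ A := by positivity
  refine ⟨(A + 1) * (q : ℝ) ^ τ * (q : ℝ) ^ τ' / c₁, by positivity, n₁ + τ',
    fun Bad ε hε n hn hb => ?_⟩
  have hfin := finite_O h hF hp hR hX (n + τ)
  have h1 : Nat.card {c : {c : G → ZMod 2 // S.HomG c} // rd' c.1 ≤ n ∧ Bad c.1} ≤
      Nat.card {c : {c : G → ZMod 2 // S.HomG c} // rd c.1 ≤ n + τ ∧ Bad c.1} := by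
    have h2 : Finite {c : {c : G → ZMod 2 // S.HomG c} // rd c.1 ≤ n + τ ∧ Bad c.1} :=
      Finite.of_injective (β := {c : {c : G → ZMod 2 // S.HomG c} // rd c.1 ≤ n + τ})
        (fun c => ⟨c.1, c.2.1⟩) fun c c' hc => Subtype.ext (congrArg
          (fun x : {c : {c : G → ZMod 2 // S.HomG c} // rd c.1 ≤ n + τ} => x.1) hc)
    refine Nat.card_le_card_of_injective (fun c => ⟨c.1, ?_, c.2.2⟩) fun c c' hc => Subtype.ext
      (congrArg (fun x : {c : {c : G → ZMod 2 // S.HomG c} // rd c.1 ≤ n + τ ∧ Bad c.1} => x.1) hc)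
    have h3 := hR.up c.1
    have h4 := hR'.ge c.1
    have h5 := c.2.1
    omega
  have h2 := card_le_O h hF hp hR hX hG (n + τ)
  have h3 := card_all_ge h hF hp hR' hX hG (n := n) (by omega)
  have h4 : (q : ℝ) ^ n ≤ (q : ℝ) ^ τ' / c₁ *
      Nat.card {c : {c : G → ZMod 2 // S.HomG c} // rd' c.1 ≤ n} := by
    calc (q : ℝ) ^ n = (q : ℝ) ^ τ' / c₁ * (c₁ / (q : ℝ) ^ τ' * (q : ℝ) ^ n) := by
          field_simp
      _ ≤ _ := mul_le_mul_of_nonneg_left h3 (by positivity)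
  calc (Nat.card {c : {c : G → ZMod 2 // S.HomG c} // rd' c.1 ≤ n ∧ Bad c.1} : ℝ)
      ≤ Nat.card {c : {c : G → ZMod 2 // S.HomG c} // rd c.1 ≤ n + τ ∧ Bad c.1} := by
        exact_mod_cast h1
    _ ≤ ε * Nat.card {c : {c : G → ZMod 2 // S.HomG c} // rd c.1 ≤ n + τ} := hb
    _ ≤ ε * ((A + 1) * (q : ℝ) ^ (n + τ)) := by
        refine mul_le_mul_of_nonneg_left (h2.trans ?_) hε
        rw [← hA]
        exact mul_le_mul_of_nonneg_right (by linarith) (by positivity)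
    _ = ε * (A + 1) * (q : ℝ) ^ τ * (q : ℝ) ^ n := by
        rw [pow_add]
        ring
    _ ≤ ε * (A + 1) * (q : ℝ) ^ τ * ((q : ℝ) ^ τ' / c₁ *
          Nat.card {c : {c : G → ZMod 2 // S.HomG c} // rd' c.1 ≤ n}) :=
        mul_le_mul_of_nonneg_left h4 (by positivity)
    _ = _ := by ring

/-- The bound for the bad characters in one ordering gives the bound in every ordering. -/
theorem small_ord (h : S.Ok) (hF : LagF S (T : Set Pl))
    (hp : PrOk S T (XX (T : Set Pl) deg) Subtype.val ch) (hR : OrdOk h T deg rd W τ)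
    (hR' : OrdOk h T deg rd' W' τ') {q : ℕ} (hX : (XX (T : Set Pl) deg).Ok q)
    (hL : ∀ ε : ℝ, 0 < ε → ∃ m₁ : ℕ, ∀ m ≥ m₁, ∃ n₀ : ℕ, ∀ n ≥ n₀,
      (Nat.card {c : {c : G → ZMod 2 // S.HomG c} // rd c.1 ≤ n ∧ ¬ SmallS S m c.1} : ℝ) ≤
        ε * Nat.card {c : {c : G → ZMod 2 // S.HomG c} // rd c.1 ≤ n}) :
    ∀ ε : ℝ, 0 < ε → ∃ m₁ : ℕ, ∀ m ≥ m₁, ∃ n₀ : ℕ, ∀ n ≥ n₀,
      (Nat.card {c : {c : G → ZMod 2 // S.HomG c} // rd' c.1 ≤ n ∧ ¬ SmallS S m c.1} : ℝ) ≤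
        ε * Nat.card {c : {c : G → ZMod 2 // S.HomG c} // rd' c.1 ≤ n} := by
  intro ε hε
  obtain ⟨K, hK, n₁, h1⟩ := bad_ord h hF hp hR hR' hX
  obtain ⟨m₁, hm₁⟩ := hL (ε / K) (by positivity)
  refine ⟨m₁, fun m hm => ?_⟩
  obtain ⟨n₀, hn₀⟩ := hm₁ m hm
  refine ⟨max n₀ n₁, fun n hn => ?_⟩
  have h2 := h1 (fun c => ¬ SmallS S m c) (ε / K) (by positivity) n ((le_max_right _ _).trans hn)
    (hn₀ (n + τ) (((le_max_left _ _).trans hn).trans (Nat.le_add_right _ _)))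
  rwa [mul_div_cancel₀ _ hK.ne'] at h2

/-- The ramification degree and the degree of the symmetric difference. -/
theorem small_rdegO (h : S.Ok) (hF : LagF S (T : Set Pl))
    (hp : PrOk S T (XX (T : Set Pl) deg) Subtype.val ch) {O : Set Pl} (hO : O ⊆ (T : Set Pl))
    {q : ℕ} (hX : (XX (T : Set Pl) deg).Ok q)
    (hL : ∀ ε : ℝ, 0 < ε → ∃ m₁ : ℕ, ∀ m ≥ m₁, ∃ n₀ : ℕ, ∀ n ≥ n₀,
      (Nat.card {c : {c : G → ZMod 2 // S.HomG c} //
        rdeg S deg c.1 ≤ n ∧ ¬ SmallS S m c.1} : ℝ) ≤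
        ε * Nat.card {c : {c : G → ZMod 2 // S.HomG c} // rdeg S deg c.1 ≤ n}) :
    ∀ ε : ℝ, 0 < ε → ∃ m₁ : ℕ, ∀ m ≥ m₁, ∃ n₀ : ℕ, ∀ n ≥ n₀,
      (Nat.card {c : {c : G → ZMod 2 // S.HomG c} //
        rdegO S deg O c.1 ≤ n ∧ ¬ SmallS S m c.1} : ℝ) ≤
        ε * Nat.card {c : {c : G → ZMod 2 // S.HomG c} // rdegO S deg O c.1 ≤ n} :=
  small_ord h hF hp (ordOk_rdeg h) (ordOk_rdegO h hO) hX hL

end Pool.Agent.SmN.Half
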