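import Pool.Agent.Lib.SmN.Fin.BrgN
import Pool.Agent.Lib.SmN.Fin.CorC
import Pool.Agent.Lib.SmN.Fin.Rts
import Pool.Agent.Lib.SmN.Fin.Tot
import Pool.Agent.Lib.SmN.Fin.Const
import Pool.Agent.Lib.SmN.P.Half2
import Pool.Agent.Lib.SmNJ.E6N
import Pool.Agent.Lib.SmNJ.AOkInst
import Pool.Agent.Lib.SmNJ.SysT
import Pool.Agent.Lib.SmJ.L.GalAct
import Pool.Agent.Lib.SmJ.L.AsmAbs
import Pool.Agent.Lib.SmJ.E.FinLoc

/-!
# SMITH-U (SmN), final layer: the Jacobian of the quadratic twist `y ^ 2 = (f.scaleRoots d)(x)` from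
the Selmer cocycles of the instance `sysT`
-/

set_option autoImplicit false

open Polynomial Pool.Agent.BSDFF Pool.Agent.BSDFF.MW

namespace Pool.Agent.SmN.Fnl

open Pool.Agent.SmJ Pool.Agent.SmNJ Pool.Agent.GBU
open Pool.Agent.SmJ.L (EV ZSel Sel Sha2 GMod HasCorank E6Prop mulEquiv_mk0)
open Pool.Agent.SmJ.R (OddDeg Jc JP jcMap galP map_gal GoodP ZeroP OneP goodOn_iff zeroOn_iff)
open Pool.Agent.Lib.SmD (chi below)

section tw

variable {Om : Type} [Field Om] {g : ℕ}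

/-- Galois action on the coordinate rings, `σ δ = -δ`, roots permuted. -/
theorem twCo_neg {a : Fin (2 * g + 1) → Om} (σ : Om ≃+* Om)
    (ha : (ff a).map (σ : Om →+* Om) = ff a)
    {D δ : Om} (h : δ ^ 2 = D) (hδ : δ ≠ 0) (hσ : σ δ = -δ)
    (hb : (ff fun i => D * a i).map (σ : Om →+* Om) = ff fun i => D * a i) (z : Co (ff a)) :
    coMap σ hb (twCo a h hδ z) = twCo a h hδ (starCo (ff a) (coMap σ ha z)) := by
  have hD : σ D = D := by rw [← h, map_pow, hσ, neg_sq]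
  have hD' : (σ : Om →+* Om) D⁻¹ = D⁻¹ := by
    rw [map_inv₀]
    congr 1
  have hc : ∀ p : Om[X], (p.comp (C D⁻¹ * X)).map (σ : Om →+* Om) =
      (p.map (σ : Om →+* Om)).comp (C D⁻¹ * X) := fun p => by
    rw [Polynomial.map_comp, Polynomial.map_mul, map_X, map_C, hD']
  have h1 : (σ : Om →+* Om) (δ ^ (2 * g + 1))⁻¹ = -(δ ^ (2 * g + 1))⁻¹ := by
    have h2 : (σ : Om →+* Om) δ = -δ := hσ
    rw [map_inv₀, map_pow, h2, Odd.neg_pow ⟨g, rfl⟩, inv_neg]
  ext1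
  · rw [coMap_re, twCo_re, twCo_re, starCo_re, coMap_re, hc]
  · rw [coMap_im, twCo_im, twCo_im, starCo_im, coMap_im, Polynomial.map_mul, map_C, h1,
      hc, C_neg, neg_comp]
    ring

variable (a : Fin (2 * g + 1) → Om) [HypA a]

theorem twIso_act_neg (σ : Om ≃+* Om) (ha : (ff a).map (σ : Om →+* Om) = ff a) {D δ : Om}
    [HypA fun i => D * a i] (h : δ ^ 2 = D) (hδ : δ ≠ 0) (hσ : σ δ = -δ)
    (hb : (ff fun i => D * a i).map (σ : Om →+* Om) = ff fun i => D * a i) (Q : JJ (ff a)) :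
    act σ hb (twIso a h hδ Q) = -twIso a h hδ (act σ ha Q) := by
  have h1 : act σ hb (twIso a h hδ Q) =
      twIso a h hδ (jMap (starCo (ff a)) (act σ ha Q)) := by
    rw [twJ_apply, twJ_apply, act, act, jMap_jMap, jMap_jMap, jMap_jMap]
    congr 1
    congr 1
    ext1 z
    exact twCo_neg σ ha h hδ hσ hb z
  rw [h1, jMap_star, map_neg]

variable {K : Type} [Field K] [Algebra K Om]

/-- The Galois action on the Jacobian of the quadratic twist by `D`, `D ∈ K`, roots permuted. -/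
theorem twIso_actN (s : Om ≃ₐ[K] Om) (ha : (ff a).map (s.toRingEquiv : Om →+* Om) = ff a) {D : K}
    {δ : Om} [HypA fun i => algebraMap K Om D * a i]
    (h : δ ^ 2 = algebraMap K Om D) (hδ : δ ≠ 0)
    (hb : (ff fun i => algebraMap K Om D * a i).map (s.toRingEquiv : Om →+* Om) =
      ff fun i => algebraMap K Om D * a i) (Q : JJ (ff a)) :
    act s.toRingEquiv hb (twIso a h hδ Q) =
      sgn (chi K D s) • twIso a h hδ (act s.toRingEquiv ha Q) := by
  have h2 : s δ ^ 2 = δ ^ 2 := by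
    rw [← map_pow, h, s.commutes]
  rcases sq_eq_sq_iff_eq_or_eq_neg.1 h2 with h3 | h3
  · have h4 : chi K D s = 0 := by
      rw [chi, if_pos]
      intro r hr
      rw [← h] at hr
      rcases sq_eq_sq_iff_eq_or_eq_neg.1 hr with rfl | rfl
      · exact h3
      · rw [map_neg, h3]
    rw [h4, sgn, if_pos rfl, one_zsmul]
    exact twIso_act a s.toRingEquiv ha h hδ h3 hb Q
  · have h4 : chi K D s = 1 := by
      rw [chi, if_neg]
      intro hc
      have h5 := hc δ h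
      rw [h3] at h5
      have h6 : (2 : Om) * δ = 0 := by linear_combination -h5
      rcases mul_eq_zero.1 h6 with h7 | h7
      · exact HypA.two a h7
      · exact hδ h7
    rw [h4, sgn, if_neg one_ne_zero, neg_one_zsmul]
    exact twIso_act_neg a s.toRingEquiv ha h hδ h3 hb Q

end tw

section facts

variable {K Ω : Type} [Field K] [Field Ω] [Algebra K Ω] {g : ℕ} {b : Fin (2 * g + 1) → Ω}
  [RtG K b] [HypA b]

variable (K b) in
theorem gModN [Algebra.IsIntegral K Ω] : GMod (gN K b) := ⟨gN_one K b, gN_mul K b, gN_level K b⟩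

omit [RtG K b] in
variable (b) in
theorem card_torsN [IsSepClosed Ω] (i : ℕ) : Nat.card (Gn (JJ (ff b)) (2 ^ i)) = 4 ^ (g * i) := by
  have h1 : Nat.card (Gn (JJ (ff b)) (2 ^ i)) =
      Nat.card {Q : JJ (ff b) // (2 : ℕ) ^ i • Q = 0} :=
    Nat.card_congr ⟨fun Q => ⟨Q.1, mem_Gn.mp Q.2⟩, fun Q => ⟨Q.1, mem_Gn.mpr Q.2⟩,
      fun _ => rfl, fun _ => rfl⟩
  rw [h1, card_tors exists_half, cardN_two, SmJ.L.card_EV, pow_mul]

variable (b) in
theorem act_finJ [IsGalois K Ω] [IsSepClosed Ω] (h2 : (2 : K) ≠ 0)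
    (hn : ((2 * g + 1).factorial : K) ≠ 0) (j : ℕ) :
    ∃ N ∈ NP K Ω, ∀ s ∈ N, ∀ Q : JJ (ff b), (2 : ℕ) ^ j • Q = 0 → gN K b s Q = Q := by
  obtain ⟨N, hN, h⟩ := act_finN (a := b) h2 hn j
  exact ⟨N, hN, fun s hs Q hQ => congrArg Subtype.val (h s hs ⟨Q, j, hQ⟩ (Subtype.ext hQ))⟩

/-- There are no fixed elements of 2-power order. -/
theorem card_ratN [IsSepClosed Ω] (hfix : ∀ w : EV g, (∀ s, acN K b s w = w) → w = 0) (i : ℕ) :
    Nat.card (Gn (SmJ.L.Rat (gN K b)) (2 ^ i)) = 1 := by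
  have key : ∀ (i : ℕ) (P : JJ (ff b)), (∀ s, gN K b s P = P) → (2 : ℕ) ^ i • P = 0 → P = 0 := by
    intro i
    induction i with
    | zero =>
      intro P _ h
      rwa [pow_zero, one_smul] at h
    | succ i ih =>
      intro P hP h
      have h1 : (2 : ℕ) • P = 0 := by
        refine ih _ (fun s => by rw [map_nsmul, hP]) ?_
        rw [← mul_smul, ← pow_succ]
        exact h
      obtain ⟨x, hx⟩ := iotaN_range (a := b) ⟨P, mem_VN_of_two h1⟩ (Subtype.ext h1)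
      have h2 : x = 0 := by
        refine hfix x fun s => ?_
        apply iotaN_injective (a := b)
        rw [← smul_iotaN (K := K) (a := b) s x, hx]
        exact Subtype.ext (hP s)
      rw [h2, map_zero] at hx
      exact (congrArg Subtype.val hx).symm
  rw [Nat.card_eq_one_iff_unique]
  refine ⟨⟨fun x y => ?_⟩, ⟨0⟩⟩
  have h1 : ∀ x : Gn (SmJ.L.Rat (gN K b)) (2 ^ i), x = 0 := by
    intro x
    have h3 : (2 : ℕ) ^ i • x.1 = 0 := mem_Gn.mp x.2
    exact Subtype.ext (Subtype.ext (key i x.1.1 x.1.2 (congrArg Subtype.val h3)))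
  rw [h1 x, h1 y]

end facts

section trans

variable {K : Type} {Ω : Type} [Field K] [Field Ω] [Algebra K Ω] {g : ℕ}

/-- Transport to the curve with the roots `b i`. -/
theorem trans_gN (Φ : (M : Type) → [AddCommGroup M] → ((Ω ≃ₐ[K] Ω) → M →+ M) → Prop)
    (f : K[X]) [OddDeg f] (b : Fin (2 * g + 1) → Ω) [RtG K b] [HypA b]
    (h : ff b = f.map (algebraMap K Ω)) :
    Φ (JP Ω f) (galP Ω f) ↔ Φ (JJ (ff b)) (gN K b) := by
  have key : ∀ (F : Polynomial Ω) (hF : OddDeg F) (hs : ∀ s : Ω ≃ₐ[K] Ω,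
      F.map (s.toRingEquiv : Ω →+* Ω) = F), ff b = F →
      (Φ (Jc F) (fun s => jcMap s.toRingEquiv (hs s)) ↔ Φ (JJ (ff b)) (gN K b)) := by
    rintro F hF hs rfl
    have h1 : gN K b = fun s => jcMap s.toRingEquiv (hs s) := by
      funext s
      refine AddMonoidHom.ext fun Q => ?_
      obtain ⟨I, hI, rfl⟩ := exists_cls Q
      rw [gN, act_cls]
      have h1 := map_ne_bot (coMap s.toRingEquiv (map_ffN K b s)) hI
      rw [cls_of_ne hI, cls_of_ne h1]
      exact (congrArg Additive.ofMul (mulEquiv_mk0 (coMap s.toRingEquiv (map_ffN K b s))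
        ⟨I, mem_nonZeroDivisors_of_ne_zero hI⟩ (mem_nonZeroDivisors_of_ne_zero h1))).symm
    rw [h1]
    exact Iff.rfl
  exact key _ _ (map_gal Ω f) h

end trans

section corank

variable {k K Ω : Type} [Field k] [Field K] [Field Ω] [Algebra k K] [Algebra K Ω]
variable {M : Type} [AddCommGroup M] {ρ : (Ω ≃ₐ[K] Ω) → M →+ M} {g j : ℕ}

theorem corank_zero_of (h : SmJ.L.GoodOn k ρ j)
    (hZ : ∀ i, 1 ≤ i → Nat.card (Sel k ρ (2 ^ i)) * 4 ^ (g * i) = Nat.card (ZSel k ρ (2 ^ i)))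
    (hB : ∃ B : ℕ, ∀ i, Nat.card (ZSel k ρ (2 ^ i)) ≤ B * (4 ^ g) ^ i) : HasCorank k ρ 0 := by
  obtain ⟨r, hr, h1, -⟩ := h.corank
  have hc : r = 0 ∨ r = 1 := by omega
  rcases hc with rfl | rfl
  · exact h1
  · exfalso
    obtain ⟨B', hB'⟩ := h1
    obtain ⟨B, hB⟩ := hB
    have h3 : Nat.card (Sel k ρ (2 ^ (B' * B + 1))) ≤ B := by
      have h4 := hB (B' * B + 1)
      rw [← hZ _ (by omega), ← pow_mul] at h4
      exact Nat.le_of_mul_le_mul_right h4 (by positivity)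
    have h5 := (hB' (B' * B + 1)).2
    rw [one_mul] at h5
    have h6 : 2 ^ (B' * B + 1) ≤ B' * B := h5.trans (Nat.mul_le_mul_left _ h3)
    have h7 : B' * B + 1 < 2 ^ (B' * B + 1) := Nat.lt_two_pow_self
    omega

theorem corank_one_of (h : SmJ.L.GoodOn k ρ j)
    (hZ : ∀ i, 1 ≤ i → Nat.card (Sel k ρ (2 ^ i)) * 4 ^ (g * i) = Nat.card (ZSel k ρ (2 ^ i)))
    (h8 : ∀ i, (2 * 4 ^ g) ^ i ≤ Nat.card (ZSel k ρ (2 ^ i))) : HasCorank k ρ 1 := by
  obtain ⟨r, hr, h1, -⟩ := h.corank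
  have hc : r = 0 ∨ r = 1 := by omega
  rcases hc with rfl | rfl
  · exfalso
    obtain ⟨B', hB'⟩ := h1
    have h3 : 2 ^ (B' + 1) ≤ Nat.card (Sel k ρ (2 ^ (B' + 1))) := by
      have h4 := h8 (B' + 1)
      rw [← hZ _ (by omega), mul_pow, ← pow_mul] at h4
      exact Nat.le_of_mul_le_mul_right h4 (by positivity)
    have h5 := (hB' (B' + 1)).1
    rw [zero_mul, pow_zero, mul_one] at h5
    have h7 : B' + 1 < 2 ^ (B' + 1) := Nat.lt_two_pow_self
    omega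
  · exact h1

end corank

section main

variable {k K Ω : Type} [Field k] [Finite k] [Field K] [Algebra k K] [Algebra (RatFunc k) K]
  [IsScalarTower k (RatFunc k) K] [FiniteDimensional (RatFunc k) K]
  [Algebra.IsSeparable (RatFunc k) K] [Field Ω] [Algebra K Ω] [IsSepClosure K Ω] {g : ℕ}

/-- Every decomposition group of a place of `Ω` is conjugate to one of the chosen ones. -/
theorem conj_dvK (w : ValuationSubring Ω) (hw : w ≠ ⊤) :
    ∃ (v : Place k K) (σ : Ω ≃ₐ[K] Ω), ∀ s ∈ w.decompositionSubgroup K,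
      σ * s * σ⁻¹ ∈ dvK Ω v := by
  obtain ⟨v, hv⟩ := exists_place_below k K w hw
  obtain ⟨σ, hσ⟩ := Pool.Agent.Lib.SmD.conj K w (abK Ω v) (by rw [below_abK]; exact hv.symm)
  refine ⟨v, σ, fun s hs => ?_⟩
  have hs' := (Pool.Agent.Lib.SmD.mem_dec K).mp hs
  refine (Pool.Agent.Lib.SmD.mem_dec K).mpr fun x => ?_
  rw [AlgEquiv.mul_apply, AlgEquiv.mul_apply, hσ, hs', ← hσ, ← AlgEquiv.mul_apply,
    mul_inv_cancel, AlgEquiv.one_apply]

variable {a : Fin (2 * g + 1) → Ω} [RtG K a] [HypA a]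

/-- The facts on the Galois module of the twist by `d`. -/
theorem tw_facts (h2 : (2 : k) ≠ 0) (hn : ((2 * g + 1).factorial : K) ≠ 0)
    (hfix : ∀ w : EV g, (∀ s, acN K a s w = w) → w = 0) {f : K[X]} (hm : f.Monic)
    (ha : ff a = f.map (algebraMap K Ω)) {d : K} (hd : d ≠ 0) [OddDeg (f.scaleRoots d)]
    (T0 : Set (Place k K)) :
    GMod (galP Ω (f.scaleRoots d)) ∧
    (∀ i : ℕ, Nat.card (Gn (JP Ω (f.scaleRoots d)) (2 ^ i)) = 4 ^ (g * i)) ∧
    (∀ i : ℕ, Nat.card (Gn (SmJ.L.Rat (galP Ω (f.scaleRoots d))) (2 ^ i)) = 1) ∧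
    (∀ Q : JP Ω (f.scaleRoots d), ∃ R, (2 : ℕ) • R = Q) ∧
    (∀ i : ℕ, Nonempty (ZSel k (galP Ω (f.scaleRoots d)) (2 ^ i) ≃
      {Psi // (sysT k K Ω a T0).IsSel (chi K d) i Psi})) := by
  have hsc : IsSepClosed Ω := IsSepClosure.sep_closed K
  have hgal : IsGalois K Ω := inferInstance
  have h2K : (2 : K) ≠ 0 := by
    intro h
    apply h2
    apply (algebraMap k K).injective
    rw [map_ofNat, h, map_zero]
  obtain ⟨δ, hδ⟩ := Pool.Agent.SmF.exists_sqrt (K := K) (Ω := Ω) h2K d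
  have hδ0 : δ ≠ 0 := by
    rintro rfl
    rw [zero_pow two_ne_zero] at hδ
    exact hd ((map_eq_zero_iff _ (algebraMap K Ω).injective).mp hδ.symm)
  have hd' : algebraMap K Ω d ≠ 0 := fun h => hd ((map_eq_zero_iff _ (algebraMap K Ω).injective).mp h)
  have hB : HypA fun i => algebraMap K Ω d * a i := HypA.mul hd'
  have hff := ff_scale ha hm d
  have hR : RtG K fun i => algebraMap K Ω d * a i := rtG_of h2K hB.inj hff
  have hpm : pm K (fun i => algebraMap K Ω d * a i) = pm K a := by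
    ext s i
    congr 1
    apply hB.inj
    have h3 := pm_spec K (fun i => algebraMap K Ω d * a i) s i
    beta_reduce at h3 ⊢
    rw [h3, map_mul, s.commutes, pm_spec K a s i]
  refine (trans_gN (fun M _ ρ => GMod ρ ∧ (∀ i : ℕ, Nat.card (Gn M (2 ^ i)) = 4 ^ (g * i)) ∧
    (∀ i : ℕ, Nat.card (Gn (SmJ.L.Rat ρ) (2 ^ i)) = 1) ∧ (∀ Q : M, ∃ R, (2 : ℕ) • R = Q) ∧
    (∀ i : ℕ, Nonempty (ZSel k ρ (2 ^ i) ≃
      {Psi // (sysT k K Ω a T0).IsSel (chi K d) i Psi}))) _ _ hff).2 ⟨gModN K _, card_torsN _,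
        card_ratN ?_, exists_half, fun i => ?_⟩
  · intro w hw
    refine hfix w fun s => ?_
    have h3 := hw s
    rw [acN, hpm] at h3
    exact h3
  · refine zsel_equivN (k := k) (ρ := gN K a) h2K (gModN K _) (twIso a hδ hδ0) (chi K d) (fun s Q => ?_)
      (VN a).subtype Subtype.val_injective (fun Q hQ => ⟨⟨Q, hQ⟩, rfl⟩) (fun s x => rfl)
      (fun j => act_finJ _ h2K hn j) (sysT k K Ω a T0) rfl (fun v => ?_) (fun w hw _ => ?_)
      (E6.e6_gN (k := k) _ h2) i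
    · rw [map_zsmul]
      exact twIso_actN a s (map_ffN K a s) hδ hδ0 _ Q
    · exact ⟨abK Ω v, abK_ne_top Ω v, fun c => mem_of_finite
        ((algebraMap K Ω).comp (algebraMap k K)) _ c, rfl⟩
    · exact conj_dvK w hw

section concl

variable (h2 : (2 : k) ≠ 0) (hn : ((2 * g + 1).factorial : K) ≠ 0)
  (hfix : ∀ w : EV g, (∀ s, acN K a s w = w) → w = 0) {f : K[X]} (hm : f.Monic)
  (ha : ff a = f.map (algebraMap K Ω)) {d : K} (hd : d ≠ 0) [OddDeg (f.scaleRoots d)]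
  {T0 : Set (Place k K)} {j : ℕ}

include h2 hn hfix hm ha hd

/-- The conclusions for the twist by `d`. -/
theorem good_of_small (hj : 1 ≤ j) (h : SmallS (sysT k K Ω a T0) j (chi K d)) :
    SmJ.L.GoodOn k (galP Ω (f.scaleRoots d)) j := by
  obtain ⟨h1, h3, h4, h5, h6⟩ := tw_facts (k := k) h2 hn hfix hm ha hd T0
  obtain ⟨e⟩ := h6 j
  have hfin := h.1
  have hZ : Finite (ZSel k (galP Ω (f.scaleRoots d)) (2 ^ j)) := Finite.of_equiv _ e.symm
  refine goodOn_ofC h1 (g := g) one_pos hj hZ ?_ h3 (fun i _ => h4 i) (E6.exists_pow_half h5)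
  rw [one_mul, Nat.card_congr e]
  refine h.2.trans_le (le_of_eq ?_)
  rw [SmJ.L.card_EV, ← pow_succ', ← pow_mul]

theorem card_sel_tw (i : ℕ) (hi : 1 ≤ i) :
    Nat.card (Sel k (galP Ω (f.scaleRoots d)) (2 ^ i)) * 4 ^ (g * i) =
      Nat.card (ZSel k (galP Ω (f.scaleRoots d)) (2 ^ i)) := by
  obtain ⟨h1, h3, h4, h5, h6⟩ := tw_facts (k := k) h2 hn hfix hm ha hd ∅
  rw [card_sel_zselC h1 h3 (fun i _ => h4 i) i hi, one_mul]

/-- Corank `0`. -/
theorem zero_of_ev (h : SmJ.L.GoodOn k (galP Ω (f.scaleRoots d)) j)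
    (hok : (sysT k K Ω a T0).Ok) (hE : Half.Ev (sysT k K Ω a T0) hok (chi K d)) :
    HasCorank k (galP Ω (f.scaleRoots d)) 0 ∧ Finite (Sha2 k (galP Ω (f.scaleRoots d))) := by
  obtain ⟨h1, h3, h4, h5, h6⟩ := tw_facts (k := k) h2 hn hfix hm ha hd T0
  have h7 : HasCorank k (galP Ω (f.scaleRoots d)) 0 := by
    refine corank_zero_of h (card_sel_tw h2 hn hfix hm ha hd) ?_
    obtain ⟨B, hB⟩ := hE
    refine ⟨B, fun i => ?_⟩
    obtain ⟨e⟩ := h6 i
    rw [Nat.card_congr e, ← SmJ.L.card_EV]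
    exact hB i
  exact ⟨h7, SmJ.L.GoodOn.of_corank_zero h h7⟩

/-- Corank `1`. -/
theorem one_of_od (h : SmJ.L.GoodOn k (galP Ω (f.scaleRoots d)) j)
    (hok : (sysT k K Ω a T0).Ok) (hE : Half.Od (sysT k K Ω a T0) hok (chi K d)) :
    HasCorank k (galP Ω (f.scaleRoots d)) 1 := by
  obtain ⟨h1, h3, h4, h5, h6⟩ := tw_facts (k := k) h2 hn hfix hm ha hd T0
  refine corank_one_of h (card_sel_tw h2 hn hfix hm ha hd) fun i => ?_
  obtain ⟨e⟩ := h6 i
  rw [Nat.card_congr e, ← SmJ.L.card_EV]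
  exact hE.1 i

end concl

end main

end Pool.Agent.SmN.Fnl
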